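import Pool.Agent.MP_f65396_co.h81n.SpecA
import Pool.Agent.MP_f65396_co.h32n.AsmR

/-! From the stars of every colour to the decomposition. -/

set_option autoImplicit false

namespace Pool.Agent.MP_f65396_co.h81n

open Finset

theorem asm : AsmS := by
  intro V _ G n K ct lf hE h1 h2 h3 h4 h5
  rcases Nat.eq_zero_or_pos K with e | e
  · subst e
    have n0 : n = 0 := by
      by_contra k
      have := h3 0 (by omega)
      simp at this
    subst n0
    exact h32n.AsmR.rows G 0 1 one_pos ct lf hE (by simp) (by simp) (by simp) (by simp) (by simp)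
  · exact h32n.AsmR.rows G n K e ct lf hE h1 (fun t ht k hk l hl r v hv w hw =>
      ⟨((h2 t ht k hk l hl v hv w hw).2 r).1, ((h2 t ht k hk l hl v hv w hw).2 r).2,
        (h2 t ht k hk l hl v hv w hw).1⟩) h3 h4 h5

end Pool.Agent.MP_f65396_co.h81n
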