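import Pool.Agent.MP_f65396_co.h81n.SpecA
import Pool.Agent.MP_f65396_co.h15m.Cor4
import Pool.Agent.MP_f65396_co.h15o.Ori2

/-! The two stars of every colour. -/

set_option autoImplicit false

namespace Pool.Agent.MP_f65396_co.h81n

open Finset
open Pool.Agent.MP_f65396_co.h15o (HZ Pad zcase)
open Pool.Agent.MP_f65396_co.h15m (exists_Z exists_L stars mem_alw zL_inj L_anti z_lt L_basic L_act
  L_b2)

lemma toH4 {N n c s D B m t g : ℕ} {h : ℕ → ℕ → Prop} [DecidableRel h] {ω bf : ℕ → ℕ}
    {S : ℕ → Finset ℕ} (H : H4 N n c s D B m t g h ω bf S) :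
    h15m.H4 N n c s D B m t h ω bf (fun p => min g (p + 1 + t - N)) S := by
  have := H.sm
  have := H.hB
  refine ⟨H.hs, H.hi, H.hN, H.hc, by omega, by omega, H.hB, H.hm, H.hn, H.hn', H.hD, H.hsum, H.par,
    H.wr, H.wi, H.f2, H.f3, H.f4, H.fw, fun p => by omega, fun p => by omega, fun p q hq => ?_,
    fun p => ?_, H.bot, H.top⟩
  · have := H.sS p q hq
    omega
  · have := H.sC p
    omega

theorem core : CoreS := by
  intro N n c s D B m t g sp h _ ω bf S H0 hsp h0
  have H := toH4 H0
  have ori := h15o.ori2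
  obtain ⟨z, Z⟩ := exists_Z H
  obtain ⟨L, G⟩ := exists_L H Z
  obtain ⟨A, a1, a2⟩ := stars ori H Z G
  have hN := H.hN
  have hc := H.hc
  have hcD := H.hcD
  have hsD := H.hsD
  have hB := H.hB
  have hm := H.hm
  have hn := H.hn
  have am : ∀ p < N, ∀ y ∈ A p, _ := fun p hp y hy => mem_alw.1 ((a1 p hp).1 hy)
  have AA : ∀ p < N, ∀ q < N, ∀ y ∈ A p, ∀ w ∈ A q, s(p, y) = s(q, w) → p = q := by
    intro p hp q hq y hy w hw e
    rcases Sym2.eq_iff.1 e with ⟨e1, -⟩ | ⟨e1, e2⟩
    · exact e1
    · exact absurd (e1 ▸ hw) (a2 p hp q hq (e2 ▸ hy))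
  have AL : ∀ p < N, ∀ q < N, ∀ y ∈ A p, ∀ w ∈ L q, s(p, y) ≠ s(z q, w) := by
    intro p hp q hq y hy w hw e
    obtain ⟨-, -, -, b1, b2, -⟩ := am p hp y hy
    rcases Sym2.eq_iff.1 e with ⟨e1, e2⟩ | ⟨e1, e2⟩
    · exact b1 ⟨q, hq, e1.symm, e2 ▸ hw⟩
    · exact b2 ⟨q, hq, e2.symm, e1 ▸ hw⟩
  have LL : ∀ p < N, ∀ q < N, ∀ y ∈ L p, ∀ w ∈ L q, s(z p, y) = s(z q, w) → p = q := by
    intro p hp q hq y hy w hw e
    rcases Sym2.eq_iff.1 e with ⟨e1, -⟩ | ⟨e1, e2⟩
    · exact zL_inj H Z G hp hq hy hw e1
    · exact (L_anti H Z G hp hq (e2 ▸ hy) (e1 ▸ hw)).elim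
  refine ⟨fun p => if p < s then z p else p,
    fun p => if N - m - (3 * B + 2 * D) ≤ p then z p else 0,
    fun p => if p < s then L p else A p, fun p => if p < s then ∅ else L p,
    fun p h1 hp => ⟨?_, ?_, ?_⟩, fun p _ hp y hy => ?_, fun p _ hp y hy => ?_,
    fun p h1 hp => ?_, fun p h1 hp => ?_, fun p _ hp q _ hq y hy w hw => ?_,
    fun p _ hp q _ hq y hy w hw => ?_, fun p _ hp q _ hq y hy w hw => ?_,
    fun p _ hp q hq => ?_, fun p e hp => ⟨if_neg (by omega), ?_⟩, fun p _ hp y hy => ?_⟩
  · beta_reduce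
    split_ifs with e
    · have := Z.zs p e
      omega
    · omega
  · beta_reduce
    split_ifs with e
    · have := Z.zs p e
      omega
    · exact hp
  · beta_reduce
    split_ifs with e
    · have := z_lt H Z hp (Or.inr e)
      omega
    · omega
  · by_cases e : p < s
    · simp only [if_pos e] at hy ⊢
      obtain ⟨b1, b2, b3, -⟩ := L_basic H Z G hp hy
      exact ⟨b1, b2, b3⟩
    · simp only [if_neg e] at hy ⊢
      exact ⟨(am p hp y hy).1, (am p hp y hy).2.1, (am p hp y hy).2.2.1⟩
  · by_cases e : p < s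
    · simp only [if_pos e] at hy
      exact absurd hy (notMem_empty _)
    · simp only [if_neg e] at hy ⊢
      obtain ⟨b1, b2, b3, b4, -⟩ := L_basic H Z G hp hy
      have b5 : N - m - (3 * B + 2 * D) ≤ p := by
        have := L_act H G hp hy
        omega
      have b6 := z_lt H Z hp (Or.inr b5)
      rw [if_pos b5]
      exact ⟨b1, b2, b3, by omega, fun r => (am p hp _ r).2.2.2.2.2 ⟨b5, Or.inl rfl⟩, b4,
        fun r => (am p hp _ r).2.2.2.2.2 ⟨b5, Or.inr (Or.inl hy)⟩⟩
  · have := H.t1 p
    by_cases e : p < s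
    · simp only [if_pos e, card_empty]
      have := G.b1 p e
      omega
    · simp only [if_neg e]
      have e1 := (a1 p hp).2
      have e2 := L_b2 H G (not_lt.1 e) hp
      omega
  · have e1 := (a1 p (by omega)).2
    have e3 := (a1 (p + 1) hp).2
    have := H.t1 p
    have := H.t1 (p + 1)
    have := H.t2 p
    by_cases e : p < s
    · have e2 := G.b1 p e
      by_cases e' : p + 1 < s
      · simp only [if_pos e, if_pos e', card_empty]
        have e4 := G.b1 _ e'
        omega
      · simp only [if_pos e, if_neg e', card_empty]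
        have e4 := L_b2 H G (not_lt.1 e') hp
        omega
    · simp only [if_neg e, if_neg (show ¬ p + 1 < s by omega)]
      have e2 := H.f3 p
      have e4 := G.b2 p (by omega) (by omega)
      have e5 := G.b2 (p + 1) (by omega) hp
      have e6 := H.f4 p
      have e7 := H.f4 (p + 1)
      omega
  · by_cases e : p < s <;> by_cases e' : q < s
    · simp only [if_pos e, if_pos e'] at hy hw ⊢
      exact LL p hp q hq y hy w hw
    · simp only [if_pos e, if_neg e'] at hy hw ⊢
      exact fun t => absurd t.symm (AL q hq p hp w hw y hy)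
    · simp only [if_neg e, if_pos e'] at hy hw ⊢
      exact fun t => absurd t (AL p hp q hq y hy w hw)
    · simp only [if_neg e, if_neg e'] at hy hw ⊢
      exact AA p hp q hq y hy w hw
  · by_cases e' : q < s
    · simp only [if_pos e'] at hw
      exact absurd hw (notMem_empty _)
    simp only [if_neg e'] at hw
    have b5 : N - m - (3 * B + 2 * D) ≤ q := by
      have := L_act H G hq hw
      omega
    by_cases e : p < s
    · simp only [if_pos e, if_pos b5] at hy ⊢
      intro t
      have := LL p hp q hq y hy w hw t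
      omega
    · simp only [if_neg e, if_pos b5] at hy ⊢
      exact AL p hp q hq y hy w hw
  · by_cases e : p < s
    · simp only [if_pos e] at hy
      exact absurd hy (notMem_empty _)
    by_cases e' : q < s
    · simp only [if_pos e'] at hw
      exact absurd hw (notMem_empty _)
    simp only [if_neg e] at hy
    simp only [if_neg e'] at hw
    have b5 := L_act H G hp hy
    have b6 := L_act H G hq hw
    simp only [if_pos (show N - m - (3 * B + 2 * D) ≤ p by omega),
      if_pos (show N - m - (3 * B + 2 * D) ≤ q by omega)]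
    exact LL p hp q hq y hy w hw
  · have b1 := H.sS p q hq
    have b5 : N - m - (3 * B + 2 * D) ≤ p := by omega
    have b2 := Z.zu (p - (N - m)) (by omega)
    rw [show N - m + (p - (N - m)) = p by omega] at b2
    simp only [if_neg (show ¬ p < s by omega), if_pos b5]
    refine ⟨by omega, by omega, fun r => (am p hp _ r).2.2.2.2.2 ⟨b5, Or.inr (Or.inr hq)⟩,
      fun r => ?_⟩
    rcases G.mem p hp q r with ⟨j, -, -, rfl, e | e | e | e | e⟩ | ⟨i, hi, e, -⟩ | ⟨e, e', -⟩
    · omega
    · exact e.2.2.2.2.2 hq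
    · exact e.2.2.2.2.2 hq
    · omega
    · omega
    · have := Z.wr i hi
      omega
    · omega
  · have b2 := Z.zu (p - (N - m)) (by omega)
    rw [show N - m + (p - (N - m)) = p by omega] at b2
    simp only [if_pos (show N - m - (3 * B + 2 * D) ≤ p by omega)]
    exact b2
  · by_cases e : p < s
    · simp only [if_pos e] at hy
      exact absurd hy (notMem_empty _)
    simp only [if_neg e] at hy
    have b5 : N - m - (3 * B + 2 * D) ≤ p := by
      have := L_act H G hp hy
      omega
    simp only [if_pos b5]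
    refine ⟨?_, fun r r' => ?_⟩
    · rcases zcase Z (Or.inr b5) with u | ⟨i, hi, u, u'⟩ | u | u
      · omega
      · by_contra k
        have b1 := G.b2 p (by omega) hp
        have b2 := H.fw i hi
        have b3 := h0 i (by omega)
        have b4 := card_pos.2 ⟨y, hy⟩
        rw [← u] at b2
        omega
      · omega
      · omega
    · rcases G.mem p hp y hy with ⟨j, -, -, rfl, u | u | u | ⟨-, k, hk, u, -⟩ | u⟩ |
        ⟨i, hi, rfl, -⟩ | ⟨u, -⟩
      · omega
      · omega
      · omega
      · have := Z.wr k hk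
        omega
      · have := (H.sS y j u.2.2.1).1
        omega
      · have := Z.zw i hi
        omega
      · omega

end Pool.Agent.MP_f65396_co.h81n
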