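import Pool.Agent.MP_f65396_co.h81n.SpecB
import Mathlib.Combinatorics.SimpleGraph.DegreeSum

/-! The basic counts and the arms. -/

set_option autoImplicit false

namespace Pool.Agent.MP_f65396_co.h81n

open Finset

namespace CountA

variable {V : Type} [Fintype V] [DecidableEq V] (G : SimpleGraph V) [DecidableRel G.Adj]

theorem deg_split (U W : Finset V) (dj : Disjoint U W)
    (cov : ∀ u v, G.Adj u v → u ∈ U ∨ u ∈ W) (v : V) :
    G.degree v = dW G U v + dW G W v := by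
  unfold dW
  rw [← card_union_of_disjoint (disjoint_filter_filter dj), ← SimpleGraph.card_neighborFinset_eq_degree]
  congr 1
  ext w
  simp only [SimpleGraph.mem_neighborFinset, mem_union, mem_filter]
  constructor
  · intro h
    rcases cov w v h.symm with h1 | h1
    · exact Or.inl ⟨h1, h⟩
    · exact Or.inr ⟨h1, h⟩
  · rintro (h | h)
    · exact h.2
    · exact h.2

omit [Fintype V] in
theorem hd_add (U : Finset V) (v : V) (hv : v ∈ U) : hd G U v + dW G U v = U.card - 1 := by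
  unfold hd dW
  rw [← card_erase_of_mem hv, ← card_union_of_disjoint]
  · congr 1
    ext w
    simp only [mem_union, mem_filter, mem_erase, hh]
    constructor
    · rintro (h | h)
      · exact ⟨h.2.1, h.1⟩
      · exact ⟨h.2.ne', h.1⟩
    · rintro ⟨h1, h2⟩
      by_cases h : G.Adj v w
      · exact Or.inr ⟨h2, h⟩
      · exact Or.inl ⟨h2, h1, h⟩
  · rw [disjoint_filter]
    intro w _ h1 h2
    exact h1.2 h2

omit [Fintype V] [DecidableEq V] in
theorem dbl (A B : Finset V) : ∑ v ∈ A, dW G B v = ∑ w ∈ B, dW G A w := by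
  unfold dW
  simp only [card_filter]
  rw [sum_comm]
  refine sum_congr rfl fun w _ => sum_congr rfl fun v _ => ?_
  simp only [G.adj_comm v w]

theorem sum_all (n : ℕ) (U W : Finset V) (hE : G.edgeSet.ncard = n * (n + 1) / 2)
    (dj : Disjoint U W) (cov : ∀ u v, G.Adj u v → u ∈ U ∨ u ∈ W) :
    ∑ v ∈ U, G.degree v + ∑ w ∈ W, G.degree w = n * (n + 1) := by
  have h1 := G.sum_degrees_eq_twice_card_edges
  have h2 : G.edgeFinset.card = n * (n + 1) / 2 := by
    rw [← hE, ← SimpleGraph.coe_edgeFinset, Set.ncard_coe_finset]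
  rw [h2, Nat.two_mul_div_two_of_even (Nat.even_mul_succ_self n)] at h1
  rw [← h1, ← sum_union dj]
  refine sum_subset (subset_univ _) fun v _ hv => ?_
  rw [← SimpleGraph.card_neighborFinset_eq_degree, card_eq_zero]
  refine eq_empty_of_forall_notMem fun w hw => hv ?_
  rw [SimpleGraph.mem_neighborFinset] at hw
  exact mem_union.2 (cov v w hw)

theorem num3 (n r N a b c : ℕ) (r1 : 1 ≤ r) (n1 : 10 ^ 24 * r ≤ n) (u1 : N ≤ n + r)
    (c1 : a + n * (n + 1) = N * (N - 1) + b + c) (hb : b ≤ c) (rho : c ≤ 10 ^ 8 * r * r) :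
    a ≤ 4 * r * n := by
  have h1 : N * (N - 1) ≤ (n + r) * (n + r) :=
    Nat.mul_le_mul u1 (le_trans (Nat.sub_le _ _) u1)
  have h2 : 10 ^ 24 * r * r ≤ n * r := Nat.mul_le_mul_right r n1
  have h3 : (n + r) * (n + r) = n * n + 2 * (n * r) + r * r := by ring
  have h4 : n * (n + 1) = n * n + n := by ring
  have h5 : 4 * r * n = 4 * (n * r) := by ring
  have h6 : 10 ^ 24 * r * r = 10 ^ 24 * (r * r) := by ring
  have h7 : 10 ^ 8 * r * r = 10 ^ 8 * (r * r) := by ring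
  rw [h6] at h2
  rw [h7] at rho
  rw [h3] at h1
  rw [h4] at c1
  rw [h5]
  generalize N * (N - 1) = p at *
  generalize n * r = s at *
  generalize r * r = t at *
  generalize n * n = w at *
  norm_num at h2 rho
  omega

theorem num4 (n r x : ℕ) (n0 : 1 ≤ n) (h : x * (n / 20000 + 1) ≤ 4 * r * n) :
    x ≤ 10 ^ 5 * r := by
  have h1 : n ≤ 20000 * (n / 20000 + 1) := by omega
  have h2 : x * n ≤ x * (20000 * (n / 20000 + 1)) := Nat.mul_le_mul_left x h1
  have h3 : x * (20000 * (n / 20000 + 1)) = 20000 * (x * (n / 20000 + 1)) := by ring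
  have h4 : x * n ≤ (80000 * r) * n := by
    have h5 : (80000 * r) * n = 20000 * (4 * r * n) := by ring
    rw [h5]
    rw [h3] at h2
    exact le_trans h2 (Nat.mul_le_mul_left _ h)
  have h6 := Nat.le_of_mul_le_mul_right h4 n0
  omega

/-- The single edges. -/
noncomputable def es (W Z : Finset V) : Finset (V × V) :=
  (W ×ˢ W).filter (fun p => G.Adj p.1 p.2 ∧ Fintype.equivFin V p.1 < Fintype.equivFin V p.2) ∪
    (Z ×ˢ W).filter (fun p => G.Adj p.1 p.2)

theorem mem_es (W Z : Finset V) (p : V × V) : p ∈ es G W Z ↔ G.Adj p.1 p.2 ∧ p.2 ∈ W ∧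
    ((p.1 ∈ W ∧ Fintype.equivFin V p.1 < Fintype.equivFin V p.2) ∨ p.1 ∈ Z) := by
  unfold es
  simp only [mem_union, mem_filter, mem_product]
  tauto

omit [Fintype V] [DecidableEq V] in
theorem card_prod (A B : Finset V) :
    ((A ×ˢ B).filter (fun p : V × V => G.Adj p.1 p.2)).card = ∑ v ∈ A, dW G B v := by
  unfold dW
  simp only [card_filter]
  rw [sum_product]

theorem es_e1 (W Z : Finset V) (dj : Disjoint Z W) :
    (es G W Z).card = ((es G W Z).filter (fun p => p.1 ∈ W)).card + ∑ v ∈ Z, dW G W v := by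
  rw [← card_prod, ← card_filter_add_card_filter_not (s := es G W Z) (fun p => p.1 ∈ W)]
  congr 2
  ext p
  simp only [mem_filter, mem_es, mem_product]
  constructor
  · rintro ⟨⟨h1, h2, h3 | h3⟩, h4⟩
    · exact absurd h3.1 h4
    · exact ⟨⟨h3, h2⟩, h1⟩
  · rintro ⟨⟨h1, h2⟩, h3⟩
    exact ⟨⟨h3, h2, Or.inr h1⟩, disjoint_left.1 dj h1⟩

theorem es_e2 (W Z : Finset V) (dj : Disjoint Z W) :
    2 * ((es G W Z).filter (fun p => p.1 ∈ W)).card = ∑ w ∈ W, dW G W w := by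
  rw [← card_prod, ← card_filter_add_card_filter_not
    (s := (W ×ˢ W).filter (fun p : V × V => G.Adj p.1 p.2))
    (fun p => Fintype.equivFin V p.1 < Fintype.equivFin V p.2), two_mul]
  congr 1
  · congr 1
    ext p
    simp only [mem_filter, mem_es, mem_product]
    constructor
    · rintro ⟨⟨h1, h2, h3 | h3⟩, h4⟩
      · exact ⟨⟨⟨h4, h2⟩, h1⟩, h3.2⟩
      · exact absurd h4 (disjoint_left.1 dj h3)
    · rintro ⟨⟨⟨h1, h2⟩, h3⟩, h4⟩
      exact ⟨⟨h3, h2, Or.inl ⟨h1, h4⟩⟩, h1⟩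
  · refine card_nbij' Prod.swap Prod.swap ?_ ?_ ?_ ?_
    · intro p hp
      simp only [coe_filter, mem_es, mem_filter, mem_product, Set.mem_ofPred_eq, Prod.fst_swap,
        Prod.snd_swap] at hp ⊢
      obtain ⟨⟨h1, h2, h3 | h3⟩, h4⟩ := hp
      · exact ⟨⟨⟨h2, h4⟩, h1.symm⟩, not_lt.2 h3.2.le⟩
      · exact absurd h4 (disjoint_left.1 dj h3)
    · intro p hp
      simp only [coe_filter, mem_es, mem_filter, mem_product, Set.mem_ofPred_eq, Prod.fst_swap,
        Prod.snd_swap] at hp ⊢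
      obtain ⟨⟨⟨h1, h2⟩, h3⟩, h4⟩ := hp
      refine ⟨⟨h3.symm, h1, Or.inl ⟨h2, lt_of_le_of_ne (not_lt.1 h4) fun h => ?_⟩⟩, h2⟩
      exact h3.ne' ((Fintype.equivFin V).injective h)
    · intro p _
      rfl
    · intro p _
      rfl

omit [Fintype V] [DecidableEq V] in
theorem exists_list (Y : Finset V) (d : V) : ∃ yv : ℕ → V, (∀ k < Y.card, yv k ∈ Y) ∧
    (∀ k < Y.card, ∀ l < Y.card, yv k = yv l → k = l) ∧ ∀ v ∈ Y, ∃ k < Y.card, yv k = v := by
  refine ⟨fun k => if h : k < Y.card then (Y.equivFin.symm ⟨k, h⟩ : V) else d, ?_, ?_, ?_⟩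
  · intro k hk
    simp only [hk, dif_pos]
    exact (Y.equivFin.symm ⟨k, hk⟩).2
  · intro k hk l hl h
    simp only [hk, hl, dif_pos] at h
    have h1 := Y.equivFin.symm.injective (Subtype.ext h)
    exact congrArg Fin.val h1
  · intro v hv
    refine ⟨(Y.equivFin ⟨v, hv⟩).1, (Y.equivFin ⟨v, hv⟩).2, ?_⟩
    simp only [(Y.equivFin ⟨v, hv⟩).2, dif_pos, Fin.eta, Equiv.symm_apply_apply]

theorem exists_sig (e τ : ℕ) (hτ : 1 ≤ τ) : ∃ σ, e ≤ σ * τ + 1 ∧
    (1 ≤ σ → (σ - 1) * τ < e ∧ 2 ≤ e) ∧ (2 ≤ e → 1 ≤ σ) := by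
  by_cases h : e ≤ 1
  · exact ⟨0, by omega, fun h0 => by omega, fun h0 => by omega⟩
  · refine ⟨(e - 1) / τ + 1, ?_, fun _ => ⟨?_, by omega⟩, fun _ => Nat.le_add_left _ _⟩
    · have h1 := Nat.lt_div_mul_add (a := e - 1) (b := τ) hτ
      rw [add_mul, one_mul]
      omega
    · have h1 := Nat.div_mul_le_self (e - 1) τ
      rw [Nat.add_sub_cancel]
      omega

theorem num5 (r σ e : ℕ) (r1 : 1 ≤ r) (h : 1 ≤ σ → (σ - 1) * (10 ^ 11 * r) < e)
    (he : e ≤ 10 ^ 8 * r * r) : σ ≤ 2 * r := by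
  by_contra hc
  have h1 := h (by omega)
  have h2 : r * (10 ^ 11 * r) ≤ (σ - 1) * (10 ^ 11 * r) := Nat.mul_le_mul_right _ (by omega)
  have h3 : r * (10 ^ 11 * r) = 10 ^ 11 * (r * r) := by ring
  have h4 : 10 ^ 8 * r * r = 10 ^ 8 * (r * r) := by ring
  rw [h3] at h2
  rw [h4] at he
  generalize (σ - 1) * (10 ^ 11 * r) = p at *
  generalize r * r = t at *
  norm_num at h2 he
  omega

theorem num6 (r s : ℕ) (r1 : 1 ≤ r) (h : s * (10 ^ 11 * r) ≤ 10 ^ 8 * r * r) : s ≤ r := by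
  have h1 : 10 ^ 8 * r * r ≤ r * (10 ^ 11 * r) := by
    have h3 : r * (10 ^ 11 * r) = 10 ^ 11 * (r * r) := by ring
    have h4 : 10 ^ 8 * r * r = 10 ^ 8 * (r * r) := by ring
    rw [h3, h4]
    exact Nat.mul_le_mul_right _ (by norm_num)
  exact Nat.le_of_mul_le_mul_right (le_trans h h1) (by positivity)

end CountA

open CountA

theorem count : CountS := by
  intro V _ _ G _ n r U W H
  have hs := sum_all G n U W H.hE H.dj H.cov
  have c2 : ∑ w ∈ W, G.degree w = ∑ v ∈ U, dW G W v + ∑ w ∈ W, dW G W w := by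
    rw [dbl G U W, ← sum_add_distrib]
    exact sum_congr rfl fun w _ => deg_split G U W H.dj H.cov w
  have hU : ∑ v ∈ U, G.degree v = ∑ v ∈ U, dW G U v + ∑ v ∈ U, dW G W v := by
    rw [← sum_add_distrib]
    exact sum_congr rfl fun w _ => deg_split G U W H.dj H.cov w
  have hh1 : ∑ v ∈ U, hd G U v + ∑ v ∈ U, dW G U v = U.card * (U.card - 1) := by
    rw [← sum_add_distrib, sum_congr rfl fun v hv => hd_add G U v hv, sum_const, smul_eq_mul]
  have c1 : ∑ v ∈ U, hd G U v + n * (n + 1) =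
      U.card * (U.card - 1) + ∑ v ∈ U, dW G W v + ∑ w ∈ W, G.degree w := by
    rw [← hs, hU, ← hh1]
    ring
  have hle : ∑ v ∈ U, dW G W v ≤ ∑ w ∈ W, G.degree w := by
    rw [c2]
    exact Nat.le_add_right _ _
  have c3 : ∑ v ∈ U, hd G U v ≤ 4 * r * n := num3 n r U.card _ _ _ H.r1 H.n1 H.u1 c1 hle H.rho
  have r1 := H.r1
  have n0 : 1 ≤ n := le_trans (Nat.mul_pos (by positivity) r1) H.n1
  refine ⟨U.filter (fun v => n / 20000 < hd G U v), U.filter (fun v => 10 ^ 8 * r ≤ dW G W v),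
    H, fun v => mem_filter, fun v => mem_filter, c1, c2, c3, ?_, ?_⟩
  · refine num4 n r _ n0 (le_trans ?_ c3)
    refine le_trans ?_ (sum_le_sum_of_subset (filter_subset (fun v => n / 20000 < hd G U v) U))
    rw [← smul_eq_mul]
    exact card_nsmul_le_sum _ _ _ fun v hv => (mem_filter.1 hv).2
  · have h1 : (U.filter (fun v => 10 ^ 8 * r ≤ dW G W v)).card * (10 ^ 8 * r) ≤
        ∑ v ∈ U, dW G W v := by
      refine le_trans ?_ (sum_le_sum_of_subset (filter_subset (fun v => 10 ^ 8 * r ≤ dW G W v) U))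
      rw [← smul_eq_mul]
      exact card_nsmul_le_sum _ _ _ fun v hv => (mem_filter.1 hv).2
    have h2 := le_trans h1 (le_trans hle H.rho)
    rw [mul_comm (10 ^ 8 * r) r] at h2
    exact Nat.le_of_mul_le_mul_right h2 (by positivity)

theorem pa : PaS := by
  intro V _ _ G _ n r U W X Y Z H hZ h4
  have r1 := H.r1
  have djZ : Disjoint Z W := Disjoint.mono_left hZ H.dj
  have hWne : W.Nonempty := card_pos.1 (lt_of_lt_of_le (by positivity) H.wc)
  obtain ⟨d, _⟩ := hWne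
  obtain ⟨yv, ym, yi, yc⟩ := exists_list Y d
  have hτ : 1 ≤ 10 ^ 11 * r := Nat.mul_pos (by positivity) r1
  obtain ⟨σ0, s2, s3, s4⟩ := exists_sig (es G W Z).card (10 ^ 11 * r) hτ
  have e1 := es_e1 G W Z djZ
  have e2 := es_e2 G W Z djZ
  have hZU : ∑ v ∈ Z, dW G W v ≤ ∑ v ∈ U, dW G W v := sum_le_sum_of_subset hZ
  have c2 := H.c2
  have rho := H.rho
  have hEs : (es G W Z).card ≤ 10 ^ 8 * r * r := by
    generalize 10 ^ 8 * r * r = p at rho
    omega
  have hYU : ∑ v ∈ Y, dW G W v ≤ ∑ v ∈ U, dW G W v :=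
    sum_le_sum_of_subset fun v hv => ((H.mY v).1 hv).1
  have hY : ∑ k ∈ range Y.card, dW G W (yv k) ≤ ∑ v ∈ Y, dW G W v := by
    rw [← sum_image (s := range Y.card) (g := yv) (f := fun v => dW G W v)
      (fun k hk l hl h => yi k (mem_range.1 hk) l (mem_range.1 hl) h)]
    refine sum_le_sum_of_subset fun v hv => ?_
    obtain ⟨k, hk, rfl⟩ := mem_image.1 hv
    exact ym k (mem_range.1 hk)
  have hq : ∑ k ∈ range Y.card, dW G W (yv k) / (10 ^ 11 * r) ≤ r := by
    refine num6 r _ r1 ?_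
    rw [sum_mul]
    refine le_trans (sum_le_sum fun k _ => Nat.div_mul_le_self _ _) ?_
    generalize 10 ^ 8 * r * r = p at rho
    omega
  have c5 := H.c5
  obtain ⟨σ1, s1⟩ : ∃ σ1, σ1 = ∑ k ∈ range Y.card, (dW G W (yv k) / (10 ^ 11 * r) + 2) :=
    ⟨_, rfl⟩
  have s1' : σ1 = ∑ k ∈ range Y.card, dW G W (yv k) / (10 ^ 11 * r) + 2 * Y.card := by
    rw [s1, sum_add_distrib, sum_const, card_range, smul_eq_mul, mul_comm Y.card 2]
  refine ⟨es G W Z, yv, σ0, σ1, Y.card, fun α => if α < σ0 + σ1 then 1 else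
    4 * (dW G W (yv (α - (σ0 + σ1))) / (10 ^ 11 * r) + 2), ?_, ?_, ?_, e1, e2, rfl, ym, yi, yc,
    ?_, ?_, s1, s2, s3, ?_, num5 r σ0 _ r1 (fun h => (s3 h).1) hEs, ?_, ?_⟩
  · intro p hp
    obtain ⟨h1, h2, h3⟩ := (mem_es G W Z p).1 hp
    exact ⟨h1, h2, h3.imp And.left id⟩
  · intro u hu w hw h
    rcases hu with hu | hu
    · rcases lt_trichotomy (Fintype.equivFin V u) (Fintype.equivFin V w) with h1 | h1 | h1
      · exact Or.inl ((mem_es G W Z _).2 ⟨h, hw, Or.inl ⟨hu, h1⟩⟩)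
      · exact absurd ((Fintype.equivFin V).injective h1) h.ne
      · exact Or.inr ((mem_es G W Z _).2 ⟨h.symm, hu, Or.inl ⟨hw, h1⟩⟩)
    · exact Or.inl ((mem_es G W Z _).2 ⟨h, hw, Or.inr hu⟩)
  · intro u v h1 h2
    obtain ⟨_, a2, a3⟩ := (mem_es G W Z _).1 h1
    obtain ⟨_, b2, b3⟩ := (mem_es G W Z _).1 h2
    rcases a3 with a3 | a3
    · rcases b3 with b3 | b3
      · exact lt_asymm a3.2 b3.2
      · exact disjoint_left.1 djZ b3 a2
    · exact disjoint_left.1 djZ a3 b2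
  · intro α hα
    simp only [hα, if_true]
  · intro k _
    simp only [Nat.not_lt.2 (Nat.le_add_right (σ0 + σ1) k), if_false, Nat.add_sub_cancel_left]
  · by_cases hY0 : Y = ∅
    · have h5 := h4 hY0
      have h6 := s4 (by omega)
      omega
    · have h5 : 0 < Y.card := card_pos.2 (nonempty_iff_ne_empty.2 hY0)
      omega
  · omega
  · rw [sum_range_add]
    have a1 : ∑ α ∈ range (σ0 + σ1), (if α < σ0 + σ1 then 1 else
        4 * (dW G W (yv (α - (σ0 + σ1))) / (10 ^ 11 * r) + 2)) = σ0 + σ1 := by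
      rw [sum_congr rfl fun α hα => if_pos (mem_range.1 hα), sum_const, card_range, smul_eq_mul,
        mul_one]
    have a2 : ∑ k ∈ range Y.card, (if σ0 + σ1 + k < σ0 + σ1 then 1 else
        4 * (dW G W (yv (σ0 + σ1 + k - (σ0 + σ1))) / (10 ^ 11 * r) + 2)) = 4 * σ1 := by
      rw [sum_congr rfl fun k _ => if_neg (Nat.not_lt.2 (Nat.le_add_right (σ0 + σ1) k))]
      simp only [Nat.add_sub_cancel_left]
      rw [← mul_sum, ← s1]
    rw [a1, a2]
    ring

end Pool.Agent.MP_f65396_co.h81n
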