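import Pool.Agent.MP_f65396_co.h81n.SpecB

/-! The special vertices of the enlarged core. -/

set_option autoImplicit false

namespace Pool.Agent.MP_f65396_co.h81n

open Finset
open Pool.Agent.MP_f65396_co.h15l (tcost)

namespace DatL

variable {V : Type}

theorem eP_lt {sp i : ℕ} (e : ℕ → V) (h : i < sp) : eP sp e i = Sum.inr i := by
  simp [eP, h]

theorem eP_eq {sp i k : ℕ} (e : ℕ → V) (h : i = sp + k) : eP sp e i = Sum.inl (e k) := by
  subst h
  simp [eP]

theorem sv_lt [DecidableEq V] {t K i : ℕ} {tc : ℕ × ℕ → V} {tl : ℕ × ℕ → Finset V} {v : V}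
    (h : v ∈ SV (range t ×ˢ range K) tc tl i) : i < t := by
  unfold SV at h
  obtain ⟨x, hx, -⟩ := mem_biUnion.1 h
  obtain ⟨h1, h2, -⟩ := mem_filter.1 hx
  have := mem_range.1 (mem_product.1 h1).1
  omega

variable [DecidableEq V] (G : SimpleGraph V) [DecidableRel G.Adj]

theorem deg_le (T : V → V → Prop) [DecidableRel T] (P : V → Finset V) (ν : V → V → ℕ)
    [DecidableRel (hP G T P ν)] (U : Finset V) (sp : ℕ) (a : V) :
    ((UP U sp).filter (hP G T P ν (Sum.inl a))).card ≤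
      (U.filter (hh G a)).card + (U.filter (T a)).card + sp := by
  have hs : (UP U sp).filter (hP G T P ν (Sum.inl a)) ⊆
      (U.filter (hh G a) ∪ U.filter (T a)).disjSum (range sp) := by
    intro v hv
    obtain ⟨h1, h2⟩ := mem_filter.1 hv
    rcases v with b | k
    · have hb : b ∈ U := inl_mem_disjSum.1 h1
      have h3 : b ≠ a ∧ (¬ G.Adj a b ∨ T a b) := h2
      refine inl_mem_disjSum.2 (mem_union.2 ?_)
      rcases h3.2 with h4 | h4
      · exact Or.inl (mem_filter.2 ⟨hb, h3.1, h4⟩)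
      · exact Or.inr (mem_filter.2 ⟨hb, h4⟩)
    · exact inr_mem_disjSum.2 (inr_mem_disjSum.1 h1)
  have h1 := card_le_card hs
  rw [card_disjSum, card_range] at h1
  have h2 := card_union_le (U.filter (hh G a)) (U.filter (T a))
  omega

theorem cnt_le (T : V → V → Prop) (P : V → Finset V) (ν : V → V → ℕ)
    [DecidableRel (hP G T P ν)] (a : V) (b : ℕ → V) (a' : V ⊕ ℕ) (b' : ℕ → V ⊕ ℕ) (i : ℕ)
    (ha : a' = Sum.inl a) (hb : ∀ k, b' k = Sum.inl (b k)) (hT : ∀ k < i, ¬ T a (b k)) :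
    ((range i).filter (fun k => hP G T P ν a' (b' k))).card ≤
      ((range i).filter (fun k => hh G a (b k))).card := by
  refine card_le_card fun k hk => ?_
  obtain ⟨h1, h2⟩ := mem_filter.1 hk
  rw [ha, hb] at h2
  have h3 : b k ≠ a ∧ (¬ G.Adj a (b k) ∨ T a (b k)) := h2
  exact mem_filter.2 ⟨h1, h3.1, h3.2.resolve_right (hT k (mem_range.1 h1))⟩

theorem first_le (T : V → V → Prop) (P : V → Finset V) (ν : V → V → ℕ)
    [DecidableRel (hP G T P ν)] (U : Finset V) (sp : ℕ) (S : ℕ → Finset V) (y : ℕ → V) (i : ℕ)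
    (a : V) (a' b' : V ⊕ ℕ) (ha : a' = Sum.inl a) (hb : b' = Sum.inl (y i))
    (hTa : ∀ v ∈ U, ¬ T a v) (hTb : ∀ v ∈ U, ¬ T (y i) v)
    (la : ∀ w ∈ P a, ν a w < sp) (lb : ∀ w ∈ P (y i), ν (y i) w < sp)
    (ia : ∀ w ∈ P a, ∀ w' ∈ P a, ν a w = ν a w' → w = w')
    (ib : ∀ w ∈ P (y i), ∀ w' ∈ P (y i), ν (y i) w = ν (y i) w' → w = w')
    (pr : ∀ w ∈ P a, ∀ w' ∈ P (y i), ν a w = ν (y i) w' → w = w') :
    ((UP U sp).filter (fun x => hP G T P ν a' x ∧ hP G T P ν b' x) ∪ SP U S P ν y i).card +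
      ((P a ∪ P (y i)) \ S i).card ≤
      (U.filter (fun x => hh G a x ∧ hh G (y i) x) ∪ S i ∩ U).card + sp := by
  subst ha hb
  set nm : V → ℕ := fun w => if w ∈ P a then ν a w else ν (y i) w with hnm
  set N : Finset ℕ := ((P a ∪ P (y i)) \ S i).image nm with hN
  have key : ∀ w ∈ (P a ∪ P (y i)) \ S i,
      (w ∈ P a ∧ nm w = ν a w) ∨ (w ∈ P (y i) ∧ nm w = ν (y i) w) := by
    intro w hw
    by_cases h : w ∈ P a
    · exact Or.inl ⟨h, by simp [hnm, h]⟩
    · exact Or.inr ⟨(mem_union.1 (mem_sdiff.1 hw).1).resolve_left h, by simp [hnm, h]⟩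
  have hc : N.card = ((P a ∪ P (y i)) \ S i).card := by
    refine card_image_of_injOn fun w hw w' hw' h => ?_
    rcases key w (mem_coe.1 hw) with ⟨h1, h2⟩ | ⟨h1, h2⟩ <;>
      rcases key w' (mem_coe.1 hw') with ⟨h3, h4⟩ | ⟨h3, h4⟩ <;> rw [h2, h4] at h
    · exact ia w h1 w' h3 h
    · exact pr w h1 w' h3 h
    · exact (pr w' h3 w h1 h.symm).symm
    · exact ib w h1 w' h3 h
  have hNs : N ⊆ range sp := by
    intro k hk
    obtain ⟨w, hw, rfl⟩ := mem_image.1 hk
    rcases key w hw with ⟨h1, h2⟩ | ⟨h1, h2⟩ <;> rw [h2]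
    · exact mem_range.2 (la w h1)
    · exact mem_range.2 (lb w h1)
  have hs : (UP U sp).filter (fun x => hP G T P ν (Sum.inl a) x ∧ hP G T P ν (Sum.inl (y i)) x) ∪
      SP U S P ν y i ⊆
      (U.filter (fun x => hh G a x ∧ hh G (y i) x) ∪ S i ∩ U).disjSum (range sp \ N) := by
    intro v hv
    rcases v with b | k
    · refine inl_mem_disjSum.2 (mem_union.2 ?_)
      rcases mem_union.1 hv with h | h
      · obtain ⟨h1, h2, h3⟩ := mem_filter.1 h
        have hb : b ∈ U := inl_mem_disjSum.1 h1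
        have h4 : b ≠ a ∧ (¬ G.Adj a b ∨ T a b) := h2
        have h5 : b ≠ y i ∧ (¬ G.Adj (y i) b ∨ T (y i) b) := h3
        exact Or.inl (mem_filter.2 ⟨hb, ⟨h4.1, h4.2.resolve_right (hTa b hb)⟩,
          ⟨h5.1, h5.2.resolve_right (hTb b hb)⟩⟩)
      · exact Or.inr (inl_mem_disjSum.1 h)
    · refine inr_mem_disjSum.2 (mem_sdiff.2 ?_)
      rcases mem_union.1 hv with h | h
      · obtain ⟨h1, h2, h3⟩ := mem_filter.1 h
        have h4 : ∀ w ∈ P a, ν a w ≠ k := h2
        have h5 : ∀ w ∈ P (y i), ν (y i) w ≠ k := h3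
        refine ⟨inr_mem_disjSum.1 h1, fun hk => ?_⟩
        obtain ⟨w, hw, hwk⟩ := mem_image.1 hk
        rcases key w hw with ⟨h6, h7⟩ | ⟨h6, h7⟩
        · exact h4 w h6 (h7.symm.trans hwk)
        · exact h5 w h6 (h7.symm.trans hwk)
      · obtain ⟨w0, hw0, rfl⟩ := mem_image.1 (inr_mem_disjSum.1 h)
        obtain ⟨h1, h2⟩ := mem_inter.1 hw0
        refine ⟨mem_range.2 (lb w0 h1), fun hk => ?_⟩
        obtain ⟨w, hw, hwk⟩ := mem_image.1 hk
        have h3 : w = w0 := by
          rcases key w hw with ⟨h6, h7⟩ | ⟨h6, h7⟩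
          · exact pr w h6 w0 h1 (h7.symm.trans hwk)
          · exact ib w h6 w0 h1 (h7.symm.trans hwk)
        exact (mem_sdiff.1 hw).2 (h3 ▸ h2)
  have h1 := card_le_card hs
  rw [card_disjSum, card_sdiff_of_subset hNs, card_range] at h1
  have h2 := card_le_card hNs
  rw [card_range] at h2
  omega

end DatL

open DatL

theorem dat : DatS := by
  intro V _ _ G _ n r c x K g o U W e C sz tc tl ν _ hF hN
  have hr := hF.r1
  have hn := hF.n1
  have ec := hF.ec
  have eo := hF.eo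
  have eC := hF.eC
  have mem := hF.mem
  have inj := hF.inj
  have xs := hF.xs
  have par := hF.par
  have bot := hF.bot
  have zw := hF.zw
  have pq := hF.pq
  have uu := hF.uu
  have loc := hF.loc
  have crd := hF.crd
  have cf := hF.cf
  have tu := hF.tu
  have top := hF.top
  have n1 : n / 20000 + 10 ^ 13 * r + 3 * (10 ^ 8 * r) ≤ n / 10000 := by
    norm_num at hn ⊢
    omega
  have n2 : 2 * (10 ^ 8 * r) ≤ 10 ^ 13 * r := by
    norm_num
    omega
  clear hF hn hr
  unfold hd at xs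
  generalize 10 ^ 8 * r = q at *
  generalize 10 ^ 13 * r = t at *
  generalize n / 10000 = D at *
  generalize n / 20000 = D' at *
  generalize 3 * q = sp at *
  have svl : ∀ i, ∀ v ∈ SV C tc tl i, i < t := fun i v hv => sv_lt (eC ▸ hv)
  refine ⟨fun i hi => ?_, fun i hi j hj h => ?_, fun v hv h => ?_, fun i hi => ?_, fun j hj => ?_,
    fun i v hv => ?_, fun i => ?_, fun i hi => ?_, by omega, fun i hi k hk hki => ?_,
    fun i hi j hj h => ?_⟩
  · by_cases h : i < sp
    · rw [eP_lt e h]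
      exact inr_mem_disjSum.2 (mem_range.2 h)
    · rw [eP_eq e (show i = sp + (i - sp) by omega)]
      exact inl_mem_disjSum.2 (mem _ (by omega))
  · by_cases h1 : i < sp <;> by_cases h2 : j < sp
    · rw [eP_lt e h1, eP_lt e h2] at h
      exact Sum.inr.inj h
    · rw [eP_lt e h1, eP_eq e (show j = sp + (j - sp) by omega)] at h
      cases h
    · rw [eP_lt e h2, eP_eq e (show i = sp + (i - sp) by omega)] at h
      cases h
    · rw [eP_eq e (show i = sp + (i - sp) by omega),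
        eP_eq e (show j = sp + (j - sp) by omega)] at h
      have := inj _ (by omega) _ (by omega) (Sum.inl.inj h)
      omega
  · rcases v with a | k
    · have ha : a ∈ U := inl_mem_disjSum.1 hv
      have h1 := xs a ha fun k hk hka => h (sp + k) (by omega) (by rw [eP_eq e rfl, hka])
      have h2 := uu a ha
      have h3 := deg_le G (TE C tc tl) (PP G W C tc tl) ν U sp a
      omega
    · have hk : k < sp := mem_range.1 (inr_mem_disjSum.1 hv)
      exact absurd (eP_lt e hk) (h k (by omega))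
  · by_cases h : i < sp
    · rw [eP_lt e h, eP_eq e (show sp + x + 2 * c + i = sp + (x + 2 * c + i) by omega)]
      exact hN.av i h
    · rw [eP_eq e (show i = sp + (i - sp) by omega),
        eP_eq e (show sp + x + 2 * c + i = sp + (x + 2 * c + sp + (i - sp)) by omega)]
      have h1 := par (i - sp) (by omega)
      exact ⟨h1.1, Or.inl h1.2⟩
  · rw [eP_eq e (show sp + x + j = sp + (x + j) by omega),
      eP_eq e (show sp + x + c + j = sp + (x + c + j) by omega)]
    have h1 := bot j (by omega)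
    exact ⟨h1.1, Or.inl h1.2⟩
  · rcases v with a | k
    · obtain ⟨h1, h2⟩ := mem_inter.1 (inl_mem_disjSum.1 hv)
      refine ⟨svl i a h1, ?_⟩
      rcases loc i a h1 h2 with ⟨k, hk, rfl⟩ | ⟨k, hk, rfl⟩ | ⟨k, hk, rfl⟩
      · exact Or.inl ⟨sp + k, by omega, eP_eq e rfl⟩
      · exact Or.inr (Or.inl ⟨k, hk, eP_eq e (by omega)⟩)
      · exact Or.inr (Or.inr ⟨k, hk, eP_eq e (by omega)⟩)
    · obtain ⟨w, hw, rfl⟩ := mem_image.1 (inr_mem_disjSum.1 hv)
      obtain ⟨h1, h2⟩ := mem_inter.1 hw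
      have hi := svl i w h2
      have h3 := hN.lt _ (mem (o + i) (by omega)) w h1
      exact ⟨hi, Or.inl ⟨ν (e (o + i)) w, by omega, eP_lt e h3⟩⟩
  · unfold SP
    rw [card_disjSum]
    have h1 := crd i
    have h2 : (SV C tc tl i ∩ U).card ≤ (SV C tc tl i).card := card_le_card inter_subset_left
    have h3 : ((PP G W C tc tl (e (o + i)) ∩ SV C tc tl i).image (ν (e (o + i)))).card ≤
        (SV C tc tl i).card := card_image_le.trans (card_le_card inter_subset_right)
    beta_reduce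
    omega
  · have hy : ∀ k, eP sp e (2 * (sp + x) + 2 * c + k) = Sum.inl (e (o + k)) :=
      fun k => eP_eq e (by omega)
    have hu : ∀ k, eP sp e (2 * (sp + x) + 2 * c + 3 * D + k) = Sum.inl (e (o + 3 * D + k)) :=
      fun k => eP_eq e (by omega)
    have my : ∀ k < i + 1, e (o + k) ∈ U := fun k hk => mem _ (by omega)
    have mu : ∀ k < i + 1, e (o + 3 * D + k) ∈ U := fun k hk => mem _ (by omega)
    have ty : ∀ v ∈ U, ¬ TE C tc tl (e (o + i)) v := tu i (by omega)
    have tu' : ∀ v ∈ U, ¬ TE C tc tl (e (o + 3 * D + i)) v := by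
      have := tu (3 * D + i) (by omega)
      rwa [← Nat.add_assoc] at this
    have h0 := top i hi
    have h1 := first_le G (TE C tc tl) (PP G W C tc tl) ν U sp (SV C tc tl) (fun k => e (o + k)) i
      (e (o + 3 * D + i)) _ _ (hu i) (hy i) tu' ty (hN.lt _ (mu i (by omega)))
      (hN.lt _ (my i (by omega))) (hN.ij _ (mu i (by omega))) (hN.ij _ (my i (by omega)))
      (fun w hw w' hw' h => (hN.pr i hi w hw w' hw').1 h)
    have h2 := cnt_le G (TE C tc tl) (PP G W C tc tl) ν _ (fun k => e (o + k)) _ _ i (hu i) hy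
      (fun k hk => tu' _ (my k (by omega)))
    have h3 := cnt_le G (TE C tc tl) (PP G W C tc tl) ν _ (fun k => e (o + 3 * D + k)) _ _ i
      (hu i) hu (fun k hk => tu' _ (mu k (by omega)))
    have h4 := cnt_le G (TE C tc tl) (PP G W C tc tl) ν _ (fun k => e (o + k)) _ _ i (hy i) hy
      (fun k hk => ty _ (my k (by omega)))
    have h5 := cnt_le G (TE C tc tl) (PP G W C tc tl) ν _ (fun k => e (o + 3 * D + k)) _ _ i
      (hy i) hu (fun k hk => ty _ (mu k (by omega)))
    unfold tcost at h0 ⊢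
    beta_reduce at h0 h1 h2 h3 h4 h5 ⊢
    omega
  · rw [eP_lt e hi]
    by_cases h : k < sp
    · rw [eP_lt e h]
      exact hki
    · rw [eP_eq e (show k = sp + (k - sp) by omega)]
      intro w hw
      rw [zw (k - sp) (by omega)] at hw
      exact absurd hw (notMem_empty w)
  · rw [eP_lt e hi] at h ⊢
    rw [eP_eq e (show 2 * (sp + x) + 2 * c + 3 * D + j = sp + (o + 3 * D + j) by omega)]
    obtain ⟨w0, hw0, h0⟩ := mem_image.1 (inr_mem_disjSum.1 h)
    obtain ⟨h1, h2⟩ := mem_inter.1 hw0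
    intro w hw hwi
    have h3 := (hN.pr j (by omega) w hw w0 h1).1 (hwi.trans h0.symm)
    exact cf j hj w0 h2 (h3 ▸ hw)

end Pool.Agent.MP_f65396_co.h81n
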