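import Pool.Agent.MP_f65396_co.h81n.SpecB

/-! Filling the remaining cells with stars from a reservoir. -/

set_option autoImplicit false

namespace Pool.Agent.MP_f65396_co.h81n

open Finset

namespace Fill

theorem size (a : ℕ → ℕ) (T K : ℕ) :
    ∑ α ∈ range K, min (a α) (T - ∑ β ∈ range α, a β) = min (∑ α ∈ range K, a α) T := by
  induction K with
  | zero => simp
  | succ K ih =>
    rw [sum_range_succ, ih, sum_range_succ]
    omega

theorem sum_le (t K : ℕ) (a : ℕ → ℕ) (S : Finset (ℕ × ℕ)) (h1 : ∀ y ∈ S, y.2 < K)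
    (h2 : ∀ x ∈ S, ∀ y ∈ S, x.2 = y.2 → x = y) :
    ∑ y ∈ S, szf t a y ≤ ∑ α ∈ range K, a α := by
  have h3 : ∑ y ∈ S, szf t a y ≤ ∑ y ∈ S, a y.2 := sum_le_sum fun y _ => min_le_left _ _
  have h4 : ∑ α ∈ S.image Prod.snd, a α = ∑ y ∈ S, a y.2 :=
    sum_image fun x hx y hy h => h2 x hx y hy h
  have h5 : S.image Prod.snd ⊆ range K := by
    intro α hα
    obtain ⟨y, hy, rfl⟩ := mem_image.1 hα
    exact mem_range.2 (h1 y hy)
  exact h3.trans (h4.symm.le.trans (sum_le_sum_of_subset h5))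

theorem szf_eq (t K : ℕ) (a : ℕ → ℕ) (x : ℕ × ℕ) (h1 : x.1 < t - ∑ α ∈ range K, a α)
    (h2 : x.2 < K) : szf t a x = a x.2 := by
  have h3 : ∑ α ∈ range (x.2 + 1), a α ≤ ∑ α ∈ range K, a α :=
    sum_le_sum_of_subset (range_subset_range.2 h2)
  rw [sum_range_succ] at h3
  unfold szf
  omega

theorem room (t K : ℕ) (a : ℕ → ℕ) (S : Finset (ℕ × ℕ)) (hS : ∀ y ∈ S, y.2 < K) (x : ℕ × ℕ)
    (hx : x ∈ S) :
    szf t a x + ∑ y ∈ (S.erase x).filter (fun y => x.1 = y.1 ∨ x.1 + x.2 = y.1 + y.2), szf t a y ≤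
      2 * ∑ α ∈ range K, a α := by
  have hx' : x ∈ S.filter (fun y => x.1 = y.1 ∨ x.1 + x.2 = y.1 + y.2) :=
    mem_filter.2 ⟨hx, Or.inl rfl⟩
  rw [filter_erase, add_sum_erase _ _ hx', filter_or]
  have h1 := sum_le t K a (S.filter fun y => x.1 = y.1) (fun y hy => hS y (mem_filter.1 hy).1)
    (fun y hy z hz h => Prod.ext ((mem_filter.1 hy).2.symm.trans (mem_filter.1 hz).2) h)
  have h2 := sum_le t K a (S.filter fun y => x.1 + x.2 = y.1 + y.2)
    (fun y hy => hS y (mem_filter.1 hy).1)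
    (fun y hy z hz h => Prod.ext (by
      have e1 := (mem_filter.1 hy).2
      have e2 := (mem_filter.1 hz).2
      omega) h)
  have h3 := sum_union_inter (s₁ := S.filter fun y => x.1 = y.1)
    (s₂ := S.filter fun y => x.1 + x.2 = y.1 + y.2) (f := szf t a)
  omega

end Fill

theorem fill (hl : LeafS) : FillS := by
  intro V _ G _ t K g d a C tc tl Fc Fl hg hgt hC ts hinj hnot hav hd hcard
  refine ⟨fun i => ?_, ?_⟩
  · rw [hg]
    exact Fill.size a (t - i) K
  have hgrid : ∀ x ∈ range t ×ˢ range K \ C, x.1 < t ∧ x.2 < K ∧ x ∉ C := by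
    intro x hx
    rw [mem_sdiff, mem_product, mem_range, mem_range] at hx
    exact ⟨hx.1.1, hx.1.2, hx.2⟩
  obtain ⟨t2, h1, h2⟩ := hl (ℕ × ℕ) V (range t ×ˢ range K \ C)
    (fun x y => x.1 = y.1 ∨ x.1 + x.2 = y.1 + y.2) (szf t a)
    (fun x => Fl.filter (G.Adj (Fc (x.1 + x.2))))
    (fun x y h => h.imp Eq.symm Eq.symm) (by
      intro x hx
      have e1 := Fill.room t K a _ (fun y hy => (hgrid y hy).2.1) x hx
      have e2 := hgrid x hx
      have e3 := hd (x.1 + x.2) (by omega)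
      have e4 := card_filter_add_card_filter_not (s := Fl) (G.Adj (Fc (x.1 + x.2)))
      rw [← hg] at e1
      omega)
  have hFl : ∀ x ∈ range t ×ˢ range K \ C, ∀ v ∈ t2 x, v ∈ Fl ∧ G.Adj (Fc (x.1 + x.2)) v :=
    fun x hx v hv => mem_filter.1 ((h1 x hx).1 hv)
  have hlt : ∀ x ∈ range t ×ˢ range K, x.1 + x.2 < t + K := by
    intro x hx
    rw [mem_product, mem_range, mem_range] at hx
    omega
  have hc1 : ∀ x ∈ C, tc x ∉ Fl ∧ ∀ k < t + K, Fc k ≠ tc x :=
    fun x hx => hav x hx _ (mem_insert_self _ _)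
  have hc2 : ∀ x ∈ C, ∀ v ∈ tl x, v ∉ Fl ∧ ∀ k < t + K, Fc k ≠ v :=
    fun x hx v hv => hav x hx v (mem_insert_of_mem hv)
  refine ⟨fun x => if x ∈ C then tc x else Fc (x.1 + x.2), fun x => if x ∈ C then tl x else t2 x,
    ⟨?_, ?_, ?_, ?_⟩, ?_, ?_, ?_⟩
  · intro x hx v hv
    by_cases h : x ∈ C
    · simp only [if_pos h] at hv ⊢
      exact ts.adj x h v hv
    · simp only [if_neg h] at hv ⊢
      exact (hFl x (mem_sdiff.2 ⟨hx, h⟩) v hv).2
  · intro x hx
    by_cases h : x ∈ C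
    · simp only [if_pos h]
      have e1 := hC h
      rw [mem_product, mem_range, mem_range, hg] at e1
      rw [Fill.szf_eq t K a x e1.1 e1.2]
      exact ts.cd x h
    · simp only [if_neg h]
      exact (h1 x (mem_sdiff.2 ⟨hx, h⟩)).2
  · intro x hx y hy hxy v hv w hw
    by_cases h : x ∈ C <;> by_cases h' : y ∈ C
    · simp only [if_pos h, if_pos h'] at hv hw ⊢
      exact ts.vd x h y h' hxy v hv w hw
    · simp only [if_pos h, if_neg h'] at hv hw ⊢
      have e1 := (hFl y (mem_sdiff.2 ⟨hy, h'⟩) w hw).1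
      refine ⟨((hc2 x h v hv).2 _ (hlt y hy)).symm, fun _ => ⟨?_, ((hc1 x h).2 _ (hlt y hy)).symm⟩⟩
      rintro rfl
      exact (hc2 x h v hv).1 e1
    · simp only [if_neg h, if_pos h'] at hv hw ⊢
      have e1 := (hFl x (mem_sdiff.2 ⟨hx, h⟩) v hv).1
      refine ⟨?_, fun _ => ⟨?_, (hc1 y h').2 _ (hlt x hx)⟩⟩
      · rintro rfl
        exact (hc1 y h').1 e1
      · rintro rfl
        exact (hc2 y h' v hw).1 e1
    · simp only [if_neg h, if_neg h'] at hv hw ⊢
      have e1 := (hFl x (mem_sdiff.2 ⟨hx, h⟩) v hv).1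
      refine ⟨?_, fun hne => ⟨?_, fun e => hne ?_⟩⟩
      · rintro rfl
        exact hnot _ (hlt y hy) e1
      · rintro rfl
        exact disjoint_left.1
          (h2 x (mem_sdiff.2 ⟨hx, h⟩) y (mem_sdiff.2 ⟨hy, h'⟩) hne (Or.inl hxy)) hv hw
      · have e2 := hinj _ (hlt x hx) _ (hlt y hy) e
        exact Prod.ext hxy (by omega)
  · intro x hx y hy v hv w hw e
    by_cases h : x ∈ C <;> by_cases h' : y ∈ C
    · simp only [if_pos h, if_pos h'] at hv hw e
      exact ts.ed x h y h' v hv w hw e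
    · simp only [if_pos h, if_neg h'] at hv hw e
      rcases Sym2.eq_iff.1 e with ⟨e1, _⟩ | ⟨_, e1⟩
      · exact absurd e1.symm ((hc1 x h).2 _ (hlt y hy))
      · exact absurd e1.symm ((hc2 x h v hv).2 _ (hlt y hy))
    · simp only [if_neg h, if_pos h'] at hv hw e
      rcases Sym2.eq_iff.1 e with ⟨e1, _⟩ | ⟨e1, _⟩
      · exact absurd e1 ((hc1 y h').2 _ (hlt x hx))
      · exact absurd e1 ((hc2 y h' w hw).2 _ (hlt x hx))
    · simp only [if_neg h, if_neg h'] at hv hw e
      rcases Sym2.eq_iff.1 e with ⟨e1, e2⟩ | ⟨e1, _⟩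
      · by_contra hne
        have e3 := hinj _ (hlt x hx) _ (hlt y hy) e1
        rw [← e2] at hw
        exact disjoint_left.1
          (h2 x (mem_sdiff.2 ⟨hx, h⟩) y (mem_sdiff.2 ⟨hy, h'⟩) hne (Or.inr e3)) hv hw
      · have e3 := (hFl y (mem_sdiff.2 ⟨hy, h'⟩) w hw).1
        rw [← e1] at e3
        exact absurd e3 (hnot _ (hlt x hx))
  · intro x h
    simp only [if_pos h, and_self]
  · intro x hx h
    simp only [if_neg h, true_and]
    exact fun v hv => (hFl x (mem_sdiff.2 ⟨hx, h⟩) v hv).1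
  · intro v T hT
    have hT' : ∀ w ∈ T, ∃ x ∈ range t ×ˢ range K \ C,
        (v = Fc (x.1 + x.2) ∧ w ∈ t2 x) ∨ (w = Fc (x.1 + x.2) ∧ v ∈ t2 x) := by
      intro w hw
      obtain ⟨x, hx, e⟩ := hT w hw
      simp only [if_neg (hgrid x hx).2.2] at e
      exact ⟨x, hx, e⟩
    by_cases hv : v ∈ Fl
    · have e1 : T ⊆ ((range t ×ˢ range K \ C).filter fun x => v ∈ t2 x).image
          fun x => Fc (x.1 + x.2) := by
        intro w hw
        obtain ⟨x, hx, ⟨e, _⟩ | ⟨e, e'⟩⟩ := hT' w hw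
        · rw [e] at hv
          exact absurd hv (hnot _ (hlt x (mem_sdiff.1 hx).1))
        · exact mem_image.2 ⟨x, mem_filter.2 ⟨hx, e'⟩, e.symm⟩
      refine (card_le_card e1).trans (card_image_le.trans ?_)
      refine (card_le_card_of_injOn (t := range t) Prod.fst ?_ ?_).trans (card_range t).le
      · intro x hx
        exact mem_coe.2 (mem_range.2 (hgrid x (mem_filter.1 (mem_coe.1 hx)).1).1)
      · intro x hx y hy e
        by_contra hne
        have ex := mem_filter.1 (mem_coe.1 hx)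
        have ey := mem_filter.1 (mem_coe.1 hy)
        exact disjoint_left.1 (h2 x ex.1 y ey.1 hne (Or.inl e)) ex.2 ey.2
    · have e1 : T ⊆ ((range t ×ˢ range K \ C).filter fun x => v = Fc (x.1 + x.2)).biUnion t2 := by
        intro w hw
        obtain ⟨x, hx, ⟨e, e'⟩ | ⟨_, e'⟩⟩ := hT' w hw
        · exact mem_biUnion.2 ⟨x, mem_filter.2 ⟨hx, e⟩, e'⟩
        · exact absurd (hFl x hx v e').1 hv
      refine (card_le_card e1).trans (card_biUnion_le.trans ?_)
      rw [sum_congr rfl fun x hx => (h1 x (mem_filter.1 hx).1).2]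
      refine (Fill.sum_le t K a _ (fun y hy => (hgrid y (mem_filter.1 hy).1).2.1) ?_).trans
        (hg.symm.le.trans hgt)
      intro x hx y hy e
      have ex := mem_filter.1 hx
      have ey := mem_filter.1 hy
      have e3 := hinj _ (hlt x (mem_sdiff.1 ex.1).1) _ (hlt y (mem_sdiff.1 ey.1).1)
        (ex.2.symm.trans ey.2)
      exact Prod.ext (by omega) e

theorem t2 (hf : FillS) : T2S := by
  intro V _ _ G _ n r c β o U W X Y J M a b y u e Es yv σ0 σ1 ny ar C0 C1 tc0 tc1 tl0 tl1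
    hB hJ hP hE hT
  have hD : 100 * r ≤ n / 10000 := by
    have e1 := hB.n1
    rw [Nat.le_div_iff_mul_le (by norm_num)]
    refine le_trans ?_ e1
    rw [mul_right_comm]
    exact Nat.mul_le_mul_right r (by norm_num)
  have ht : 1000 * r ≤ 10 ^ 13 * r := Nat.mul_le_mul_right r (by norm_num)
  have hny : ny ≤ r := hP.ey.le.trans hB.c5
  have s5 := hP.s5
  have s6 := hP.s6
  have ho : X.card + c ≤ o := by
    rw [hE.eo]
    omega
  have hmem := hE.mem
  have hinj := hE.inj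
  have hlow := hE.low
  have hsub := hT.sub
  generalize 10 ^ 13 * r = t at *
  generalize n / 10000 = D at *
  have hreal : ∀ x ∈ C1, ∀ v ∈ insert (tc1 x) (tl1 x), ∀ k < 2 * t, e (o + 6 * D + k) ≠ v := by
    intro x hx v hv k hk he
    have hU : v ∈ U := he ▸ hmem _ (by omega)
    have hW : v ∉ W := disjoint_left.1 hB.dj hU
    obtain ⟨l1, l2⟩ := hT.loc x hx
    rcases mem_insert.1 hv with hv | hv
    · rw [← hv] at l2
      rcases l2 with l2 | l2 | ⟨k', hk', _, l2, _⟩
      · exact hW l2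
      · rcases mem_union.1 l2 with l3 | l3
        · obtain ⟨j, hj, ej⟩ := (hE.ex v).1 l3
          have := hinj _ (by omega) _ (by omega) (ej.trans he.symm)
          omega
        · rw [hJ.eJ] at l3
          obtain ⟨j, hj, ej⟩ := mem_image.1 l3
          rw [mem_range] at hj
          rw [← hE.ea j hj] at ej
          have := hinj _ (by omega) _ (by omega) (ej.trans he.symm)
          omega
      · have := hinj _ (by omega) _ (by omega) (he.trans l2)
        omega
    · exact hW (l1 hv)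
  have hFl : ∀ v, v ∈ (Ico (t + (σ0 + σ1 + ny)) (2 * t)).image (fun l => e (o + 6 * D + l)) ↔
      ∃ l, (t + (σ0 + σ1 + ny) ≤ l ∧ l < 2 * t) ∧ e (o + 6 * D + l) = v := by
    intro v
    simp only [mem_image, mem_Ico]
  have hnot : ∀ k < t + (σ0 + σ1 + ny), e (o + 6 * D + k) ∉
      (Ico (t + (σ0 + σ1 + ny)) (2 * t)).image (fun l => e (o + 6 * D + l)) := by
    intro k hk h
    obtain ⟨l, hl, el⟩ := (hFl _).1 h
    have := hinj _ (by omega) _ (by omega) el
    omega
  obtain ⟨h1, tc, tl, h2, h3, h4, h5⟩ := hf V G t (σ0 + σ1 + ny) (σ0 + 5 * σ1) (40 * r) ar C1 tc1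
    tl1 (fun k => e (o + 6 * D + k))
    ((Ico (t + (σ0 + σ1 + ny)) (2 * t)).image (fun l => e (o + 6 * D + l))) hP.s7.symm
    (by omega) hsub hT.ts
    (fun k hk l hl h => by
      have := hinj _ (by omega) _ (by omega) h
      omega) hnot
    (fun x hx v hv => ⟨fun h => by
      obtain ⟨l, hl, el⟩ := (hFl _).1 h
      exact hreal x hx v hv l hl.2 el, fun k hk => hreal x hx v hv k (by omega)⟩)
    (fun k hk => by
      have e1 := hlow (6 * D + k) (by omega) (by omega) (by omega)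
      rw [← add_assoc] at e1
      refine le_trans (card_le_card ?_) e1
      intro v hv
      obtain ⟨hv1, hv2⟩ := mem_filter.1 hv
      refine mem_filter.2 ⟨?_, ?_, hv2⟩
      · obtain ⟨l, hl, el⟩ := (hFl _).1 hv1
        exact el ▸ hmem _ (by omega)
      · intro h
        rw [h] at hv1
        exact hnot k hk hv1)
    (by
      rw [card_image_of_injOn, Nat.card_Ico]
      · omega
      · intro k hk l hl h
        have e1 := mem_Ico.1 (mem_coe.1 hk)
        have e2 := mem_Ico.1 (mem_coe.1 hl)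
        have := hinj _ (by omega) _ (by omega) h
        omega)
  refine ⟨_, tc, tl, rfl, h2, h1, h3, ?_, h5⟩
  intro x hx hx' v hv
  obtain ⟨e1, e2⟩ := h4 x hx hx'
  rw [mem_product, mem_range, mem_range] at hx
  rcases mem_insert.1 hv with hv | hv
  · exact ⟨x.1 + x.2, by omega, (hv.trans e1).symm⟩
  · obtain ⟨l, hl, el⟩ := (hFl _).1 (e2 hv)
    exact ⟨l, hl.2, el⟩

end Pool.Agent.MP_f65396_co.h81n
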