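import Pool.Agent.MP_f65396_co.h81n.SpecB

/-! All choices together, and the private names. -/

set_option autoImplicit false

namespace Pool.Agent.MP_f65396_co.h81n

open Finset

namespace FnL

theorem inj {V : Type} (S : Finset V) (T : Finset ℕ) :
    ∃ f : V → ℕ, S.card ≤ T.card → (∀ a ∈ S, f a ∈ T) ∧ ∀ a ∈ S, ∀ b ∈ S, f a = f b → a = b := by
  by_cases h : S.card ≤ T.card
  · obtain ⟨f, h1, h2⟩ := Set.Finite.exists_injOn_of_encard_le (s := (S : Set V))
      (t := (T : Set ℕ)) S.finite_toSet (by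
        rw [Set.encard_coe_eq_coe_finsetCard, Set.encard_coe_eq_coe_finsetCard]
        exact_mod_cast h)
    exact ⟨f, fun _ => ⟨fun a ha => h1 ha, fun a ha b hb e => h2 ha hb e⟩⟩
  · exact ⟨fun _ => 0, fun k => absurd k h⟩

theorem mem_SV {V : Type} [DecidableEq V] {C : Finset (ℕ × ℕ)} {tc : ℕ × ℕ → V}
    {tl : ℕ × ℕ → Finset V} {i : ℕ} {v : V} : v ∈ SV C tc tl i ↔
      ∃ x ∈ C, x.1 = i ∧ (tl x).Nonempty ∧ v ∈ insert (tc x) (tl x) := by
  unfold SV
  simp only [mem_biUnion, mem_filter, and_assoc]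

theorem card_SV {V : Type} [DecidableEq V] (G : SimpleGraph V) {t K : ℕ} {sz : ℕ × ℕ → ℕ}
    {tc : ℕ × ℕ → V} {tl : ℕ × ℕ → Finset V} (h : TS G (range t ×ˢ range K) sz tc tl) (i : ℕ) :
    (SV (range t ×ˢ range K) tc tl i).card ≤ ∑ α ∈ range K, sz (i, α) + K := by
  unfold SV
  refine card_biUnion_le.trans ?_
  refine (sum_le_sum (g := fun x => sz x + 1) fun x hx => ?_).trans ?_
  · rw [← h.cd x (mem_filter.1 hx).1]
    exact card_insert_le _ _
  · refine (sum_le_sum_of_subset (t := (range K).image fun α => (i, α)) fun x hx => ?_).trans ?_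
    · obtain ⟨h1, h2, -⟩ := mem_filter.1 hx
      exact mem_image.2 ⟨x.2, (mem_product.1 h1).2, Prod.ext h2.symm rfl⟩
    · rw [sum_image fun a _ b _ e => (Prod.ext_iff.1 e).2, sum_add_distrib]
      simp

end FnL

theorem name : NameS := by
  intro V _ q D U P op y u hq hP hm ho hi hk
  choose Φ hΦ using fun (S : Finset V) (T : Finset ℕ) => FnL.inj S T
  let I : V → Finset ℕ := fun v => (range (3 * D)).filter fun i => v = y i ∨ v = u i
  let S : V → Finset V := fun v => P v ∪ (I v).biUnion fun i => P (u i) ∪ P (y i)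
  let T : V → Finset ℕ := fun v => (range (3 * q)).filter fun k => op k ≠ v
  have I1 : ∀ i < 3 * D, ∀ v, v = y i ∨ v = u i → I v = {i} := by
    intro i h v hv
    ext k
    simp only [I, mem_filter, mem_range, mem_singleton]
    refine ⟨fun ⟨a, b⟩ => ?_, fun e => e ▸ ⟨h, hv⟩⟩
    rcases hv with rfl | rfl <;> rcases b with b | b
    · exact ((hi i h k a).1 b).symm
    · exact absurd b (hi i h k a).2.2
    · exact absurd b.symm (hi k a i h).2.2
    · exact ((hi i h k a).2.1 b).symm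
  have S1 : ∀ i < 3 * D, ∀ v, v = y i ∨ v = u i → S v = P (u i) ∪ P (y i) := by
    intro i h v hv
    simp only [S, I1 i h v hv, singleton_biUnion]
    refine union_eq_right.2 ?_
    rcases hv with rfl | rfl
    · exact subset_union_right
    · exact subset_union_left
  have T1 : ∀ i < 3 * D, ∀ v, v = y i ∨ v = u i → T v = range (3 * q) := by
    intro i h v hv
    refine filter_true_of_mem fun k hk' => ?_
    rcases hv with rfl | rfl
    · exact ((hk k (mem_range.1 hk')).2 i h).1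
    · exact ((hk k (mem_range.1 hk')).2 i h).2
  have c1 : ∀ v ∈ U, (S v).card ≤ 2 * q := by
    intro v hv
    rcases (I v).eq_empty_or_nonempty with e | ⟨i, h⟩
    · have := hP v hv
      simp only [S, e, biUnion_empty, union_empty]
      omega
    · obtain ⟨h1, h2⟩ := mem_filter.1 h
      rw [mem_range] at h1
      rw [S1 i h1 v h2]
      have := hP _ (hm i h1).1
      have := hP _ (hm i h1).2
      have := card_union_le (P (u i)) (P (y i))
      omega
  have c2 : ∀ v, 2 * q ≤ (T v).card := by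
    intro v
    have e := card_filter_add_card_filter_not (s := range (3 * q)) fun k => op k ≠ v
    have : ((range (3 * q)).filter fun k => ¬ op k ≠ v).card ≤ 1 := by
      refine card_le_one.2 fun a ha b hb => ?_
      obtain ⟨a1, a2⟩ := mem_filter.1 ha
      obtain ⟨b1, b2⟩ := mem_filter.1 hb
      exact (hk a (mem_range.1 a1)).1 b (mem_range.1 b1) ((not_not.1 a2).trans (not_not.1 b2).symm)
    rw [card_range] at e
    show 2 * q ≤ ((range (3 * q)).filter fun k => op k ≠ v).card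
    omega
  have H := fun v hv => hΦ (S v) (T v) ((c1 v hv).trans (c2 v))
  have sb : ∀ v, ∀ w ∈ P v, w ∈ S v := fun v w h => mem_union_left _ h
  refine ⟨fun v => Φ (S v) (T v), fun v hv w hw => ?_, fun v hv w hw w' hw' => ?_,
    fun i h w hw w' hw' => ?_, fun k h w hw e => ?_⟩
  · exact mem_range.1 (mem_filter.1 ((H v hv).1 w (sb v w hw))).1
  · exact (H v hv).2 w (sb v w hw) w' (sb v w' hw')
  · have e1 : S (y i) = S (u i) := (S1 i h _ (Or.inl rfl)).trans (S1 i h _ (Or.inr rfl)).symm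
    have e2 : T (y i) = T (u i) := (T1 i h _ (Or.inl rfl)).trans (T1 i h _ (Or.inr rfl)).symm
    show Φ (S (u i)) (T (u i)) w = Φ (S (y i)) (T (y i)) w' ↔ _
    rw [e1, e2]
    exact ⟨(H _ (hm i h).2).2 w (sb _ w hw) w' (e1 ▸ sb _ w' hw'), fun e => e ▸ rfl⟩
  · have := (mem_filter.1 ((H _ (ho k h)).1 w (sb _ w hw))).2
    exact this (congrArg op e)

theorem fn : FnS := by
  intro V _ _ G _ n r c β o U W X Y J M a b y u e Es yv σ0 σ1 ny ar C0 C1 C tc0 tc1 tc tl0 tl1 tl
    hB hJ hP _ hE h1 h2 ht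
  have sub : C1 ⊆ C := by
    intro x hx
    obtain ⟨a1, a2⟩ := mem_product.1 (h1.sub hx)
    rw [h2.eC]
    exact mem_product.2 ⟨mem_range.2 ((mem_range.1 a1).trans_le (Nat.sub_le _ _)), a2⟩
  have te : ∀ v w, TE C1 tc1 tl1 v w → TE C tc tl v w := by
    rintro v w ⟨x, hx, h⟩
    refine ⟨x, sub hx, ?_⟩
    rw [(h2.eqn x hx).1, (h2.eqn x hx).2]
    exact h
  have dj : ∀ v ∈ U, v ∉ W := fun v hv => disjoint_left.1 hB.dj hv
  have zl : ∀ v, v ∈ X ∪ J ↔ ∃ k < X.card + c, e k = v := by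
    intro v
    rw [mem_union, hE.ex, hJ.eJ, mem_image]
    constructor
    · rintro (⟨k, hk, h⟩ | ⟨j, hj, h⟩)
      · exact ⟨k, by omega, h⟩
      · rw [mem_range] at hj
        exact ⟨X.card + j, by omega, (hE.ea j hj).trans h⟩
    · rintro ⟨k, hk, h⟩
      by_cases hx : k < X.card
      · exact Or.inl ⟨k, hx, h⟩
      · refine Or.inr ⟨k - X.card, mem_range.2 (by omega), ?_⟩
        rw [← hE.ea _ (by omega), ← h]
        congr 1
        omega
  have pz : ∀ v ∈ X ∪ J, PP G W C tc tl v = ∅ := fun v hv =>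
    filter_eq_empty_iff.2 fun w hw h => h.2 (te _ _ (h1.cov v (Or.inr hv) w hw h.1))
  have fl : ∀ v ∈ U, ∀ w ∈ U, TE C tc tl v w → TE (C \ C1) tc tl v w := by
    rintro v hv w hw ⟨x, hx, h⟩
    refine ⟨x, mem_sdiff.2 ⟨hx, fun hx1 => ?_⟩, h⟩
    rw [(h2.eqn x hx1).2] at h
    rcases h with h | h
    · exact dj w hw ((h1.loc x hx1).1 h.2)
    · exact dj v hv ((h1.loc x hx1).1 h.2)
  refine
    { toNr := hB.toNr, ec := hJ.ec, hx := hB.c4, eo := hE.eo, eC := h2.eC, mem := hE.mem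
      inj := hE.inj, xs := fun v hv h => ?_, par := hE.par, bot := fun j hj => ?_, ts := h2.ts
      s1 := h2.s1, s2 := fun i α => ?_
      ww := fun v hv w hw h => te _ _ (h1.cov v (Or.inl hv) w hw h)
      zw := fun k hk => pz _ ((zl _).2 ⟨k, hk, rfl⟩), pq := fun v hv => ?_
      uu := fun v hv => h2.uu v _ fun w hw => fl v hv w (mem_filter.1 hw).1 (mem_filter.1 hw).2
      loc := fun i v hv hu => ?_, crd := fun i => ?_, cf := fun i hi w hw hp => ?_
      tu := fun i hi v hv h => ?_, top := ht }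
  · by_contra k
    obtain ⟨j, hj, ej⟩ := (hE.ex v).1 ((hB.mX v).2 ⟨hv, not_le.1 k⟩)
    exact h j hj ej
  · have e1 := hJ.ec
    have e2 := hJ.eβ
    rw [hE.ea j (by omega), hE.eb j (by omega)]
    exact (hJ.bm j (by omega)).2
  · unfold szf
    exact min_le_min le_rfl (Nat.sub_le_sub_right (Nat.sub_le_sub_left (Nat.le_succ i) _) _)
  · by_cases hy : v ∈ Y
    · rw [pz v (hJ.yJ hy)]
      exact Nat.zero_le _
    · have : dW G W v < 10 ^ 8 * r := not_le.1 fun k => hy ((hB.mY v).2 ⟨hv, k⟩)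
      refine le_trans (card_le_card fun w hw => ?_) this.le
      exact mem_filter.2 ⟨(mem_filter.1 hw).1, (mem_filter.1 hw).2.1⟩
  · obtain ⟨x, hx, rfl, -, h⟩ := FnL.mem_SV.1 hv
    by_cases hx1 : x ∈ C1
    · rw [(h2.eqn x hx1).1, (h2.eqn x hx1).2, mem_insert] at h
      obtain ⟨l1, l2⟩ := h1.loc x hx1
      rcases h with rfl | h
      · rcases l2 with l | l | ⟨k, -, k2, k3, -⟩
        · exact absurd l (dj _ hu)
        · exact Or.inl ((zl _).1 l)
        · exact Or.inr (Or.inr ⟨k, k2, k3.symm⟩)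
      · exact absurd (l1 h) (dj _ hu)
    · exact Or.inr (Or.inl (h2.fil x hx hx1 v h))
  · have e1 := h2.ts
    rw [h2.eC] at e1 ⊢
    refine (FnL.card_SV G e1 i).trans ?_
    rw [h2.s1]
    have := min_le_left (σ0 + 5 * σ1) (10 ^ 13 * r - i)
    have := hP.s5
    have := hP.s6
    have := hP.ey
    have := hB.c5
    generalize min (σ0 + 5 * σ1) (10 ^ 13 * r - i) = m at *
    omega
  · obtain ⟨x, hx, rfl, hn, h⟩ := FnL.mem_SV.1 hw
    obtain ⟨p1, p2, p3⟩ := mem_filter.1 hp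
    by_cases hx1 : x ∈ C1
    · rw [(h2.eqn x hx1).2] at hn
      rw [(h2.eqn x hx1).1, (h2.eqn x hx1).2] at h
      by_cases hd : x.1 < 300 * r
      · have hx0 := (h1.old x hd).1 hx1
        rw [(h1.eqn x hx0).2] at hn
        rw [(h1.eqn x hx0).1, (h1.eqn x hx0).2] at h
        exact p3 (te _ _ (h1.cf _ hd w (FnL.mem_SV.2 ⟨x, hx0, rfl, hn, h⟩) p1 p2))
      · exact (h1.av x hx1 (not_lt.1 hd) w h p1).1 p2
    · obtain ⟨k, hk, ek⟩ := h2.fil x hx hx1 w h
      exact dj w (ek ▸ hE.mem _ (Nat.add_lt_add_left hk _)) p1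
  · have hi' : o + i < o + 6 * (n / 10000) + 2 * (10 ^ 13 * r) :=
      (Nat.add_lt_add_left hi _).trans_le (Nat.le_add_right _ _)
    obtain ⟨x, hx, h'⟩ := fl _ (hE.mem _ hi') v hv h
    obtain ⟨k, hk, ek⟩ := h2.fil x (mem_sdiff.1 hx).1 (mem_sdiff.1 hx).2 (e (o + i)) (by
      rcases h' with h' | h'
      · exact mem_insert.2 (Or.inl h'.1)
      · exact mem_insert_of_mem h'.2)
    have := hE.inj _ (Nat.add_lt_add_left hk _) _ hi' ek
    omega

end Pool.Agent.MP_f65396_co.h81n
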