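import Pool.Agent.MP_f65396_co.h81n.SpecB

/-! The inequality for the top pairs. -/

set_option autoImplicit false

namespace Pool.Agent.MP_f65396_co.h81n

open Finset
open Pool.Agent.MP_f65396_co.h15l (tcost)

section aux

variable {V : Type} [DecidableEq V]

theorem ft_mem (C : Finset (ℕ × ℕ)) (tc : ℕ × ℕ → V) (tl : ℕ × ℕ → Finset V) (i : ℕ) (v : V) :
    v ∈ SV C tc tl i ↔ ∃ x ∈ C, x.1 = i ∧ (tl x).Nonempty ∧ v ∈ insert (tc x) (tl x) := by
  unfold SV
  simp only [mem_biUnion, mem_filter]
  constructor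
  · rintro ⟨x, ⟨h1, h2, h3⟩, h4⟩
    exact ⟨x, h1, h2, h3, h4⟩
  · rintro ⟨x, h1, h2, h3, h4⟩
    exact ⟨x, ⟨h1, h2, h3⟩, h4⟩

/-- The part of the stars of one depth inside `U` is bounded cell by cell. -/
theorem ft_sum (t K : ℕ) (tc : ℕ × ℕ → V) (tl : ℕ × ℕ → Finset V) (U : Finset V) (i : ℕ)
    (f : ℕ → ℕ)
    (hf : i < t → ∀ α < K, (insert (tc (i, α)) (tl (i, α)) ∩ U).card ≤ f α) :
    (SV (range t ×ˢ range K) tc tl i ∩ U).card ≤ ∑ α ∈ range K, f α := by
  by_cases hi : i < t
  · have hsub : SV (range t ×ˢ range K) tc tl i ∩ U ⊆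
        (range K).biUnion (fun α => insert (tc (i, α)) (tl (i, α)) ∩ U) := by
      intro v hv
      rw [mem_inter, ft_mem] at hv
      obtain ⟨⟨⟨x1, x2⟩, hx, h1, _, h3⟩, hU⟩ := hv
      have h1' : x1 = i := h1
      subst h1'
      rw [mem_product] at hx
      exact mem_biUnion.2 ⟨x2, hx.2, mem_inter.2 ⟨h3, hU⟩⟩
    exact (card_le_card hsub).trans
      (card_biUnion_le.trans (sum_le_sum fun α hα => hf hi α (mem_range.1 hα)))
  · have h0 : SV (range t ×ˢ range K) tc tl i ∩ U = ∅ := by
      rw [eq_empty_iff_forall_notMem]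
      intro v hv
      rw [mem_inter, ft_mem] at hv
      obtain ⟨⟨x, hx, h1, _, _⟩, _⟩ := hv
      rw [mem_product, mem_range] at hx
      exact hi (h1 ▸ hx.1)
    rw [h0, card_empty]
    exact Nat.zero_le _

/-- The loss reads only the pairs up to the given depth. -/
theorem ft_cost (U : Finset V) (h : V → V → Prop) [DecidableRel h] (S : ℕ → Finset V)
    (y u y' u' : ℕ → V) (i : ℕ) (hy : ∀ k ≤ i, y' k = y k) (hu : ∀ k ≤ i, u' k = u k) :
    tcost U h S y' u' i ≤ tcost U h (fun _ => ∅) y u i + (S i).card := by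
  unfold tcost
  rw [hy i le_rfl, hu i le_rfl]
  have e1 : ∀ v : V, (range i).filter (fun k => h v (y' k)) =
      (range i).filter (fun k => h v (y k)) :=
    fun v => filter_congr fun k hk => by rw [hy k (mem_range.1 hk).le]
  have e2 : ∀ v : V, (range i).filter (fun k => h v (u' k)) =
      (range i).filter (fun k => h v (u k)) :=
    fun v => filter_congr fun k hk => by rw [hu k (mem_range.1 hk).le]
  rw [e1, e1, e2, e2, union_empty]
  have := card_union_le (U.filter (fun x => h (u i) x ∧ h (y i) x)) (S i)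
  omega

omit [DecidableEq V] in
theorem ft_inj (U : Finset V) (h : V → V → Prop) [DecidableRel h] (v : V) (z : ℕ → V) (i : ℕ)
    (hm : ∀ k < i, z k ∈ U) (hz : ∀ k < i, ∀ l < i, z k = z l → k = l) :
    ((range i).filter (fun k => h v (z k))).card ≤ (U.filter (h v)).card := by
  refine card_le_card_of_injOn z ?_ ?_
  · intro k hk
    have hk' := mem_filter.1 (mem_coe.1 hk)
    exact mem_coe.2 (mem_filter.2 ⟨hm k (mem_range.1 hk'.1), hk'.2⟩)
  · intro k hk l hl hkl
    exact hz k (mem_range.1 (mem_filter.1 (mem_coe.1 hk)).1) l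
      (mem_range.1 (mem_filter.1 (mem_coe.1 hl)).1) hkl

/-- The loss of a pair of vertices with few non-neighbours. -/
theorem ft_big (U : Finset V) (h : V → V → Prop) [DecidableRel h] (S : ℕ → Finset V)
    (y u : ℕ → V) (i d : ℕ) (hym : ∀ k < i, y k ∈ U) (hyi : ∀ k < i, ∀ l < i, y k = y l → k = l)
    (hum : ∀ k < i, u k ∈ U) (hui : ∀ k < i, ∀ l < i, u k = u l → k = l)
    (dy : (U.filter (h (y i))).card ≤ d) (du : (U.filter (h (u i))).card ≤ d) :
    tcost U h S y u i ≤ 5 * d + (S i).card := by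
  unfold tcost
  have a1 := card_union_le (U.filter (fun x => h (u i) x ∧ h (y i) x)) (S i)
  have a2 : (U.filter (fun x => h (u i) x ∧ h (y i) x)).card ≤ (U.filter (h (y i))).card := by
    refine card_le_card fun x hx => ?_
    rw [mem_filter] at hx ⊢
    exact ⟨hx.1, hx.2.2⟩
  have a3 := ft_inj U h (u i) y i hym hyi
  have a4 := ft_inj U h (u i) u i hum hui
  have a5 := ft_inj U h (y i) y i hym hyi
  have a6 := ft_inj U h (y i) u i hum hui
  omega

theorem ft_le (c : V) (L U : Finset V) : (insert c L ∩ U).card ≤ L.card + 1 :=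
  (card_le_card inter_subset_left).trans (card_insert_le c L)

theorem ft_one (c : V) (L U W : Finset V) (hd : Disjoint U W) (hL : L ⊆ W) :
    (insert c L ∩ U).card ≤ if c ∉ W then 1 else 0 := by
  by_cases hc : c ∈ W
  · rw [if_neg (not_not.2 hc), Nat.le_zero, card_eq_zero, eq_empty_iff_forall_notMem]
    intro v hv
    rw [mem_inter, mem_insert] at hv
    rcases hv.1 with h | h
    · exact disjoint_left.1 hd hv.2 (h ▸ hc)
    · exact disjoint_left.1 hd hv.2 (hL h)
  · rw [if_pos hc]
    refine (card_le_card (t := {c}) fun v hv => ?_).trans (card_singleton c).le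
    rw [mem_inter, mem_insert] at hv
    rcases hv.1 with h | h
    · exact mem_singleton.2 h
    · exact absurd (hL h) (disjoint_left.1 hd hv.2)

end aux

theorem ft : FtS := by
  intro V _ _ G _ n r c β o U W X Y J M a b y u e Es yv σ0 σ1 ny ar C0 C1 C tc0 tc1 tc tl0 tl1 tl
    hB hJ hP h0 h3 hE h1 h2 i hi
  have hr := hB.r1
  have hu2 := hB.u2
  have hdj := hB.dj
  have hc5 := hB.c5
  have hny := hP.ey
  have hs5 := hP.s5
  have hs6 := hP.s6
  have hmem := hE.mem
  have hinj := hE.inj
  have hlow := hE.low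
  have hey := hE.ey
  have heC := h2.eC
  have hs1 := h2.s1 i
  have hcd := h2.ts.cd
  have hfil := h2.fil
  have ht : 1000 * r ≤ 10 ^ 13 * r := Nat.mul_le_mul_right r (by norm_num)
  generalize 10 ^ 13 * r = t at hmem hinj hlow heC hs1 hcd hfil ht ⊢
  generalize n / 10000 = D at *
  have hcell : ∀ α, i < t → α < σ0 + σ1 + ny → (i, α) ∈ C := by
    intro α h h'
    rw [heC, mem_product, mem_range, mem_range]
    exact ⟨h, h'⟩
  by_cases hlo : i < 300 * r
  · have hit : i < t := by omega
    -- cells of depth `i` that come from the top stars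
    have hold : ∀ x ∈ C0, x.1 < 300 * r → tc x = tc0 x ∧ tl x = tl0 x := by
      intro x hx hx1
      have hx' := (h1.old x hx1).2 hx
      exact ⟨(h2.eqn x hx').1.trans (h1.eqn x hx).1, (h2.eqn x hx').2.trans (h1.eqn x hx).2⟩
    have htwo : ∀ α < σ0 + σ1, (insert (tc (i, α)) (tl (i, α)) ∩ U).card ≤ 2 := by
      intro α hα
      have k1 := ft_le (tc (i, α)) (tl (i, α)) U
      have k2 := hcd (i, α) (hcell α hit (by omega))
      have k3 : szf t ar (i, α) ≤ ar α := min_le_left _ _
      have k4 := hP.a1 α hα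
      omega
    have hsv : (SV C tc tl i ∩ U).card ≤ ny +
        (if i < 2 * σ0 then ((range σ0).filter (fun α => tc0 (i, α) ∉ W)).card else 2 * σ0) +
        2 * σ1 := by
      have k0 := ft_sum t (σ0 + σ1 + ny) tc tl U i
        (fun α => (insert (tc (i, α)) (tl (i, α)) ∩ U).card) (fun _ _ _ => le_rfl)
      rw [← heC, sum_range_add, sum_range_add] at k0
      have k1 : ∑ α ∈ range σ1, (insert (tc (i, σ0 + α)) (tl (i, σ0 + α)) ∩ U).card ≤
          2 * σ1 := by
        refine (sum_le_card_nsmul _ _ 2 fun α hα => htwo _ ?_).trans ?_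
        · have := mem_range.1 hα
          omega
        · rw [card_range, smul_eq_mul, mul_comm]
      have k2 : ∑ α ∈ range ny,
          (insert (tc (i, σ0 + σ1 + α)) (tl (i, σ0 + σ1 + α)) ∩ U).card ≤ ny := by
        refine (sum_le_card_nsmul _ _ 1 fun α hα => ?_).trans ?_
        · have hα' := mem_range.1 hα
          have hx : (i, σ0 + σ1 + α) ∈ C0 :=
            (h0.cl _).2 ⟨hlo, Or.inr ⟨Nat.le_add_right _ _, by simpa using hα'⟩⟩
          have hW : tl (i, σ0 + σ1 + α) ⊆ W := by
            rw [(hold _ hx hlo).2]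
            exact (h0.ya _ hx (Nat.le_add_right _ _)).2
          refine (ft_one _ _ U W hdj hW).trans ?_
          split_ifs <;> omega
        · rw [card_range, smul_eq_mul, mul_one]
      have k3 : ∑ α ∈ range σ0, (insert (tc (i, α)) (tl (i, α)) ∩ U).card ≤
          if i < 2 * σ0 then ((range σ0).filter (fun α => tc0 (i, α) ∉ W)).card else 2 * σ0 := by
        by_cases hi2 : i < 2 * σ0
        · rw [if_pos hi2, card_filter]
          refine sum_le_sum fun α hα => ?_
          have hα' := mem_range.1 hα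
          have hx : (i, α) ∈ C0 := (h0.cl _).2 ⟨hlo, Or.inl ⟨hα', hi2⟩⟩
          obtain ⟨p, hp, _, hp2⟩ := h0.sg _ hx hα'
          have hW : tl0 (i, α) ⊆ W := by
            rw [hp2]
            exact singleton_subset_iff.2 (hP.mem p hp).2.1
          rw [(hold _ hx hlo).1, (hold _ hx hlo).2]
          exact ft_one _ _ U W hdj hW
        · rw [if_neg hi2]
          refine (sum_le_card_nsmul _ _ 2 fun α hα => htwo _ ?_).trans ?_
          · have := mem_range.1 hα
            omega
          · rw [card_range, smul_eq_mul, mul_comm]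
      omega
    have hM : ∀ v ∈ M, v ∈ U ∧ v ∉ X ∪ J := by
      intro v hv
      rw [hJ.eM, mem_sdiff] at hv
      exact ⟨hv.1, fun h => hv.2 (mem_union_left _ h)⟩
    have hnew : ∀ x ∈ C, x ∉ C1 → ∀ w ∈ insert (tc x) (tl x), w ∉ W := by
      intro x hx hx1 w hw
      obtain ⟨k, hk, rfl⟩ := hfil x hx hx1 w hw
      exact disjoint_left.1 hdj (hmem _ (by omega))
    have hte : ∀ v ∈ M, ∀ w ∈ W, TE C tc tl v w →
        ∃ k < 300 * r, v = u k ∧ w ∈ SV C0 tc0 tl0 k := by
      intro v hv w hw ⟨x, hx, hvw⟩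
      have hx1 : x ∈ C1 := by
        by_contra hx1
        rcases hvw with h | h
        · exact hnew x hx hx1 w (mem_insert_of_mem h.2) hw
        · exact hnew x hx hx1 w (mem_insert.2 (Or.inl h.1)) hw
      have hvW : v ∉ W := disjoint_left.1 hdj (hM v hv).1
      obtain ⟨hl, hc⟩ := h1.loc x hx1
      rw [(h2.eqn x hx1).1, (h2.eqn x hx1).2] at hvw
      rcases hvw with h | h
      · rcases hc with hc | hc | ⟨k, hk, _, hc, hs⟩
        · exact absurd (h.1 ▸ hc) hvW
        · exact absurd (h.1 ▸ hc) (hM v hv).2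
        · exact ⟨k, hk, (h.1.trans hc).trans (hey k hk).2, hs h.2⟩
      · exact absurd (hl h.2) hvW
    have hsub : (W.filter (fun w => G.Adj (u i) w ∨ G.Adj (y i) w)) \ SV C0 tc0 tl0 i ⊆
        (PP G W C tc tl (e (o + 3 * D + i)) ∪ PP G W C tc tl (e (o + i))) \ SV C tc tl i := by
      intro w hw
      rw [mem_sdiff, mem_filter] at hw
      obtain ⟨⟨hwW, hadj⟩, hw0⟩ := hw
      rw [(hey i hlo).1, (hey i hlo).2, mem_sdiff, mem_union]
      constructor
      · rcases hadj with h | h
        · refine Or.inl (mem_filter.2 ⟨hwW, h, fun hT => ?_⟩)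
          obtain ⟨k, hk, k1, k2⟩ := hte _ (h3.mem i hlo).2 w hwW hT
          have hik := (h3.inj i hlo k hk).2.1 k1
          exact hw0 (hik ▸ k2)
        · refine Or.inr (mem_filter.2 ⟨hwW, h, fun hT => ?_⟩)
          obtain ⟨k, hk, k1, _⟩ := hte _ (h3.mem i hlo).1 w hwW hT
          exact (h3.inj i hlo k hk).2.2 k1
      · intro hS
        obtain ⟨x, hx, x1, xn, xw⟩ := (ft_mem _ _ _ _ _).1 hS
        by_cases hx1 : x ∈ C1
        · have hx3 : x.1 < 300 * r := by omega
          have hx0 := (h1.old x hx3).1 hx1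
          rw [(hold x hx0 hx3).1, (hold x hx0 hx3).2] at xw
          rw [(hold x hx0 hx3).2] at xn
          exact hw0 ((ft_mem _ _ _ _ _).2 ⟨x, hx0, x1, xn, xw⟩)
        · exact hnew x hx hx1 w xw hwW
    have k1 := card_le_card hsub
    have k2 := h3.top i hlo
    have k3 := ft_cost U (hh G) (fun k => SV C tc tl k ∩ U) y u (fun k => e (o + k))
      (fun k => e (o + 3 * D + k)) i (fun k hk => (hey k (by omega)).1)
      (fun k hk => (hey k (by omega)).2)
    have k4 : min (σ0 + 5 * σ1) (t - i) = σ0 + 5 * σ1 := min_eq_left (by omega)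
    rw [k4]
    beta_reduce at k3
    generalize (if i < 2 * σ0 then ((range σ0).filter (fun α => tc0 (i, α) ∉ W)).card
      else 2 * σ0) = ec at hsv k2
    omega
  · have hsv : (SV C tc tl i ∩ U).card ≤ min (σ0 + 5 * σ1) (t - i) + (σ0 + σ1 + ny) := by
      have k0 := ft_sum t (σ0 + σ1 + ny) tc tl U i (fun α => szf t ar (i, α) + 1)
        (fun h α hα => by
          rw [← hcd (i, α) (hcell α h hα)]
          exact ft_le _ _ U)
      rw [← heC, sum_add_distrib, hs1, sum_const, card_range, smul_eq_mul, mul_one] at k0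
      exact k0
    have dy : hd G U (e (o + i)) ≤ 40 * r := hlow i (by omega) (by omega) (by omega)
    have du : hd G U (e (o + 3 * D + i)) ≤ 40 * r := by
      rw [add_assoc]
      exact hlow (3 * D + i) (by omega) (by omega) (by omega)
    have k3 := ft_big U (hh G) (fun k => SV C tc tl k ∩ U) (fun k => e (o + k))
      (fun k => e (o + 3 * D + k)) i (40 * r) (fun k hk => hmem _ (by omega))
      (fun k hk l hl h => by
        have := hinj (o + k) (by omega) (o + l) (by omega) h
        omega)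
      (fun k hk => hmem _ (by omega))
      (fun k hk l hl h => by
        have := hinj (o + 3 * D + k) (by omega) (o + 3 * D + l) (by omega) h
        omega) dy du
    beta_reduce at k3
    generalize min (σ0 + 5 * σ1) (t - i) = m at hsv ⊢
    omega

end Pool.Agent.MP_f65396_co.h81n
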