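import Pool.Agent.MP_f65396_co.h81n.SpecB

/-! The second moment bound. -/

set_option autoImplicit false

namespace Pool.Agent.MP_f65396_co.h81n

open Finset

namespace Gap

theorem ar {Q KX KO S N0 N1 n x x1 D q R β : ℤ} (hQ : Q + 47 * q * N1 * x1 ≤ N1 * KX + D * KO)
    (h1 : 2 * KX + KO ≤ S) (h2 : KX ≤ x * N1) (hS : S + n * (n + 1) = N0 * (N0 - 1) + R)
    (k0 : 0 ≤ KO) (x0 : 0 ≤ x) (d0 : 0 ≤ D) (a1 : 8 * D ≤ N1) (a2 : 40 * q ≤ N1)
    (a3 : N1 ≤ N0) (a4 : N0 ≤ N1 + 4 * q) (a5 : 80 * q ≤ R)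
    (hβ : (β = 0 ∧ N0 - n ≤ x) ∨ (β = N0 - n - x ∧ 1 ≤ β)) :
    2 * Q + 2 * N1 * (47 * q * x1 + 20 * q * β) ≤
      2 * (N0 - n - 1) * N1 ^ 2 + N1 * (8 * q * x + R) := by
  obtain ⟨c, rfl⟩ : ∃ c, n = N0 - c := ⟨N0 - n, by ring⟩
  obtain ⟨g, rfl⟩ : ∃ g, N0 = N1 + g := ⟨N0 - N1, by ring⟩
  have g0 : 0 ≤ g := by omega
  have g1 : g ≤ 4 * q := by omega
  have n0 : 0 ≤ N1 := by omega
  have cc : 0 ≤ c * (c - 1) := by
    rcases le_or_gt c 0 with h | h
    · exact mul_nonneg_of_nonpos_of_nonpos h (by omega)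
    · exact mul_nonneg h.le (by omega)
  have s : S ≤ 2 * (c - 1) * (N1 + g) + R := by linarith
  rcases hβ with ⟨rfl, h⟩ | ⟨e, h⟩
  · have b1 : (c - 1) * g ≤ x * (4 * q) :=
      (mul_le_mul_of_nonneg_right (by omega) g0).trans (mul_le_mul_of_nonneg_left g1 x0)
    have b2 : 2 * D * KO ≤ N1 * KO := mul_le_mul_of_nonneg_right (by omega) k0
    have b3 : N1 * (2 * KX + KO) ≤ N1 * (2 * (c - 1) * N1 + 8 * q * x + R) :=
      mul_le_mul_of_nonneg_left (by linarith) n0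
    linarith
  · obtain ⟨δ, rfl⟩ : ∃ δ, β = δ + 1 := ⟨β - 1, by ring⟩
    obtain rfl : c = x + δ + 1 := by omega
    have e0 : 0 ≤ δ := by omega
    have b1 : (N1 - 2 * D) * KX ≤ (N1 - 2 * D) * (x * N1) :=
      mul_le_mul_of_nonneg_left h2 (by omega)
    have b2 : D * (2 * KX + KO) ≤ D * (2 * (x + δ) * (N1 + g) + R) :=
      mul_le_mul_of_nonneg_left (by linarith) d0
    have b3 : x * (2 * D * g) ≤ x * (N1 * (4 * q)) :=
      mul_le_mul_of_nonneg_left (mul_le_mul (by omega) g1 g0 n0) x0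
    have b4 : δ * (8 * D * (N1 + g)) ≤ δ * (N1 * (2 * N1)) :=
      mul_le_mul_of_nonneg_left (mul_le_mul a1 (by omega) (by omega) n0) e0
    have b5 : δ * (40 * q * N1) ≤ δ * (N1 * N1) :=
      mul_le_mul_of_nonneg_left (mul_le_mul_of_nonneg_right a2 n0) e0
    have b6 : 4 * D * R ≤ N1 * R := mul_le_mul_of_nonneg_right (by omega) (by omega)
    have b7 : N1 * (80 * q) ≤ N1 * R := mul_le_mul_of_nonneg_left a5 n0
    linarith

theorem mid {k N q : ℕ} (h1 : 95 * q ≤ k) (h2 : k + 95 * q ≤ N) : k ^ 2 + 47 * q * N ≤ N * k := by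
  obtain ⟨a, rfl⟩ := Nat.exists_eq_add_of_le h1
  obtain ⟨b, rfl⟩ := Nat.exists_eq_add_of_le h2
  nlinarith [Nat.zero_le (a * b), Nat.zero_le (q * a), Nat.zero_le (q * b), Nat.zero_le (q * q)]

variable {V : Type} [Fintype V] [DecidableEq V] (G : SimpleGraph V) [DecidableRel G.Adj]

omit [Fintype V] in
theorem miss {U M : Finset V} (h : M ⊆ U) (P : V → Prop) [DecidablePred P] :
    #(U.filter P) + #M ≤ #(M.filter P) + #U := by
  have a : U.filter P ⊆ M.filter P ∪ U \ M := fun v hv => by grind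
  have := (card_le_card a).trans (card_union_le _ _)
  have := card_sdiff_add_card_eq_card h
  omega

omit [Fintype V] in
/-- Pairs between `X` and `M` are counted twice. -/
theorem two {U X M : Finset V} (hX : X ⊆ U) (hM : M ⊆ U \ X) :
    2 * ∑ v ∈ X, #(M.filter (hh G v)) + ∑ v ∈ U \ X, #(M.filter (hh G v)) ≤ ∑ v ∈ U, hd G U v := by
  have mu : M ⊆ U := hM.trans sdiff_subset
  have a : ∑ v ∈ X, #(M.filter (hh G v)) ≤ ∑ v ∈ X, hd G U v :=
    sum_le_sum fun v _ => card_le_card (filter_subset_filter _ mu)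
  have b : ∑ v ∈ X, #(M.filter (hh G v)) = ∑ v ∈ M, #(X.filter (hh G v)) := by
    simp only [card_filter]
    rw [sum_comm]
    exact sum_congr rfl fun v _ => sum_congr rfl fun w _ =>
      if_congr (and_congr ne_comm (not_congr (G.adj_comm _ _))) rfl rfl
  have c : ∑ v ∈ M, #(X.filter (hh G v)) ≤ ∑ v ∈ U \ X, #(X.filter (hh G v)) :=
    sum_le_sum_of_subset hM
  have d : ∑ v ∈ U \ X, (#(M.filter (hh G v)) + #(X.filter (hh G v))) ≤ ∑ v ∈ U \ X, hd G U v :=
    sum_le_sum fun v _ => by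
      rw [← card_union_of_disjoint (disjoint_filter_filter (disjoint_left.2 fun w a b =>
        (mem_sdiff.1 (hM a)).2 b)), ← filter_union]
      exact card_le_card (filter_subset_filter _ (union_subset mu hX))
  rw [sum_add_distrib] at d
  rw [← sum_sdiff hX]
  omega

theorem deg {U W M : Finset V} (cov : ∀ u v, G.Adj u v → u ∈ U ∨ u ∈ W) (h : M ⊆ U) (v : V) :
    G.degree v + #(M.filter (hh G v)) ≤ #U + dW G W v := by
  have a : G.neighborFinset v ∪ M.filter (hh G v) ⊆ U ∪ W.filter (G.Adj v) := fun w hw => by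
    rcases mem_union.1 hw with k | k
    · have k := (G.mem_neighborFinset v w).1 k
      exact mem_union.2 ((cov w v k.symm).imp_right fun a => mem_filter.2 ⟨a, k⟩)
    · exact mem_union_left _ (h (mem_filter.1 k).1)
  have := (card_le_card a).trans (card_union_le _ _)
  rwa [card_union_of_disjoint (disjoint_left.2 fun w a b =>
    (mem_filter.1 b).2.2 ((G.mem_neighborFinset v w).1 a))] at this

end Gap

theorem gap : GapS := by
  intro V _ _ G _ n r U W X Y M H hM hc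
  have xu : X ⊆ U := fun v hv => ((H.mX v).1 hv).1
  have mu : M ⊆ U := hM.trans sdiff_subset
  have n1 := H.n1
  have r1 := H.r1
  have u2 := H.u2
  have q1 : ∑ v ∈ U \ X, #(M.filter (hh G v)) ^ 2 ≤ n / 20000 * ∑ v ∈ U \ X, #(M.filter (hh G v)) := by
    rw [mul_sum]
    refine sum_le_sum fun v hv => ?_
    rw [sq]
    exact Nat.mul_le_mul_right _ ((card_le_card (filter_subset_filter _ mu)).trans
      (not_lt.1 fun a => (mem_sdiff.1 hv).2 ((H.mX v).2 ⟨(mem_sdiff.1 hv).1, a⟩)))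
  have q2 : ∑ v ∈ X, #(M.filter (hh G v)) ^ 2 + 47 * (10 ^ 8 * r) * #M * #(X \ Y) ≤
      #M * ∑ v ∈ X, #(M.filter (hh G v)) := by
    rw [mul_sum, sdiff_eq_filter, card_filter, mul_sum, ← sum_add_distrib]
    refine sum_le_sum fun v hv => ?_
    split_ifs with a
    · rw [mul_zero, add_zero, sq]
      exact Nat.mul_le_mul_right _ (card_filter_le _ _)
    · have b1 : n / 20000 < #(U.filter (hh G v)) := ((H.mX v).1 hv).2
      have b2 := Gap.miss mu (hh G v)
      have b3 := Gap.deg G H.cov mu v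
      have b4 := H.ud v (xu hv)
      have b5 := not_le.1 fun b => a ((H.mY v).2 ⟨xu hv, b⟩)
      rw [mul_one]
      exact Gap.mid (by omega) (by omega)
  have q3 : ∑ v ∈ X, #(M.filter (hh G v)) ≤ #X * #M :=
    sum_le_card_nsmul _ _ _ fun v _ => card_filter_le _ _
  have q4 : 10 ^ 13 * r ≤ ∑ w ∈ W, G.degree w :=
    H.wc.trans (by simpa using card_nsmul_le_sum W _ 1 fun w hw => (H.wd w hw).1)
  have q5 := Gap.two G xu hM
  have q6 := H.c1
  have q7 := card_le_card mu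
  have q8 : ∑ v ∈ U, #(M.filter (hh G v)) ^ 2 + 47 * (10 ^ 8 * r) * #M * #(X \ Y) ≤
      #M * ∑ v ∈ X, #(M.filter (hh G v)) + n / 20000 * ∑ v ∈ U \ X, #(M.filter (hh G v)) := by
    rw [← sum_sdiff xu]
    omega
  rw [add_assoc] at q6
  have e : ∑ v ∈ U, (#(M.filter (hh G v)) : ℤ) ^ 2 = (∑ v ∈ U, #(M.filter (hh G v)) ^ 2 : ℕ) := by
    push_cast
    rfl
  rw [e]
  generalize ∑ v ∈ U, #(M.filter (hh G v)) ^ 2 = Q at *
  generalize ∑ v ∈ X, #(M.filter (hh G v)) = KX at *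
  generalize ∑ v ∈ U \ X, #(M.filter (hh G v)) = KO at *
  generalize ∑ v ∈ U, hd G U v = S at *
  generalize ∑ v ∈ U, dW G W v = R1 at *
  generalize ∑ w ∈ W, G.degree w = R2 at *
  have u0 : 1 ≤ #U := by omega
  exact Gap.ar (KX := KX) (KO := KO) (S := S) (D := (n / 20000 : ℕ)) (by exact_mod_cast q8)
    (by omega) (by exact_mod_cast q3) (by zify [u0] at q6; push_cast; exact q6) (by omega)
    (by omega) (by omega) (by omega) (by omega) (by omega) (by omega) (by omega) (by omega)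

end Pool.Agent.MP_f65396_co.h81n
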