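import Pool.Agent.MP_f65396_co.h81n.SpecB
import Pool.Agent.MP_f65396_co.h15n.Main
import Pool.Agent.MP_f65396_co.h15l.Main

/-! The three cases cover all graphs. -/

set_option autoImplicit false

namespace Pool.Agent.MP_f65396_co.h81n

open Finset
open Pool.Agent.MP_f65396_co.h15n (Dec0 ein)

theorem join (hn : NearS) : ∃ n0 : ℕ, ∀ (V : Type) [Fintype V] (G : SimpleGraph V) (n : ℕ),
    n0 ≤ n → G.edgeSet.ncard = n * (n + 1) / 2 → Dec0 G n := by
  classical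
  obtain ⟨n0, h0⟩ := h15n.main0 (10 ^ 45) (by norm_num)
  refine ⟨max n0 (10 ^ 46), fun V _ G n h1 hE => ?_⟩
  by_cases a : ∀ S : Finset V, 10 ^ 45 * ein G S ≤ (10 ^ 45 - 1) * n * S.card
  · exact h0 V G n (le_of_max_le_left h1) hE a
  by_cases b : 10 ^ 10 * (G.support.ncard - n) ≤ n
  · obtain ⟨H, a1, a2, a3, a4, a5, -⟩ := h15l.main V G n hE b
    exact ⟨H, a1, a2, a3, a4, a5⟩
  obtain ⟨S, hS⟩ := not_forall.1 a
  exact hn V G n S hE (le_of_max_le_right h1) (not_le.1 hS) (not_le.1 b)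

end Pool.Agent.MP_f65396_co.h81n
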