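import Pool.Agent.MP_f65396_co.h81n.SpecB

/-! The choice of the low vertices. -/

set_option autoImplicit false

namespace Pool.Agent.MP_f65396_co.h81n

open Finset

namespace Jsel

theorem enum {V : Type} (R : Finset V) (v0 : V) : ∃ e : ℕ → V, (∀ j < R.card, e j ∈ R) ∧
    (∀ j < R.card, ∀ k < R.card, e j = e k → j = k) ∧ ∀ v ∈ R, ∃ j < R.card, e j = v := by
  refine ⟨fun j => if h : j < R.card then (R.equivFin.symm ⟨j, h⟩).1 else v0, fun j hj => ?_,
    fun j hj k hk e => ?_,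
    fun v hv => ⟨(R.equivFin ⟨v, hv⟩).1, (R.equivFin ⟨v, hv⟩).2, ?_⟩⟩
  · simp only [dif_pos hj]
    exact (R.equivFin.symm ⟨j, hj⟩).2
  · simp only [dif_pos hj, dif_pos hk] at e
    exact congrArg Fin.val (R.equivFin.symm.injective (Subtype.ext e))
  · simp

variable {V : Type} [Fintype V] [DecidableEq V] {G : SimpleGraph V} [DecidableRel G.Adj]
  {n r : ℕ} {U W X Y : Finset V}

omit [Fintype V] [DecidableEq V] [DecidableRel G.Adj] in
theorem hh_symm {u v : V} (h : hh G u v) : hh G v u := ⟨h.1.symm, fun a => h.2 a.symm⟩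

/-- The ordered non-edges inside `T`. -/
def PN (G : SimpleGraph V) [DecidableRel G.Adj] (T : Finset V) : Finset (V × V) :=
  (T ×ˢ T).filter fun p => hh G p.1 p.2

omit [Fintype V] in
theorem mem_PN {T : Finset V} {p : V × V} : p ∈ PN G T ↔ (p.1 ∈ T ∧ p.2 ∈ T) ∧ hh G p.1 p.2 := by
  rw [PN, mem_filter, mem_product]

omit [Fintype V] in
theorem card_PN (T : Finset V) : (PN G T).card = ∑ u ∈ T, (T.filter (hh G u)).card := by
  rw [PN, card_filter, sum_product]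
  simp only [card_filter]

omit [Fintype V] in
theorem low (hX : X ⊆ U) : ∑ v ∈ U, hd G U v + X.card ≤
    (PN G (U \ X)).card + (U \ X).card * X.card + X.card * U.card := by
  have h1 : ∑ v ∈ U \ X, hd G U v ≤ ∑ u ∈ U \ X, (((U \ X).filter (hh G u)).card + X.card) := by
    refine sum_le_sum fun u _ => (card_le_card fun v hv => ?_).trans (card_union_le _ _)
    rw [mem_filter] at hv
    by_cases k : v ∈ X
    · exact mem_union_right _ k
    · exact mem_union_left _ (mem_filter.2 ⟨mem_sdiff.2 ⟨hv.1, k⟩, hv.2⟩)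
  have h2 : ∑ v ∈ X, (hd G U v + 1) ≤ ∑ _v ∈ X, U.card := by
    refine sum_le_sum fun u hu => ?_
    have : hd G U u ≤ (U.erase u).card := card_le_card fun v hv =>
      mem_erase.2 ⟨(mem_filter.1 hv).2.1, (mem_filter.1 hv).1⟩
    have := card_erase_add_one (hX hu)
    omega
  rw [sum_add_distrib, sum_const, smul_eq_mul, ← card_PN] at h1
  rw [sum_add_distrib, sum_const, sum_const, smul_eq_mul, smul_eq_mul, mul_one] at h2
  rw [← sum_sdiff hX]
  omega

omit [Fintype V] in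
theorem half (T Z : Finset V) :
    (PN G T).card ≤ 2 * ((PN G T).filter fun p => p.2 ∉ Z).card + Z.card * Z.card := by
  have h : PN G T ⊆ (((PN G T).filter fun p => p.2 ∉ Z) ∪
      ((PN G T).filter fun p => p.2 ∉ Z).image Prod.swap) ∪ Z ×ˢ Z := by
    intro p hp
    by_cases k2 : p.2 ∈ Z
    · by_cases k1 : p.1 ∈ Z
      · exact mem_union_right _ (mem_product.2 ⟨k1, k2⟩)
      · rw [mem_PN] at hp
        exact mem_union_left _ (mem_union_right _ (mem_image.2 ⟨p.swap,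
          mem_filter.2 ⟨mem_PN.2 ⟨⟨hp.1.2, hp.1.1⟩, hh_symm hp.2⟩, k1⟩, rfl⟩))
    · exact mem_union_left _ (mem_union_left _ (mem_filter.2 ⟨hp, k2⟩))
  have h1 := (card_le_card h).trans (card_union_le _ _)
  have h2 := card_union_le ((PN G T).filter fun p => p.2 ∉ Z)
    (((PN G T).filter fun p => p.2 ∉ Z).image Prod.swap)
  have h3 := card_image_le (s := (PN G T).filter fun p => p.2 ∉ Z) (f := Prod.swap)
  rw [card_product] at h1
  omega

theorem fib1 (h : Bs G n r U W X Y) {L : Finset (V × V)} (hL : L ⊆ PN G (U \ X)) (v : V) :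
    (L.filter fun p => p.1 = v).card ≤ n / 20000 := by
  rcases (L.filter fun p => p.1 = v).eq_empty_or_nonempty with e | ⟨p, hp⟩
  · rw [e]
    exact Nat.zero_le _
  · rw [mem_filter] at hp
    have k := mem_sdiff.1 (hp.2 ▸ (mem_PN.1 (hL hp.1)).1.1)
    have k1 : hd G U v ≤ n / 20000 := not_lt.1 fun l => k.2 ((h.mX v).2 ⟨k.1, l⟩)
    refine le_trans (card_le_card_of_injOn Prod.snd (fun p hp => ?_) (fun p hp p' hp' e => ?_)) k1
    · rw [mem_coe, mem_filter] at hp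
      have l := mem_PN.1 (hL hp.1)
      exact mem_coe.2 (mem_filter.2 ⟨(mem_sdiff.1 l.1.2).1, hp.2 ▸ l.2⟩)
    · rw [mem_coe, mem_filter] at hp hp'
      exact Prod.ext (hp.2.trans hp'.2.symm) e

theorem fib2 (h : Bs G n r U W X Y) {L : Finset (V × V)} (hL : L ⊆ PN G (U \ X)) (v : V) :
    (L.filter fun p => p.2 = v).card ≤ n / 20000 := by
  rcases (L.filter fun p => p.2 = v).eq_empty_or_nonempty with e | ⟨p, hp⟩
  · rw [e]
    exact Nat.zero_le _
  · rw [mem_filter] at hp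
    have k := mem_sdiff.1 (hp.2 ▸ (mem_PN.1 (hL hp.1)).1.2)
    have k1 : hd G U v ≤ n / 20000 := not_lt.1 fun l => k.2 ((h.mX v).2 ⟨k.1, l⟩)
    refine le_trans (card_le_card_of_injOn Prod.fst (fun p hp => ?_) (fun p hp p' hp' e => ?_)) k1
    · rw [mem_coe, mem_filter] at hp
      have l := mem_PN.1 (hL hp.1)
      exact mem_coe.2 (mem_filter.2 ⟨(mem_sdiff.1 l.1.1).1, hp.2 ▸ hh_symm l.2⟩)
    · rw [mem_coe, mem_filter] at hp hp'
      exact Prod.ext e (hp.2.trans hp'.2.symm)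

theorem wle (h : Bs G n r U W X Y) : W.card ≤ ∑ w ∈ W, G.degree w := by
  rw [card_eq_sum_ones]
  exact sum_le_sum fun w hw => (h.wd w hw).1

theorem many (h : Bs G n r U W X Y) {Z : Finset V} (hZ : Z.card ≤ Y.card + 2) {δ : ℕ}
    (hδ : U.card - n - X.card = δ + 1) :
    δ * n < ((PN G (U \ X)).filter fun p => p.2 ∉ Z).card := by
  have hX : X ⊆ U := fun v hv => ((h.mX v).1 hv).1
  have h1 := low (G := G) hX
  have h2 := half (G := G) (U \ X) Z
  have h3 := h.c1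
  have h4 := wle h
  have h5 : Y.card * (10 ^ 8 * r) ≤ ∑ v ∈ U, dW G W v := by
    refine le_trans ?_ (sum_le_sum_of_subset (s := Y) fun v hv => ((h.mY v).1 hv).1)
    rw [← smul_eq_mul]
    exact card_nsmul_le_sum _ _ _ fun v hv => ((h.mY v).1 hv).2
  have h6 := h.wc
  have h7 := h.c5
  have h8 := h.r1
  have e1 : U.card = n + δ + 1 + X.card := by omega
  have e2 : (U \ X).card = n + δ + 1 := by
    rw [card_sdiff_of_subset hX]
    omega
  have e3 : U.card - 1 = n + δ + X.card := by omega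
  rw [e3] at h3
  rw [e2] at h1
  rw [e1] at h1 h3
  have k1 : Z.card * Z.card ≤ (Y.card + 2) * (Y.card + 2) := Nat.mul_le_mul hZ hZ
  have k2 : Y.card * (Y.card + 4) ≤ Y.card * (10 ^ 8 * r) := Nat.mul_le_mul_left _ (by omega)
  have k3 : 5 ≤ W.card := by omega
  generalize 10 ^ 8 * r = q at *
  nlinarith [Nat.zero_le (δ * δ), Nat.zero_le δ]

theorem pairs (hg : h15n.GreedyS) (h : Bs G n r U W X Y) {Z : Finset V}
    (hZ : Z.card ≤ Y.card + 2) (v0 : V) : ∃ f : ℕ → V × V,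
    (∀ i < U.card - n - X.card,
      ((f i).1 ∈ U \ X ∧ (f i).2 ∈ U \ X) ∧ hh G (f i).1 (f i).2 ∧ (f i).2 ∉ Z) ∧
    ∀ i < U.card - n - X.card, ∀ j < U.card - n - X.card, i ≠ j →
      (f i).1 ≠ (f j).1 ∧ (f i).1 ≠ (f j).2 ∧ (f i).2 ≠ (f j).2 := by
  obtain ⟨f, h1, h2⟩ := hg ℕ (V × V) (range (U.card - n - X.card))
    (fun _ => (PN G (U \ X)).filter fun p => p.2 ∉ Z)
    (fun _ c _ d => (c.1 = d.1 ∨ c.1 = d.2) ∨ (c.2 = d.1 ∨ c.2 = d.2))
    (fun _ _ => 4 * (n / 20000)) (v0, v0) (fun _ c _ d k => by tauto)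
    (fun _ _ _ _ _ d => by
      have hL := filter_subset (fun p : V × V => p.2 ∉ Z) (PN G (U \ X))
      have a1 := fib1 h hL d.1
      have a2 := fib1 h hL d.2
      have a3 := fib2 h hL d.1
      have a4 := fib2 h hL d.2
      rw [filter_or, filter_or, filter_or]
      refine (card_union_le _ _).trans ((Nat.add_le_add (card_union_le _ _)
        (card_union_le _ _)).trans ?_)
      omega)
    (fun i hi => by
      obtain ⟨δ, hδ⟩ : ∃ δ, U.card - n - X.card = δ + 1 :=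
        ⟨U.card - n - X.card - 1, by have := mem_range.1 hi; omega⟩
      rw [sum_const, card_erase_of_mem hi, card_range, hδ, Nat.add_sub_cancel, smul_eq_mul]
      exact lt_of_le_of_lt (Nat.mul_le_mul_left _ (by omega)) (many h hZ hδ))
  refine ⟨f, fun i hi => ?_, fun i hi j hj ij => ?_⟩
  · have k := mem_filter.1 (h1 i (mem_range.2 hi))
    exact ⟨(mem_PN.1 k.1).1, (mem_PN.1 k.1).2, k.2⟩
  · have k := h2 i (mem_range.2 hi) j (mem_range.2 hj) ij
    tauto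

omit [Fintype V] in
theorem fill (T E : Finset V) (d : V → ℕ) (n k : ℕ) (h : 10 * (k + E.card) + n ≤ 10 * T.card) :
    ∃ F ⊆ T \ E, F.card = k ∧ ∀ v ∈ F, n * d v ≤ 10 * ∑ v ∈ T, d v := by
  have h1 : 10 * (T.filter fun v => 10 * ∑ v ∈ T, d v < n * d v).card ≤ n := by
    have a : (T.filter fun v => 10 * ∑ v ∈ T, d v < n * d v).card * (10 * ∑ v ∈ T, d v + 1) ≤
        n * ∑ v ∈ T, d v := by
      rw [mul_sum T d n, ← smul_eq_mul]
      exact (card_nsmul_le_sum _ (fun v => n * d v) _ fun v hv => (mem_filter.1 hv).2).trans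
        (sum_le_sum_of_subset (filter_subset _ _))
    generalize (T.filter fun v => 10 * ∑ v ∈ T, d v < n * d v).card = m at *
    generalize ∑ v ∈ T, d v = s at *
    by_contra c
    have : n * s ≤ 10 * m * s := Nat.mul_le_mul_right _ (by omega)
    have : m = 0 := by nlinarith
    omega
  have h2 := le_card_sdiff (E ∪ T.filter fun v => 10 * ∑ v ∈ T, d v < n * d v) T
  have h3 := card_union_le E (T.filter fun v => 10 * ∑ v ∈ T, d v < n * d v)
  obtain ⟨F, k1, k2⟩ := exists_subset_card_eq (n := k)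
    (s := T \ (E ∪ T.filter fun v => 10 * ∑ v ∈ T, d v < n * d v)) (by omega)
  refine ⟨F, fun v hv => ?_, k2, fun v hv => ?_⟩
  · have l := mem_sdiff.1 (k1 hv)
    exact mem_sdiff.2 ⟨l.1, fun m => l.2 (mem_union_left _ m)⟩
  · have l := mem_sdiff.1 (k1 hv)
    exact not_lt.1 fun m => l.2 (mem_union_right _ (mem_filter.2 ⟨l.1, m⟩))

omit [Fintype V] [DecidableEq V] in
theorem two_sub (T : Finset V) : ∃ Z ⊆ T, Z.card ≤ 2 ∧ (Z.card = 2 ∨ Z = T) := by
  by_cases h : 2 ≤ T.card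
  · obtain ⟨Z, k1, k2⟩ := exists_subset_card_eq h
    exact ⟨Z, k1, k2.le, Or.inl k2⟩
  · exact ⟨T, Subset.rfl, by omega, Or.inr rfl⟩

theorem num {n q β c ρ E E1 : ℕ} (h0 : 0 < n) (h1 : n * ρ ≤ n * ((β + 2) * q) + c * (10 * E1))
    (h2 : E1 ≤ E + ρ + β * q) (h3 : 10000 * c ≤ n) : 100 * ρ ≤ 300 * (β + 1) * q + E := by
  have k1 : 10000 * c * E1 ≤ n * (E + ρ + β * q) := Nat.mul_le_mul h3 h2
  have k2 : n * (1000 * ρ) ≤ n * (1000 * ((β + 2) * q) + (E + ρ + β * q)) := by nlinarith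
  have k3 := Nat.le_of_mul_le_mul_left k2 h0
  nlinarith [Nat.zero_le (β * q), Nat.zero_le q, Nat.zero_le E]

omit [Fintype V] in
theorem sum_un (s t : Finset V) (d : V → ℕ) :
    ∑ v ∈ s ∪ t, d v ≤ ∑ v ∈ s, d v + ∑ v ∈ t, d v := by
  rw [← sum_union_inter]
  exact Nat.le_add_right _ _

omit [Fintype V] [DecidableEq V] in
theorem sum_bd {s : Finset V} {d : V → ℕ} {k q : ℕ} (h : s.card ≤ k) (h' : ∀ v ∈ s, d v ≤ q) :
    ∑ v ∈ s, d v ≤ k * q :=
  (sum_le_card_nsmul _ _ _ h').trans (Nat.mul_le_mul_right _ h)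

end Jsel

open Jsel in
theorem jsel (hg : h15n.GreedyS) : JS := by
  intro V _ _ G _ n r U W X Y h
  have hr := h.r1
  have hn1 := h.n1
  have hu1 := h.u1
  have hu2 := h.u2
  have hx := h.c4
  have hy := h.c5
  have hw := h.wc
  obtain ⟨v0, -⟩ : W.Nonempty := card_pos.1 (by omega)
  have hY : Y ⊆ U := fun v hv => ((h.mY v).1 hv).1
  have hq : ∀ v ∈ U, v ∉ Y → dW G W v ≤ 10 ^ 8 * r := fun v hv k =>
    (not_le.1 fun l => k ((h.mY v).2 ⟨hv, l⟩)).le
  obtain ⟨Z, hZ1, hZ2, hZ3⟩ := two_sub ((U \ X).filter fun v => 1 ≤ dW G W v)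
  obtain ⟨f, hf1, hf2⟩ := pairs hg h (Z := Y ∪ Z) ((card_union_le _ _).trans (by omega)) v0
  obtain ⟨β, hβ⟩ : ∃ β, β = U.card - n - X.card := ⟨_, rfl⟩
  rw [← hβ] at hf1 hf2
  obtain ⟨c, hc⟩ : ∃ c, c + n = U.card + 3 * (10 ^ 8 * r) :=
    ⟨U.card + 3 * (10 ^ 8 * r) - n, by omega⟩
  obtain ⟨A, eA⟩ : ∃ A, A = (range β).image fun i => (f i).1 := ⟨_, rfl⟩
  obtain ⟨Bb, eB⟩ : ∃ Bb, Bb = (range β).image fun i => (f i).2 := ⟨_, rfl⟩
  have mA : ∀ v, v ∈ A ↔ ∃ i < β, (f i).1 = v := fun v => by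
    simp only [eA, mem_image, mem_range]
  have mB : ∀ v, v ∈ Bb ↔ ∃ i < β, (f i).2 = v := fun v => by
    simp only [eB, mem_image, mem_range]
  have hA : A.card = β := by
    rw [eA, card_image_of_injOn, card_range]
    intro i hi j hj e
    by_contra ij
    exact (hf2 i (mem_range.1 hi) j (mem_range.1 hj) ij).1 e
  have hB : Bb.card ≤ β := eB ▸ card_image_le.trans (card_range _).le
  have hJ0 : (A ∪ Y \ X ∪ Z).card ≤ β + r + 2 := by
    have a1 := card_union_le (A ∪ Y \ X) Z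
    have a2 := card_union_le A (Y \ X)
    have a3 : (Y \ X).card ≤ Y.card := card_le_card sdiff_subset
    omega
  obtain ⟨F, hF1, hF2, hF3⟩ := fill (U \ (X ∪ Y)) (A ∪ Y \ X ∪ Z ∪ Bb) (dW G W) n
    (c - (A ∪ Y \ X ∪ Z).card) (by
      have a1 := card_union_le (A ∪ Y \ X ∪ Z) Bb
      have a2 := le_card_sdiff (X ∪ Y) U
      have a3 := card_union_le X Y
      omega)
  obtain ⟨J, eJ⟩ : ∃ J, J = A ∪ Y \ X ∪ Z ∪ F := ⟨_, rfl⟩
  have mJ : ∀ v, v ∈ J ↔ ((v ∈ A ∨ v ∈ Y ∧ v ∉ X) ∨ v ∈ Z) ∨ v ∈ F := fun v => by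
    simp only [eJ, mem_union, mem_sdiff]
  have mF : ∀ v ∈ F, (v ∈ U ∧ v ∉ X ∧ v ∉ Y) ∧ v ∉ A ∪ Y \ X ∪ Z ∧ v ∉ Bb := fun v hv => by
    have := hF1 hv
    rw [mem_sdiff, mem_sdiff, mem_union, mem_union, not_or, not_or] at this
    exact this
  have hJ : J.card = c := by
    rw [eJ, card_union_of_disjoint (disjoint_right.2 fun v hv => (mF v hv).2.1), hF2]
    omega
  have hAJ : A ⊆ J := fun v hv => (mJ v).2 (Or.inl (Or.inl (Or.inl hv)))
  have hZJ : Z ⊆ J := fun v hv => (mJ v).2 (Or.inl (Or.inr hv))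
  have hJU : J ⊆ U \ X := by
    intro v hv
    rcases (mJ v).1 hv with ((k | k) | k) | k
    · obtain ⟨i, hi, rfl⟩ := (mA v).1 k
      exact (hf1 i hi).1.1
    · exact mem_sdiff.2 ⟨hY k.1, k.2⟩
    · exact (mem_filter.1 (hZ1 k)).1
    · exact mem_sdiff.2 ⟨(mF v k).1.1, (mF v k).1.2.1⟩
  obtain ⟨e, he1, he2, he3⟩ := enum (J \ A) v0
  rw [card_sdiff_of_subset hAJ, hJ, hA] at he1 he2 he3
  have hβc : β ≤ c := by omega
  obtain ⟨a, ha1, ha2⟩ : ∃ a : ℕ → V, (∀ j < β, a j = (f j).1) ∧ ∀ j, a (j + β) = e j :=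
    ⟨fun j => if j < β then (f j).1 else e (j - β), fun j hj => if_pos hj, fun j => by
      simp only [if_neg (show ¬ j + β < β by omega), Nat.add_sub_cancel]⟩
  have haA : ∀ j < β, a j ∈ A := fun j hj => (mA _).2 ⟨j, hj, (ha1 j hj).symm⟩
  have haR : ∀ j, j + β < c → a (j + β) ∈ J \ A := fun j hj => ha2 j ▸ he1 j (by omega)
  have cs : ∀ j, j < β ∨ ∃ k, j = k + β := fun j =>
    (lt_or_ge j β).imp id fun l => ⟨j - β, by omega⟩
  have haJ : ∀ j < c, a j ∈ J := fun j hj => by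
    rcases cs j with l | ⟨k, rfl⟩
    · exact hAJ (haA j l)
    · exact (mem_sdiff.1 (haR k hj)).1
  have hbY : ∀ j < β, (f j).2 ∉ Y ∧ (f j).2 ∉ Z := fun j hj => by
    have := (hf1 j hj).2.2
    rwa [mem_union, not_or] at this
  refine ⟨c, β, J, U \ (X ∪ J ∪ Bb), a, fun j => (f j).2, hc, hβ, ?_, by rw [eB],
    fun j hj => hJU (haJ j hj), fun j hj k hk ee => ?_, fun j hj => ⟨?_, ?_⟩,
    fun j hj k hk ee => ?_, fun v hv => ?_, ?_, fun hY0 => ?_⟩
  · ext v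
    rw [mem_image]
    refine ⟨fun hv => ?_, fun ⟨j, hj, ee⟩ => ee ▸ haJ j (mem_range.1 hj)⟩
    by_cases k : v ∈ A
    · obtain ⟨i, hi, rfl⟩ := (mA v).1 k
      exact ⟨i, mem_range.2 (by omega), ha1 i hi⟩
    · obtain ⟨j, hj, rfl⟩ := he3 v (mem_sdiff.2 ⟨hv, k⟩)
      exact ⟨j + β, mem_range.2 (by omega), ha2 j⟩
  · rcases cs j with l | ⟨j', rfl⟩ <;> rcases cs k with m | ⟨k', rfl⟩
    · by_contra jk
      exact (hf2 j l k m jk).1 (by rw [← ha1 j l, ← ha1 k m, ee])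
    · exact ((mem_sdiff.1 (haR k' hk)).2 (ee ▸ haA j l)).elim
    · exact ((mem_sdiff.1 (haR j' hj)).2 (ee ▸ haA k m)).elim
    · rw [ha2, ha2] at ee
      rw [he2 j' (by omega) k' (by omega) ee]
  · have k := mem_sdiff.1 (hf1 j hj).1.2
    rw [mem_sdiff, mem_union, mem_union, not_or, not_or]
    refine ⟨k.1, ⟨k.2, (hbY j hj).1⟩, fun l => ?_⟩
    rcases (mJ _).1 l with ((m | m) | m) | m
    · obtain ⟨i, hi, ee⟩ := (mA _).1 m
      by_cases ij : i = j
      · subst ij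
        exact (hf1 i hi).2.1.1 ee.symm
      · exact (hf2 i hi j hj ij).2.1 ee
    · exact (hbY j hj).1 m.1
    · exact (hbY j hj).2 m
    · exact (mF _ m).2.2 ((mB _).2 ⟨j, hj, rfl⟩)
  · rw [ha1 j hj]
    exact (hf1 j hj).2.1
  · by_contra jk
    exact (hf2 j hj k hk jk).2.2 ee
  · by_cases k : v ∈ X
    · exact mem_union_left _ k
    · exact mem_union_right _ ((mJ v).2 (Or.inl (Or.inl (Or.inr ⟨hv, k⟩))))
  · have a1 : ∑ v ∈ J \ Y, dW G W v ≤ ∑ v ∈ (A ∪ Z) \ Y, dW G W v + ∑ v ∈ F, dW G W v := by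
      refine (sum_le_sum_of_subset fun v hv => ?_).trans (sum_un _ _ _)
      have k := (mJ v).1 (mem_sdiff.1 hv).1
      have l := (mem_sdiff.1 hv).2
      simp only [mem_union, mem_sdiff]
      tauto
    have a2 : ∑ v ∈ (A ∪ Z) \ Y, dW G W v ≤ (β + 2) * (10 ^ 8 * r) := by
      refine sum_bd ((card_le_card sdiff_subset).trans ((card_union_le _ _).trans (by omega)))
        fun v hv => hq v (mem_sdiff.1 (hJU ?_)).1 (mem_sdiff.1 hv).2
      exact (mem_union.1 (mem_sdiff.1 hv).1).elim (fun k => hAJ k) (fun k => hZJ k)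
    have a3 : n * ∑ v ∈ F, dW G W v ≤ c * (10 * ∑ v ∈ U \ (X ∪ Y), dW G W v) := by
      rw [mul_sum F]
      exact sum_bd (by omega) hF3
    have a4 : ∑ v ∈ Bb, dW G W v ≤ β * (10 ^ 8 * r) := by
      refine sum_bd hB fun v hv => ?_
      obtain ⟨j, hj, rfl⟩ := (mB v).1 hv
      exact hq _ (mem_sdiff.1 (hf1 j hj).1.2).1 (hbY j hj).1
    have a5 : ∑ v ∈ U \ (X ∪ Y), dW G W v ≤ ∑ v ∈ U \ (X ∪ J ∪ Bb), dW G W v +
        ∑ v ∈ J \ Y, dW G W v + ∑ v ∈ Bb, dW G W v := by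
      refine (sum_le_sum_of_subset fun v hv => ?_).trans ((sum_un _ _ _).trans
        (Nat.add_le_add_right (sum_un _ _ _) _))
      simp only [mem_union, mem_sdiff] at hv ⊢
      tauto
    refine num (n := n) (c := c) (E1 := ∑ v ∈ U \ (X ∪ Y), dW G W v) (by omega) ?_
      (a5.trans (Nat.add_le_add_left a4 _)) (by omega)
    refine (Nat.mul_le_mul_left n (a1.trans (Nat.add_le_add_right a2 _))).trans ?_
    rw [mul_add]
    exact Nat.add_le_add_left a3 _
  · rw [hY0, sdiff_empty]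
    rcases hZ3 with k | k
    · have a1 : Z.card • 1 ≤ ∑ v ∈ Z, dW G W v :=
        card_nsmul_le_sum _ _ _ fun v hv => (mem_filter.1 (hZ1 hv)).2
      have a2 : ∑ v ∈ Z, dW G W v ≤ ∑ v ∈ X ∪ J, dW G W v :=
        sum_le_sum_of_subset fun v hv => mem_union_right _ (hZJ hv)
      rw [k, smul_eq_mul] at a1
      omega
    · have a1 : ∑ v ∈ U, dW G W v ≤ ∑ v ∈ X ∪ J, dW G W v := by
        refine sum_le_sum_of_ne_zero fun v hv l => ?_
        by_cases m : v ∈ X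
        · exact mem_union_left _ m
        · exact mem_union_right _ (hZJ (k ▸ mem_filter.2 ⟨mem_sdiff.2 ⟨hv, m⟩, by omega⟩))
      have a2 := wle h
      have a3 := h.c2
      omega

end Pool.Agent.MP_f65396_co.h81n
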