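import Pool.Agent.MP_f65396_co.h15l.Spec
import Pool.Agent.MP_f65396_co.h15n.SpecA

/-! Statements of the general tools for nearly complete graphs with many further vertices. -/

set_option autoImplicit false

namespace Pool.Agent.MP_f65396_co.h81n

open Finset
open Pool.Agent.MP_f65396_co.h15l (tcost sg' pcost)
open Pool.Agent.MP_f65396_co.h15n (Dec0)

/-- The ordered complement graph. -/
structure H4 (N n c s D B m t g : ℕ) (h : ℕ → ℕ → Prop) [DecidableRel h] (ω bf : ℕ → ℕ)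
    (S : ℕ → Finset ℕ) : Prop where
  hs : ∀ u v, h u v → h v u
  hi : ∀ u, ¬ h u u
  hN : N = n + c
  hc : 2 ≤ c
  sm : 100 * (c + s + t) ≤ D
  hB : 20 * D ≤ B
  hm : m = 150 * B
  hn : 500 * B ≤ n
  hn' : n < 500 * B + 500
  hD : ∀ x, s ≤ x → x < N → ((range N).filter (h x)).card ≤ D
  hsum : ∑ x ∈ range N, ((range N).filter (h x)).card + n * (n + 1) ≤
    N * (N - 1) + 2 * ∑ p ∈ range N, min g (p + 1 + t - N)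
  par : ∀ i < s, h i (ω i)
  wr : ∀ i < s, N - m - (3 * B + 2 * D) ≤ ω i ∧ ω i < N - m - (3 * B + 2 * D) + B
  wi : ∀ i < s, ∀ k < s, ω i = ω k → i = k
  f2 : ∀ p, bf p ≤ p - (N - m - (3 * B + 2 * D)) ∧ bf p ≤ 2 * B + 2 * D
  f3 : ∀ p, bf p ≤ bf (p + 1) ∧ bf (p + 1) ≤ bf p + 1
  f4 : ∀ p, N - m ≤ p → bf p = 2 * B + 2 * D
  fw : ∀ i < s, bf (ω i) = sg' N s c t h ω S i
  sS : ∀ p, ∀ q ∈ S p, N - t ≤ p ∧ p < N ∧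
    (q < s + c ∨ (310 * B ≤ q ∧ q < 310 * B + D) ∨ (p < q ∧ q < N))
  sC : ∀ p, (S p).card ≤ t
  bot : ∀ j, s ≤ j → j < c → h j (N - m + j)
  top : ∀ j, m - 3 * D ≤ j → j < m →
    pcost N m h S j + 2 ≤ c + min g (N - m + j + 1 + t - N) + (m - 1 - j)

/-- Two stars for every colour, leaving room for further stars on `S p`. -/
structure Out4 (N c s D m t g sp : ℕ) (h : ℕ → ℕ → Prop) (S : ℕ → Finset ℕ) (x z : ℕ → ℕ)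
    (A L : ℕ → Finset ℕ) : Prop where
  o1 : ∀ p, c ≤ p → p < N → s ≤ x p ∧ x p < N ∧ z p < N
  o2 : ∀ p, c ≤ p → p < N → ∀ y ∈ A p, y < N ∧ y ≠ x p ∧ ¬ h (x p) y
  o3 : ∀ p, c ≤ p → p < N → ∀ y ∈ L p, y < N ∧ y ≠ z p ∧ ¬ h (z p) y ∧ z p ≠ x p ∧ z p ∉ A p ∧
    y ≠ x p ∧ y ∉ A p
  o4 : ∀ p, c ≤ p → p < N → (A p).card + (L p).card + min g (p + 1 + t - N) + c = p + 1
  o5 : ∀ p, c ≤ p → p + 1 < N →
    (A p).card ≤ (A (p + 1)).card ∧ (L p).card ≤ (L (p + 1)).card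
  o6 : ∀ p, c ≤ p → p < N → ∀ q, c ≤ q → q < N → ∀ y ∈ A p, ∀ w ∈ A q,
    s(x p, y) = s(x q, w) → p = q
  o7 : ∀ p, c ≤ p → p < N → ∀ q, c ≤ q → q < N → ∀ y ∈ A p, ∀ w ∈ L q, s(x p, y) ≠ s(z q, w)
  o8 : ∀ p, c ≤ p → p < N → ∀ q, c ≤ q → q < N → ∀ y ∈ L p, ∀ w ∈ L q,
    s(z p, y) = s(z q, w) → p = q
  o9 : ∀ p, c ≤ p → p < N → ∀ q ∈ S p, q ≠ x p ∧ q ≠ z p ∧ q ∉ A p ∧ q ∉ L p
  tp : ∀ p, N - 3 * D ≤ p → p < N → x p = p ∧ z p = p - (N - m)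
  zs : ∀ p, c ≤ p → p < N → ∀ y ∈ L p, sp ≤ z p ∧ (y < s → s ≤ z p → N - 3 * D ≤ p)

/-- The two stars of every colour. -/
def CoreS : Prop := ∀ (N n c s D B m t g sp : ℕ) (h : ℕ → ℕ → Prop) [DecidableRel h]
    (ω bf : ℕ → ℕ) (S : ℕ → Finset ℕ), H4 N n c s D B m t g h ω bf S → sp ≤ s →
  (∀ i < sp, sg' N s c t h ω S i = 0) → ∃ x z A L, Out4 N c s D m t g sp h S x z A L

/-- The special vertices, listed by `e`. -/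
structure Dat4 {V : Type} [DecidableEq V] (U : Finset V) (h : V → V → Prop) [DecidableRel h]
    (c s D t g f sp : ℕ) (e : ℕ → V) (S : ℕ → Finset V) : Prop where
  mem : ∀ i < 2 * s + 2 * c + 6 * D + f, e i ∈ U
  inj : ∀ i < 2 * s + 2 * c + 6 * D + f, ∀ j < 2 * s + 2 * c + 6 * D + f, e i = e j → i = j
  deg : ∀ v ∈ U, (∀ i < s, e i ≠ v) → (U.filter (h v)).card ≤ D
  par : ∀ i < s, h (e i) (e (s + 2 * c + i))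
  bot : ∀ j, s + j < c → h (e (s + j)) (e (s + c + j))
  sub : ∀ i, ∀ v ∈ S i, i < t ∧ ((∃ k < s + c, e k = v) ∨
    (∃ k < f, e (2 * s + 2 * c + 6 * D + k) = v) ∨ ∃ k < i, e (2 * s + 2 * c + 3 * D + k) = v)
  crd : ∀ i, (S i).card ≤ t
  top : ∀ i < 3 * D, tcost U h S (fun k => e (2 * s + 2 * c + k))
    (fun k => e (2 * s + 2 * c + 3 * D + k)) i + 2 ≤ c + min g (t - i) + i
  sps : sp ≤ s
  ph1 : ∀ i < sp, ∀ k < s + c, k ≠ i → h (e i) (e k)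
  ph2 : ∀ i < sp, ∀ j < t, e i ∈ S j → h (e i) (e (2 * s + 2 * c + 3 * D + j))

/-- From the special vertices to the order. -/
def PlaceS : Prop := ∀ (V : Type) [DecidableEq V] (U : Finset V) (h : V → V → Prop)
    [DecidableRel h] (n c s D t g f sp : ℕ) (e : ℕ → V) (S : ℕ → Finset V),
  (∀ u v, h u v → h v u) → (∀ u, ¬ h u u) → U.card = n + c →
  ∑ u ∈ U, (U.filter (h u)).card + n * (n + 1) ≤
    (n + c) * (n + c - 1) + 2 * ∑ i ∈ range t, min g (t - i) →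
  Dat4 U h c s D t g f sp e S → 2 ≤ c → 100 * (c + s + t) ≤ D → f ≤ D → 20 * D ≤ n / 500 →
  ∃ (v : ℕ → V) (ω bf : ℕ → ℕ) (S' : ℕ → Finset ℕ), Set.BijOn v (range (n + c) : Finset ℕ) U ∧
    H4 (n + c) n c s D (n / 500) (150 * (n / 500)) t g (fun p q => h (v p) (v q)) ω bf S' ∧
    (∀ i < t, ∀ q < n + c, v q ∈ S i → q ∈ S' (n + c - 1 - i)) ∧ (∀ i < s + c, v i = e i) ∧
    (∀ k < 3 * D, v (150 * (n / 500) - 1 - k) = e (2 * s + 2 * c + k) ∧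
      v (n + c - 1 - k) = e (2 * s + 2 * c + 3 * D + k)) ∧
    ∀ i < sp, sg' (n + c) s c t (fun p q => h (v p) (v q)) ω S' i = 0

/-- Two stars for every colour `a < n`, on the vertex set `U`; `Ph` is never a centre. -/
structure OutV {V : Type} (U : Finset V) (h : V → V → Prop) (n D t g : ℕ) (Ph : V → Prop)
    (y u : ℕ → V) (S : ℕ → Finset V) (x z : ℕ → V) (A L : ℕ → Finset V) : Prop where
  o1 : ∀ a < n, x a ∈ U ∧ ¬ Ph (x a)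
  o2 : ∀ a < n, ∀ v ∈ A a, v ∈ U ∧ v ≠ x a ∧ ¬ h (x a) v
  o3 : ∀ a < n, ∀ v ∈ L a, z a ∈ U ∧ ¬ Ph (z a) ∧ v ∈ U ∧ v ≠ z a ∧ ¬ h (z a) v ∧ z a ≠ x a ∧
    z a ∉ A a ∧ v ≠ x a ∧ v ∉ A a
  o4 : ∀ a < n, (A a).card + (L a).card + min g (t - (n - 1 - a)) = a + 1
  o5 : ∀ a, a + 1 < n → (A a).card ≤ (A (a + 1)).card ∧ (L a).card ≤ (L (a + 1)).card
  o6 : ∀ a < n, ∀ b < n, ∀ v ∈ A a, ∀ w ∈ A b, s(x a, v) = s(x b, w) → a = b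
  o7 : ∀ a < n, ∀ b < n, ∀ v ∈ A a, ∀ w ∈ L b, s(x a, v) ≠ s(z b, w)
  o8 : ∀ a < n, ∀ b < n, ∀ v ∈ L a, ∀ w ∈ L b, s(z a, v) = s(z b, w) → a = b
  o9 : ∀ a < n, ∀ v ∈ S (n - 1 - a), v ≠ x a ∧ v ≠ z a ∧ v ∉ A a ∧ v ∉ L a
  tp : ∀ i < 3 * D, x (n - 1 - i) = u i ∧ z (n - 1 - i) = y i
  ph : ∀ a < n, ∀ v ∈ L a, Ph v → n - 1 - a < 3 * D

/-- From the special vertices to the two stars of every colour. -/
def LiftS : Prop := ∀ (V : Type) [DecidableEq V] (U : Finset V) (h : V → V → Prop)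
    [DecidableRel h] (n c s D t g f sp : ℕ) (e : ℕ → V) (S : ℕ → Finset V),
  (∀ u v, h u v → h v u) → (∀ u, ¬ h u u) → U.card = n + c →
  ∑ u ∈ U, (U.filter (h u)).card + n * (n + 1) ≤
    (n + c) * (n + c - 1) + 2 * ∑ i ∈ range t, min g (t - i) →
  Dat4 U h c s D t g f sp e S → 2 ≤ c → 100 * (c + s + t) ≤ D → f ≤ D → 20 * D ≤ n / 500 →
  ∃ x z A L, OutV U h n D t g (fun v => ∃ i < sp, e i = v) (fun k => e (2 * s + 2 * c + k))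
    (fun k => e (2 * s + 2 * c + 3 * D + k)) S x z A L

/-- From the stars of every colour to the decomposition. -/
def AsmS : Prop := ∀ (V : Type) [Fintype V] (G : SimpleGraph V) (n K : ℕ) (ct : ℕ → ℕ → V)
    (lf : ℕ → ℕ → Finset V), G.edgeSet.ncard = n * (n + 1) / 2 →
  (∀ a < n, ∀ α < K, ∀ v ∈ lf a α, G.Adj (ct a α) v) →
  (∀ a < n, ∀ α < K, ∀ β < K, ∀ v ∈ lf a α, ∀ w ∈ lf a β,
    v ≠ ct a β ∧ (α ≠ β → v ≠ w ∧ ct a α ≠ ct a β)) →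
  (∀ a < n, ∑ α ∈ range K, (lf a α).card = a + 1) →
  (∀ a, a + 1 < n → ∀ α < K, (lf a α).card ≤ (lf (a + 1) α).card) →
  (∀ a < n, ∀ b < n, ∀ α < K, ∀ β < K, ∀ v ∈ lf a α, ∀ w ∈ lf b β,
    s(ct a α, v) = s(ct b β, w) → a = b) → Dec0 G n

/-- The top pairs, chosen from the top by a first moment bound. -/
def MomS : Prop := ∀ (V : Type) [DecidableEq V] (U W M : Finset V) (h ad : V → V → Prop)
    [DecidableRel h] [DecidableRel ad] (R D q Δ Θ : ℕ) (Wi : ℕ → Finset V) (θ : ℕ → ℤ) (_v0 : V),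
  (∀ u v, h u v → h v u) → M ⊆ U → (∀ v ∈ M, (U.filter (h v)).card ≤ D) →
  (∀ v ∈ M, (W.filter (ad v)).card ≤ q) → (∀ w ∈ W, (M.filter (fun v => ad v w)).card ≤ Δ) →
  100 * (2 * R + Δ) ≤ M.card → (∀ i < R, |θ i| ≤ Θ) →
  (∀ i < R, 10 * ∑ x ∈ U, ((M.filter (h x)).card : ℤ) ^ 2 + 10 * (M.card : ℤ) *
      (4 * i * D + q + Θ * (1 + 4 * i) + 2 * (2 * i * q + Δ * (Wi i).card)) <
    10 * θ i * (M.card : ℤ) ^ 2 + 19 * (M.card : ℤ) * ∑ v ∈ M, ((W.filter (ad v)).card : ℤ)) →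
  ∃ y u : ℕ → V, (∀ i < R, y i ∈ M ∧ u i ∈ M) ∧
    (∀ i < R, ∀ k < R, (y i = y k → i = k) ∧ (u i = u k → i = k) ∧ y i ≠ u k) ∧
    ∀ i < R, (tcost U h (fun _ => ∅) y u i : ℤ) + 1 ≤
      θ i + ((W.filter (fun w => ad (u i) w ∨ ad (y i) w)) \ Wi i).card

/-- The numerical margin of the first moment bound. -/
def NumS : Prop := ∀ (r n N1 x1 ny xx β E ρb ρJ ρX ρY ρW σ0 σ1 i ec wi nW : ℕ), 1 ≤ r →
  10 ^ 24 * r ≤ n → n ≤ N1 + 10 ^ 9 * r → xx ≤ x1 + ny → ρb ≤ 10 ^ 8 * r * β →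
  100 * ρJ ≤ 300 * (β + 1) * (10 ^ 8 * r) + E → ρX ≤ 10 ^ 8 * r * x1 → ρY ≤ 10 ^ 11 * r * σ1 →
  2 * ny ≤ σ1 → wi ≤ 2 * σ0 + 4 * σ1 → (σ0 - 1) * (10 ^ 11 * r) ≤ ρW + ρX + ρJ →
  ρW + ρX + ρJ ≤ σ0 * (10 ^ 11 * r) + 1 → 10 ^ 13 * r ≤ nW →
  nW ≤ E + ρb + ρJ + ρX + ρY + 2 * ρW → (i < 2 * σ0 → ec ≤ σ0) → (2 * σ0 ≤ i → ec = 2 * σ0) →
  ((i < 2 * σ0 → ec = 0) ∨ ρW ≤ ρX + ρJ + 10 ^ 11 * r) →
  10 * ((E + ρb + ρJ + ρX + ρY + ρW + 4 * (10 ^ 8 * r) * xx + 4 * i * (n / 20000) + 10 ^ 8 * r +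
      1000 * r * (1 + 4 * i) + 2 * (2 * i * (10 ^ 8 * r) + 10 ^ 10 * r * wi)) +
      (ec + ny) * N1) <
    10 * ((σ0 + i + 3 * σ1) * N1 + 47 * (10 ^ 8 * r) * x1 + 20 * (10 ^ 8 * r) * β) + 19 * E

/-- Greedy choice of leaf sets. -/
def LeafS : Prop := ∀ (ι V : Type) [DecidableEq ι] [DecidableEq V] (C : Finset ι)
    (rel : ι → ι → Prop) [DecidableRel rel] (sz : ι → ℕ) (Lf : ι → Finset V),
  (∀ x y, rel x y → rel y x) →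
  (∀ x ∈ C, sz x + ∑ y ∈ (C.erase x).filter (rel x), sz y ≤ (Lf x).card) →
  ∃ tl : ι → Finset V, (∀ x ∈ C, tl x ⊆ Lf x ∧ (tl x).card = sz x) ∧
    ∀ x ∈ C, ∀ y ∈ C, x ≠ y → rel x y → Disjoint (tl x) (tl y)

/-- Cutting the pools into chunks with a common free colour. -/
def ChunkS : Prop := ∀ (V : Type) [DecidableEq V] (ny lo hi Δ : ℕ) (Nk : ℕ → Finset V)
    (a : ℕ → ℕ) (bz : V → Finset ℕ), (∀ v, (bz v).card ≤ Δ) →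
  (∀ v, ((range ny).filter (fun k => v ∈ Nk k)).card ≤ Δ) →
  (∀ k < ny, (Nk k).card + 4 * Δ * a k < (hi - lo) * a k) →
  ∃ (C : Finset (ℕ × ℕ)) (tl : ℕ × ℕ → Finset V),
    (∀ x ∈ C, lo ≤ x.1 ∧ x.1 < hi ∧ x.2 < ny ∧ tl x ⊆ Nk x.2 ∧ (tl x).card = a x.2 ∧
      ∀ v ∈ tl x, x.1 ∉ bz v) ∧
    (∀ x ∈ C, ∀ y ∈ C, x ≠ y → (x.1 = y.1 ∨ x.2 = y.2) → Disjoint (tl x) (tl y)) ∧
    ∀ k < ny, (Nk k \ (C.filter (fun x => x.2 = k)).biUnion tl).card ≤ 2 * a k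

/-- Cells for the single edges. -/
def SingleS : Prop := ∀ (V : Type) [DecidableEq V] (L : Finset (V × V)) (lo hi σ Δ Γ : ℕ)
    (bz : V → Finset ℕ), (∀ v, (L.filter (fun p => p.1 = v ∨ p.2 = v)).card ≤ Δ) →
  (∀ v, (bz v).card ≤ Γ) → L.card + 2 * Δ * σ + 2 * Γ * σ < (hi - lo) * σ →
  ∃ f : V × V → ℕ × ℕ, (∀ p ∈ L, lo ≤ (f p).1 ∧ (f p).1 < hi ∧ (f p).2 < σ ∧
      (f p).1 ∉ bz p.1 ∧ (f p).1 ∉ bz p.2) ∧
    ∀ p ∈ L, ∀ p' ∈ L, p ≠ p' → f p ≠ f p' ∧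
      ((f p).1 = (f p').1 → p.1 ≠ p'.1 ∧ p.1 ≠ p'.2 ∧ p.2 ≠ p'.1 ∧ p.2 ≠ p'.2)

/-- Stars on the cells `C`; a cell is a pair of a depth and an arm. -/
structure TS {V : Type} (G : SimpleGraph V) (C : Finset (ℕ × ℕ)) (sz : ℕ × ℕ → ℕ)
    (tc : ℕ × ℕ → V) (tl : ℕ × ℕ → Finset V) : Prop where
  adj : ∀ x ∈ C, ∀ v ∈ tl x, G.Adj (tc x) v
  cd : ∀ x ∈ C, (tl x).card = sz x
  vd : ∀ x ∈ C, ∀ y ∈ C, x.1 = y.1 → ∀ v ∈ tl x, ∀ w ∈ tl y,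
    v ≠ tc y ∧ (x ≠ y → v ≠ w ∧ tc x ≠ tc y)
  ed : ∀ x ∈ C, ∀ y ∈ C, ∀ v ∈ tl x, ∀ w ∈ tl y, s(tc x, v) = s(tc y, w) → x = y

/-- `u v` is an edge of one of the stars. -/
def TE {V : Type} (C : Finset (ℕ × ℕ)) (tc : ℕ × ℕ → V) (tl : ℕ × ℕ → Finset V) (u v : V) :
    Prop := ∃ x ∈ C, (u = tc x ∧ v ∈ tl x) ∨ (v = tc x ∧ u ∈ tl x)

instance {V : Type} [DecidableEq V] (C : Finset (ℕ × ℕ)) (tc : ℕ × ℕ → V)
    (tl : ℕ × ℕ → Finset V) : DecidableRel (TE C tc tl) :=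
  fun u v => inferInstanceAs
    (Decidable (∃ x ∈ C, (u = tc x ∧ v ∈ tl x) ∨ (v = tc x ∧ u ∈ tl x)))

/-- The vertices of the stars of depth `i`. -/
def SV {V : Type} [DecidableEq V] (C : Finset (ℕ × ℕ)) (tc : ℕ × ℕ → V)
    (tl : ℕ × ℕ → Finset V) (i : ℕ) : Finset V :=
  (C.filter (fun x => x.1 = i ∧ (tl x).Nonempty)).biUnion (fun x => insert (tc x) (tl x))

/-- The size of an arm at a given depth. -/
def szf (t : ℕ) (a : ℕ → ℕ) (x : ℕ × ℕ) : ℕ := min (a x.2) (t - x.1 - ∑ β ∈ range x.2, a β)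

/-- Filling the remaining cells with stars from a reservoir. -/
def FillS : Prop := ∀ (V : Type) [DecidableEq V] (G : SimpleGraph V) [DecidableRel G.Adj]
    (t K g d : ℕ) (a : ℕ → ℕ) (C : Finset (ℕ × ℕ)) (tc : ℕ × ℕ → V) (tl : ℕ × ℕ → Finset V)
    (Fc : ℕ → V) (Fl : Finset V), g = ∑ α ∈ range K, a α → g ≤ t →
  C ⊆ range (t - g) ×ˢ range K → TS G C (fun x => a x.2) tc tl →
  (∀ k < t + K, ∀ l < t + K, Fc k = Fc l → k = l) → (∀ k < t + K, Fc k ∉ Fl) →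
  (∀ x ∈ C, ∀ v ∈ insert (tc x) (tl x), v ∉ Fl ∧ ∀ k < t + K, Fc k ≠ v) →
  (∀ k < t + K, (Fl.filter (fun v => ¬ G.Adj (Fc k) v)).card ≤ d) → 2 * g + d ≤ Fl.card →
  (∀ i, ∑ α ∈ range K, szf t a (i, α) = min g (t - i)) ∧
  ∃ (tc' : ℕ × ℕ → V) (tl' : ℕ × ℕ → Finset V), TS G (range t ×ˢ range K) (szf t a) tc' tl' ∧
    (∀ x ∈ C, tc' x = tc x ∧ tl' x = tl x) ∧
    (∀ x ∈ range t ×ˢ range K, x ∉ C → tc' x = Fc (x.1 + x.2) ∧ tl' x ⊆ Fl) ∧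
    ∀ (v : V) (T : Finset V), (∀ w ∈ T, TE ((range t ×ˢ range K) \ C) tc' tl' v w) → T.card ≤ t

end Pool.Agent.MP_f65396_co.h81n
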