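import Mathlib.Combinatorics.Enumerative.DoubleCounting
import Pool.Agent.MP_f65396_co.h81n.SpecA

/-! Greedy choices: leaf sets, cells for single edges, chunks of the pools. -/

set_option autoImplicit false

namespace Pool.Agent.MP_f65396_co.h81n

open Finset

theorem leaf : LeafS := by
  intro ι V _ _ C rel _ sz Lf sy
  induction C using Finset.induction_on with
  | empty => exact fun _ => ⟨fun _ => ∅, by simp, by simp⟩
  | insert a C ha ih =>
    intro h
    obtain ⟨tl, t1, t2⟩ := ih fun x hx => (Nat.add_le_add_left (sum_le_sum_of_subset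
      (filter_subset_filter _ (erase_subset_erase _ (subset_insert _ _)))) _).trans
        (h x (mem_insert_of_mem hx))
    have h0 := h a (mem_insert_self _ _)
    rw [erase_insert ha] at h0
    have h1 : ((C.filter (rel a)).biUnion tl).card ≤ ∑ y ∈ C.filter (rel a), sz y :=
      card_biUnion_le.trans (sum_le_sum fun y hy => (t1 y (mem_filter.1 hy).1).2.le)
    have h2 := le_card_sdiff ((C.filter (rel a)).biUnion tl) (Lf a)
    obtain ⟨T, T1, T2⟩ := exists_subset_card_eq (s := Lf a \ (C.filter (rel a)).biUnion tl)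
      (n := sz a) (by omega)
    have u : ∀ y ∈ C, Function.update tl a T y = tl y := fun y hy =>
      Function.update_of_ne (ne_of_mem_of_not_mem hy ha) _ _
    have d : ∀ y ∈ C, rel a y → Disjoint T (tl y) := fun y hy r => disjoint_left.2 fun v hv q =>
      (mem_sdiff.1 (T1 hv)).2 (mem_biUnion.2 ⟨y, mem_filter.2 ⟨hy, r⟩, q⟩)
    refine ⟨Function.update tl a T, fun x hx => ?_, fun x hx y hy e r => ?_⟩
    · rcases mem_insert.1 hx with rfl | hx
      · rw [Function.update_self]
        exact ⟨T1.trans sdiff_subset, T2⟩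
      · rw [u x hx]
        exact t1 x hx
    rcases mem_insert.1 hx with rfl | gx <;> rcases mem_insert.1 hy with rfl | gy
    · exact (e rfl).elim
    · rw [Function.update_self, u y gy]
      exact d y gy r
    · rw [Function.update_self, u x gx]
      exact (d x gx (sy _ _ r)).symm
    · rw [u x gx, u y gy]
      exact t2 x gx y gy e r

theorem single (hg : h15n.GreedyS) : SingleS := by
  intro V _ L lo hi σ Δ Γ bz h1 h2 h3
  obtain ⟨f, f1, f2⟩ := hg (V × V) (ℕ × ℕ) L
    (fun p => (Ico lo hi \ (bz p.1 ∪ bz p.2)) ×ˢ range σ)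
    (fun p c q d => c = d ∨ (c.1 = d.1 ∧ ((q.1 = p.1 ∨ q.2 = p.1) ∨ (q.1 = p.2 ∨ q.2 = p.2))))
    (fun p q => (if (q.1 = p.1 ∨ q.2 = p.1) ∨ (q.1 = p.2 ∨ q.2 = p.2) then σ else 0) + 1) (0, 0)
    (fun _ _ _ _ b => b.imp Eq.symm fun b => ⟨b.1.symm, by tauto⟩) (fun p _ q _ _ d => by
      split_ifs with e
      · refine (card_le_card (t := {d.1} ×ˢ range σ) fun c hc => ?_).trans (by simp)
        obtain ⟨a, b⟩ := mem_filter.1 hc
        exact mem_product.2 ⟨mem_singleton.2 (b.elim (congrArg _) And.left), (mem_product.1 a).2⟩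
      · refine (card_le_card (t := {d}) fun c hc => ?_).trans (by simp)
        exact mem_singleton.2 ((mem_filter.1 hc).2.resolve_right fun b => e b.2)) fun p _ => by
      have a1 : ((L.erase p).filter fun q => (q.1 = p.1 ∨ q.2 = p.1) ∨
          (q.1 = p.2 ∨ q.2 = p.2)).card ≤ 2 * Δ := by
        refine (card_le_card (filter_subset_filter _ (erase_subset p L))).trans ?_
        rw [filter_or, two_mul]
        exact (card_union_le _ _).trans (Nat.add_le_add (h1 _) (h1 _))
      have a2 := le_card_sdiff (bz p.1 ∪ bz p.2) (Ico lo hi)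
      have a3 := (card_union_le _ _).trans (Nat.add_le_add (h2 p.1) (h2 p.2))
      have a4 := card_erase_le (s := L) (a := p)
      rw [Nat.card_Ico] at a2
      rw [sum_add_distrib, ← sum_filter, sum_const, sum_const, card_product, card_range,
        smul_eq_mul, smul_eq_mul]
      have a5 := Nat.mul_le_mul_right σ a1
      have a6 := Nat.mul_le_mul_right σ
        (show hi - lo ≤ (Ico lo hi \ (bz p.1 ∪ bz p.2)).card + 2 * Γ by omega)
      rw [add_mul] at a6
      omega
  refine ⟨f, fun p hp => ?_, fun p hp q hq e => ⟨fun z => f2 p hp q hq e (Or.inl z), fun z => ?_⟩⟩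
  · have := f1 p hp
    simp only [mem_product, mem_sdiff, mem_Ico, mem_union, mem_range, not_or] at this
    exact ⟨this.1.1.1, this.1.1.2, this.2, this.1.2⟩
  · have := fun w => f2 p hp q hq e (Or.inr ⟨z, w⟩)
    exact ⟨fun w => this (.inl (.inl w.symm)), fun w => this (.inl (.inr w.symm)),
      fun w => this (.inr (.inl w.symm)), fun w => this (.inr (.inr w.symm))⟩

theorem chunk : ChunkS := by
  intro V _ ny lo hi Δ Nk a bz h1 h2 h3
  by_contra H
  have key : ∀ n, ∃ (C : Finset (ℕ × ℕ)) (tl : ℕ × ℕ → Finset V), C.card = n ∧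
      (∀ x ∈ C, lo ≤ x.1 ∧ x.1 < hi ∧ x.2 < ny ∧ tl x ⊆ Nk x.2 ∧ (tl x).card = a x.2 ∧
        ∀ v ∈ tl x, x.1 ∉ bz v) ∧
      ∀ x ∈ C, ∀ y ∈ C, x ≠ y → (x.1 = y.1 ∨ x.2 = y.2) → Disjoint (tl x) (tl y) := by
    intro n
    induction n with
    | zero => exact ⟨∅, fun _ => ∅, rfl, by simp, by simp⟩
    | succ n ih =>
      obtain ⟨C, tl, c0, c1, c2⟩ := ih
      obtain ⟨k, hk, hP⟩ : ∃ k < ny,
          2 * a k < (Nk k \ (C.filter (fun x => x.2 = k)).biUnion tl).card := by
        by_contra q
        exact H ⟨C, tl, c1, c2, fun k hk => not_lt.1 fun r => q ⟨k, hk, r⟩⟩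
      set P := Nk k \ (C.filter (fun x => x.2 = k)).biUnion tl with hPd
      have b1 : (C.filter (fun x => x.2 = k)).card * a k ≤ (Nk k).card := by
        rw [← smul_eq_mul, ← sum_const, sum_congr rfl fun x hx => ((c1 x (mem_filter.1 hx).1).2.2.2.2.1.trans
          (congrArg a (mem_filter.1 hx).2)).symm, ← card_biUnion fun x hx y hy e =>
            c2 x (mem_filter.1 hx).1 y (mem_filter.1 hy).1 e
              (Or.inr ((mem_filter.1 hx).2.trans (mem_filter.1 hy).2.symm))]
        exact card_le_card (biUnion_subset.2 fun x hx =>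
          (mem_filter.1 hx).2 ▸ (c1 x (mem_filter.1 hx).1).2.2.2.1)
      set I := Ico lo hi \ (C.filter (fun x => x.2 = k)).image Prod.fst with hI
      have b2 : 4 * Δ < I.card := by
        have e1 := le_card_sdiff ((C.filter (fun x => x.2 = k)).image Prod.fst) (Ico lo hi)
        have e2 := card_image_le (s := C.filter (fun x => x.2 = k)) (f := Prod.fst)
        rw [Nat.card_Ico, ← hI] at e1
        have e3 := Nat.mul_le_mul_right (a k)
          (show hi - lo ≤ I.card + (C.filter (fun x => x.2 = k)).card by omega)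
        have e4 := h3 k hk
        rw [add_mul] at e3
        exact lt_of_mul_lt_mul_right (a := a k) (by omega) (Nat.zero_le _)
      let bu : V → Finset ℕ := fun v => bz v ∪ (C.filter (fun x => v ∈ tl x)).image Prod.fst
      have b3 : ∀ v, (bu v).card ≤ 2 * Δ := fun v => by
        rw [two_mul]
        refine (card_union_le _ _).trans (Nat.add_le_add (h1 v) (card_image_le.trans
          ((card_le_card_of_injOn Prod.snd (fun x hx => ?_) fun x hx y hy e => ?_).trans (h2 v))))
        · obtain ⟨p, q⟩ := mem_filter.1 (mem_coe.1 hx)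
          exact mem_coe.2 (mem_filter.2 ⟨mem_range.2 (c1 x p).2.2.1, (c1 x p).2.2.2.1 q⟩)
        · obtain ⟨p, q⟩ := mem_filter.1 (mem_coe.1 hx)
          obtain ⟨p', q'⟩ := mem_filter.1 (mem_coe.1 hy)
          by_contra z
          exact disjoint_left.1 (c2 x p y p' z (Or.inr e)) q q'
      obtain ⟨i, i1, i2⟩ : ∃ i ∈ I, a k ≤ (P.filter fun v => ¬ i ∈ bu v).card := by
        by_contra q
        have e := card_mul_le_card_mul (s := I) (t := P) (fun i v => i ∈ bu v)
          (m := P.card - a k) (n := 2 * Δ) (fun i hi => by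
            have r := not_le.1 fun r => q ⟨i, hi, r⟩
            have := card_filter_add_card_filter_not (s := P) fun v => i ∈ bu v
            rw [bipartiteAbove]
            omega) fun v _ => (card_le_card fun i hi => (mem_filter.1 hi).2).trans (b3 v)
        obtain ⟨m, hm⟩ : ∃ m, P.card - a k = m + 1 := ⟨P.card - a k - 1, by omega⟩
        have e1 : P.card ≤ 2 * (m + 1) := by omega
        rw [hm] at e
        have e2 := Nat.mul_le_mul_right (2 * Δ) e1
        have e3 := Nat.mul_le_mul_right (m + 1) (Nat.succ_le_of_lt b2)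
        nlinarith
      obtain ⟨T, T1, T2⟩ := exists_subset_card_eq i2
      have nC : (i, k) ∉ C := fun z =>
        (mem_sdiff.1 i1).2 (mem_image.2 ⟨_, mem_filter.2 ⟨z, rfl⟩, rfl⟩)
      have u : ∀ y ∈ C, Function.update tl (i, k) T y = tl y := fun y hy =>
        Function.update_of_ne (ne_of_mem_of_not_mem hy nC) _ _
      have d : ∀ y ∈ C, (i = y.1 ∨ k = y.2) → Disjoint T (tl y) := fun y hy r =>
        disjoint_left.2 fun v hv q => by
          obtain ⟨p, p'⟩ := mem_filter.1 (T1 hv)
          rcases r with r | r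
          · exact p' (mem_union_right _ (mem_image.2 ⟨y, mem_filter.2 ⟨hy, q⟩, r.symm⟩))
          · exact (mem_sdiff.1 p).2 (mem_biUnion.2 ⟨y, mem_filter.2 ⟨hy, r.symm⟩, q⟩)
      refine ⟨insert (i, k) C, Function.update tl (i, k) T, by rw [card_insert_of_notMem nC, c0],
        fun x hx => ?_, fun x hx y hy e r => ?_⟩
      · rcases mem_insert.1 hx with rfl | hx
        · rw [Function.update_self]
          have := mem_Ico.1 (mem_sdiff.1 i1).1
          exact ⟨this.1, this.2, hk, T1.trans ((filter_subset _ _).trans sdiff_subset), T2,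
            fun v hv z => (mem_filter.1 (T1 hv)).2 (mem_union_left _ z)⟩
        · rw [u x hx]
          exact c1 x hx
      rcases mem_insert.1 hx with rfl | hx <;> rcases mem_insert.1 hy with rfl | hy
      · exact (e rfl).elim
      · rw [Function.update_self, u y hy]
        exact d y hy r
      · rw [Function.update_self, u x hx]
        exact (d x hx (r.imp Eq.symm Eq.symm)).symm
      · rw [u x hx, u y hy]
        exact c2 x hx y hy e r
  obtain ⟨C, tl, c0, c1, -⟩ := key ((Ico lo hi ×ˢ range ny).card + 1)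
  have := card_le_card (s := C) (t := Ico lo hi ×ˢ range ny) fun x hx =>
    mem_product.2 ⟨mem_Ico.2 ⟨(c1 x hx).1, (c1 x hx).2.1⟩, mem_range.2 (c1 x hx).2.2.1⟩
  omega

end Pool.Agent.MP_f65396_co.h81n
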