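import Pool.Agent.MP_f65396_co.h81n.SpecB

/-! From the special vertices to the two stars of every colour. -/

set_option autoImplicit false

namespace Pool.Agent.MP_f65396_co.h81n

open Finset

theorem lift (hp : PlaceS) (hc : CoreS) : LiftS := by
  intro V _ U h _ n c s D t g f sp e S hs hi hU hsum d c2 hD hf hn
  obtain ⟨v, ω, bf, S', v1, H, hS, hve, hvt, hsg⟩ :=
    hp V U h n c s D t g f sp e S hs hi hU hsum d c2 hD hf hn
  obtain ⟨x, z, A, L, O⟩ := hc _ _ _ _ _ _ _ _ _ sp _ _ _ _ H d.sps hsg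
  have sps := d.sps
  have hv : ∀ p < n + c, ∀ q < n + c, v p = v q → p = q := fun p hp q hq e =>
    v1.injOn (mem_coe.2 (mem_range.2 hp)) (mem_coe.2 (mem_range.2 hq)) e
  have mU : ∀ p < n + c, v p ∈ U := fun p hp => mem_coe.1 (v1.mapsTo (mem_coe.2 (mem_range.2 hp)))
  have ne : ∀ p < n + c, ∀ q < n + c, p ≠ q → v p ≠ v q := fun p hp q hq k e => k (hv p hp q hq e)
  have ph : ∀ q < n + c, (∃ i < sp, e i = v q) → q < sp := by
    rintro q hq ⟨i, h1, h2⟩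
    rw [← hve i (by omega)] at h2
    exact hv i (by omega) q hq h2 ▸ h1
  have r1 : ∀ a, c ≤ a + c := fun a => by omega
  have r2 : ∀ a < n, a + c < n + c := fun a ha => by omega
  have o1 := fun a ha => O.o1 _ (r1 a) (r2 a ha)
  have o2 := fun a ha => O.o2 _ (r1 a) (r2 a ha)
  have o3 := fun a ha => O.o3 _ (r1 a) (r2 a ha)
  have zs := fun a ha => O.zs _ (r1 a) (r2 a ha)
  have cA : ∀ a < n, ((A (a + c)).image v).card = (A (a + c)).card := fun a ha =>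
    card_image_of_injOn fun p hp q hq e => hv p (o2 a ha p hp).1 q (o2 a ha q hq).1 e
  have cL : ∀ a < n, ((L (a + c)).image v).card = (L (a + c)).card := fun a ha =>
    card_image_of_injOn fun p hp q hq e => hv p (o3 a ha p hp).1 q (o3 a ha q hq).1 e
  have nA : ∀ a < n, ∀ q < n + c, q ∉ A (a + c) → v q ∉ (A (a + c)).image v := by
    intro a ha q hq k k'
    obtain ⟨p, hp, e⟩ := mem_image.1 k'
    exact k (hv p (o2 a ha p hp).1 q hq e ▸ hp)
  have sy : ∀ a < n + c, ∀ b < n + c, ∀ a' < n + c, ∀ b' < n + c,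
      s(v a, v b) = s(v a', v b') → s(a, b) = s(a', b') := by
    intro a ha b hb a' ha' b' hb' e
    rw [Sym2.eq_iff] at e ⊢
    rcases e with e | e
    · exact Or.inl ⟨hv _ ha _ ha' e.1, hv _ hb _ hb' e.2⟩
    · exact Or.inr ⟨hv _ ha _ hb' e.1, hv _ hb _ ha' e.2⟩
  refine ⟨fun a => v (x (a + c)), fun a => v (z (a + c)), fun a => (A (a + c)).image v,
    fun a => (L (a + c)).image v, ?_, ?_, ?_, ?_, ?_, ?_, ?_, ?_, ?_, ?_, ?_⟩
  · intro a ha
    obtain ⟨a1, a2, -⟩ := o1 a ha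
    exact ⟨mU _ a2, fun k => by have := ph _ a2 k; omega⟩
  · intro a ha w hw
    obtain ⟨y, hy, rfl⟩ := mem_image.1 hw
    obtain ⟨b1, b2, b3⟩ := o2 a ha y hy
    exact ⟨mU _ b1, ne _ b1 _ (o1 a ha).2.1 b2, b3⟩
  · intro a ha w hw
    obtain ⟨y, hy, rfl⟩ := mem_image.1 hw
    obtain ⟨-, a2, a3⟩ := o1 a ha
    obtain ⟨b1, b2, b3, b4, b5, b6, b7⟩ := o3 a ha y hy
    exact ⟨mU _ a3, fun k => absurd (ph _ a3 k) (not_lt.2 (zs a ha y hy).1), mU _ b1,
      ne _ b1 _ a3 b2, b3, ne _ a3 _ a2 b4, nA a ha _ a3 b5, ne _ b1 _ a2 b6, nA a ha _ b1 b7⟩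
  · intro a ha
    have := O.o4 _ (r1 a) (r2 a ha)
    rw [show a + c + 1 + t - (n + c) = t - (n - 1 - a) by omega] at this
    rw [cA a ha, cL a ha]
    omega
  · intro a ha
    have := O.o5 _ (r1 a) (by omega)
    rw [cA a (by omega), cL a (by omega), cA _ ha, cL _ ha, show a + 1 + c = a + c + 1 by omega]
    exact this
  · intro a ha b hb w hw w' hw' k
    obtain ⟨y, hy, rfl⟩ := mem_image.1 hw
    obtain ⟨y', hy', rfl⟩ := mem_image.1 hw'
    have := O.o6 _ (r1 a) (r2 a ha) _ (r1 b) (r2 b hb) y hy y' hy'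
      (sy _ (o1 a ha).2.1 _ (o2 a ha y hy).1 _ (o1 b hb).2.1 _ (o2 b hb y' hy').1 k)
    omega
  · intro a ha b hb w hw w' hw' k
    obtain ⟨y, hy, rfl⟩ := mem_image.1 hw
    obtain ⟨y', hy', rfl⟩ := mem_image.1 hw'
    exact O.o7 _ (r1 a) (r2 a ha) _ (r1 b) (r2 b hb) y hy y' hy'
      (sy _ (o1 a ha).2.1 _ (o2 a ha y hy).1 _ (o1 b hb).2.2 _ (o3 b hb y' hy').1 k)
  · intro a ha b hb w hw w' hw' k
    obtain ⟨y, hy, rfl⟩ := mem_image.1 hw
    obtain ⟨y', hy', rfl⟩ := mem_image.1 hw'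
    have := O.o8 _ (r1 a) (r2 a ha) _ (r1 b) (r2 b hb) y hy y' hy'
      (sy _ (o1 a ha).2.2 _ (o3 a ha y hy).1 _ (o1 b hb).2.2 _ (o3 b hb y' hy').1 k)
    omega
  · intro a ha w hw
    have k : ∀ q < n + c, w = v q → q ≠ x (a + c) ∧ q ≠ z (a + c) ∧ q ∉ A (a + c) ∧
        q ∉ L (a + c) := by
      rintro q hq rfl
      have := hS _ (d.sub _ _ hw).1 q hq hw
      rw [show n + c - 1 - (n - 1 - a) = a + c by omega] at this
      exact O.o9 _ (r1 a) (r2 a ha) q this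
    refine ⟨fun e => (k _ (o1 a ha).2.1 e).1 rfl, fun e => (k _ (o1 a ha).2.2 e).2.1 rfl,
      fun e => ?_, fun e => ?_⟩
    · obtain ⟨y, hy, e⟩ := mem_image.1 e
      exact (k y (o2 a ha y hy).1 e.symm).2.2.1 hy
    · obtain ⟨y, hy, e⟩ := mem_image.1 e
      exact (k y (o3 a ha y hy).1 e.symm).2.2.2 hy
  · intro i hi
    obtain ⟨a1, a2⟩ := O.tp (n - 1 - i + c) (by omega) (by omega)
    obtain ⟨b1, b2⟩ := hvt i hi
    refine ⟨?_, ?_⟩
    · rw [a1, ← b2]; congr 1; omega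
    · rw [a2, ← b1]; congr 1; omega
  · intro a ha w hw k
    obtain ⟨y, hy, rfl⟩ := mem_image.1 hw
    obtain ⟨b1, b2, b3, -⟩ := o3 a ha y hy
    have y1 := ph y b1 k
    by_cases hz : s ≤ z (a + c)
    · have := (zs a ha y hy).2 (by omega) hz
      omega
    · have := d.ph1 y y1 (z (a + c)) (by omega) b2.symm
      rw [← hve _ (by omega), ← hve _ (by omega)] at this
      exact absurd (hs _ _ this) b3

end Pool.Agent.MP_f65396_co.h81n
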