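import Pool.Agent.MP_f65396_co.h81n.SpecB

/-! The list of the single edges that remain after the chunks. -/

set_option autoImplicit false

namespace Pool.Agent.MP_f65396_co.h81n

open Finset

theorem mid_sv {V : Type} [DecidableEq V] {G : SimpleGraph V} {C : Finset (ℕ × ℕ)}
    {ar : ℕ → ℕ} {tc : ℕ × ℕ → V} {tl : ℕ × ℕ → Finset V} {K : ℕ}
    (h : TS G C (fun x => ar x.2) tc tl) (hK : ∀ x ∈ C, x.2 < K) (i : ℕ) :
    (SV C tc tl i).card ≤ 2 * ∑ α ∈ range K, ar α := by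
  unfold SV
  refine le_trans card_biUnion_le ?_
  have h1 : ∑ x ∈ C.filter (fun x => x.1 = i ∧ (tl x).Nonempty), (insert (tc x) (tl x)).card ≤
      ∑ x ∈ C.filter (fun x => x.1 = i ∧ (tl x).Nonempty), 2 * ar x.2 := by
    refine sum_le_sum fun x hx => ?_
    obtain ⟨x1, _, x3⟩ := mem_filter.1 hx
    have h2 := card_insert_le (tc x) (tl x)
    have h3 := card_pos.2 x3
    have h4 : (tl x).card = ar x.2 := h.cd x x1
    omega
  have h2 : ∑ x ∈ C.filter (fun x => x.1 = i ∧ (tl x).Nonempty), 2 * ar x.2 ≤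
      ∑ x ∈ ({i} : Finset ℕ) ×ˢ range K, 2 * ar x.2 := by
    refine sum_le_sum_of_subset fun x hx => ?_
    obtain ⟨x1, x2, _⟩ := mem_filter.1 hx
    exact mem_product.2 ⟨mem_singleton.2 x2, mem_range.2 (hK x x1)⟩
  rw [sum_product, sum_singleton] at h2
  rw [mul_sum]
  exact le_trans h1 h2

theorem mid_bz {V : Type} [Fintype V] [DecidableEq V] {G : SimpleGraph V} [DecidableRel G.Adj]
    {W : Finset V} {y u : ℕ → V} {t d : ℕ} (hd : ∀ w ∈ W, G.degree w ≤ d)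
    (hi : ∀ i < t, ∀ k < t, (y i = y k → i = k) ∧ (u i = u k → i = k)) :
    ∃ bz : V → Finset ℕ, (∀ v, (bz v).card ≤ 2 * d) ∧
      ∀ w ∈ W, ∀ i < t, i ∉ bz w → ¬ G.Adj (u i) w ∧ ¬ G.Adj (y i) w := by
  have key : ∀ z : ℕ → V, (∀ i < t, ∀ k < t, z i = z k → i = k) → ∀ w ∈ W,
      ((range t).filter (fun i => G.Adj (z i) w)).card ≤ d := by
    intro z hz w hw
    refine le_trans ?_ (hd w hw)
    rw [← G.card_neighborFinset_eq_degree]
    refine card_le_card_of_injOn z (fun i hi' => ?_) (fun i hi' k hk e => ?_)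
    · exact mem_coe.2 ((G.mem_neighborFinset _ _).2 (mem_filter.1 (mem_coe.1 hi')).2.symm)
    · exact hz i (mem_range.1 (mem_filter.1 (mem_coe.1 hi')).1) k
        (mem_range.1 (mem_filter.1 (mem_coe.1 hk)).1) e
  refine ⟨fun w => if w ∈ W then (range t).filter (fun i => G.Adj (u i) w) ∪
    (range t).filter (fun i => G.Adj (y i) w) else ∅, fun v => ?_, fun w hw i hi' h => ?_⟩
  · by_cases hv : v ∈ W
    · simp only [if_pos hv]
      have h1 := key u (fun i a k b => (hi i a k b).2) v hv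
      have h2 := key y (fun i a k b => (hi i a k b).1) v hv
      exact le_trans (card_union_le _ _) (by omega)
    · simp only [if_neg hv, card_empty]
      exact Nat.zero_le _
  · simp only [if_pos hw] at h
    exact ⟨fun a => h (mem_union_left _ (mem_filter.2 ⟨mem_range.2 hi', a⟩)),
      fun a => h (mem_union_right _ (mem_filter.2 ⟨mem_range.2 hi', a⟩))⟩

theorem mid_list {V : Type} [Fintype V] [DecidableEq V] {G : SimpleGraph V}
    [DecidableRel G.Adj] {n r : ℕ} {U W X Y Z : Finset V} {Es : Finset (V × V)} {yv u : ℕ → V}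
    {σ0 σ1 ny : ℕ} {ar : ℕ → ℕ} (hb : Bs G n r U W X Y) (hYZ : Y ⊆ Z)
    (hp : Pa G r W Y (Z \ Y) Es yv σ0 σ1 ny ar) (hu : ∀ i < 300 * r, u i ∈ U \ Z)
    (S : ℕ → Finset V) (hS : ∀ i, (S i).card ≤ 2 * (σ0 + 5 * σ1)) (T : V → V → Prop)
    [DecidableRel T] (hT : ∀ a b, T a b → T b a)
    (hl : ((Y ×ˢ W).filter (fun p => G.Adj p.1 p.2 ∧ ¬ T p.1 p.2)).card ≤ 2 * (σ0 + 5 * σ1)) :
    ∃ L : Finset (V × V), (∀ p ∈ L, G.Adj p.1 p.2 ∧ p.2 ∈ W ∧ ¬ T p.1 p.2 ∧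
        (p.1 ∈ W ∨ p.1 ∈ Z ∨ ∃ k < 300 * r, p.1 = u k ∧ p.2 ∈ S k)) ∧
      (∀ a b, (a, b) ∈ L → (b, a) ∉ L) ∧
      (∀ v, v ∈ W ∨ v ∈ Z → ∀ w ∈ W, G.Adj v w → T v w ∨ (v, w) ∈ L ∨ (w, v) ∈ L) ∧
      (∀ i < 300 * r, ∀ w ∈ S i, w ∈ W → G.Adj (u i) w → T (u i) w ∨ (u i, w) ∈ L) ∧
      L.card ≤ 2 * (10 ^ 11 * r) * (σ0 + σ1) ∧
      ∀ v, (L.filter (fun p => p.1 = v ∨ p.2 = v)).card ≤ 300 * (10 ^ 8 * r) := by
  have r1 := hb.r1
  have s5 := hp.s5
  have s6 := hp.s6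
  have hU : ∀ v ∈ U, v ∉ W := fun v hv => disjoint_left.1 hb.dj hv
  have hY : ∀ v ∈ Y, v ∉ W := fun v hv => hU v ((hb.mY v).1 hv).1
  obtain ⟨L2, hL2⟩ : ∃ L2, L2 = (Y ×ˢ W).filter (fun p => G.Adj p.1 p.2 ∧ ¬ T p.1 p.2) :=
    ⟨_, rfl⟩
  rw [← hL2] at hl
  have m2 : ∀ p : V × V, p ∈ L2 ↔ (p.1 ∈ Y ∧ p.2 ∈ W) ∧ G.Adj p.1 p.2 ∧ ¬ T p.1 p.2 := by
    intro p; rw [hL2, mem_filter, mem_product]
  obtain ⟨L3, c3, m3⟩ : ∃ L3 : Finset (V × V), L3.card ≤ 300 * r * (2 * (σ0 + 5 * σ1)) ∧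
      ∀ p : V × V, p ∈ L3 ↔ ∃ i < 300 * r, p.1 = u i ∧ p.2 ∈ S i := by
    refine ⟨(range (300 * r)).biUnion (fun i => ({u i} : Finset V) ×ˢ S i), ?_, fun p => ?_⟩
    · refine le_trans card_biUnion_le (le_trans (sum_le_card_nsmul _ _ (2 * (σ0 + 5 * σ1))
        fun i _ => ?_) ?_)
      · rw [card_product, card_singleton, one_mul]; exact hS i
      · rw [card_range, smul_eq_mul]
    · simp only [mem_biUnion, mem_range, mem_product, mem_singleton]
  obtain ⟨L, mL⟩ : ∃ L : Finset (V × V), ∀ p, p ∈ L ↔ (p ∈ Es ∨ p ∈ L2 ∨ p ∈ L3) ∧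
      G.Adj p.1 p.2 ∧ p.2 ∈ W ∧ ¬ T p.1 p.2 :=
    ⟨(Es ∪ (L2 ∪ L3)).filter (fun p => G.Adj p.1 p.2 ∧ p.2 ∈ W ∧ ¬ T p.1 p.2), fun p => by
      rw [mem_filter, mem_union, mem_union]⟩
  have hW : ∀ p ∈ L, p.1 ∈ W → p ∈ Es := by
    intro p hp' h
    rcases ((mL p).1 hp').1 with h1 | h1 | h1
    · exact h1
    · exact absurd h (hY _ ((m2 p).1 h1).1.1)
    · obtain ⟨i, hi, e, _⟩ := (m3 p).1 h1
      exact absurd (e ▸ h) (hU _ (mem_sdiff.1 (hu i hi)).1)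
  refine ⟨L, fun p hp' => ?_, fun a b h1 h2 => ?_, fun v hv w hw ha => ?_,
    fun i hi w hw hw' ha => ?_, ?_, fun v => ?_⟩
  · obtain ⟨h1, h2, h3, h4⟩ := (mL p).1 hp'
    refine ⟨h2, h3, h4, ?_⟩
    rcases h1 with h1 | h1 | h1
    · rcases (hp.mem p h1).2.2 with h | h
      · exact Or.inl h
      · exact Or.inr (Or.inl (mem_sdiff.1 h).1)
    · exact Or.inr (Or.inl (hYZ ((m2 p).1 h1).1.1))
    · exact Or.inr (Or.inr ((m3 p).1 h1))
  · exact hp.asy a b (hW _ h1 ((mL _).1 h2).2.2.1) (hW _ h2 ((mL _).1 h1).2.2.1)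
  · by_cases ht : T v w
    · exact Or.inl ht
    refine Or.inr ?_
    by_cases hy : v ∈ Y
    · exact Or.inl ((mL (v, w)).2 ⟨Or.inr (Or.inl ((m2 (v, w)).2 ⟨⟨hy, hw⟩, ha, ht⟩)), ha, hw, ht⟩)
    · rcases hp.cov v (hv.imp id fun h => mem_sdiff.2 ⟨h, hy⟩) w hw ha with h | h
      · exact Or.inl ((mL (v, w)).2 ⟨Or.inl h, ha, hw, ht⟩)
      · exact Or.inr ((mL (w, v)).2 ⟨Or.inl h, ha.symm, (hp.mem _ h).2.1, fun h' => ht (hT _ _ h')⟩)
  · by_cases ht : T (u i) w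
    · exact Or.inl ht
    · exact Or.inr ((mL (u i, w)).2
        ⟨Or.inr (Or.inr ((m3 (u i, w)).2 ⟨i, hi, rfl, hw⟩)), ha, hw', ht⟩)
  · have h1 : L.card ≤ (Es ∪ (L2 ∪ L3)).card := card_le_card fun p hp' => by
      rw [mem_union, mem_union]; exact ((mL p).1 hp').1
    have h2 := card_union_le Es (L2 ∪ L3)
    have h3 := card_union_le L2 L3
    have h4 := hp.s2
    have h5 := hp.s4
    have h6 : σ0 + σ1 ≤ r * σ0 + r * σ1 := by
      rw [← Nat.mul_add]; exact Nat.le_mul_of_pos_left _ r1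
    have e1 : σ0 * (10 ^ 11 * r) = 10 ^ 11 * (r * σ0) := by ring
    have e2 : 300 * r * (2 * (σ0 + 5 * σ1)) = 600 * (r * σ0) + 3000 * (r * σ1) := by ring
    have e3 : 2 * (10 ^ 11 * r) * (σ0 + σ1) = 2 * 10 ^ 11 * (r * σ0) + 2 * 10 ^ 11 * (r * σ1) := by
      ring
    rw [e1] at h4
    rw [e2] at c3
    rw [e3]
    generalize r * σ0 = A at *
    generalize r * σ1 = B at *
    omega
  · by_cases hv : v ∈ W
    · have h1 : L.filter (fun p => p.1 = v ∨ p.2 = v) ⊆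
          ({v} : Finset V) ×ˢ G.neighborFinset v ∪ G.neighborFinset v ×ˢ ({v} : Finset V) := by
        intro p hp'
        obtain ⟨p1, p2⟩ := mem_filter.1 hp'
        have ha := ((mL p).1 p1).2.1
        rcases p2 with e | e
        · exact mem_union_left _ (mem_product.2
            ⟨mem_singleton.2 e, (G.mem_neighborFinset _ _).2 (e ▸ ha)⟩)
        · exact mem_union_right _ (mem_product.2
            ⟨(G.mem_neighborFinset _ _).2 (e ▸ ha.symm), mem_singleton.2 e⟩)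
      have h2 := le_trans (card_le_card h1) (card_union_le _ _)
      rw [card_product, card_product, card_singleton, G.card_neighborFinset_eq_degree] at h2
      have h3 := (hb.wd v hv).2
      omega
    · have h0 : ∀ p ∈ L.filter (fun p => p.1 = v ∨ p.2 = v), p ∈ L ∧ p.1 = v := by
        intro p hp'
        obtain ⟨p1, p2⟩ := mem_filter.1 hp'
        exact ⟨p1, p2.resolve_right fun e => hv (e ▸ ((mL p).1 p1).2.2.1)⟩
      generalize L.filter (fun p => p.1 = v ∨ p.2 = v) = F at h0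
      by_cases hy : v ∈ Y
      · have h1 : F.card ≤ L2.card := card_le_card fun p hp' => by
          obtain ⟨p1, p2⟩ := h0 p hp'
          obtain ⟨_, q2, q3, q4⟩ := (mL p).1 p1
          exact (m2 p).2 ⟨⟨p2 ▸ hy, q3⟩, q2, q4⟩
        omega
      · rcases F.eq_empty_or_nonempty with h | ⟨p0, h⟩
        · rw [h, card_empty]; exact Nat.zero_le _
        · have hvU : v ∈ U := by
            obtain ⟨p1, p2⟩ := h0 p0 h
            exact (hb.cov v p0.2 (p2 ▸ ((mL p0).1 p1).2.1)).resolve_right hv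
          have h1 : F.card ≤ (({v} : Finset V) ×ˢ W.filter (G.Adj v)).card :=
            card_le_card fun p hp' => by
              obtain ⟨p1, p2⟩ := h0 p hp'
              obtain ⟨_, q2, q3, _⟩ := (mL p).1 p1
              exact mem_product.2 ⟨mem_singleton.2 p2, mem_filter.2 ⟨q3, p2 ▸ q2⟩⟩
          rw [card_product, card_singleton, one_mul] at h1
          have h2 : ¬ 10 ^ 8 * r ≤ dW G W v := fun a => hy ((hb.mY v).2 ⟨hvU, a⟩)
          unfold dW at h2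
          omega

end Pool.Agent.MP_f65396_co.h81n
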