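import Pool.Agent.MP_f65396_co.h81n.Mid1
import Pool.Agent.MP_f65396_co.h81n.Mid2

/-! All stars with edges meeting the vertices of small degree. -/

set_option autoImplicit false

namespace Pool.Agent.MP_f65396_co.h81n

open Finset

theorem mid (hc : ChunkS) (hs : SingleS) : MidS := by
  intro V _ _ G _ n r U W X Y Z Es yv y u σ0 σ1 ny ar C0 tc0 tl0 hb _ hYZ hp h0 hyu hinj
  have r1 := hb.r1
  have s4 := hp.s4
  have s5 := hp.s5
  have s6 := hp.s6
  have hK0 : ∀ x ∈ C0, x.1 < 300 * r ∧ x.2 < σ0 + σ1 + ny := fun x hx => by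
    have := (h0.cl x).1 hx
    omega
  obtain ⟨bz0, z1, z2⟩ := mid_bz (G := G) (W := W) (fun w hw => (hb.wd w hw).2) hinj
  obtain ⟨C1, tc1, tl1, ts1, e1, m1, l1, n1⟩ := mid_chunk hc hb hp h0 bz0
    (fun v => le_trans (z1 v) (by omega))
  obtain ⟨L, L1, L2, L3, L4, L5, L6⟩ := mid_list hb hYZ hp (fun i hi => (hyu i (by omega)).2)
    (SV C0 tc0 tl0) (fun i => hp.s7 ▸ mid_sv h0.ts (fun x hx => (hK0 x hx).2) i)
    (TE (C0 ∪ C1) tc1 tl1) (fun _ _ => mid_te_symm) l1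
  obtain ⟨f, f1, f2⟩ := hs V L (300 * r) (10 ^ 13 * r - (σ0 + 5 * σ1)) (σ0 + σ1)
    (300 * (10 ^ 8 * r)) (2 * (10 ^ 11 * r))
    (fun v => bz0 v ∪ (C1.filter (fun x => v = tc1 x ∨ v ∈ tl1 x)).image Prod.fst) L6
    (fun v => by
      have h1 := z1 v
      have h2 := le_trans (card_image_le (f := Prod.fst)) (n1 v)
      exact le_trans (card_union_le _ _) (by omega))
    (by
      have h1 : 2 * (10 ^ 11 * r) + 2 * (300 * (10 ^ 8 * r)) + 2 * (2 * (10 ^ 11 * r)) <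
        10 ^ 13 * r - (σ0 + 5 * σ1) - 300 * r := by omega
      have h2 := Nat.mul_lt_mul_of_pos_right h1 (show 0 < σ0 + σ1 from s4)
      rw [Nat.add_mul, Nat.add_mul] at h2
      exact lt_of_le_of_lt (Nat.add_le_add_right (Nat.add_le_add_right L5 _) _) h2)
  have f3 : ∀ p ∈ L, ∀ v, v = p.1 ∨ v = p.2 → (f p).1 ∉ bz0 v ∧
      ∀ x ∈ C1, x.1 = (f p).1 → v ≠ tc1 x ∧ v ∉ tl1 x := by
    intro p hp' v hv
    have h : (f p).1 ∉ bz0 v ∪ (C1.filter (fun x => v = tc1 x ∨ v ∈ tl1 x)).image Prod.fst := by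
      rcases hv with rfl | rfl
      · exact (f1 p hp').2.2.2.1
      · exact (f1 p hp').2.2.2.2
    refine ⟨fun a => h (mem_union_left _ a), fun x hx e => not_or.1 fun a => ?_⟩
    exact h (mem_union_right _ (mem_image.2 ⟨x, mem_filter.2 ⟨hx, a⟩, e⟩))
  obtain ⟨gg, hg⟩ : ∃ gg : ℕ × ℕ → V × V, ∀ p ∈ L, gg (f p) = p := by
    have : Nonempty (V × V) := ⟨(yv 0, yv 0)⟩
    have hi : Set.InjOn f (L : Set (V × V)) := fun p a p' b e => by
      by_contra hne
      exact (f2 p (mem_coe.1 a) p' (mem_coe.1 b) hne).1 e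
    exact ⟨Function.invFunOn f (L : Set (V × V)),
      fun p a => hi.leftInvOn_invFunOn (mem_coe.2 a)⟩
  have ts2 : TS G (L.image f) (fun x => ar x.2) (fun x => (gg x).1) (fun x => {(gg x).2}) := by
    refine ⟨fun x hx v hv => ?_, fun x hx => ?_, fun x hx x' hx' e v hv w hw => ?_,
      fun x hx x' hx' v hv w hw e => ?_⟩
    · obtain ⟨p, hp', rfl⟩ := mem_image.1 hx
      rw [mem_singleton.1 hv, hg p hp']
      exact (L1 p hp').1
    · obtain ⟨p, hp', rfl⟩ := mem_image.1 hx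
      exact (card_singleton _).trans (hp.a1 _ (f1 p hp').2.2.1).symm
    · obtain ⟨p, hp', rfl⟩ := mem_image.1 hx
      obtain ⟨p', hp'', rfl⟩ := mem_image.1 hx'
      rw [mem_singleton.1 hv, mem_singleton.1 hw, hg p hp', hg p' hp'']
      by_cases hne : p = p'
      · exact ⟨hne ▸ (L1 p hp').1.ne', fun a => absurd (congrArg f hne) a⟩
      · obtain ⟨a1, _, a3, a4⟩ := (f2 p hp' p' hp'' hne).2 e
        exact ⟨a3, fun _ => ⟨a4, a1⟩⟩
    · obtain ⟨p, hp', rfl⟩ := mem_image.1 hx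
      obtain ⟨p', hp'', rfl⟩ := mem_image.1 hx'
      rw [mem_singleton.1 hv, mem_singleton.1 hw, hg p hp', hg p' hp''] at e
      rcases Sym2.eq_iff.1 e with ⟨a1, a2⟩ | ⟨a1, a2⟩
      · exact congrArg f (Prod.ext a1 a2)
      · exact absurd (show (p.2, p.1) ∈ L by rw [a1, a2]; exact hp'') (L2 p.1 p.2 hp')
  obtain ⟨tc, tl, ts, e2, e3⟩ := mid_glue ts1 ts2
    (fun x hx h => by
      obtain ⟨p, hp', rfl⟩ := mem_image.1 hx
      obtain ⟨a1, _, a3, _⟩ := f1 p hp'
      rcases mem_union.1 h with h | h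
      · have := (hK0 _ h).1
        omega
      · have := (m1 _ h).2.2.1
        omega)
    (fun x hx x' hx' e v hv w hw => by
      obtain ⟨p, hp', rfl⟩ := mem_image.1 hx'
      rcases mem_union.1 hx with h | h
      · have := (hK0 _ h).1
        have := (f1 p hp').1
        omega
      · rw [mem_singleton.1 hw, hg p hp']
        obtain ⟨a1, a2⟩ := (f3 p hp' _ (Or.inl rfl)).2 x h e
        obtain ⟨a3, a4⟩ := (f3 p hp' _ (Or.inr rfl)).2 x h e
        exact ⟨fun a => a2 (a ▸ hv), a3, fun a => a4 (a ▸ hv), a1.symm⟩)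
    (fun x hx x' hx' v hv w hw e => by
      obtain ⟨p, hp', rfl⟩ := mem_image.1 hx'
      rw [mem_singleton.1 hw, hg p hp'] at e
      refine (L1 p hp').2.2.1 ⟨x, hx, ?_⟩
      rcases Sym2.eq_iff.1 e with ⟨a1, a2⟩ | ⟨a1, a2⟩
      · exact Or.inl ⟨a1.symm, a2 ▸ hv⟩
      · exact Or.inr ⟨a1.symm, a2 ▸ hv⟩)
  have e4 : ∀ p ∈ L, tc (f p) = p.1 ∧ tl (f p) = {p.2} := fun p hp' => by
    have h := e3 (f p) (mem_image_of_mem f hp')
    rw [hg p hp'] at h
    exact h
  have e0 : ∀ x ∈ C0, tc x = tc0 x ∧ tl x = tl0 x := fun x hx =>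
    ⟨(e2 x (mem_union_left _ hx)).1.trans (e1 x hx).1,
      (e2 x (mem_union_left _ hx)).2.trans (e1 x hx).2⟩
  have tL : ∀ a b, (a, b) ∈ L → TE (C0 ∪ C1 ∪ L.image f) tc tl a b := fun a b h =>
    ⟨f (a, b), mem_union_right _ (mem_image_of_mem f h), Or.inl
      ⟨(e4 _ h).1.symm, by rw [(e4 _ h).2]; exact mem_singleton_self _⟩⟩
  have tO : ∀ a b, TE (C0 ∪ C1) tc1 tl1 a b → TE (C0 ∪ C1 ∪ L.image f) tc tl a b :=
    fun a b h => mid_te_mono (fun x hx => mem_union_left _ hx) e2 h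
  refine ⟨C0 ∪ C1 ∪ L.image f, tc, tl, ts, fun x hx => ?_, fun x hx => ⟨fun h => ?_, fun h => ?_⟩,
    e0, fun x hx => ?_, fun v hv w hw ha => ?_, fun i hi w hw hw' ha => ?_,
    fun x hx hR w hw hW => ?_⟩
  · rw [mem_product, mem_range, mem_range]
    rcases mem_union.1 hx with h | h
    · rcases mem_union.1 h with h | h
      · have := hK0 x h
        omega
      · exact ⟨(m1 x h).2.1, (m1 x h).2.2.2.1⟩
    · obtain ⟨p, hp', rfl⟩ := mem_image.1 h
      have := (f1 p hp').2.2.1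
      exact ⟨(f1 p hp').2.1, by omega⟩
  · rcases mem_union.1 h with h | h
    · rcases mem_union.1 h with h | h
      · exact h
      · exact absurd hx (not_lt.2 (m1 x h).1)
    · obtain ⟨p, hp', rfl⟩ := mem_image.1 h
      exact absurd hx (not_lt.2 (f1 p hp').1)
  · exact mem_union_left _ (mem_union_left _ h)
  · rcases mem_union.1 hx with h | h
    · rcases mem_union.1 h with h' | h'
      · rw [(e0 x h').1, (e0 x h').2]
        rcases ((h0.cl x).1 h').2 with a | a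
        · obtain ⟨p, b1, b2, b3⟩ := h0.sg x h' a.1
          obtain ⟨_, b4, b5⟩ := hp.mem p b1
          rw [b2, b3]
          exact ⟨singleton_subset_iff.2 b4, b5.imp id fun b => Or.inl (mem_sdiff.1 b).1⟩
        · obtain ⟨b1, b2⟩ := h0.ya x h' a.1
          rw [b1]
          exact ⟨b2, Or.inr (Or.inl (hYZ (hp.ym _ (by omega))))⟩
      · rw [(e2 x h).1, (e2 x h).2]
        exact ⟨(m1 x h').2.2.2.2.2.1, Or.inr (Or.inl (hYZ (m1 x h').2.2.2.2.1))⟩
    · obtain ⟨p, hp', rfl⟩ := mem_image.1 h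
      rw [(e4 p hp').1, (e4 p hp').2]
      obtain ⟨_, b2, _, b4⟩ := L1 p hp'
      refine ⟨singleton_subset_iff.2 b2, b4.imp id (Or.imp id ?_)⟩
      rintro ⟨k, hk, b5, b6⟩
      exact ⟨k, hk, lt_of_lt_of_le hk (f1 p hp').1, b5, singleton_subset_iff.2 b6⟩
  · rcases L3 v hv w hw ha with h | h | h
    · exact tO _ _ h
    · exact tL _ _ h
    · exact mid_te_symm (tL _ _ h)
  · rcases L4 i hi w hw hw' ha with h | h
    · exact tO _ _ h
    · exact tL _ _ h
  · rcases mem_union.1 hx with h | h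
    · rcases mem_union.1 h with h' | h'
      · exact absurd (hK0 x h').1 (not_lt.2 hR)
      · rw [(e2 x h).1, (e2 x h).2] at hw
        obtain ⟨_, b2, _, _, b5, _, b7⟩ := m1 x h'
        rcases mem_insert.1 hw with a | a
        · exact absurd hW (disjoint_left.1 hb.dj ((hb.mY w).1 (a ▸ b5)).1)
        · exact z2 w hW _ (by omega) (b7 w a)
    · obtain ⟨p, hp', rfl⟩ := mem_image.1 h
      rw [(e4 p hp').1, (e4 p hp').2, mem_insert, mem_singleton] at hw
      have := (f1 p hp').2.1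
      exact z2 w hW _ (by omega) (f3 p hp' w hw).1

end Pool.Agent.MP_f65396_co.h81n
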