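import Pool.Agent.MP_f65396_co.h81n.SpecB
import Pool.Agent.MP_f65396_co.h15l.Top1

/-! The top pairs, chosen from the top by a first moment bound. -/

set_option autoImplicit false

namespace Pool.Agent.MP_f65396_co.h81n

open Finset
open Pool.Agent.MP_f65396_co.h15l (tcost)
open Pool.Agent.MP_f65396_co.h15l.Top1 (swap s1 s2)

namespace Mom

variable {V : Type} [DecidableEq V]

omit [DecidableEq V] in
theorem g0 (P : Finset V) (a : V → Prop) [DecidablePred a] (N i R Δ : ℕ)
    (hd : (P.filter a).card ≤ Δ) (hN : N ≤ P.card + 2 * i) (hi : i ≤ R)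
    (hR : 100 * (2 * R + Δ) ≤ N) :
    19 * N * (P.filter a).card ≤ 10 * ((P ×ˢ P).filter (fun p => a p.2 ∨ a p.1)).card := by
  have a1 := card_filter_add_card_filter_not (s := P ×ˢ P) (fun p => a p.2 ∨ a p.1)
  have a2 : (P ×ˢ P).filter (fun p => ¬ (a p.2 ∨ a p.1)) =
      P.filter (fun v => ¬ a v) ×ˢ P.filter (fun v => ¬ a v) := by
    ext p
    simp only [mem_filter, mem_product]
    tauto
  have a3 := card_filter_add_card_filter_not (s := P) a
  rw [a2, card_product, card_product, ← a3] at a1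
  rw [← a3] at hN
  generalize ((P ×ˢ P).filter (fun p => a p.2 ∨ a p.1)).card = c at *
  generalize (P.filter (fun v => ¬ a v)).card = e at *
  generalize (P.filter a).card = d at *
  have a4 : 19 * N ≤ 10 * (d + 2 * e) := by omega
  have a5 : (d + e) * (d + e) = d * (d + 2 * e) + e * e := by ring
  have a6 : c = d * (d + 2 * e) := by omega
  calc 19 * N * d ≤ 10 * (d + 2 * e) * d := Nat.mul_le_mul_right _ a4
    _ = 10 * c := by rw [a6]; ring

theorem g1 (W M Us Wi : Finset V) (ad : V → V → Prop) [DecidableRel ad] (i R q Δ : ℕ)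
    (hq : ∀ v ∈ M, (W.filter (ad v)).card ≤ q)
    (hΔ : ∀ w ∈ W, (M.filter (fun v => ad v w)).card ≤ Δ)
    (hU : Us.card ≤ 2 * i) (hi : i ≤ R) (hR : 100 * (2 * R + Δ) ≤ M.card) :
    19 * M.card * ∑ v ∈ M, (W.filter (ad v)).card ≤
      10 * ∑ p ∈ (M \ Us) ×ˢ (M \ Us), ((W.filter (fun w => ad p.2 w ∨ ad p.1 w)) \ Wi).card +
        19 * M.card * (2 * i * q + Δ * Wi.card) := by
  have b0 : ∀ w ∈ W, ((M \ Us).filter (fun v => ad v w)).card ≤ Δ := fun w hw =>
    (card_le_card (filter_subset_filter _ sdiff_subset)).trans (hΔ w hw)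
  have b1 : ∀ p : V × V, (W.filter (fun w => ad p.2 w ∨ ad p.1 w)) \ Wi =
      (W \ Wi).filter (fun w => ad p.2 w ∨ ad p.1 w) := by
    intro p
    ext w
    simp only [mem_filter, mem_sdiff]
    tauto
  have b2 : 19 * M.card * ∑ w ∈ W \ Wi, ((M \ Us).filter (fun v => ad v w)).card ≤
      10 * ∑ p ∈ (M \ Us) ×ˢ (M \ Us), ((W.filter (fun w => ad p.2 w ∨ ad p.1 w)) \ Wi).card := by
    simp only [b1]
    rw [swap ((M \ Us) ×ˢ (M \ Us)) (W \ Wi) (fun p w => ad p.2 w ∨ ad p.1 w), mul_sum, mul_sum]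
    refine sum_le_sum fun w hw => ?_
    have := le_card_sdiff Us M
    exact g0 (M \ Us) (fun v => ad v w) M.card i R Δ (b0 w (mem_sdiff.1 hw).1) (by omega) hi hR
  have b3 : ∑ v ∈ M, (W.filter (ad v)).card ≤
      ∑ v ∈ M \ Us, (W.filter (ad v)).card + 2 * i * q := by
    rw [← sum_inter_add_sum_sdiff M Us, add_comm]
    refine Nat.add_le_add_left ?_ _
    refine (sum_le_card_nsmul _ _ q fun v hv => hq v (mem_inter.1 hv).1).trans ?_
    rw [smul_eq_mul]
    exact Nat.mul_le_mul_right _ ((card_le_card inter_subset_right).trans hU)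
  have b4 : ∑ v ∈ M \ Us, (W.filter (ad v)).card ≤
      ∑ w ∈ W \ Wi, ((M \ Us).filter (fun v => ad v w)).card + Δ * Wi.card := by
    have c1 := swap (M \ Us) W ad
    rw [show ∑ v ∈ M \ Us, (W.filter (ad v)).card =
      ∑ w ∈ W, ((M \ Us).filter (fun v => ad v w)).card from c1,
      ← sum_inter_add_sum_sdiff W Wi, add_comm]
    refine Nat.add_le_add_left ?_ _
    refine (sum_le_card_nsmul _ _ Δ fun w hw => b0 w (mem_inter.1 hw).1).trans ?_
    rw [smul_eq_mul, mul_comm]
    exact Nat.mul_le_mul_left _ (card_le_card inter_subset_right)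
  have b5 : ∑ v ∈ M, (W.filter (ad v)).card ≤
      ∑ w ∈ W \ Wi, ((M \ Us).filter (fun v => ad v w)).card + (2 * i * q + Δ * Wi.card) := by
    omega
  have b6 := Nat.mul_le_mul_left (19 * M.card) b5
  rw [mul_add] at b6
  omega

theorem pick (M Us : Finset V) (i q Θ : ℕ) (θ : ℤ) (cost gain : V × V → ℕ)
    (hU : Us.card ≤ 2 * i) (hθ : |θ| ≤ Θ) (hg : ∀ v ∈ M, gain (v, v) ≤ q)
    (hn : ∀ a ∈ M \ Us, ∀ b ∈ M \ Us, a ≠ b → θ + gain (a, b) ≤ cost (a, b)) :
    θ * (M.card : ℤ) ^ 2 + ((∑ p ∈ (M \ Us) ×ˢ (M \ Us), gain p : ℕ) : ℤ) ≤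
      ((∑ p ∈ M ×ˢ M, cost p : ℕ) : ℤ) + M.card * (q + Θ * (1 + 4 * i)) := by
  obtain ⟨t1, t2⟩ := abs_le.1 hθ
  have a1 : ∑ p ∈ (M \ Us) ×ˢ (M \ Us), (θ + gain p) ≤
      ∑ p ∈ (M \ Us) ×ˢ (M \ Us), ((cost p : ℤ) + if p.1 = p.2 then (Θ + q : ℤ) else 0) := by
    refine sum_le_sum fun p hp => ?_
    obtain ⟨a, b⟩ := p
    obtain ⟨ha, hb⟩ := mem_product.1 hp
    by_cases hab : a = b
    · subst hab
      have c1 : (gain (a, a) : ℤ) ≤ q := by exact_mod_cast hg a (mem_sdiff.1 ha).1
      have c2 : (0 : ℤ) ≤ cost (a, a) := Int.natCast_nonneg _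
      simp only [if_true]
      linarith
    · simp only [hab, if_false, add_zero]
      exact hn a ha b hb hab
  have a2 : ∑ p ∈ (M \ Us) ×ˢ (M \ Us), (if p.1 = p.2 then (Θ + q : ℤ) else 0) =
      (M \ Us).card * (Θ + q : ℤ) := by
    rw [sum_product, ← nsmul_eq_mul, ← sum_const]
    refine sum_congr rfl fun a ha => ?_
    simp only [sum_ite_eq, ha, if_true]
  have a3 : ∑ p ∈ (M \ Us) ×ˢ (M \ Us), cost p ≤ ∑ p ∈ M ×ˢ M, cost p :=
    sum_le_sum_of_subset (product_subset_product sdiff_subset sdiff_subset)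
  have a3' : ∑ p ∈ (M \ Us) ×ˢ (M \ Us), (cost p : ℤ) ≤ ((∑ p ∈ M ×ˢ M, cost p : ℕ) : ℤ) := by
    exact_mod_cast a3
  rw [sum_add_distrib, sum_add_distrib, a2, sum_const, card_product, nsmul_eq_mul] at a1
  have a4 := le_card_sdiff Us M
  have a5 : (M \ Us).card ≤ M.card := card_le_card sdiff_subset
  rw [Nat.cast_sum]
  generalize ∑ p ∈ (M \ Us) ×ˢ (M \ Us), (gain p : ℤ) = g at *
  generalize ∑ p ∈ (M \ Us) ×ˢ (M \ Us), (cost p : ℤ) = c at *
  generalize ((∑ p ∈ M ×ˢ M, cost p : ℕ) : ℤ) = c' at *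
  generalize (M \ Us).card = m at *
  obtain ⟨d, hd⟩ := Nat.exists_eq_add_of_le a5
  have a6 : (d : ℤ) ≤ 2 * i := by omega
  rw [hd]
  push_cast at a1 ⊢
  have p0 : (0 : ℤ) ≤ m := Int.natCast_nonneg _
  have p1 : (0 : ℤ) ≤ d := Int.natCast_nonneg _
  have p2 : (0 : ℤ) ≤ Θ := Int.natCast_nonneg _
  have p3 : (0 : ℤ) ≤ q := Int.natCast_nonneg _
  have a7 : θ * (d * (2 * m + d)) ≤ Θ * (d * (2 * m + d)) :=
    mul_le_mul_of_nonneg_right t2 (by positivity)
  have a8 : (d : ℤ) * (2 * m + d) ≤ 2 * i * (2 * m + 2 * d) :=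
    mul_le_mul a6 (by linarith) (by positivity) (by positivity)
  have a9 := mul_le_mul_of_nonneg_left a8 p2
  have a10 : (0 : ℤ) ≤ d * (Θ + q) := by positivity
  nlinarith

end Mom

open Mom

theorem mom : MomS := by
  intro V _ U W M h ad _ _ R D q Δ Θ Wi θ v0 hs hM hD hq hΔ
  induction R with
  | zero => exact fun _ _ _ => ⟨fun _ => v0, fun _ => v0, by simp, by simp, by simp⟩
  | succ R ih =>
    intro hN hθ hR
    obtain ⟨y, u, h1, h2, h3⟩ := ih (by omega) (fun i hi => hθ i (by omega))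
      fun i hi => hR i (by omega)
    have dy := s2 U M h hs hM D R y fun k hk => hD _ (h1 k hk).1
    have du := s2 U M h hs hM D R u fun k hk => hD _ (h1 k hk).2
    have d0 := s1 U M ∅ h hs (empty_subset _)
    have hU : ((range R).image y ∪ (range R).image u).card ≤ 2 * R := by
      have b2 := card_union_le ((range R).image y) ((range R).image u)
      have b3 := card_image_le (s := range R) (f := y)
      have b4 := card_image_le (s := range R) (f := u)
      rw [card_range] at b3 b4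
      omega
    obtain ⟨a, ha, b, hb, hab, hlt⟩ : ∃ a ∈ M \ ((range R).image y ∪ (range R).image u),
        ∃ b ∈ M \ ((range R).image y ∪ (range R).image u), a ≠ b ∧
        (((U.filter (fun x => h b x ∧ h a x) ∪ ∅).card +
          ((range R).filter (fun k => h b (y k))).card +
          ((range R).filter (fun k => h b (u k))).card +
          ((range R).filter (fun k => h a (y k))).card +
          ((range R).filter (fun k => h a (u k))).card : ℕ) : ℤ) <
        θ R + ((W.filter (fun w => ad b w ∨ ad a w)) \ Wi R).card := by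
      by_contra hn
      push Not at hn
      have k1 := pick M _ R q Θ (θ R)
        (fun p => (U.filter (fun x => h p.2 x ∧ h p.1 x) ∪ ∅).card +
          ((range R).filter (fun k => h p.2 (y k))).card +
          ((range R).filter (fun k => h p.2 (u k))).card +
          ((range R).filter (fun k => h p.1 (y k))).card +
          ((range R).filter (fun k => h p.1 (u k))).card)
        (fun p => ((W.filter (fun w => ad p.2 w ∨ ad p.1 w)) \ Wi R).card) hU
        (hθ R (Nat.lt_succ_self R))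
        (fun v hv => le_trans (card_le_card fun w hw => by
          simp only [mem_sdiff, mem_filter, or_self] at hw ⊢
          exact hw.1) (hq v hv)) hn
      have k2 := g1 W M _ (Wi R) ad R (R + 1) q Δ hq hΔ hU (Nat.le_succ R) hN
      have k3 : ∑ p ∈ M ×ˢ M, ((U.filter (fun x => h p.2 x ∧ h p.1 x) ∪ ∅).card +
          ((range R).filter (fun k => h p.2 (y k))).card +
          ((range R).filter (fun k => h p.2 (u k))).card +
          ((range R).filter (fun k => h p.1 (y k))).card +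
          ((range R).filter (fun k => h p.1 (u k))).card) ≤
          ∑ x ∈ U, (M.filter (h x)).card ^ 2 + 4 * (R * D * M.card) := by
        simp only [sum_add_distrib]
        rw [sum_empty] at d0
        have := dy.1; have := dy.2; have := du.1; have := du.2
        omega
      have k4 := hR R (Nat.lt_succ_self R)
      have k2' := Int.ofNat_le.2 k2
      have k3' := k1.trans (add_le_add_left (Int.ofNat_le.2 k3) _)
      generalize ∑ p ∈ (M \ ((range R).image y ∪ (range R).image u)) ×ˢ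
        (M \ ((range R).image y ∪ (range R).image u)),
        ((W.filter (fun w => ad p.2 w ∨ ad p.1 w)) \ Wi R).card = g at k2' k3'
      push_cast at k2' k3'
      have p0 : (0 : ℤ) ≤ (M.card : ℤ) * (2 * R * q + Δ * (Wi R).card) := by positivity
      linarith
    simp only [mem_sdiff, mem_union, mem_image, mem_range, not_or, not_exists, not_and] at ha hb
    have e1 : ∀ (z : ℕ → V) (w : V), ∀ k < R, Function.update z R w k = z k := fun z w k hk =>
      Function.update_of_ne (by omega) _ _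
    have e2 : ∀ (z : ℕ → V) (w : V), Function.update z R w R = w := fun z w =>
      Function.update_self _ _ _
    have e3 : ∀ (z : ℕ → V) (w x : V), ∀ i ≤ R, (range i).filter
        (fun k => h x (Function.update z R w k)) = (range i).filter (fun k => h x (z k)) :=
      fun z w x i hi => filter_congr fun k hk => by
        rw [e1 z w k (by have := mem_range.1 hk; omega)]
    refine ⟨Function.update y R a, Function.update u R b, fun i hi => ?_, fun i hi k hk => ?_,
      fun i hi => ?_⟩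
    · rcases (Nat.lt_succ_iff.1 hi).lt_or_eq with h4 | rfl
      · rw [e1 _ _ i h4, e1 _ _ i h4]; exact h1 i h4
      · rw [e2, e2]; exact ⟨ha.1, hb.1⟩
    · rcases (Nat.lt_succ_iff.1 hi).lt_or_eq with h4 | h4 <;>
        rcases (Nat.lt_succ_iff.1 hk).lt_or_eq with h5 | h5
      · rw [e1 _ _ i h4, e1 _ _ i h4, e1 _ _ k h5, e1 _ _ k h5]; exact h2 i h4 k h5
      · rw [h5, e1 _ _ i h4, e1 _ _ i h4, e2, e2]
        exact ⟨fun e => (ha.2.1 i h4 e).elim, fun e => (hb.2.2 i h4 e).elim, hb.2.1 i h4⟩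
      · rw [h4, e1 _ _ k h5, e1 _ _ k h5, e2, e2]
        exact ⟨fun e => (ha.2.1 k h5 e.symm).elim, fun e => (hb.2.2 k h5 e.symm).elim,
          fun e => ha.2.2 k h5 e.symm⟩
      · rw [h4, h5, e2, e2]; exact ⟨fun _ => rfl, fun _ => rfl, hab⟩
    · have h5 := Nat.lt_succ_iff.1 hi
      unfold tcost
      rw [e3 _ _ _ i h5, e3 _ _ _ i h5, e3 _ _ _ i h5, e3 _ _ _ i h5]
      rcases h5.lt_or_eq with h4 | rfl
      · rw [e1 _ _ i h4, e1 _ _ i h4]; exact h3 i h4
      · rw [e2, e2]
        exact hlt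

end Pool.Agent.MP_f65396_co.h81n
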