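import Pool.Agent.MP_f65396_co.h81n.SpecA

/-! The numerical margin of the first moment bound. -/

set_option autoImplicit false

namespace Pool.Agent.MP_f65396_co.h81n

theorem num : NumS := by
  intro r n N1 x1 ny xx β E ρb ρJ ρX ρY ρW σ0 σ1 i ec wi nW hr hn hN hxx hb hJ hX hY hny hwi h0 h1
    hW1 hW2 e1 e2 e3
  have hm : 20000 * (n / 20000) ≤ n := Nat.mul_div_le _ _
  generalize n / 20000 = m at hm
  have N9 : 9 * 10 ^ 23 * r ≤ N1 := by linarith
  have p1 := Nat.mul_le_mul_left r hxx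
  have p2 := Nat.mul_le_mul_left r hny
  have p3 := Nat.mul_le_mul_left N1 hny
  have p4 := Nat.mul_le_mul_left r hwi
  have p5 := Nat.mul_le_mul_left i N9
  have p6 := Nat.mul_le_mul_left σ0 N9
  have p7 := Nat.mul_le_mul_left σ1 N9
  have p8 := Nat.mul_le_mul_left i (hm.trans hN)
  have p9 : σ0 * (10 ^ 11 * r) ≤ 10 ^ 11 * r + (ρW + ρX + ρJ) := by
    rcases σ0 with _ | s
    · simp
    · rw [Nat.add_sub_cancel] at h0
      linarith
  have z1 := Nat.zero_le (r * β)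
  have z2 := Nat.zero_le (r * x1)
  have z3 := Nat.zero_le (r * i)
  have z4 := Nat.zero_le (r * σ0)
  have z5 := Nat.zero_le (r * σ1)
  have A : 1 ≤ σ0 → 4 * ec ≤ 2 * σ0 + 3 * i → _ := fun k l => by
    have q1 := Nat.mul_le_mul_left r k
    have q2 := Nat.mul_le_mul_left N1 l
    exact (by linarith : 10 * ((E + ρb + ρJ + ρX + ρY + ρW + 4 * (10 ^ 8 * r) * xx + 4 * i * m +
      10 ^ 8 * r + 1000 * r * (1 + 4 * i) + 2 * (2 * i * (10 ^ 8 * r) + 10 ^ 10 * r * wi)) +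
      (ec + ny) * N1) <
      10 * ((σ0 + i + 3 * σ1) * N1 + 47 * (10 ^ 8 * r) * x1 + 20 * (10 ^ 8 * r) * β) + 19 * E)
  have B : ec ≤ σ0 → ρW ≤ ρX + ρJ + 10 ^ 11 * r → _ := fun k l => by
    have q2 := Nat.mul_le_mul_left N1 k
    exact (by linarith : 10 * ((E + ρb + ρJ + ρX + ρY + ρW + 4 * (10 ^ 8 * r) * xx + 4 * i * m +
      10 ^ 8 * r + 1000 * r * (1 + 4 * i) + 2 * (2 * i * (10 ^ 8 * r) + 10 ^ 10 * r * wi)) +
      (ec + ny) * N1) <
      10 * ((σ0 + i + 3 * σ1) * N1 + 47 * (10 ^ 8 * r) * x1 + 20 * (10 ^ 8 * r) * β) + 19 * E)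
  rcases lt_or_ge i (2 * σ0) with c | c
  · rcases e3 with k | k
    · exact A (by omega) (by rw [k c]; omega)
    · exact B (e1 c) k
  · rcases Nat.eq_zero_or_pos σ0 with z | z
    · refine B (by rw [e2 c, z]) ?_
      rw [z, zero_mul] at h1
      linarith [Nat.zero_le ρX, Nat.zero_le ρJ]
    · exact A z (by rw [e2 c]; omega)

end Pool.Agent.MP_f65396_co.h81n
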