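import Pool.Agent.MP_f65396_co.h81n.SpecA
import Pool.Agent.MP_f65396_co.h15l.Place

/-! From the list of special vertices to the order of all vertices. -/

set_option autoImplicit false

namespace Pool.Agent.MP_f65396_co.h81n

open Finset
open Pool.Agent.MP_f65396_co.h15o (sg)
open Pool.Agent.MP_f65396_co.h15o.Place (extend reindex sig sig_lt)
open Pool.Agent.MP_f65396_co.h15l (tcost sg' pcost)
open Pool.Agent.MP_f65396_co.h15l.Place (cnt)

namespace Place

/-- The position of the `i`-th special vertex. -/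
def pos (N m s c D P : ℕ) (ω : ℕ → ℕ) (i : ℕ) : ℕ :=
  if i < s + c then i else if i < s + 2 * c then N - m + (i - c) else
    if i < 2 * s + 2 * c then ω (i - (s + 2 * c)) else
      if i < 2 * s + 2 * c + 3 * D then m - 1 - (i - (2 * s + 2 * c)) else
        if i < 2 * s + 2 * c + 6 * D then N - 1 - (i - (2 * s + 2 * c + 3 * D)) else
          P + (i - (2 * s + 2 * c + 6 * D))

lemma order {V : Type} [DecidableEq V] {U : Finset V} {N m s c D P f : ℕ} (hU : U.card = N)
    (g : ℕ → V) (ω : ℕ → ℕ) (hm : ∀ i < 2 * s + 2 * c + 6 * D + f, g i ∈ U)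
    (hi : ∀ i < 2 * s + 2 * c + 6 * D + f, ∀ j < 2 * s + 2 * c + 6 * D + f, g i = g j → i = j)
    (h1 : s + c + 3 * D ≤ m) (h2 : m ≤ P) (h2' : P + f + m ≤ N)
    (h3 : ∀ i < s, P + f ≤ ω i ∧ ω i < N - m) (h4 : ∀ i < s, ∀ j < s, ω i = ω j → i = j) :
    ∃ v : ℕ → V, Set.BijOn v (range N : Finset ℕ) U ∧ (∀ i < s + c, v i = g i) ∧
      (∀ j < c, v (N - m + (s + j)) = g (s + c + j)) ∧ (∀ i < s, v (ω i) = g (s + 2 * c + i)) ∧
      (∀ k < 3 * D, v (m - 1 - k) = g (2 * s + 2 * c + k)) ∧
      (∀ k < 3 * D, v (N - 1 - k) = g (2 * s + 2 * c + 3 * D + k)) ∧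
      ∀ k < f, v (P + k) = g (2 * s + 2 * c + 6 * D + k) := by
  obtain ⟨v, hv, hg⟩ := extend hU g (pos N m s c D P ω) hm hi (fun i a => by
    have := h3 (i - (s + 2 * c))
    unfold pos
    split_ifs <;> omega) (fun i a j b e => by
    have a1 := h3 (i - (s + 2 * c))
    have a2 := h3 (j - (s + 2 * c))
    have a3 := fun x y => h4 (i - (s + 2 * c)) x (j - (s + 2 * c)) y
    unfold pos at e
    split_ifs at e <;> omega)
  refine ⟨v, hv, fun i a => ?_, fun j a => ?_, fun i a => ?_, fun k a => ?_, fun k a => ?_,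
    fun k a => ?_⟩
  · rw [← hg i (by omega), pos, if_pos a]
  · rw [← hg _ (by omega), pos, if_neg (by omega), if_pos (by omega)]
    congr 2
    omega
  · rw [← hg _ (by omega), pos, if_neg (by omega), if_neg (by omega), if_pos (by omega),
      Nat.add_sub_cancel_left]
  · rw [← hg _ (by omega), pos, if_neg (by omega), if_neg (by omega), if_neg (by omega),
      if_pos (by omega), Nat.add_sub_cancel_left]
  · rw [← hg _ (by omega), pos, if_neg (by omega), if_neg (by omega), if_neg (by omega),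
      if_neg (by omega), if_pos (by omega), Nat.add_sub_cancel_left]
  · rw [← hg _ (by omega), pos, if_neg (by omega), if_neg (by omega), if_neg (by omega),
      if_neg (by omega), if_neg (by omega), Nat.add_sub_cancel_left]

lemma refl_sum {N t γ : ℕ} (h : t ≤ N) :
    ∑ i ∈ range t, min γ (t - i) ≤ ∑ p ∈ range N, min γ (p + 1 + t - N) := by
  rw [← sum_range_reflect (fun p => min γ (p + 1 + t - N)) N]
  refine le_trans (le_of_eq (sum_congr rfl fun i hi => ?_))
    (sum_le_sum_of_subset (range_subset_range.2 h))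
  have := mem_range.1 hi
  rw [show N - 1 - i + 1 + t - N = t - i by omega]

end Place

open Pool.Agent.MP_f65396_co.h81n.Place in
theorem place (hb : h15l.BlkS) : PlaceS := by
  intro V _ U h _ n c s D t γ f sp g S hs hi hU hsum d hc hsm hf hB
  obtain ⟨B, eB⟩ : ∃ B, B = n / 500 := ⟨_, rfl⟩
  rw [← eB] at hB ⊢
  obtain ⟨m, em⟩ : ∃ m, m = 150 * B := ⟨_, rfl⟩
  rw [← em]
  obtain ⟨N, eN⟩ : ∃ N, N = n + c := ⟨_, rfl⟩
  rw [← eN] at hU hsum ⊢
  obtain ⟨ω, bf, w1, w2, w3, w4, w5, w6⟩ := hb s (3 * D) (2 * B + 2 * D) B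
    (N - m - (3 * B + 2 * D)) (fun i => sig h g s c i + ((range t).filter
      (fun j => g i ∈ S j ∧ ¬ h (g i) (g (2 * s + 2 * c + 3 * D + j)))).card) (fun i a => by
      have a1 := sig_lt h g (c := c) a
      have a2 := card_filter_le (range t)
        (fun j => g i ∈ S j ∧ ¬ h (g i) (g (2 * s + 2 * c + 3 * D + j)))
      rw [card_range] at a2
      omega) (by omega) (by omega)
  obtain ⟨v, hv, v1, v2, v3, v4, v5, v6⟩ := order (m := m) (P := 310 * B) hU g ω d.mem d.inj
    (by omega) (by omega) (by omega) (fun i a => by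
      have := w1 i a
      omega) w2
  have r : ∀ x, x < N → x ∈ ((range N : Finset ℕ) : Set ℕ) := fun x a => mem_coe.2 (mem_range.2 a)
  obtain ⟨S', hS'⟩ : ∃ S' : ℕ → Finset ℕ, ∀ p q, q ∈ S' p ↔
      (N - t ≤ p ∧ p < N) ∧ q < N ∧ v q ∈ S (N - 1 - p) :=
    ⟨fun p => (range N).filter (fun q => (N - t ≤ p ∧ p < N) ∧ v q ∈ S (N - 1 - p)), fun p q => by
      rw [mem_filter, mem_range]
      exact and_left_comm⟩
  have fw : ∀ i < s, sig h g s c i + ((range t).filter
      (fun j => g i ∈ S j ∧ ¬ h (g i) (g (2 * s + 2 * c + 3 * D + j)))).card =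
      sg' N s c t (fun p q => h (v p) (v q)) ω S' i := by
    intro i a
    have e : sg s c (fun p q => h (v p) (v q)) ω i = sig h g s c i := by
      unfold sg sig
      congr 1
      · congr 1
        · refine congrArg card (filter_congr fun k hk => ?_)
          have := mem_range.1 hk
          simp only [v1 i (by omega), v1 k (by omega)]
        · refine congrArg card (filter_congr fun k hk => ?_)
          have := mem_Ico.1 hk
          simp only [v1 i (by omega), v1 k (by omega)]
      · refine congrArg card (filter_congr fun k hk => ?_)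
        have := mem_Ioo.1 hk
        simp only [v1 i (by omega), v1 k (by omega), v3 k this.2]
    rw [sg', e]
    refine congrArg (sig h g s c i + ·) (card_bij (fun j _ => N - 1 - j) (fun j hj => ?_)
      (fun j hj k hk e => ?_) fun p hp => ?_)
    · obtain ⟨a1, a2, a3⟩ := mem_filter.1 hj
      have := mem_range.1 a1
      refine mem_filter.2 ⟨mem_Ico.2 ⟨by omega, by omega⟩, (hS' _ _).2 ⟨by omega, by omega, ?_⟩, ?_⟩
      · rwa [v1 i (by omega), show N - 1 - (N - 1 - j) = j by omega]
      · show ¬ h (v i) (v (N - 1 - j))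
        rwa [v1 i (by omega), v5 j (by omega)]
    · have := mem_range.1 (mem_filter.1 hj).1
      have := mem_range.1 (mem_filter.1 hk).1
      omega
    · obtain ⟨a1, a2, a3⟩ := mem_filter.1 hp
      have := mem_Ico.1 a1
      have e1 : N - 1 - (N - 1 - p) = p := by omega
      refine ⟨N - 1 - p, mem_filter.2 ⟨mem_range.2 (by omega), ?_, ?_⟩, e1⟩
      · rw [← v1 i (by omega)]
        exact ((hS' _ _).1 a2).2.2
      · rw [← v1 i (by omega), ← v5 _ (by omega), e1]
        exact a3
  refine ⟨v, ω, bf, S', hv, ⟨fun p q a => hs _ _ a, fun p => hi _, eN, hc, hsm, hB, em,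
    by omega, by omega, fun x a b => ?_, ?_, fun i a => ?_, w1, w2, w3, w4,
    fun p a => w5 p (by omega), fun i a => (w6 i a).trans (fw i a), fun p q a => ?_, fun p => ?_,
    fun j a b => ?_, fun j a b => ?_⟩, fun i a q b e => ?_, v1, fun k a => ⟨v4 k a, v5 k a⟩,
    fun i a => ?_⟩
  · rw [reindex hv (h (v x))]
    refine d.deg _ (hv.mapsTo (r x b)) fun i i1 e => ?_
    rw [← v1 i (by omega)] at e
    have := hv.injOn (r i (by omega)) (r x b) e
    omega
  · refine le_trans (le_of_eq ?_) (hsum.trans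
      (Nat.add_le_add_left (Nat.mul_le_mul_left 2 (refl_sum (by omega))) _))
    congr 1
    refine sum_nbij v (fun x hx => hv.mapsTo hx) hv.injOn hv.surjOn fun x _ => ?_
    exact reindex hv (h (v x))
  · show h (v i) (v (ω i))
    rw [v1 i (by omega), v3 i a]
    exact d.par i a
  · obtain ⟨⟨a1, a2⟩, a3, a4⟩ := (hS' p q).1 a
    obtain ⟨a5, ⟨k, k1, k2⟩ | ⟨k, k1, k2⟩ | ⟨k, k1, k2⟩⟩ := d.sub _ _ a4
    · rw [← v1 k k1] at k2
      have := hv.injOn (r _ (by omega)) (r q a3) k2
      omega
    · rw [← v6 k k1] at k2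
      have := hv.injOn (r _ (by omega)) (r q a3) k2
      omega
    · rw [← v5 k (by omega)] at k2
      have := hv.injOn (r _ (by omega)) (r q a3) k2
      omega
  · exact (card_le_card_of_injOn v (fun q a => ((hS' p q).1 a).2.2)
      (hv.injOn.mono fun q a => r q ((hS' p q).1 a).2.1)).trans (d.crd _)
  · obtain ⟨k, rfl⟩ : ∃ k, j = s + k := ⟨j - s, by omega⟩
    show h (v (s + k)) (v (N - m + (s + k)))
    rw [v1 _ (by omega), v2 k (by omega)]
    exact d.bot k b
  · obtain ⟨i, hi', rfl⟩ : ∃ i, i < 3 * D ∧ j = m - 1 - i := ⟨m - 1 - j, by omega, by omega⟩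
    have e1 : N - m + (m - 1 - i) = N - 1 - i := by omega
    have t0 := d.top i hi'
    have y4 : ∀ k < i, v (m - 1 - k) = g (2 * s + 2 * c + k) := fun k a => v4 k (by omega)
    have y5 : ∀ k < i, v (N - 1 - k) = g (2 * s + 2 * c + 3 * D + k) := fun k a => v5 k (by omega)
    have e2 : m - 1 - i + 1 + i = m := by omega
    have e3 : N - 1 - i + 1 + i = N := by omega
    have t1 := cnt (h (g (2 * s + 2 * c + 3 * D + i))) e2 y4
    have t2 := cnt (h (g (2 * s + 2 * c + 3 * D + i))) e3 y5
    have t3 := cnt (h (g (2 * s + 2 * c + i))) e2 y4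
    have t4 := cnt (h (g (2 * s + 2 * c + i))) e3 y5
    have t5 : ((range N).filter (fun x => h (g (2 * s + 2 * c + 3 * D + i)) (v x) ∧
        h (g (2 * s + 2 * c + i)) (v x)) ∪ S' (N - 1 - i)).card ≤
        (U.filter (fun x => h (g (2 * s + 2 * c + 3 * D + i)) x ∧ h (g (2 * s + 2 * c + i)) x) ∪
          S i).card := by
      refine card_le_card_of_injOn v (fun x hx => ?_) (hv.injOn.mono fun x hx => ?_)
      · rcases mem_union.1 (mem_coe.1 hx) with a1 | a1
        · exact mem_coe.2 (mem_union_left _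
            (mem_filter.2 ⟨hv.mapsTo (mem_filter.1 a1).1, (mem_filter.1 a1).2⟩))
        · have := ((hS' _ _).1 a1).2.2
          rw [show N - 1 - (N - 1 - i) = i by omega] at this
          exact mem_coe.2 (mem_union_right _ this)
      · rcases mem_union.1 (mem_coe.1 hx) with a1 | a1
        · exact (mem_filter.1 a1).1
        · exact r x ((hS' _ _).1 a1).2.1
    unfold pcost
    unfold tcost at t0
    beta_reduce at t0
    simp only [e1, v4 i hi', v5 i hi']
    rw [show N - 1 - i + 1 + t - N = t - i by omega]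
    omega
  · exact (hS' _ _).2 ⟨by omega, b, by rwa [show N - 1 - (N - 1 - i) = i by omega]⟩
  · have a1 := d.sps
    rw [← fw i (by omega), sig]
    simp only [Nat.add_eq_zero_iff, card_eq_zero, filter_eq_empty_iff, mem_range, mem_Ico, mem_Ioo]
    exact ⟨⟨⟨fun k b e => e (d.ph1 i a k (by omega) (by omega)),
      fun k b e => e (d.ph1 i a k (by omega) (by omega))⟩,
      fun k b e => e.1 (d.ph1 i a k (by omega) (by omega))⟩, fun k b e => e.2 (d.ph2 i a k b e.1)⟩

end Pool.Agent.MP_f65396_co.h81n
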