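import Pool.Agent.MP_f65396_co.h81n.SpecB

/-! The list of the special vertices. -/

set_option autoImplicit false

namespace Pool.Agent.MP_f65396_co.h81n

open Finset

namespace Rest

/-- Greedy extension of an injection. -/
theorem ext {V : Type} [DecidableEq V] (P : Finset ℕ) (L : ℕ → Finset V) (e0 : ℕ → V)
    (inj : ∀ i ∈ P, ∀ j ∈ P, e0 i = e0 j → i = j) (F : Finset ℕ) : Disjoint P F →
    (∀ i ∈ F, P.card + F.card ≤ (L i).card) →
    ∃ e : ℕ → V, (∀ i ∈ P, e i = e0 i) ∧ (∀ i ∈ F, e i ∈ L i) ∧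
      ∀ i ∈ P ∪ F, ∀ j ∈ P ∪ F, e i = e j → i = j := by
  induction F using Finset.induction_on with
  | empty => exact fun _ _ => ⟨e0, fun _ _ => rfl, by simp, by simpa using inj⟩
  | insert a F ha ih =>
    intro hd hL
    rw [card_insert_of_notMem ha] at hL
    obtain ⟨e, h1, h2, h3⟩ := ih (hd.mono_right (subset_insert _ _)) fun i hi =>
      le_trans (by omega) (hL i (mem_insert_of_mem hi))
    have haP : a ∉ P := fun h => disjoint_left.1 hd h (mem_insert_self _ _)
    have hlt : ((P ∪ F).image e).card < (L a).card := by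
      have := card_image_le (s := P ∪ F) (f := e)
      have := card_union_le P F
      have := hL a (mem_insert_self _ _)
      omega
    obtain ⟨v, hv, hv'⟩ := exists_mem_notMem_of_card_lt_card hlt
    have hne : ∀ i ∈ P ∪ F, i ≠ a := fun i hi h => by
      subst h
      rcases mem_union.1 hi with h | h
      · exact haP h
      · exact ha h
    have hsp : ∀ i ∈ P ∪ insert a F, i = a ∨ i ∈ P ∪ F := fun i hi => by
      simp only [mem_union, mem_insert] at hi ⊢
      tauto
    refine ⟨Function.update e a v, fun i hi => ?_, fun i hi => ?_, fun i hi j hj h => ?_⟩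
    · rw [Function.update_of_ne (hne i (mem_union_left _ hi)), h1 i hi]
    · rcases mem_insert.1 hi with rfl | hi
      · rwa [Function.update_self]
      · rw [Function.update_of_ne (hne i (mem_union_right _ hi))]
        exact h2 i hi
    · rcases hsp i hi with h4 | h4 <;> rcases hsp j hj with h5 | h5
      · rw [h4, h5]
      · rw [h4, Function.update_self, Function.update_of_ne (hne j h5)] at h
        exact absurd (h ▸ mem_image_of_mem e h5) hv'
      · rw [h5, Function.update_self, Function.update_of_ne (hne i h4)] at h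
        exact absurd (h ▸ mem_image_of_mem e h4) hv'
      · rw [Function.update_of_ne (hne i h4), Function.update_of_ne (hne j h5)] at h
        exact h3 i h4 j h5 h

end Rest

theorem rest : RestS := by
  intro V _ _ G _ n r c β U W X Y J M a b y u B Jn hm hi
  have r1 := B.r1
  have n1 := B.n1
  have u1 := B.u1
  have u2 := B.u2
  have c4 := B.c4
  have ec := Jn.ec
  have eβ := Jn.eβ
  obtain ⟨ξ, -, hξ, hξi⟩ := Rest.ext (∅ : Finset ℕ) (fun _ => X) y (by simp) (range X.card)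
    (by simp) (by simp)
  simp only [empty_union, mem_range] at hξ hξi
  have hξs : ∀ v ∈ X, ∃ k < X.card, ξ k = v := fun v hv => by
    obtain ⟨k, hk, e⟩ := surj_on_of_inj_on_of_card_le (s := range X.card) (t := X)
      (fun k _ => ξ k) (fun k hk => hξ k (mem_range.1 hk))
      (fun k l hk hl h => hξi k (mem_range.1 hk) l (mem_range.1 hl) h) (by simp) v hv
    exact ⟨k, mem_range.1 hk, e.symm⟩
  obtain ⟨D, hD⟩ : ∃ D, D = n / 10000 := ⟨_, rfl⟩
  obtain ⟨o, ho⟩ : ∃ o, o = 2 * X.card + 2 * c + 3 * (10 ^ 8 * r) := ⟨_, rfl⟩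
  obtain ⟨e0, he0⟩ : ∃ e0 : ℕ → V, ∀ i, e0 i = if i < X.card then ξ i else
      if i < X.card + c then a (i - X.card) else if i < o then b (i - X.card - c) else
      if i < o + 3 * D then y (i - o) else u (i - o - 3 * D) := ⟨_, fun _ => rfl⟩
  have f1 : ∀ k < X.card, e0 k = ξ k := fun k hk => by rw [he0, if_pos hk]
  have f2 : ∀ k < c, e0 (X.card + k) = a k := fun k hk => by
    rw [he0, if_neg (by omega), if_pos (by omega)]
    congr 1
    omega
  have f3 : ∀ k < β, e0 (X.card + c + k) = b k := fun k hk => by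
    rw [he0, if_neg (by omega), if_neg (by omega), if_pos (by omega)]
    congr 1
    omega
  have f4 : ∀ k < 300 * r, e0 (o + k) = y k := fun k hk => by
    rw [he0, if_neg (by omega), if_neg (by omega), if_neg (by omega), if_pos (by omega)]
    congr 1
    omega
  have f5 : ∀ k < 300 * r, e0 (o + 3 * D + k) = u k := fun k hk => by
    rw [he0, if_neg (by omega), if_neg (by omega), if_neg (by omega), if_neg (by omega)]
    congr 1
    omega
  obtain ⟨lev, hlev⟩ : ∃ lev : V → ℕ, ∀ v, lev v = if v ∈ X then 0 else if v ∈ J then 1 else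
      if v ∈ (range β).image b then 2 else 3 := ⟨_, fun _ => rfl⟩
  have l1 : ∀ k < X.card, lev (ξ k) = 0 ∧ ξ k ∈ U := fun k hk =>
    ⟨by rw [hlev, if_pos (hξ k hk)], ((B.mX _).1 (hξ k hk)).1⟩
  have l2 : ∀ k < c, lev (a k) = 1 ∧ a k ∈ U := fun k hk => by
    have h := mem_sdiff.1 (Jn.am k hk)
    refine ⟨?_, h.1⟩
    rw [hlev, if_neg h.2, if_pos (Jn.eJ ▸ mem_image_of_mem a (mem_range.2 hk))]
  have l3 : ∀ k < β, lev (b k) = 2 ∧ b k ∈ U := fun k hk => by
    have h := mem_sdiff.1 (Jn.bm k hk).1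
    simp only [mem_union, not_or] at h
    refine ⟨?_, h.1⟩
    rw [hlev, if_neg h.2.1.1, if_neg h.2.2, if_pos (mem_image_of_mem b (mem_range.2 hk))]
  have l4 : ∀ v ∈ M, lev v = 3 ∧ v ∈ U := fun v hv => by
    rw [Jn.eM] at hv
    have h := mem_sdiff.1 hv
    rw [mem_union, mem_union, not_or, not_or] at h
    refine ⟨?_, h.1⟩
    rw [hlev, if_neg h.2.1.1, if_neg h.2.1.2, if_neg h.2.2]
  obtain ⟨P, hP⟩ : ∃ P : Finset ℕ, P = range (X.card + c + β) ∪ Ico o (o + 300 * r) ∪
      Ico (o + 3 * D) (o + 3 * D + 300 * r) := ⟨_, rfl⟩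
  have mP : ∀ i, i ∈ P ↔ (i < X.card + c + β ∨ (o ≤ i ∧ i < o + 300 * r)) ∨
      (o + 3 * D ≤ i ∧ i < o + 3 * D + 300 * r) := fun i => by
    rw [hP, mem_union, mem_union, mem_range, mem_Ico, mem_Ico]
  have cP : P.card ≤ X.card + c + β + 600 * r := by
    rw [hP]
    refine (card_union_le _ _).trans ((Nat.add_le_add_right (card_union_le _ _) _).trans ?_)
    rw [card_range, Nat.card_Ico, Nat.card_Ico]
    omega
  have cls : ∀ i ∈ P, e0 i ∈ U ∧ ((∃ k < X.card, i = k ∧ e0 i = ξ k ∧ lev (e0 i) = 0) ∨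
      (∃ k < c, i = X.card + k ∧ e0 i = a k ∧ lev (e0 i) = 1) ∨
      (∃ k < β, i = X.card + c + k ∧ e0 i = b k ∧ lev (e0 i) = 2) ∨
      (∃ k < 300 * r, i = o + k ∧ e0 i = y k ∧ lev (e0 i) = 3) ∨
      ∃ k < 300 * r, i = o + 3 * D + k ∧ e0 i = u k ∧ lev (e0 i) = 3) := fun i hi => by
    rw [mP] at hi
    by_cases h1 : i < X.card
    · rw [f1 i h1]
      exact ⟨(l1 i h1).2, Or.inl ⟨i, h1, rfl, rfl, (l1 i h1).1⟩⟩
    by_cases h2 : i < X.card + c
    · obtain ⟨k, rfl⟩ : ∃ k, i = X.card + k := ⟨i - X.card, by omega⟩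
      have hk : k < c := by omega
      rw [f2 k hk]
      exact ⟨(l2 k hk).2, Or.inr (Or.inl ⟨k, hk, rfl, rfl, (l2 k hk).1⟩)⟩
    by_cases h3 : i < o
    · obtain ⟨k, rfl⟩ : ∃ k, i = X.card + c + k := ⟨i - X.card - c, by omega⟩
      have hk : k < β := by omega
      rw [f3 k hk]
      exact ⟨(l3 k hk).2, Or.inr (Or.inr (Or.inl ⟨k, hk, rfl, rfl, (l3 k hk).1⟩))⟩
    by_cases h4 : i < o + 3 * D
    · obtain ⟨k, rfl⟩ : ∃ k, i = o + k := ⟨i - o, by omega⟩
      have hk : k < 300 * r := by omega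
      rw [f4 k hk]
      exact ⟨(l4 _ (hm k hk).1).2,
        Or.inr (Or.inr (Or.inr (Or.inl ⟨k, hk, rfl, rfl, (l4 _ (hm k hk).1).1⟩)))⟩
    · obtain ⟨k, rfl⟩ : ∃ k, i = o + 3 * D + k := ⟨i - o - 3 * D, by omega⟩
      have hk : k < 300 * r := by omega
      rw [f5 k hk]
      exact ⟨(l4 _ (hm k hk).2).2,
        Or.inr (Or.inr (Or.inr (Or.inr ⟨k, hk, rfl, rfl, (l4 _ (hm k hk).2).1⟩)))⟩
  have inj0 : ∀ i ∈ P, ∀ j ∈ P, e0 i = e0 j → i = j := fun i hiP j hjP h => by
    have hl : lev (e0 i) = lev (e0 j) := congrArg lev h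
    rcases (cls i hiP).2 with ⟨k, hk, p1, p2, p3⟩ | ⟨k, hk, p1, p2, p3⟩ | ⟨k, hk, p1, p2, p3⟩ |
      ⟨k, hk, p1, p2, p3⟩ | ⟨k, hk, p1, p2, p3⟩ <;>
    rcases (cls j hjP).2 with ⟨l, hl', q1, q2, q3⟩ | ⟨l, hl', q1, q2, q3⟩ | ⟨l, hl', q1, q2, q3⟩ |
      ⟨l, hl', q1, q2, q3⟩ | ⟨l, hl', q1, q2, q3⟩ <;>
    have hh := p2.symm.trans (h.trans q2) <;>
    first
      | (rw [p3, q3] at hl; exact absurd hl (by decide))
      | (rw [p1, q1, hξi k hk l hl' hh])
      | (rw [p1, q1, Jn.ai k hk l hl' hh])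
      | (rw [p1, q1, Jn.bi k hk l hl' hh])
      | (rw [p1, q1, (hi k hk l hl').1 hh])
      | (rw [p1, q1, (hi k hk l hl').2.1 hh])
      | exact absurd hh (hi k hk l hl').2.2
      | exact absurd hh.symm (hi l hl' k hk).2.2
  obtain ⟨e1, g1, g2, g3⟩ := Rest.ext P (fun i => U.filter (hh G (ξ (i - (o - X.card))))) e0 inj0
    (Ico (o - X.card) o) (disjoint_left.2 fun i h1 h2 => by
      rw [mP] at h1
      rw [mem_Ico] at h2
      omega) (fun i h => by
      rw [mem_Ico] at h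
      have h1 : n / 20000 < (U.filter (hh G (ξ (i - (o - X.card))))).card :=
        ((B.mX _).1 (hξ (i - (o - X.card)) (by omega))).2
      rw [Nat.card_Ico]
      omega)
  obtain ⟨N, hN⟩ : ∃ N, N = o + 6 * D + 2 * (10 ^ 13 * r) := ⟨_, rfl⟩
  have hsub : P ∪ Ico (o - X.card) o ⊆ range N := fun i h => by
    rw [mem_union, mP, mem_Ico] at h
    rw [mem_range]
    omega
  have hL : N ≤ (U.filter fun v => hd G U v ≤ 40 * r).card := by
    have s1 := card_filter_add_card_filter_not (s := U) (fun v => hd G U v ≤ 40 * r)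
    have s2 : (U.filter fun v => ¬ hd G U v ≤ 40 * r).card * (40 * r) ≤ 4 * r * n := by
      refine le_trans ?_ ((sum_le_sum_of_subset (f := hd G U)
        (filter_subset (fun v => ¬ hd G U v ≤ 40 * r) U)).trans B.c3)
      exact card_nsmul_le_sum _ _ _ fun v hv => (not_le.1 (mem_filter.1 hv).2).le
    have s3 : (U.filter fun v => ¬ hd G U v ≤ 40 * r).card * 10 ≤ n := by
      refine Nat.le_of_mul_le_mul_left (?_ : 4 * r * _ ≤ 4 * r * _) (by omega)
      refine le_trans (le_of_eq ?_) s2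
      ring
    omega
  obtain ⟨e, k1, k2, k3⟩ := Rest.ext (P ∪ Ico (o - X.card) o)
    (fun _ => U.filter fun v => hd G U v ≤ 40 * r) e1 g3 (range N \ (P ∪ Ico (o - X.card) o))
    disjoint_sdiff (fun i _ => by
      have := card_sdiff_add_card_eq_card hsub
      rw [card_range] at this
      omega)
  rw [union_sdiff_of_subset hsub] at k3
  have ee : ∀ i ∈ P, e i = e0 i := fun i h => (k1 i (mem_union_left _ h)).trans (g1 i h)
  have ex : ∀ k < X.card, e k = ξ k := fun k hk => (ee k ((mP k).2 (by omega))).trans (f1 k hk)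
  refine ⟨e, o, ho, fun i h => ?_, fun i h j h' => ?_, fun v => ?_, fun j h => ?_, fun j h => ?_,
    fun k h => ?_, fun i h => ?_, fun i h h1 h2 => ?_⟩
  · by_cases h1 : i ∈ P ∪ Ico (o - X.card) o
    · rcases mem_union.1 h1 with h2 | h2
      · rw [ee i h2]
        exact (cls i h2).1
      · rw [k1 i h1]
        exact (mem_filter.1 (g2 i h2)).1
    · exact (mem_filter.1 (k2 i (mem_sdiff.2 ⟨mem_range.2 (by omega), h1⟩))).1
  · exact k3 i (mem_range.2 (by omega)) j (mem_range.2 (by omega))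
  · constructor
    · intro hv
      obtain ⟨k, hk, rfl⟩ := hξs v hv
      exact ⟨k, hk, ex k hk⟩
    · rintro ⟨k, hk, rfl⟩
      rw [ex k hk]
      exact hξ k hk
  · exact (ee _ ((mP _).2 (by omega))).trans (f2 j h)
  · exact (ee _ ((mP _).2 (by omega))).trans (f3 j h)
  · have hm' : X.card + 2 * c + 3 * (10 ^ 8 * r) + k ∈ Ico (o - X.card) o :=
      mem_Ico.2 (by omega)
    have := (mem_filter.1 (g2 _ hm')).2
    rw [show X.card + 2 * c + 3 * (10 ^ 8 * r) + k - (o - X.card) = k by omega] at this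
    rw [ex k h, k1 _ (mem_union_right _ hm')]
    exact this
  · rw [← hD]
    exact ⟨(ee _ ((mP _).2 (by omega))).trans (f4 i h), (ee _ ((mP _).2 (by omega))).trans (f5 i h)⟩
  · refine (mem_filter.1 (k2 _ (mem_sdiff.2 ⟨mem_range.2 (by omega), fun h3 => ?_⟩))).2
    rw [mem_union, mP, mem_Ico] at h3
    omega

end Pool.Agent.MP_f65396_co.h81n
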