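import Pool.Agent.MP_f65396_co.h81n.SpecA

/-! Statements of the steps for nearly complete graphs with many further vertices. -/

set_option autoImplicit false

namespace Pool.Agent.MP_f65396_co.h81n

open Finset
open Pool.Agent.MP_f65396_co.h15l (tcost)
open Pool.Agent.MP_f65396_co.h15n (Dec0 ein)

section defs

variable {V : Type} [Fintype V] [DecidableEq V] (G : SimpleGraph V) [DecidableRel G.Adj]

/-- The non-edges. -/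
def hh (u v : V) : Prop := v ≠ u ∧ ¬ G.Adj u v

instance : DecidableRel (hh G) := fun u v => inferInstanceAs (Decidable (v ≠ u ∧ ¬ G.Adj u v))

/-- The number of neighbours in `W`. -/
def dW (W : Finset V) (v : V) : ℕ := (W.filter (G.Adj v)).card

/-- The number of non-neighbours in `U`. -/
def hd (U : Finset V) (v : V) : ℕ := (U.filter (hh G v)).card

/-- The core `U` and the vertices `W` of small degree. -/
structure Nr (n r : ℕ) (U W : Finset V) : Prop where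
  hE : G.edgeSet.ncard = n * (n + 1) / 2
  r1 : 1 ≤ r
  n1 : 10 ^ 24 * r ≤ n
  n2 : n ≤ 2 * 10 ^ 24 * r
  dj : Disjoint U W
  cov : ∀ u v, G.Adj u v → u ∈ U ∨ u ∈ W
  wd : ∀ w ∈ W, 1 ≤ G.degree w ∧ G.degree w ≤ 10 ^ 10 * r
  ud : ∀ u ∈ U, 10 ^ 10 * r ≤ G.degree u
  u1 : U.card ≤ n + r
  u2 : n ≤ U.card + r
  wc : 10 ^ 13 * r ≤ W.card
  rho : ∑ w ∈ W, G.degree w ≤ 10 ^ 8 * r * r

/-- The exceptional vertices `X`, the heavy vertices `Y` and the basic counts. -/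
structure Bs (n r : ℕ) (U W X Y : Finset V) : Prop extends Nr G n r U W where
  mX : ∀ v, v ∈ X ↔ v ∈ U ∧ n / 20000 < hd G U v
  mY : ∀ v, v ∈ Y ↔ v ∈ U ∧ 10 ^ 8 * r ≤ dW G W v
  c1 : ∑ v ∈ U, hd G U v + n * (n + 1) =
    U.card * (U.card - 1) + ∑ v ∈ U, dW G W v + ∑ w ∈ W, G.degree w
  c2 : ∑ w ∈ W, G.degree w = ∑ v ∈ U, dW G W v + ∑ w ∈ W, dW G W w
  c3 : ∑ v ∈ U, hd G U v ≤ 4 * r * n
  c4 : X.card ≤ 10 ^ 5 * r
  c5 : Y.card ≤ r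

/-- The low vertices `J`, listed by `a`, and the partners `b` of the first `β` of them. -/
structure J1 (n r c β : ℕ) (U W X Y J M : Finset V) (a b : ℕ → V) : Prop where
  ec : c + n = U.card + 3 * (10 ^ 8 * r)
  eβ : β = U.card - n - X.card
  eJ : J = (range c).image a
  eM : M = U \ (X ∪ J ∪ (range β).image b)
  am : ∀ j < c, a j ∈ U \ X
  ai : ∀ j < c, ∀ k < c, a j = a k → j = k
  bm : ∀ j < β, b j ∈ U \ (X ∪ Y ∪ J) ∧ hh G (a j) (b j)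
  bi : ∀ j < β, ∀ k < β, b j = b k → j = k
  yJ : Y ⊆ X ∪ J
  small : 100 * ∑ v ∈ J \ Y, dW G W v ≤ 300 * (β + 1) * (10 ^ 8 * r) + ∑ v ∈ M, dW G W v
  two : Y = ∅ → 4 ≤ ∑ w ∈ W, dW G W w + 2 * ∑ v ∈ (X ∪ J) \ Y, dW G W v

/-- The single edges `Es`, the list of the heavy vertices and the arms. -/
structure Pa (r : ℕ) (W Y Z : Finset V) (Es : Finset (V × V)) (yv : ℕ → V) (σ0 σ1 ny : ℕ)
    (ar : ℕ → ℕ) : Prop where
  mem : ∀ p ∈ Es, G.Adj p.1 p.2 ∧ p.2 ∈ W ∧ (p.1 ∈ W ∨ p.1 ∈ Z)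
  cov : ∀ u, u ∈ W ∨ u ∈ Z → ∀ w ∈ W, G.Adj u w → (u, w) ∈ Es ∨ (w, u) ∈ Es
  asy : ∀ u v, (u, v) ∈ Es → (v, u) ∉ Es
  e1 : Es.card = (Es.filter (fun p => p.1 ∈ W)).card + ∑ v ∈ Z, dW G W v
  e2 : 2 * (Es.filter (fun p => p.1 ∈ W)).card = ∑ w ∈ W, dW G W w
  ey : ny = Y.card
  ym : ∀ k < ny, yv k ∈ Y
  yi : ∀ k < ny, ∀ l < ny, yv k = yv l → k = l
  yc : ∀ v ∈ Y, ∃ k < ny, yv k = v
  a1 : ∀ α < σ0 + σ1, ar α = 1
  a2 : ∀ k < ny, ar (σ0 + σ1 + k) = 4 * (dW G W (yv k) / (10 ^ 11 * r) + 2)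
  s1 : σ1 = ∑ k ∈ range ny, (dW G W (yv k) / (10 ^ 11 * r) + 2)
  s2 : Es.card ≤ σ0 * (10 ^ 11 * r) + 1
  s3 : 1 ≤ σ0 → (σ0 - 1) * (10 ^ 11 * r) < Es.card ∧ 2 ≤ Es.card
  s4 : 1 ≤ σ0 + σ1
  s5 : σ0 ≤ 2 * r
  s6 : σ1 ≤ 3 * r
  s7 : ∑ α ∈ range (σ0 + σ1 + ny), ar α = σ0 + 5 * σ1

/-- The stars of the top `300 r` depths. -/
structure T0 (r : ℕ) (W Z : Finset V) (Es : Finset (V × V)) (yv : ℕ → V) (σ0 σ1 ny : ℕ)
    (ar : ℕ → ℕ) (C : Finset (ℕ × ℕ)) (tc : ℕ × ℕ → V) (tl : ℕ × ℕ → Finset V) : Prop where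
  ts : TS G C (fun x => ar x.2) tc tl
  cl : ∀ x, x ∈ C ↔ x.1 < 300 * r ∧
    ((x.2 < σ0 ∧ x.1 < 2 * σ0) ∨ (σ0 + σ1 ≤ x.2 ∧ x.2 < σ0 + σ1 + ny))
  sg : ∀ x ∈ C, x.2 < σ0 → ∃ p ∈ Es, tc x = p.1 ∧ tl x = {p.2}
  ya : ∀ x ∈ C, σ0 + σ1 ≤ x.2 → tc x = yv (x.2 - (σ0 + σ1)) ∧ tl x ⊆ W
  fl : (∀ x ∈ C, x.2 < σ0 → tc x ∈ W) ∨
    (Es.filter (fun p => p.1 ∈ W)).card ≤ ∑ v ∈ Z, dW G W v + 10 ^ 11 * r

/-- The top `300 r` pairs. -/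
structure P3 (n r : ℕ) (U W M : Finset V) (σ0 σ1 ny : ℕ) (C : Finset (ℕ × ℕ)) (tc : ℕ × ℕ → V)
    (tl : ℕ × ℕ → Finset V) (y u : ℕ → V) : Prop where
  mem : ∀ i < 300 * r, y i ∈ M ∧ u i ∈ M
  inj : ∀ i < 300 * r, ∀ k < 300 * r, (y i = y k → i = k) ∧ (u i = u k → i = k) ∧ y i ≠ u k
  top : ∀ i < 300 * r, tcost U (hh G) (fun _ => ∅) y u i + 2 + n + ny +
      (if i < 2 * σ0 then ((range σ0).filter (fun α => tc (i, α) ∉ W)).card else 2 * σ0) ≤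
    U.card + σ0 + 3 * σ1 + i +
      ((W.filter (fun w => G.Adj (u i) w ∨ G.Adj (y i) w)) \ SV C tc tl i).card

/-- The list of all special vertices of the core: `X`, `J`, the partners of `J`, of the extra
vertices and of `X`, the top pairs and the reservoir. -/
structure E4 (n r c β : ℕ) (U X : Finset V) (a b y u e : ℕ → V) (o : ℕ) : Prop where
  eo : o = 2 * X.card + 2 * c + 3 * (10 ^ 8 * r)
  mem : ∀ i < o + 6 * (n / 10000) + 2 * (10 ^ 13 * r), e i ∈ U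
  inj : ∀ i < o + 6 * (n / 10000) + 2 * (10 ^ 13 * r),
    ∀ j < o + 6 * (n / 10000) + 2 * (10 ^ 13 * r), e i = e j → i = j
  ex : ∀ v, v ∈ X ↔ ∃ k < X.card, e k = v
  ea : ∀ j < c, e (X.card + j) = a j
  eb : ∀ j < β, e (X.card + c + j) = b j
  par : ∀ k < X.card, hh G (e k) (e (X.card + 2 * c + 3 * (10 ^ 8 * r) + k))
  ey : ∀ i < 300 * r, e (o + i) = y i ∧ e (o + 3 * (n / 10000) + i) = u i
  low : ∀ i < 6 * (n / 10000) + 2 * (10 ^ 13 * r), 300 * r ≤ i →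
    ¬ (3 * (n / 10000) ≤ i ∧ i < 3 * (n / 10000) + 300 * r) → hd G U (e (o + i)) ≤ 40 * r

/-- All stars with edges meeting `W`; `y`, `u` are the top pairs, `Z` is `X ∪ J`. -/
structure T1 (r K g : ℕ) (W Z : Finset V) (ar : ℕ → ℕ) (y u : ℕ → V) (C0 : Finset (ℕ × ℕ))
    (tc0 : ℕ × ℕ → V) (tl0 : ℕ × ℕ → Finset V) (C : Finset (ℕ × ℕ)) (tc : ℕ × ℕ → V)
    (tl : ℕ × ℕ → Finset V) : Prop where
  ts : TS G C (fun x => ar x.2) tc tl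
  sub : C ⊆ range (10 ^ 13 * r - g) ×ˢ range K
  old : ∀ x : ℕ × ℕ, x.1 < 300 * r → (x ∈ C ↔ x ∈ C0)
  eqn : ∀ x ∈ C0, tc x = tc0 x ∧ tl x = tl0 x
  loc : ∀ x ∈ C, tl x ⊆ W ∧ (tc x ∈ W ∨ tc x ∈ Z ∨
    ∃ k < 300 * r, k < x.1 ∧ tc x = u k ∧ tl x ⊆ SV C0 tc0 tl0 k)
  cov : ∀ v, v ∈ W ∨ v ∈ Z → ∀ w ∈ W, G.Adj v w → TE C tc tl v w
  cf : ∀ i < 300 * r, ∀ w ∈ SV C0 tc0 tl0 i, w ∈ W → G.Adj (u i) w → TE C tc tl (u i) w
  av : ∀ x ∈ C, 300 * r ≤ x.1 → ∀ w ∈ insert (tc x) (tl x), w ∈ W →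
    ¬ G.Adj (u x.1) w ∧ ¬ G.Adj (y x.1) w

/-- The stars on all cells; `F` lists the reservoir. -/
structure T2 (t K g : ℕ) (ar : ℕ → ℕ) (F : ℕ → V) (C1 : Finset (ℕ × ℕ)) (tc1 : ℕ × ℕ → V)
    (tl1 : ℕ × ℕ → Finset V) (C : Finset (ℕ × ℕ)) (tc : ℕ × ℕ → V) (tl : ℕ × ℕ → Finset V) :
    Prop where
  eC : C = range t ×ˢ range K
  ts : TS G C (szf t ar) tc tl
  s1 : ∀ i, ∑ α ∈ range K, szf t ar (i, α) = min g (t - i)
  eqn : ∀ x ∈ C1, tc x = tc1 x ∧ tl x = tl1 x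
  fil : ∀ x ∈ C, x ∉ C1 → ∀ v ∈ insert (tc x) (tl x), ∃ k < 2 * t, F k = v
  uu : ∀ (v : V) (T : Finset V), (∀ w ∈ T, TE (C \ C1) tc tl v w) → T.card ≤ t

/-- The edges from `v` to `W` that stay in a star centred at `v`. -/
def PP (W : Finset V) (C : Finset (ℕ × ℕ)) (tc : ℕ × ℕ → V) (tl : ℕ × ℕ → Finset V) (v : V) :
    Finset V := W.filter (fun w => G.Adj v w ∧ ¬ TE C tc tl v w)

/-- All choices. -/
structure Fn (n r c x K g o : ℕ) (U W : Finset V) (e : ℕ → V) (C : Finset (ℕ × ℕ))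
    (sz : ℕ × ℕ → ℕ) (tc : ℕ × ℕ → V) (tl : ℕ × ℕ → Finset V) : Prop extends Nr G n r U W where
  ec : c + n = U.card + 3 * (10 ^ 8 * r)
  hx : x ≤ 10 ^ 5 * r
  eo : o = 2 * x + 2 * c + 3 * (10 ^ 8 * r)
  eC : C = range (10 ^ 13 * r) ×ˢ range K
  mem : ∀ i < o + 6 * (n / 10000) + 2 * (10 ^ 13 * r), e i ∈ U
  inj : ∀ i < o + 6 * (n / 10000) + 2 * (10 ^ 13 * r),
    ∀ j < o + 6 * (n / 10000) + 2 * (10 ^ 13 * r), e i = e j → i = j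
  xs : ∀ v ∈ U, (∀ k < x, e k ≠ v) → hd G U v ≤ n / 20000
  par : ∀ k < x, hh G (e k) (e (x + 2 * c + 3 * (10 ^ 8 * r) + k))
  bot : ∀ j, x + j + n < U.card → hh G (e (x + j)) (e (x + c + j))
  ts : TS G C sz tc tl
  s1 : ∀ i, ∑ α ∈ range K, sz (i, α) = min g (10 ^ 13 * r - i)
  s2 : ∀ i α, sz (i + 1, α) ≤ sz (i, α)
  ww : ∀ v ∈ W, ∀ w ∈ W, G.Adj v w → TE C tc tl v w
  zw : ∀ k < x + c, PP G W C tc tl (e k) = ∅
  pq : ∀ v ∈ U, (PP G W C tc tl v).card ≤ 10 ^ 8 * r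
  uu : ∀ v ∈ U, (U.filter (TE C tc tl v)).card ≤ 10 ^ 13 * r
  loc : ∀ i, ∀ v ∈ SV C tc tl i, v ∈ U → (∃ k < x + c, e k = v) ∨
    (∃ k < 2 * (10 ^ 13 * r), e (o + 6 * (n / 10000) + k) = v) ∨
    ∃ k < i, e (o + 3 * (n / 10000) + k) = v
  crd : ∀ i, (SV C tc tl i).card ≤ 10 ^ 8 * r
  cf : ∀ i < 10 ^ 13 * r, ∀ w ∈ SV C tc tl i, w ∉ PP G W C tc tl (e (o + 3 * (n / 10000) + i))
  tu : ∀ i < 6 * (n / 10000), ∀ v ∈ U, ¬ TE C tc tl (e (o + i)) v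
  top : ∀ i < 3 * (n / 10000), tcost U (hh G) (fun k => SV C tc tl k ∩ U) (fun k => e (o + k))
      (fun k => e (o + 3 * (n / 10000) + k)) i + 2 + n ≤
    U.card + min g (10 ^ 13 * r - i) + i + ((PP G W C tc tl (e (o + 3 * (n / 10000) + i)) ∪
      PP G W C tc tl (e (o + i))) \ SV C tc tl i).card

/-- The private names of the neighbours in `W`. -/
structure Nm (sp D : ℕ) (U : Finset V) (P : V → Finset V) (op y u : ℕ → V) (ν : V → V → ℕ) :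
    Prop where
  lt : ∀ v ∈ U, ∀ w ∈ P v, ν v w < sp
  ij : ∀ v ∈ U, ∀ w ∈ P v, ∀ w' ∈ P v, ν v w = ν v w' → w = w'
  pr : ∀ i < 3 * D, ∀ w ∈ P (u i), ∀ w' ∈ P (y i), (ν (u i) w = ν (y i) w' ↔ w = w')
  av : ∀ k < sp, ∀ w ∈ P (op k), ν (op k) w ≠ k

/-- The core together with the extra vertices. -/
def UP (U : Finset V) (sp : ℕ) : Finset (V ⊕ ℕ) := U.disjSum (range sp)

/-- The non-edges of the core together with the extra vertices. -/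
def hP (T : V → V → Prop) (P : V → Finset V) (ν : V → V → ℕ) : V ⊕ ℕ → V ⊕ ℕ → Prop
  | Sum.inl a, Sum.inl b => b ≠ a ∧ (¬ G.Adj a b ∨ T a b)
  | Sum.inl a, Sum.inr k => ∀ w ∈ P a, ν a w ≠ k
  | Sum.inr k, Sum.inl a => ∀ w ∈ P a, ν a w ≠ k
  | Sum.inr k, Sum.inr l => l ≠ k

/-- The blocked vertices of depth `i`. -/
def SP (U : Finset V) (S : ℕ → Finset V) (P : V → Finset V) (ν : V → V → ℕ) (y : ℕ → V)
    (i : ℕ) : Finset (V ⊕ ℕ) := (S i ∩ U).disjSum ((P (y i) ∩ S i).image (ν (y i)))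

/-- The list of the special vertices including the extra vertices. -/
def eP (sp : ℕ) (e : ℕ → V) (i : ℕ) : V ⊕ ℕ := if i < sp then Sum.inr i else Sum.inl (e (i - sp))

end defs

/-- The structure of a nearly complete graph. -/
def StructS : Prop := ∀ (V : Type) [Fintype V] [DecidableEq V] (G : SimpleGraph V)
    [DecidableRel G.Adj] (n : ℕ) (S : Finset V), G.edgeSet.ncard = n * (n + 1) / 2 →
  10 ^ 46 ≤ n → (10 ^ 45 - 1) * n * S.card < 10 ^ 45 * ein G S →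
  n < 10 ^ 10 * (G.support.ncard - n) → ∃ U W, Nr G n (n / 10 ^ 24) U W

/-- The basic counts. -/
def CountS : Prop := ∀ (V : Type) [Fintype V] [DecidableEq V] (G : SimpleGraph V)
    [DecidableRel G.Adj] (n r : ℕ) (U W : Finset V), Nr G n r U W → ∃ X Y, Bs G n r U W X Y

/-- The low vertices. -/
def JS : Prop := ∀ (V : Type) [Fintype V] [DecidableEq V] (G : SimpleGraph V)
    [DecidableRel G.Adj] (n r : ℕ) (U W X Y : Finset V), Bs G n r U W X Y →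
  ∃ c β J M a b, J1 G n r c β U W X Y J M a b

/-- The arms. -/
def PaS : Prop := ∀ (V : Type) [Fintype V] [DecidableEq V] (G : SimpleGraph V)
    [DecidableRel G.Adj] (n r : ℕ) (U W X Y Z : Finset V), Bs G n r U W X Y → Z ⊆ U →
  (Y = ∅ → 4 ≤ ∑ w ∈ W, dW G W w + 2 * ∑ v ∈ Z, dW G W v) →
  ∃ Es yv σ0 σ1 ny ar, Pa G r W Y Z Es yv σ0 σ1 ny ar

/-- The stars of the top depths. -/
def T0S : Prop := ∀ (V : Type) [Fintype V] [DecidableEq V] (G : SimpleGraph V)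
    [DecidableRel G.Adj] (n r : ℕ) (U W X Y Z : Finset V) (Es : Finset (V × V)) (yv : ℕ → V)
    (σ0 σ1 ny : ℕ) (ar : ℕ → ℕ), Bs G n r U W X Y → Z ⊆ U \ Y →
  Pa G r W Y Z Es yv σ0 σ1 ny ar → ∃ C tc tl, T0 G r W Z Es yv σ0 σ1 ny ar C tc tl

/-- The second moment bound. -/
def GapS : Prop := ∀ (V : Type) [Fintype V] [DecidableEq V] (G : SimpleGraph V)
    [DecidableRel G.Adj] (n r : ℕ) (U W X Y M : Finset V), Bs G n r U W X Y → M ⊆ U \ X →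
  U.card ≤ M.card + 4 * (10 ^ 8 * r) →
  2 * ∑ v ∈ U, ((M.filter (hh G v)).card : ℤ) ^ 2 +
      2 * (M.card : ℤ) * (47 * (10 ^ 8 * r) * (X \ Y).card +
        20 * (10 ^ 8 * r) * ((U.card - n - X.card : ℕ) : ℤ)) ≤
    2 * ((U.card : ℤ) - n - 1) * (M.card : ℤ) ^ 2 + (M.card : ℤ) * (8 * (10 ^ 8 * r) * X.card +
      ((∑ v ∈ U, dW G W v + ∑ w ∈ W, G.degree w : ℕ) : ℤ))

/-- The top pairs. -/
def TopS : Prop := ∀ (V : Type) [Fintype V] [DecidableEq V] (G : SimpleGraph V)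
    [DecidableRel G.Adj] (n r c β : ℕ) (U W X Y J M : Finset V) (a b : ℕ → V)
    (Es : Finset (V × V)) (yv : ℕ → V) (σ0 σ1 ny : ℕ) (ar : ℕ → ℕ) (C : Finset (ℕ × ℕ))
    (tc : ℕ × ℕ → V) (tl : ℕ × ℕ → Finset V), Bs G n r U W X Y → J1 G n r c β U W X Y J M a b →
  Pa G r W Y ((X ∪ J) \ Y) Es yv σ0 σ1 ny ar →
  T0 G r W ((X ∪ J) \ Y) Es yv σ0 σ1 ny ar C tc tl →
  ∃ y u, P3 G n r U W M σ0 σ1 ny C tc tl y u

/-- The list of the special vertices. -/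
def RestS : Prop := ∀ (V : Type) [Fintype V] [DecidableEq V] (G : SimpleGraph V)
    [DecidableRel G.Adj] (n r c β : ℕ) (U W X Y J M : Finset V) (a b y u : ℕ → V),
  Bs G n r U W X Y → J1 G n r c β U W X Y J M a b → (∀ i < 300 * r, y i ∈ M ∧ u i ∈ M) →
  (∀ i < 300 * r, ∀ k < 300 * r, (y i = y k → i = k) ∧ (u i = u k → i = k) ∧ y i ≠ u k) →
  ∃ e o, E4 G n r c β U X a b y u e o

/-- The remaining edges meeting `W`. -/
def MidS : Prop := ∀ (V : Type) [Fintype V] [DecidableEq V] (G : SimpleGraph V)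
    [DecidableRel G.Adj] (n r : ℕ) (U W X Y Z : Finset V) (Es : Finset (V × V)) (yv y u : ℕ → V)
    (σ0 σ1 ny : ℕ) (ar : ℕ → ℕ) (C0 : Finset (ℕ × ℕ)) (tc0 : ℕ × ℕ → V)
    (tl0 : ℕ × ℕ → Finset V), Bs G n r U W X Y → Z ⊆ U → Y ⊆ Z →
  Pa G r W Y (Z \ Y) Es yv σ0 σ1 ny ar → T0 G r W (Z \ Y) Es yv σ0 σ1 ny ar C0 tc0 tl0 →
  (∀ i < 10 ^ 13 * r, y i ∈ U \ Z ∧ u i ∈ U \ Z) →
  (∀ i < 10 ^ 13 * r, ∀ k < 10 ^ 13 * r, (y i = y k → i = k) ∧ (u i = u k → i = k)) →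
  ∃ C tc tl, T1 G r (σ0 + σ1 + ny) (σ0 + 5 * σ1) W Z ar y u C0 tc0 tl0 C tc tl

/-- The stars from the reservoir. -/
def T2S : Prop := ∀ (V : Type) [Fintype V] [DecidableEq V] (G : SimpleGraph V)
    [DecidableRel G.Adj] (n r c β o : ℕ) (U W X Y J M : Finset V) (a b y u e : ℕ → V)
    (Es : Finset (V × V)) (yv : ℕ → V) (σ0 σ1 ny : ℕ) (ar : ℕ → ℕ) (C0 C1 : Finset (ℕ × ℕ))
    (tc0 tc1 : ℕ × ℕ → V) (tl0 tl1 : ℕ × ℕ → Finset V), Bs G n r U W X Y →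
  J1 G n r c β U W X Y J M a b → Pa G r W Y ((X ∪ J) \ Y) Es yv σ0 σ1 ny ar →
  E4 G n r c β U X a b y u e o →
  T1 G r (σ0 + σ1 + ny) (σ0 + 5 * σ1) W (X ∪ J) ar (fun k => e (o + k))
    (fun k => e (o + 3 * (n / 10000) + k)) C0 tc0 tl0 C1 tc1 tl1 →
  ∃ C tc tl, T2 G (10 ^ 13 * r) (σ0 + σ1 + ny) (σ0 + 5 * σ1) ar
    (fun k => e (o + 6 * (n / 10000) + k)) C1 tc1 tl1 C tc tl

/-- The inequality for the top pairs. -/
def FtS : Prop := ∀ (V : Type) [Fintype V] [DecidableEq V] (G : SimpleGraph V)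
    [DecidableRel G.Adj] (n r c β o : ℕ) (U W X Y J M : Finset V) (a b y u e : ℕ → V)
    (Es : Finset (V × V)) (yv : ℕ → V) (σ0 σ1 ny : ℕ) (ar : ℕ → ℕ) (C0 C1 C : Finset (ℕ × ℕ))
    (tc0 tc1 tc : ℕ × ℕ → V) (tl0 tl1 tl : ℕ × ℕ → Finset V), Bs G n r U W X Y →
  J1 G n r c β U W X Y J M a b → Pa G r W Y ((X ∪ J) \ Y) Es yv σ0 σ1 ny ar →
  T0 G r W ((X ∪ J) \ Y) Es yv σ0 σ1 ny ar C0 tc0 tl0 →
  P3 G n r U W M σ0 σ1 ny C0 tc0 tl0 y u → E4 G n r c β U X a b y u e o →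
  T1 G r (σ0 + σ1 + ny) (σ0 + 5 * σ1) W (X ∪ J) ar (fun k => e (o + k))
    (fun k => e (o + 3 * (n / 10000) + k)) C0 tc0 tl0 C1 tc1 tl1 →
  T2 G (10 ^ 13 * r) (σ0 + σ1 + ny) (σ0 + 5 * σ1) ar (fun k => e (o + 6 * (n / 10000) + k))
    C1 tc1 tl1 C tc tl →
  ∀ i < 3 * (n / 10000), tcost U (hh G) (fun k => SV C tc tl k ∩ U) (fun k => e (o + k))
      (fun k => e (o + 3 * (n / 10000) + k)) i + 2 + n ≤
    U.card + min (σ0 + 5 * σ1) (10 ^ 13 * r - i) + i +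
      ((PP G W C tc tl (e (o + 3 * (n / 10000) + i)) ∪ PP G W C tc tl (e (o + i))) \
        SV C tc tl i).card

/-- All choices. -/
def FnS : Prop := ∀ (V : Type) [Fintype V] [DecidableEq V] (G : SimpleGraph V)
    [DecidableRel G.Adj] (n r c β o : ℕ) (U W X Y J M : Finset V) (a b y u e : ℕ → V)
    (Es : Finset (V × V)) (yv : ℕ → V) (σ0 σ1 ny : ℕ) (ar : ℕ → ℕ) (C0 C1 C : Finset (ℕ × ℕ))
    (tc0 tc1 tc : ℕ × ℕ → V) (tl0 tl1 tl : ℕ × ℕ → Finset V), Bs G n r U W X Y →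
  J1 G n r c β U W X Y J M a b → Pa G r W Y ((X ∪ J) \ Y) Es yv σ0 σ1 ny ar →
  T0 G r W ((X ∪ J) \ Y) Es yv σ0 σ1 ny ar C0 tc0 tl0 → E4 G n r c β U X a b y u e o →
  T1 G r (σ0 + σ1 + ny) (σ0 + 5 * σ1) W (X ∪ J) ar (fun k => e (o + k))
    (fun k => e (o + 3 * (n / 10000) + k)) C0 tc0 tl0 C1 tc1 tl1 →
  T2 G (10 ^ 13 * r) (σ0 + σ1 + ny) (σ0 + 5 * σ1) ar (fun k => e (o + 6 * (n / 10000) + k))
    C1 tc1 tl1 C tc tl →
  (∀ i < 3 * (n / 10000), tcost U (hh G) (fun k => SV C tc tl k ∩ U) (fun k => e (o + k))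
      (fun k => e (o + 3 * (n / 10000) + k)) i + 2 + n ≤
    U.card + min (σ0 + 5 * σ1) (10 ^ 13 * r - i) + i +
      ((PP G W C tc tl (e (o + 3 * (n / 10000) + i)) ∪ PP G W C tc tl (e (o + i))) \
        SV C tc tl i).card) →
  Fn G n r c X.card (σ0 + σ1 + ny) (σ0 + 5 * σ1) o U W e C (szf (10 ^ 13 * r) ar) tc tl

/-- The names. -/
def NameS : Prop := ∀ (V : Type) [DecidableEq V] (q D : ℕ) (U : Finset V) (P : V → Finset V)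
    (op y u : ℕ → V), 1 ≤ q → (∀ v ∈ U, (P v).card ≤ q) → (∀ i < 3 * D, y i ∈ U ∧ u i ∈ U) →
  (∀ k < 3 * q, op k ∈ U) →
  (∀ i < 3 * D, ∀ k < 3 * D, (y i = y k → i = k) ∧ (u i = u k → i = k) ∧ y i ≠ u k) →
  (∀ k < 3 * q, (∀ l < 3 * q, op k = op l → k = l) ∧ ∀ i < 3 * D, op k ≠ y i ∧ op k ≠ u i) →
  ∃ ν, Nm (3 * q) D U P op y u ν

/-- The special vertices of the enlarged core. -/
def DatS : Prop := ∀ (V : Type) [Fintype V] [DecidableEq V] (G : SimpleGraph V)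
    [DecidableRel G.Adj] (n r c x K g o : ℕ) (U W : Finset V) (e : ℕ → V) (C : Finset (ℕ × ℕ))
    (sz : ℕ × ℕ → ℕ) (tc : ℕ × ℕ → V) (tl : ℕ × ℕ → Finset V) (ν : V → V → ℕ)
    [DecidableRel (hP G (TE C tc tl) (PP G W C tc tl) ν)], Fn G n r c x K g o U W e C sz tc tl →
  Nm (3 * (10 ^ 8 * r)) (n / 10000) U (PP G W C tc tl) (fun k => e (x + 2 * c + k))
    (fun k => e (o + k)) (fun k => e (o + 3 * (n / 10000) + k)) ν →
  Dat4 (UP U (3 * (10 ^ 8 * r))) (hP G (TE C tc tl) (PP G W C tc tl) ν) c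
    (3 * (10 ^ 8 * r) + x) (n / 10000) (10 ^ 13 * r) g (2 * (10 ^ 13 * r)) (3 * (10 ^ 8 * r))
    (eP (3 * (10 ^ 8 * r)) e) (SP U (SV C tc tl) (PP G W C tc tl) ν (fun k => e (o + k)))

/-- The number of non-edges of the enlarged core. -/
def SumS : Prop := ∀ (V : Type) [Fintype V] [DecidableEq V] (G : SimpleGraph V)
    [DecidableRel G.Adj] (n r c x K g o : ℕ) (U W : Finset V) (e op y u : ℕ → V)
    (C : Finset (ℕ × ℕ)) (sz : ℕ × ℕ → ℕ) (tc : ℕ × ℕ → V) (tl : ℕ × ℕ → Finset V)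
    (ν : V → V → ℕ) [DecidableRel (hP G (TE C tc tl) (PP G W C tc tl) ν)],
  Fn G n r c x K g o U W e C sz tc tl →
  Nm (3 * (10 ^ 8 * r)) (n / 10000) U (PP G W C tc tl) op y u ν →
  (∀ a b, hP G (TE C tc tl) (PP G W C tc tl) ν a b → hP G (TE C tc tl) (PP G W C tc tl) ν b a) ∧
  (∀ a, ¬ hP G (TE C tc tl) (PP G W C tc tl) ν a a) ∧ (UP U (3 * (10 ^ 8 * r))).card = n + c ∧
  ∑ a ∈ UP U (3 * (10 ^ 8 * r)),
      ((UP U (3 * (10 ^ 8 * r))).filter (hP G (TE C tc tl) (PP G W C tc tl) ν a)).card +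
      n * (n + 1) ≤
    (n + c) * (n + c - 1) + 2 * ∑ i ∈ range (10 ^ 13 * r), min g (10 ^ 13 * r - i)

/-- Back from the names to the vertices. -/
def UnS : Prop := ∀ (V : Type) [Fintype V] [DecidableEq V] (G : SimpleGraph V)
    [DecidableRel G.Adj] (n r c x K g o : ℕ) (U W : Finset V) (e op : ℕ → V)
    (C : Finset (ℕ × ℕ)) (sz : ℕ × ℕ → ℕ) (tc : ℕ × ℕ → V) (tl : ℕ × ℕ → Finset V)
    (ν : V → V → ℕ) (Ph : V ⊕ ℕ → Prop) (y' u' x' z' : ℕ → V ⊕ ℕ) (A L : ℕ → Finset (V ⊕ ℕ)),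
  Fn G n r c x K g o U W e C sz tc tl →
  Nm (3 * (10 ^ 8 * r)) (n / 10000) U (PP G W C tc tl) op (fun k => e (o + k))
    (fun k => e (o + 3 * (n / 10000) + k)) ν →
  (∀ k < 3 * (10 ^ 8 * r), Ph (Sum.inr k)) →
  (∀ i < 3 * (n / 10000), y' i = Sum.inl (e (o + i)) ∧
    u' i = Sum.inl (e (o + 3 * (n / 10000) + i))) →
  OutV (UP U (3 * (10 ^ 8 * r))) (hP G (TE C tc tl) (PP G W C tc tl) ν) n (n / 10000)
    (10 ^ 13 * r) g Ph y' u' (SP U (SV C tc tl) (PP G W C tc tl) ν (fun k => e (o + k)))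
    x' z' A L → Dec0 G n

/-- The nearly complete case. -/
def NearS : Prop := ∀ (V : Type) [Fintype V] [DecidableEq V] (G : SimpleGraph V)
    [DecidableRel G.Adj] (n : ℕ) (S : Finset V), G.edgeSet.ncard = n * (n + 1) / 2 →
  10 ^ 46 ≤ n → (10 ^ 45 - 1) * n * S.card < 10 ^ 45 * ein G S →
  n < 10 ^ 10 * (G.support.ncard - n) → Dec0 G n

end Pool.Agent.MP_f65396_co.h81n
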