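import Mathlib.Combinatorics.SimpleGraph.DegreeSum
import Pool.Agent.MP_f65396_co.h81n.SpecB

/-! The core and the vertices of small degree of a nearly complete graph. -/

set_option autoImplicit false

namespace Pool.Agent.MP_f65396_co.h81n

open Finset
open Pool.Agent.MP_f65396_co.h15n (ein)

namespace StructL

theorem ar1 (a k n s e : ℕ) (H : a * n * s < k * e) (h : e ≤ s * s) : a * n < k * s := by
  have h1 : k * e ≤ k * (s * s) := Nat.mul_le_mul_left _ h
  have h2 : a * n * s < k * s * s := by rw [mul_assoc k]; omega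
  exact lt_of_mul_lt_mul_right h2 (Nat.zero_le _)

theorem ar2 (a k n s e : ℕ) (H : a * n * s < k * e) (h : e ≤ n * (n + 1)) :
    a * s < k * (n + 1) := by
  have h1 : k * e ≤ k * (n * (n + 1)) := Nat.mul_le_mul_left _ h
  have h2 : a * s * n < k * (n + 1) * n := by
    have e1 : a * s * n = a * n * s := by ring
    have e2 : k * (n + 1) * n = k * (n * (n + 1)) := by ring
    omega
  exact lt_of_mul_lt_mul_right h2 (Nat.zero_le _)

theorem ar3 (a k n s e O p : ℕ) (hk : k = a + 1) (H : a * n * s < k * e)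
    (h : e + O ≤ n * (n + 1)) (h1 : n + 1 ≤ s + p) (h2 : s ≤ k * p) : O < 2 * (n * p) := by
  have g1 : k * (e + O) ≤ k * (n * (s + p)) :=
    Nat.mul_le_mul_left _ (h.trans (Nat.mul_le_mul_left _ h1))
  have g2 : n * s ≤ n * (k * p) := Nat.mul_le_mul_left _ h2
  have e1 : k * (n * (s + p)) = a * n * s + n * s + n * (k * p) := by rw [hk]; ring
  have e2 : k * (2 * (n * p)) = n * (k * p) + n * (k * p) := by ring
  have e3 : k * (e + O) = k * e + k * O := by ring
  have g3 : k * O < k * (2 * (n * p)) := by omega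
  exact lt_of_mul_lt_mul_left g3 (Nat.zero_le _)

theorem ar4 (a k n s e l : ℕ) (H : a * n * s < k * e) (h : 2 * e + l * s ≤ 2 * (s * s)) :
    2 * (a * n) + k * l < 2 * (k * s) := by
  have g1 : k * (2 * e + l * s) ≤ k * (2 * (s * s)) := Nat.mul_le_mul_left _ h
  have e1 : k * (2 * e + l * s) = 2 * (k * e) + k * l * s := by ring
  have e2 : k * (2 * (s * s)) = 2 * (k * s) * s := by ring
  have e3 : (2 * (a * n) + k * l) * s = 2 * (a * n * s) + k * l * s := by ring
  have g2 : (2 * (a * n) + k * l) * s < 2 * (k * s) * s := by omega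
  exact lt_of_mul_lt_mul_right g2 (Nat.zero_le _)

theorem ar5 (n r p O : ℕ) (h1 : n ≤ 2 * 10 ^ 24 * r) (h2 : 10 ^ 20 * p ≤ r)
    (h3 : O < 2 * (n * p)) : O ≤ 40000 * r * r := by
  have g1 : n * (10 ^ 20 * p) ≤ 2 * 10 ^ 24 * r * r := Nat.mul_le_mul h1 h2
  have e1 : n * (10 ^ 20 * p) = 10 ^ 20 * (n * p) := by ring
  have e2 : 2 * 10 ^ 24 * r * r = 2 * 10 ^ 24 * (r * r) := by ring
  have e3 : 40000 * r * r = 40000 * (r * r) := by ring
  omega

variable {V : Type} [Fintype V] [DecidableEq V] (G : SimpleGraph V) [DecidableRel G.Adj]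

omit [Fintype V] [DecidableEq V] in
theorem ein_eq (S : Finset V) : ein G S = ∑ v ∈ S, (S.filter (G.Adj v)).card := by
  unfold ein
  rw [card_filter, sum_product]
  exact sum_congr rfl fun v _ => (card_filter _ _).symm

omit [DecidableEq V] in
theorem in_le (S : Finset V) (v : V) : (S.filter (G.Adj v)).card ≤ G.degree v :=
  card_le_card fun _ hw => (G.mem_neighborFinset _ _).2 (mem_filter.1 hw).2

theorem total (n : ℕ) (h : G.edgeSet.ncard = n * (n + 1) / 2) (S : Finset V) :
    ein G S + ∑ v ∈ univ \ S, G.degree v ≤ n * (n + 1) := by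
  have h1 := G.sum_degrees_eq_twice_card_edges
  have h2 : G.edgeSet.ncard = G.edgeFinset.card := by
    rw [← G.coe_edgeFinset, Set.ncard_coe_finset]
  have h3 := sum_sdiff (f := fun v => G.degree v) (subset_univ S)
  have h4 : ein G S ≤ ∑ v ∈ S, G.degree v := by
    rw [ein_eq]
    exact sum_le_sum fun v _ => in_le G S v
  omega

omit [DecidableEq V] in
theorem low (S : Finset V) (q : ℕ) (hq : 2 * q ≤ S.card) :
    2 * ein G S + (S.filter fun v => G.degree v ≤ q).card * S.card ≤ 2 * (S.card * S.card) := by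
  have h1 : ∑ v ∈ S, (2 * (S.filter (G.Adj v)).card + (if G.degree v ≤ q then 1 else 0) * S.card) ≤
      ∑ _v ∈ S, 2 * S.card := by
    refine sum_le_sum fun v _ => ?_
    have g1 := in_le G S v
    have g2 : (S.filter (G.Adj v)).card ≤ S.card := card_filter_le _ _
    split_ifs <;> omega
  rw [sum_add_distrib, ← mul_sum, ← sum_mul, ← card_filter, ← ein_eq, sum_const, smul_eq_mul] at h1
  have e : S.card * (2 * S.card) = 2 * (S.card * S.card) := by ring
  omega

end StructL

open StructL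

theorem struct : StructS := by
  intro V _ _ G _ n S hE hn H hsup
  obtain ⟨r, hr⟩ : ∃ r, r = n / 10 ^ 24 := ⟨_, rfl⟩
  obtain ⟨p, hp⟩ : ∃ p, p = r / 10 ^ 20 := ⟨_, rfl⟩
  rw [← hr]
  have n1 : 10 ^ 24 * r ≤ n := by omega
  have n2 : n ≤ 2 * 10 ^ 24 * r := by omega
  have r1 : 10 ^ 22 ≤ r := by omega
  have p1 : 10 ^ 20 * p ≤ r := by omega
  have p2 : 5 * n ≤ 10 ^ 45 * p := by omega
  have p3 : 100 ≤ p := by omega
  have ht := total G n hE S
  have he : ein G S ≤ S.card * S.card := by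
    unfold ein
    rw [← card_product]
    exact card_filter_le _ _
  have s1 := ar1 _ _ _ _ _ H he
  have s2 := ar2 _ _ _ _ _ H (le_trans (Nat.le_add_right _ _) ht)
  have s3 : n + 1 ≤ S.card + p := by omega
  have s4 : S.card ≤ n + p := by omega
  have hO := ar5 n r p _ n2 p1 (ar3 _ _ _ _ _ _ p (by norm_num) H ht s3 (by omega))
  have hl := ar4 _ _ _ _ _ _ H (low G S (10 ^ 10 * r) (by omega))
  obtain ⟨L, hL⟩ : ∃ L, L = S.filter fun v => G.degree v ≤ 10 ^ 10 * r := ⟨_, rfl⟩
  rw [← hL] at hl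
  have l1 : L.card ≤ 3 * p := by omega
  obtain ⟨U, hU⟩ : ∃ U : Finset V, ∀ v, v ∈ U ↔ 10 ^ 10 * r < G.degree v :=
    ⟨univ.filter fun v => 10 ^ 10 * r < G.degree v,
      fun v => by simp only [mem_filter, mem_univ, true_and]⟩
  obtain ⟨W, hW⟩ : ∃ W : Finset V, ∀ v, v ∈ W ↔ 1 ≤ G.degree v ∧ G.degree v ≤ 10 ^ 10 * r :=
    ⟨univ.filter fun v => 1 ≤ G.degree v ∧ G.degree v ≤ 10 ^ 10 * r,
      fun v => by simp only [mem_filter, mem_univ, true_and]⟩
  have cov : ∀ u v, G.Adj u v → u ∈ U ∨ u ∈ W := by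
    intro u v h
    have h1 : 0 < G.degree u := (G.degree_pos_iff_exists_adj u).2 ⟨v, h⟩
    rw [hU, hW]
    omega
  have x1 : (U \ S).card * (10 ^ 10 * r) ≤ ∑ v ∈ univ \ S, G.degree v := by
    rw [← smul_eq_mul]
    refine (card_nsmul_le_sum (U \ S) (fun v => G.degree v) _ fun v hv =>
      ((hU v).1 (mem_sdiff.1 hv).1).le).trans ?_
    exact sum_le_sum_of_subset (sdiff_subset_sdiff (subset_univ _) Subset.rfl)
  have x2 : 10 ^ 10 * (U \ S).card ≤ 40000 * r := by
    have e : (U \ S).card * (10 ^ 10 * r) = 10 ^ 10 * (U \ S).card * r := by ring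
    exact Nat.le_of_mul_le_mul_right (e ▸ x1.trans hO) (by omega)
  have x3 : U.card ≤ (U \ S).card + S.card := card_le_card_sdiff_add_card
  have u1 : U.card ≤ n + r := by omega
  have x4 : S.card ≤ U.card + L.card := by
    refine (card_le_card fun v hv => ?_).trans (card_union_le U L)
    rw [mem_union, hU, hL, mem_filter]
    by_cases h : 10 ^ 10 * r < G.degree v
    · exact Or.inl h
    · exact Or.inr ⟨hv, not_lt.1 h⟩
  have x5 : G.support.ncard ≤ U.card + W.card := by
    refine le_trans ?_ (card_union_le U W)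
    rw [← Set.ncard_coe_finset]
    refine Set.ncard_le_ncard (fun v hv => ?_) (finite_toSet _)
    obtain ⟨w, hw⟩ := G.mem_support.1 hv
    exact mem_coe.2 (mem_union.2 (cov v w hw))
  have x6 : ∑ w ∈ W, G.degree w ≤ ∑ v ∈ univ \ S, G.degree v + L.card * (10 ^ 10 * r) := by
    have g1 := sum_inter_add_sum_sdiff W S fun v => G.degree v
    have g2 : ∑ v ∈ W \ S, G.degree v ≤ ∑ v ∈ univ \ S, G.degree v :=
      sum_le_sum_of_subset (sdiff_subset_sdiff (subset_univ _) Subset.rfl)
    have g3 : ∑ v ∈ W ∩ S, G.degree v ≤ ∑ v ∈ L, G.degree v := by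
      refine sum_le_sum_of_subset fun v hv => ?_
      rw [hL, mem_filter]
      exact ⟨(mem_inter.1 hv).2, ((hW v).1 (mem_inter.1 hv).1).2⟩
    have g4 : ∑ v ∈ L, G.degree v ≤ L.card * (10 ^ 10 * r) := by
      rw [← smul_eq_mul]
      refine sum_le_card_nsmul _ _ _ fun v hv => ?_
      rw [hL] at hv
      exact (mem_filter.1 hv).2
    omega
  have x7 : L.card * (10 ^ 10 * r) ≤ r * r := by
    have e : L.card * (10 ^ 10 * r) = 10 ^ 10 * L.card * r := by ring
    rw [e]
    exact Nat.mul_le_mul_right _ (by omega)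
  refine ⟨U, W, hE, by omega, n1, n2, ?_, cov, fun w hw => (hW w).1 hw,
    fun u hu => ((hU u).1 hu).le, u1, by omega, by omega, ?_⟩
  · rw [disjoint_left]
    intro v h1 h2
    exact absurd ((hU v).1 h1) (not_lt.2 ((hW v).1 h2).2)
  · have e1 : 40000 * r * r = 40000 * (r * r) := by ring
    have e2 : 10 ^ 8 * r * r = 10 ^ 8 * (r * r) := by ring
    omega

end Pool.Agent.MP_f65396_co.h81n
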