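import Mathlib.Combinatorics.SimpleGraph.DegreeSum
import Pool.Agent.MP_f65396_co.h81n.SpecB

/-! The number of non-edges of the enlarged core. -/

set_option autoImplicit false

namespace Pool.Agent.MP_f65396_co.h81n

open Finset

namespace SumL

variable {V : Type} [Fintype V] [DecidableEq V]

theorem ind (U : Finset V) (Q : V → Finset V) :
    ∑ u, ∑ v, (if u ∈ U ∧ v ∈ Q u then 1 else 0) = ∑ u ∈ U, (Q u).card := by
  rw [← sum_subset (subset_univ U) fun u _ hu => by simp [hu]]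
  exact sum_congr rfl fun u hu => by simp [hu]

theorem te (C : Finset (ℕ × ℕ)) (tc : ℕ × ℕ → V) (tl : ℕ × ℕ → Finset V) :
    ∑ u, ∑ v, (if TE C tc tl u v then 1 else 0) ≤ 2 * ∑ x ∈ C, (tl x).card := by
  have h1 : ∀ u v, (if TE C tc tl u v then 1 else 0) ≤
      ∑ x ∈ C, (if u ∈ ({tc x} : Finset V) ∧ v ∈ tl x then 1 else 0) +
        ∑ x ∈ C, if v ∈ ({tc x} : Finset V) ∧ u ∈ tl x then 1 else 0 := by
    intro u v
    split_ifs with h
    · obtain ⟨x, hx, h | h⟩ := h
      · refine le_trans (le_trans ?_ (single_le_sum (fun _ _ => Nat.zero_le _) hx))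
          (Nat.le_add_right _ _)
        simp [h.1, h.2]
      · refine le_trans (le_trans ?_ (single_le_sum (fun _ _ => Nat.zero_le _) hx))
          (Nat.le_add_left _ _)
        simp [h.1, h.2]
    · exact Nat.zero_le _
  have h2 : ∑ u, ∑ v, ∑ x ∈ C, (if u ∈ ({tc x} : Finset V) ∧ v ∈ tl x then 1 else 0) =
      ∑ x ∈ C, (tl x).card := by
    rw [sum_congr rfl fun u _ => sum_comm, sum_comm]
    exact sum_congr rfl fun x _ => by rw [ind {tc x} fun _ => tl x, sum_singleton]
  refine (sum_le_sum fun u _ => sum_le_sum fun v _ => h1 u v).trans (le_of_eq ?_)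
  simp only [sum_add_distrib]
  rw [h2, sum_comm, h2, two_mul]

theorem adj (G : SimpleGraph V) [DecidableRel G.Adj] (U W : Finset V) (T : V → V → Prop)
    [DecidableRel T] (P : V → Finset V) (hT : ∀ u v, T u v → T v u)
    (hP : ∀ v w, w ∈ W → G.Adj v w → ¬ T v w → w ∈ P v)
    (cov : ∀ u v, G.Adj u v → u ∈ U ∨ u ∈ W) (ww : ∀ v ∈ W, ∀ w ∈ W, G.Adj v w → T v w) :
    ∑ v, G.degree v ≤ ∑ v ∈ U, (U.filter fun w => G.Adj v w ∧ ¬ T v w).card +
      2 * ∑ v ∈ U, (P v).card + ∑ u, ∑ v, if T u v then 1 else 0 := by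
  have h1 : ∀ u v, (if G.Adj u v then 1 else 0) ≤
      (if u ∈ U ∧ v ∈ U.filter fun w => G.Adj u w ∧ ¬ T u w then 1 else 0) +
        ((if u ∈ U ∧ v ∈ P u then 1 else 0) + if v ∈ U ∧ u ∈ P v then 1 else 0) +
        if T u v then 1 else 0 := by
    intro u v
    by_cases h : G.Adj u v
    · by_cases t : T u v
      · rw [if_pos h, if_pos t]
        omega
      · rw [if_pos h]
        rcases cov u v h with a | a <;> rcases cov v u h.symm with b | b
        · rw [if_pos ⟨a, mem_filter.2 ⟨b, h, t⟩⟩]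
          omega
        · rw [if_pos (⟨a, hP u v b h t⟩ : u ∈ U ∧ v ∈ P u)]
          omega
        · rw [if_pos (⟨b, hP v u a h.symm fun c => t (hT _ _ c)⟩ : v ∈ U ∧ u ∈ P v)]
          omega
        · exact absurd (ww u a v b h) t
    · rw [if_neg h]
      exact Nat.zero_le _
  have h2 : ∑ v, G.degree v = ∑ u, ∑ v, if G.Adj u v then 1 else 0 :=
    sum_congr rfl fun u _ => by
      rw [← G.card_neighborFinset_eq_degree, G.neighborFinset_eq_filter, card_filter]
  rw [h2]
  refine (sum_le_sum fun u _ => sum_le_sum fun v _ => h1 u v).trans (le_of_eq ?_)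
  simp only [sum_add_distrib]
  rw [ind U fun u => U.filter fun w => G.Adj u w ∧ ¬ T u w, ind U P,
    sum_comm (f := fun u v => if v ∈ U ∧ u ∈ P v then 1 else 0), ind U P, two_mul]

omit [Fintype V] in
theorem non (G : SimpleGraph V) [DecidableRel G.Adj] (U : Finset V) (T : V → V → Prop)
    [DecidableRel T] (P : V → Finset V) (ν : V → V → ℕ) (sp : ℕ) [DecidableRel (hP G T P ν)]
    (lt : ∀ v ∈ U, ∀ w ∈ P v, ν v w < sp)
    (ij : ∀ v ∈ U, ∀ w ∈ P v, ∀ w' ∈ P v, ν v w = ν v w' → w = w') :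
    U.card + sp + ∑ v ∈ U, (U.filter fun w => G.Adj v w ∧ ¬ T v w).card +
      2 * ∑ v ∈ U, (P v).card ≤
        ∑ a ∈ UP U sp, ((UP U sp).filter fun b => ¬ hP G T P ν a b).card := by
  have h1 : ∀ v ∈ U, 1 + (U.filter fun w => G.Adj v w ∧ ¬ T v w).card ≤
      ∑ w ∈ U, if ¬ hP G T P ν (.inl v) (.inl w) then 1 else 0 := by
    intro v hv
    rw [← card_filter, add_comm, ← card_insert_of_notMem (a := v) (by simp)]
    refine card_le_card fun w hw => ?_
    rcases mem_insert.1 hw with rfl | hw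
    · exact mem_filter.2 ⟨hv, fun h => h.1 rfl⟩
    · obtain ⟨a, b, c⟩ := mem_filter.1 hw
      exact mem_filter.2 ⟨a, fun h => h.2.elim (fun d => d b) c⟩
  have h2 : ∀ v ∈ U, (P v).card ≤
      ∑ k ∈ range sp, if ¬ hP G T P ν (.inl v) (.inr k) then 1 else 0 := by
    intro v hv
    rw [← card_filter]
    refine card_le_card_of_injOn (ν v) (fun w hw => ?_) fun w hw w' hw' e => ij v hv w hw w' hw' e
    exact mem_filter.2 ⟨mem_range.2 (lt v hv w hw), fun h => h w hw rfl⟩
  have h3 : ∀ v ∈ U, (P v).card ≤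
      ∑ k ∈ range sp, if ¬ hP G T P ν (.inr k) (.inl v) then 1 else 0 := by
    intro v hv
    rw [← card_filter]
    refine card_le_card_of_injOn (ν v) (fun w hw => ?_) fun w hw w' hw' e => ij v hv w hw w' hw' e
    exact mem_filter.2 ⟨mem_range.2 (lt v hv w hw), fun h => h w hw rfl⟩
  have h4 : ∀ k ∈ range sp, 1 ≤
      ∑ l ∈ range sp, if ¬ hP G T P ν (.inr k) (.inr l) then 1 else 0 := by
    intro k hk
    rw [← card_filter]
    exact card_pos.2 ⟨k, mem_filter.2 ⟨hk, fun h => h rfl⟩⟩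
  have s1 := sum_le_sum h1
  have s2 := sum_le_sum h2
  have s3 := sum_le_sum h3
  have s4 := sum_le_sum h4
  rw [sum_add_distrib, ← card_eq_sum_ones] at s1
  rw [sum_comm] at s3
  rw [← card_eq_sum_ones, card_range] at s4
  simp only [card_filter, UP, sum_disjSum, sum_add_distrib] at s1 ⊢
  omega

end SumL

open SumL in
theorem sumS : SumS := by
  intro V _ _ G _ n r c x K g o U W e op y u C sz tc tl ν _ h hν
  have hT : ∀ a b, TE C tc tl a b → TE C tc tl b a := fun a b ⟨z, hz, k⟩ => ⟨z, hz, k.symm⟩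
  have hc : (UP U (3 * (10 ^ 8 * r))).card = n + c := by
    rw [UP, card_disjSum, card_range, ← h.ec, add_comm]
  refine ⟨?_, ?_, hc, ?_⟩
  · rintro (a | a) (b | b) k
    · exact ⟨k.1.symm, k.2.imp (fun d d' => d d'.symm) (hT _ _)⟩
    · exact k
    · exact k
    · exact Ne.symm k
  · rintro (a | a) k
    · exact k.1 rfl
    · exact k rfl
  · have h1 := non G U (TE C tc tl) (PP G W C tc tl) ν _ hν.lt hν.ij
    have h2 := adj G U W (TE C tc tl) (PP G W C tc tl) hT
      (fun v w a b d => mem_filter.2 ⟨a, b, d⟩) h.cov h.ww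
    have h3 := te C tc tl
    have h4 : ∑ z ∈ C, (tl z).card = ∑ i ∈ range (10 ^ 13 * r), min g (10 ^ 13 * r - i) := by
      rw [sum_congr rfl h.ts.cd, h.eC, sum_product]
      exact sum_congr rfl fun i _ => h.s1 i
    have h5 : ∑ v, G.degree v = n * (n + 1) := by
      rw [G.sum_degrees_eq_twice_card_edges, ← Set.ncard_coe_finset, G.coe_edgeFinset, h.hE]
      exact Nat.two_mul_div_two_of_even (Nat.even_mul_succ_self n)
    have h6 : ∑ a ∈ UP U (3 * (10 ^ 8 * r)), ((UP U (3 * (10 ^ 8 * r))).filter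
          (hP G (TE C tc tl) (PP G W C tc tl) ν a)).card +
        ∑ a ∈ UP U (3 * (10 ^ 8 * r)), ((UP U (3 * (10 ^ 8 * r))).filter
          fun b => ¬ hP G (TE C tc tl) (PP G W C tc tl) ν a b).card = (n + c) * (n + c) := by
      rw [← sum_add_distrib, sum_congr rfl fun a _ => card_filter_add_card_filter_not _, sum_const,
        smul_eq_mul, hc]
    have h7 : (n + c) * (n + c) = (n + c) * (n + c - 1) + (n + c) := by
      cases n + c <;> simp [Nat.mul_succ]
    rw [← h.ec] at h1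
    rw [h4] at h3
    rw [h5] at h2
    generalize 3 * (10 ^ 8 * r) = sp at *
    generalize 10 ^ 13 * r = t at *
    omega

end Pool.Agent.MP_f65396_co.h81n
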