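import Pool.Agent.MP_f65396_co.h81n.SpecB

/-! The top pairs. -/

set_option autoImplicit false

namespace Pool.Agent.MP_f65396_co.h81n

open Finset
open Pool.Agent.MP_f65396_co.h15l (tcost)

namespace TopL

theorem su {V : Type} [DecidableEq V] (s t : Finset V) (f : V → ℕ) :
    ∑ v ∈ s ∪ t, f v ≤ ∑ v ∈ s, f v + ∑ v ∈ t, f v := by
  rw [← sum_union_inter]
  exact Nat.le_add_right _ _

variable {V : Type} [Fintype V] [DecidableEq V] {G : SimpleGraph V} [DecidableRel G.Adj]
  {n r c β : ℕ} {U W X Y J M Z : Finset V} {a b : ℕ → V} {Es : Finset (V × V)} {yv : ℕ → V}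
  {σ0 σ1 ny : ℕ} {ar : ℕ → ℕ} {C : Finset (ℕ × ℕ)} {tc : ℕ × ℕ → V} {tl : ℕ × ℕ → Finset V}

theorem wi_le (B : Bs G n r U W X Y) (P : Pa G r W Y Z Es yv σ0 σ1 ny ar)
    (T : T0 G r W Z Es yv σ0 σ1 ny ar C tc tl) (i : ℕ) :
    ((SV C tc tl i).filter (fun w => w ∈ W)).card ≤ 2 * σ0 + 4 * σ1 := by
  have sub : (SV C tc tl i).filter (fun w => w ∈ W) ⊆
      (range σ0).biUnion (fun α => if (i, α) ∈ C then insert (tc (i, α)) (tl (i, α)) else ∅) ∪
      (range ny).biUnion (fun k => if (i, σ0 + σ1 + k) ∈ C then tl (i, σ0 + σ1 + k) else ∅) := by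
    intro w hw
    obtain ⟨h1, h2⟩ := mem_filter.1 hw
    obtain ⟨⟨j, α⟩, hx, hwx⟩ := mem_biUnion.1 h1
    obtain ⟨hC, hj, -⟩ := mem_filter.1 hx
    obtain rfl : j = i := hj
    rcases ((T.cl _).1 hC).2 with k | k
    · exact mem_union_left _ (mem_biUnion.2 ⟨α, mem_range.2 k.1, by rw [if_pos hC]; exact hwx⟩)
    · have k1 : σ0 + σ1 ≤ α := k.1
      have k2 : α < σ0 + σ1 + ny := k.2
      obtain ⟨l, rfl⟩ := Nat.exists_eq_add_of_le k1
      have hl : l < ny := by omega
      refine mem_union_right _ (mem_biUnion.2 ⟨l, mem_range.2 hl, ?_⟩)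
      rw [if_pos hC]
      refine (mem_insert.1 hwx).resolve_left fun e => ?_
      have e2 := (T.ya _ hC k1).1
      simp only [Nat.add_sub_cancel_left] at e2
      have hy := ((B.mY _).1 (P.ym l hl)).1
      rw [← e2, ← e] at hy
      exact disjoint_left.1 B.dj hy h2
  have h1 : ((range σ0).biUnion (fun α =>
      if (i, α) ∈ C then insert (tc (i, α)) (tl (i, α)) else ∅)).card ≤ 2 * σ0 := by
    refine card_biUnion_le.trans ((sum_le_card_nsmul _ _ 2 fun α hα => ?_).trans ?_)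
    · split_ifs with k
      · obtain ⟨p, -, -, e⟩ := T.sg _ k (mem_range.1 hα)
        rw [e]
        exact card_le_two
      · simp
    · rw [card_range, smul_eq_mul, mul_comm]
  have h2 : ((range ny).biUnion (fun k =>
      if (i, σ0 + σ1 + k) ∈ C then tl (i, σ0 + σ1 + k) else ∅)).card ≤ 4 * σ1 := by
    refine card_biUnion_le.trans ?_
    rw [P.s1, mul_sum]
    refine sum_le_sum fun k hk => ?_
    rw [← P.s1]
    split_ifs with l
    · rw [T.ts.cd _ l]
      exact (P.a2 k (mem_range.1 hk)).le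
    · simp
  exact (card_le_card sub).trans ((card_union_le _ _).trans (Nat.add_le_add h1 h2))

theorem light (B : Bs G n r U W X Y) {S : Finset V} (h : ∀ v ∈ S, v ∈ U ∧ v ∉ Y) :
    ∑ v ∈ S, dW G W v ≤ 10 ^ 8 * r * S.card := by
  refine (sum_le_card_nsmul _ _ (10 ^ 8 * r) fun v hv => ?_).trans ?_
  · exact le_of_lt (not_le.1 fun k => (h v hv).2 ((B.mY v).2 ⟨(h v hv).1, k⟩))
  · rw [smul_eq_mul, mul_comm]

theorem heavy (B : Bs G n r U W X Y) (P : Pa G r W Y Z Es yv σ0 σ1 ny ar) :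
    ∑ v ∈ Y, dW G W v ≤ 10 ^ 11 * r * σ1 ∧ 2 * ny ≤ σ1 := by
  have r1 := B.r1
  constructor
  · have s : Y ⊆ (range ny).image yv := fun v hv => by
      obtain ⟨k, hk, e⟩ := P.yc v hv
      exact mem_image.2 ⟨k, mem_range.2 hk, e⟩
    refine (sum_le_sum_of_subset s).trans ?_
    rw [sum_image fun k hk l hl e => P.yi k (mem_range.1 hk) l (mem_range.1 hl) e, P.s1, mul_sum]
    refine sum_le_sum fun k _ => ?_
    have h0 : 0 < 10 ^ 11 * r := by positivity
    generalize 10 ^ 11 * r = τ at h0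
    have h1 := Nat.lt_mul_div_succ (dW G W (yv k)) h0
    exact h1.le.trans (Nat.mul_le_mul_left _ (by omega))
  · rw [P.s1]
    have := card_nsmul_le_sum (range ny) (fun k => dW G W (yv k) / (10 ^ 11 * r) + 2) 2
      fun k _ => Nat.le_add_left _ _
    rwa [card_range, smul_eq_mul, mul_comm] at this

end TopL

open TopL in
theorem top (hm : MomS) (hn : NumS) (hg : GapS) : TopS := by
  intro V _ _ G _ n r c β U W X Y J M a b Es yv σ0 σ1 ny ar C tc tl B A P T
  have r1 := B.r1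
  have mM : ∀ v ∈ M, v ∈ U ∧ v ∉ X ∧ v ∉ J := fun v hv => by
    rw [A.eM, mem_sdiff, mem_union, mem_union] at hv
    exact ⟨hv.1, fun k => hv.2 (Or.inl (Or.inl k)), fun k => hv.2 (Or.inl (Or.inr k))⟩
  have mJ : ∀ v ∈ J, v ∈ U ∧ v ∉ X := fun v hv => by
    rw [A.eJ] at hv
    obtain ⟨j, hj, rfl⟩ := mem_image.1 hv
    exact mem_sdiff.1 (A.am j (mem_range.1 hj))
  have hU : U.card ≤ M.card + 4 * (10 ^ 8 * r) := by
    have h1 : U.card ≤ M.card + (X ∪ J ∪ (range β).image b).card := by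
      rw [A.eM]
      exact card_le_card_sdiff_add_card
    have h2 := card_union_le (X ∪ J) ((range β).image b)
    have h3 := card_union_le X J
    have h4 : J.card ≤ c := by
      rw [A.eJ]
      exact card_image_le.trans (card_range c).le
    have h5 : ((range β).image b).card ≤ β := card_image_le.trans (card_range β).le
    have h6 := A.ec
    have h7 := A.eβ
    have h8 := B.u1
    have h9 := B.c4
    omega
  have hZ : ∑ v ∈ (X ∪ J) \ Y, dW G W v = ∑ v ∈ X \ Y, dW G W v + ∑ v ∈ J \ Y, dW G W v := by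
    rw [union_sdiff_distrib, sum_union]
    exact disjoint_left.2 fun v h1 h2 => (mJ v (mem_sdiff.1 h2).1).2 (mem_sdiff.1 h1).1
  have hS : ∑ v ∈ U, dW G W v ≤ ∑ v ∈ M, dW G W v + ∑ v ∈ (range β).image b, dW G W v +
      ∑ v ∈ J \ Y, dW G W v + ∑ v ∈ X \ Y, dW G W v + ∑ v ∈ Y, dW G W v := by
    have s : U ⊆ M ∪ (range β).image b ∪ J \ Y ∪ X \ Y ∪ Y := by
      intro v hv
      rw [A.eM]
      simp only [mem_union, mem_sdiff]
      tauto
    refine (sum_le_sum_of_subset s).trans ((su _ _ _).trans (Nat.add_le_add_right ?_ _))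
    refine (su _ _ _).trans (Nat.add_le_add_right ?_ _)
    exact (su _ _ _).trans (Nat.add_le_add_right (su _ _ _) _)
  have hb : ∑ v ∈ (range β).image b, dW G W v ≤ 10 ^ 8 * r * β := by
    refine (light B fun v hv => ?_).trans
      (Nat.mul_le_mul_left _ (card_image_le.trans (card_range β).le))
    obtain ⟨j, hj, rfl⟩ := mem_image.1 hv
    have := mem_sdiff.1 (A.bm j (mem_range.1 hj)).1
    exact ⟨this.1, fun k => this.2 (mem_union_left _ (mem_union_right _ k))⟩
  have hX : ∑ v ∈ X \ Y, dW G W v ≤ 10 ^ 8 * r * (X \ Y).card :=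
    light B fun v hv => ⟨((B.mX v).1 (mem_sdiff.1 hv).1).1, (mem_sdiff.1 hv).2⟩
  obtain ⟨hY, hny⟩ := heavy B P
  have hW : W.card ≤ ∑ w ∈ W, G.degree w := by
    have := card_nsmul_le_sum W (fun w => G.degree w) 1 fun w hw => (B.wd w hw).1
    rwa [smul_eq_mul, mul_one] at this
  have c2 := B.c2
  have e1 := P.e1
  rw [← P.e2] at c2
  rw [hZ] at e1
  have gap := hg V G n r U W X Y M B (fun v hv => mem_sdiff.2 ⟨(mM v hv).1, (mM v hv).2.1⟩) hU
  rw [← A.eβ] at gap
  have xle : X.card ≤ (X \ Y).card + ny := by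
    rw [P.ey]
    exact card_le_card_sdiff_add_card
  obtain ⟨ec, hec⟩ : ∃ ec : ℕ → ℕ, ∀ i, ec i =
      if i < 2 * σ0 then ((range σ0).filter (fun α => tc (i, α) ∉ W)).card else 2 * σ0 :=
    ⟨_, fun _ => rfl⟩
  have ec1 : ∀ i, i < 2 * σ0 → ec i ≤ σ0 := fun i hi => by
    rw [hec, if_pos hi]
    exact (card_filter_le _ _).trans (card_range _).le
  have ec2 : ∀ i, 2 * σ0 ≤ i → ec i = 2 * σ0 := fun i hi => by
    rw [hec, if_neg (not_lt.2 hi)]
  have n1 := B.n1
  have u1 := B.u1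
  have u2 := B.u2
  have s5 := P.s5
  have s6 := P.s6
  have y5 : ny ≤ r := P.ey ▸ B.c5
  have nM : n ≤ M.card + 10 ^ 9 * r := by omega
  have key := hm V U W M (hh G) G.Adj (300 * r) (n / 20000) (10 ^ 8 * r) (10 ^ 10 * r) (1000 * r)
    (fun i => (SV C tc tl i).filter (fun w => w ∈ W))
    (fun i => (U.card : ℤ) - n - 1 + σ0 + i + 3 * σ1 - ec i - ny) (a 0)
    (fun u v k => ⟨k.1.symm, fun l => k.2 l.symm⟩) (fun v hv => (mM v hv).1)
    (fun v hv => not_lt.1 fun k => (mM v hv).2.1 ((B.mX v).2 ⟨(mM v hv).1, k⟩))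
    (fun v hv => le_of_lt (not_le.1 fun k =>
      (mem_union.1 (A.yJ ((B.mY v).2 ⟨(mM v hv).1, k⟩))).elim (mM v hv).2.1 (mM v hv).2.2))
    (fun w hw => by
      refine le_trans (card_le_card fun v hv => ?_) (B.wd w hw).2
      exact (G.mem_neighborFinset w v).2 (mem_filter.1 hv).2.symm)
    (by omega)
    (fun i hi => by
      have := ec1 i
      have := ec2 i
      rw [abs_le]
      constructor <;> omega)
    (fun i hi => by
      have num := hn r n M.card (X \ Y).card ny X.card β (∑ v ∈ M, dW G W v)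
        (∑ v ∈ (range β).image b, dW G W v) (∑ v ∈ J \ Y, dW G W v) (∑ v ∈ X \ Y, dW G W v)
        (∑ v ∈ Y, dW G W v) (Es.filter (fun p => p.1 ∈ W)).card σ0 σ1 i (ec i)
        ((SV C tc tl i).filter (fun w => w ∈ W)).card W.card r1 n1 nM xle hb A.small hX hY hny
        (wi_le B P T i)
        (by
          rcases Nat.eq_zero_or_pos σ0 with k | k
          · rw [k]; simp
          · have := (P.s3 k).1
            omega)
        (by have := P.s2; omega) B.wc (by omega) (ec1 i) (ec2 i)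
        (T.fl.imp (fun k l => by
          rw [hec, if_pos l, card_eq_zero, filter_eq_empty_iff]
          intro α hα m
          exact m (k (i, α) ((T.cl _).2 ⟨hi, Or.inl ⟨mem_range.1 hα, l⟩⟩) (mem_range.1 hα)))
          fun k => by rw [hZ] at k; exact k)
      have hE : ∑ v ∈ M, ((W.filter (G.Adj v)).card : ℤ) = ((∑ v ∈ M, dW G W v : ℕ) : ℤ) := by
        rw [Nat.cast_sum]
        rfl
      have hT : ∑ v ∈ U, dW G W v + ∑ w ∈ W, G.degree w ≤ 2 * (∑ v ∈ M, dW G W v +
          ∑ v ∈ (range β).image b, dW G W v + ∑ v ∈ J \ Y, dW G W v + ∑ v ∈ X \ Y, dW G W v +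
          ∑ v ∈ Y, dW G W v + (Es.filter (fun p => p.1 ∈ W)).card) := by omega
      have hN : 0 < M.card := by omega
      rw [hE]
      generalize ∑ v ∈ U, dW G W v + ∑ w ∈ W, G.degree w = s at gap hT
      generalize ∑ v ∈ M, dW G W v = E at num hT ⊢
      generalize ∑ v ∈ (range β).image b, dW G W v = ρb at num hT
      generalize ∑ v ∈ J \ Y, dW G W v = ρJ at num hT
      generalize ∑ v ∈ X \ Y, dW G W v = ρX at num hT
      generalize ∑ v ∈ Y, dW G W v = ρY at num hT
      generalize (Es.filter (fun p => p.1 ∈ W)).card = ρW at num hT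
      generalize n / 20000 = D at num ⊢
      generalize ((SV C tc tl i).filter (fun w => w ∈ W)).card = wi at num ⊢
      generalize ∑ x ∈ U, ((M.filter (hh G x)).card : ℤ) ^ 2 = S at gap ⊢
      generalize M.card = N at *
      have k1 := Nat.mul_lt_mul_of_pos_left num hN
      have k2 := Nat.mul_le_mul_left N hT
      zify at k1 k2
      push_cast
      linarith)
  obtain ⟨y, u, k1, k2, k3⟩ := key
  refine ⟨y, u, k1, k2, fun i hi => ?_⟩
  have k4 := k3 i hi
  have e : (W.filter (fun w => G.Adj (u i) w ∨ G.Adj (y i) w)) \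
      (SV C tc tl i).filter (fun w => w ∈ W) =
      (W.filter (fun w => G.Adj (u i) w ∨ G.Adj (y i) w)) \ SV C tc tl i := by
    ext w
    simp only [mem_sdiff, mem_filter]
    tauto
  rw [e] at k4
  rw [← hec]
  omega

end Pool.Agent.MP_f65396_co.h81n
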