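import Pool.Agent.MP_f65396_co.h81n.SpecB

/-! The stars of the top depths. -/

set_option autoImplicit false

namespace Pool.Agent.MP_f65396_co.h81n

open Finset

namespace Top0L

variable {V : Type} [DecidableEq V]

/-- Distinct pairs on a grid of cells, vertex disjoint in each row. -/
theorem singles (hg : h15n.GreedyS) (E : Finset (V × V)) (v0 : V) (D s : ℕ)
    (h1 : ∀ v, (E.filter (fun c => c.1 = v)).card ≤ D)
    (h2 : ∀ v, (E.filter (fun c => c.2 = v)).card ≤ D)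
    (hs : 1 ≤ s → (s - 1) * (4 * D) + (2 * s - 1) * s < E.card) :
    ∃ f : ℕ × ℕ → V × V, (∀ x ∈ range (2 * s) ×ˢ range s, f x ∈ E) ∧
      ∀ x ∈ range (2 * s) ×ˢ range s, ∀ y ∈ range (2 * s) ×ˢ range s, x ≠ y →
        ¬ (f x = f y ∨ (x.1 = y.1 ∧ ((f x).1 = (f y).1 ∨ (f x).1 = (f y).2 ∨
          (f x).2 = (f y).1 ∨ (f x).2 = (f y).2))) := by
  refine hg (ℕ × ℕ) (V × V) (range (2 * s) ×ˢ range s) (fun _ => E)
    (fun i c j d => c = d ∨ (i.1 = j.1 ∧ (c.1 = d.1 ∨ c.1 = d.2 ∨ c.2 = d.1 ∨ c.2 = d.2)))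
    (fun i j => if i.1 = j.1 then 4 * D else 1) (v0, v0) ?_ ?_ ?_
  · intro i c j d h
    rcases h with h | ⟨h, k⟩
    · exact Or.inl h.symm
    · refine Or.inr ⟨h.symm, ?_⟩
      rcases k with k | k | k | k <;> simp [k]
  · intro i _ j _ _ d
    by_cases e : i.1 = j.1
    · rw [if_pos e]
      have : E.filter (fun c => c = d ∨ (i.1 = j.1 ∧
          (c.1 = d.1 ∨ c.1 = d.2 ∨ c.2 = d.1 ∨ c.2 = d.2))) ⊆
          (E.filter (fun c => c.1 = d.1) ∪ E.filter (fun c => c.1 = d.2)) ∪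
          (E.filter (fun c => c.2 = d.1) ∪ E.filter (fun c => c.2 = d.2)) := by
        intro c hc
        simp only [mem_filter, mem_union] at hc ⊢
        rcases hc with ⟨hc, k | ⟨_, k⟩⟩
        · exact Or.inl (Or.inl ⟨hc, by rw [k]⟩)
        · tauto
      have a := card_le_card this
      have b := card_union_le (E.filter (fun c => c.1 = d.1) ∪ E.filter (fun c => c.1 = d.2))
        (E.filter (fun c => c.2 = d.1) ∪ E.filter (fun c => c.2 = d.2))
      have c := card_union_le (E.filter (fun c => c.1 = d.1)) (E.filter (fun c => c.1 = d.2))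
      have c' := card_union_le (E.filter (fun c => c.2 = d.1)) (E.filter (fun c => c.2 = d.2))
      have := h1 d.1
      have := h1 d.2
      have := h2 d.1
      have := h2 d.2
      omega
    · rw [if_neg e]
      refine card_le_one.2 fun a ha b hb => ?_
      simp only [mem_filter, e, false_and, or_false] at ha hb
      rw [ha.2, hb.2]
  · intro i hi
    simp only [mem_product, mem_range] at hi
    refine lt_of_le_of_lt ?_ (hs (by omega))
    rw [sum_ite, sum_const, sum_const, smul_eq_mul, smul_eq_mul, mul_one]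
    have a : (((range (2 * s) ×ˢ range s).erase i).filter (fun j => i.1 = j.1)).card ≤ s - 1 := by
      have : ((range (2 * s) ×ˢ range s).erase i).filter (fun j => i.1 = j.1) ⊆
          {i.1} ×ˢ (range s).erase i.2 := by
        intro j hj
        simp only [mem_filter, mem_erase, mem_product, mem_range, mem_singleton] at hj ⊢
        exact ⟨hj.2.symm, fun k => hj.1.1 (Prod.ext hj.2.symm k), hj.1.2.2⟩
      have b := card_le_card this
      rwa [card_product, card_singleton, one_mul, card_erase_of_mem (mem_range.2 hi.2),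
        card_range] at b
    have b : (((range (2 * s) ×ˢ range s).erase i).filter (fun j => ¬ i.1 = j.1)).card ≤
        (2 * s - 1) * s := by
      have : ((range (2 * s) ×ˢ range s).erase i).filter (fun j => ¬ i.1 = j.1) ⊆
          (range (2 * s)).erase i.1 ×ˢ range s := by
        intro j hj
        simp only [mem_filter, mem_erase, mem_product, mem_range] at hj ⊢
        exact ⟨⟨fun k => hj.2 k.symm, hj.1.2.1⟩, hj.1.2.2⟩
      have b := card_le_card this
      rwa [card_product, card_erase_of_mem (mem_range.2 hi.1), card_range, card_range] at b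
    exact Nat.add_le_add (Nat.mul_le_mul_right _ a) b

/-- Private leaves on a grid of cells. -/
theorem leaves (hl : LeafS) (N ny : ℕ) (a : ℕ → ℕ) (Lf : ℕ × ℕ → Finset V)
    (h : ∀ i < N, ∀ k < ny, ∑ l ∈ range ny, a l + (N + 1) * a k ≤ (Lf (i, k)).card) :
    ∃ g : ℕ × ℕ → Finset V, (∀ x ∈ range N ×ˢ range ny, g x ⊆ Lf x ∧ (g x).card = a x.2) ∧
      ∀ x ∈ range N ×ˢ range ny, ∀ y ∈ range N ×ˢ range ny, x ≠ y → (x.1 = y.1 ∨ x.2 = y.2) →
        Disjoint (g x) (g y) := by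
  refine hl (ℕ × ℕ) V (range N ×ˢ range ny) (fun x y => x.1 = y.1 ∨ x.2 = y.2) (fun x => a x.2) Lf
    (fun x y k => k.imp Eq.symm Eq.symm) ?_
  rintro ⟨i, k⟩ hx
  simp only [mem_product, mem_range] at hx
  refine le_trans ?_ (h i hx.1 k hx.2)
  have : ((range N ×ˢ range ny).erase (i, k)).filter (fun y => i = y.1 ∨ k = y.2) ⊆
      ({i} ×ˢ range ny) ∪ (range N ×ˢ {k}) := by
    intro y hy
    simp only [mem_filter, mem_erase, mem_product, mem_range, mem_singleton, mem_union] at hy ⊢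
    rcases hy.2 with e | e
    · exact Or.inl ⟨e.symm, hy.1.2.2⟩
    · exact Or.inr ⟨hy.1.2.1, e.symm⟩
  have b := sum_le_sum_of_subset (f := fun y : ℕ × ℕ => a y.2) this
  have c := sum_union_inter (s₁ := {i} ×ˢ range ny) (s₂ := range N ×ˢ {k})
    (f := fun y : ℕ × ℕ => a y.2)
  rw [sum_product, sum_product, sum_singleton] at c
  simp only [sum_singleton, sum_const, card_range, smul_eq_mul] at c
  rw [Nat.add_mul, one_mul]
  dsimp only at b ⊢
  omega

theorem num1 (r s e : ℕ) (h5 : s ≤ 2 * r) (h1 : 1 ≤ s) (h : (s - 1) * (10 ^ 11 * r) < e)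
    (h2 : 2 ≤ e) : (s - 1) * (4 * (10 ^ 10 * r)) + (2 * s - 1) * s < e := by
  obtain ⟨t, rfl⟩ : ∃ t, s = t + 1 := ⟨s - 1, by omega⟩
  have e1 : 2 * (t + 1) - 1 = 2 * t + 1 := by omega
  rw [Nat.add_sub_cancel] at h ⊢
  rw [e1]
  rcases Nat.eq_zero_or_pos t with rfl | ht
  · omega
  · have a : (2 * t + 1) * (t + 1) ≤ (3 * t) * (2 * r) := Nat.mul_le_mul (by omega) h5
    have b : (3 * t) * (2 * r) = 6 * (t * r) := by ring
    have c : t * (10 ^ 11 * r) = 10 ^ 11 * (t * r) := by ring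
    have d : t * (4 * (10 ^ 10 * r)) = 4 * 10 ^ 10 * (t * r) := by ring
    rw [c] at h
    rw [d]
    omega

theorem num2 (r s e e1 z : ℕ) (h5 : s ≤ 2 * r) (h1 : 1 ≤ s) (h : (s - 1) * (10 ^ 11 * r) < e)
    (he : e = e1 + z) (hz : z + 10 ^ 11 * r < e1) :
    (s - 1) * (4 * (10 ^ 10 * r)) + (2 * s - 1) * s < e1 := by
  obtain ⟨t, rfl⟩ : ∃ t, s = t + 1 := ⟨s - 1, by omega⟩
  have e1 : 2 * (t + 1) - 1 = 2 * t + 1 := by omega
  rw [Nat.add_sub_cancel] at h ⊢
  rw [e1]
  have a : (2 * t + 1) * (t + 1) ≤ (2 * t + 1) * (2 * r) := Nat.mul_le_mul le_rfl h5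
  have b : (2 * t + 1) * (2 * r) = 4 * (t * r) + 2 * r := by ring
  have c : t * (10 ^ 11 * r) = 10 ^ 11 * (t * r) := by ring
  have d : t * (4 * (10 ^ 10 * r)) = 4 * 10 ^ 10 * (t * r) := by ring
  rw [c] at h
  rw [d]
  omega

theorem num3 (r d S : ℕ) (h1 : 1 ≤ r) (hd : 10 ^ 8 * r ≤ d) (hS : S ≤ 12 * r) :
    S + (300 * r + 1) * (4 * (d / (10 ^ 11 * r) + 2)) + 4 * r ≤ d := by
  have a := Nat.div_mul_le_self d (10 ^ 11 * r)
  generalize d / (10 ^ 11 * r) = m at a ⊢
  have b : m * (10 ^ 11 * r) = 10 ^ 11 * (m * r) := by ring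
  have c : (300 * r + 1) * (4 * (m + 2)) ≤ (301 * r) * (4 * (m + 2)) :=
    Nat.mul_le_mul_right _ (by omega)
  have e : (301 * r) * (4 * (m + 2)) = 1204 * (m * r) + 2408 * r := by ring
  omega

end Top0L

open Top0L in
theorem top0 (hg : h15n.GreedyS) (hl : LeafS) : T0S := by
  intro V _ _ G _ n r U W X Y Z Es yv σ0 σ1 ny ar hB hZ hP
  have r1 := hB.r1
  obtain ⟨v0, -⟩ : W.Nonempty := card_pos.1 (by have := hB.wc; omega)
  have WY : ∀ v ∈ W, v ∉ Y := fun v hv k =>
    disjoint_left.1 hB.dj ((hB.mY v).1 k).1 hv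
  have ZY : ∀ v ∈ Z, v ∉ Y := fun v hv => (mem_sdiff.1 (hZ hv)).2
  have d1 : ∀ v, (Es.filter (fun c => c.1 = v)).card ≤ 10 ^ 10 * r := by
    intro v
    rcases (Es.filter (fun c => c.1 = v)).eq_empty_or_nonempty with e | ⟨p, hp⟩
    · rw [e]; exact Nat.zero_le _
    · have k : (Es.filter (fun c => c.1 = v)).card ≤ dW G W v := by
        refine card_le_card_of_injOn Prod.snd (fun c hc => ?_) (fun a ha b hb e => ?_)
        · have hc := mem_filter.1 (mem_coe.1 hc)
          have := hP.mem c hc.1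
          exact mem_coe.2 (mem_filter.2 ⟨this.2.1, hc.2 ▸ this.1⟩)
        · exact Prod.ext (((mem_filter.1 (mem_coe.1 ha)).2).trans
            ((mem_filter.1 (mem_coe.1 hb)).2).symm) e
      have hp := mem_filter.1 hp
      rcases (hP.mem p hp.1).2.2 with w | w
      · rw [hp.2] at w
        refine k.trans (le_trans ?_ (hB.wd v w).2)
        rw [← SimpleGraph.card_neighborFinset_eq_degree]
        exact card_le_card fun a ha => (G.mem_neighborFinset v a).2 (mem_filter.1 ha).2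
      · rw [hp.2] at w
        have a := mem_sdiff.1 (hZ w)
        have : ¬ 10 ^ 8 * r ≤ dW G W v := fun b => a.2 ((hB.mY v).2 ⟨a.1, b⟩)
        omega
  have d2 : ∀ v, (Es.filter (fun c => c.2 = v)).card ≤ 10 ^ 10 * r := by
    intro v
    rcases (Es.filter (fun c => c.2 = v)).eq_empty_or_nonempty with e | ⟨p, hp⟩
    · rw [e]; exact Nat.zero_le _
    · have hp := mem_filter.1 hp
      refine le_trans ?_ (hB.wd v (hp.2 ▸ (hP.mem p hp.1).2.1)).2
      rw [← SimpleGraph.card_neighborFinset_eq_degree]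
      refine card_le_card_of_injOn Prod.fst (fun c hc => ?_) (fun a ha b hb e => ?_)
      · have hc := mem_filter.1 (mem_coe.1 hc)
        exact mem_coe.2 ((G.mem_neighborFinset v _).2 (hc.2 ▸ (hP.mem c hc.1).1.symm))
      · exact Prod.ext e (((mem_filter.1 (mem_coe.1 ha)).2).trans
          ((mem_filter.1 (mem_coe.1 hb)).2).symm)
  obtain ⟨E, hE, hc, hfl⟩ : ∃ E ⊆ Es,
      (1 ≤ σ0 → (σ0 - 1) * (4 * (10 ^ 10 * r)) + (2 * σ0 - 1) * σ0 < E.card) ∧
      ((∀ p ∈ E, p.1 ∈ W) ∨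
        (Es.filter (fun p => p.1 ∈ W)).card ≤ ∑ v ∈ Z, dW G W v + 10 ^ 11 * r) := by
    by_cases k : (Es.filter (fun p => p.1 ∈ W)).card ≤ ∑ v ∈ Z, dW G W v + 10 ^ 11 * r
    · exact ⟨Es, Subset.rfl, fun h => num1 r σ0 _ hP.s5 h (hP.s3 h).1 (hP.s3 h).2, Or.inr k⟩
    · exact ⟨_, filter_subset _ _, fun h => num2 r σ0 _ _ _ hP.s5 h (hP.s3 h).1 hP.e1
        (not_le.1 k), Or.inl fun p hp => (mem_filter.1 hp).2⟩
  obtain ⟨f, f1, f2⟩ := singles hg E v0 (10 ^ 10 * r) σ0
    (fun v => (card_le_card (filter_subset_filter _ hE)).trans (d1 v))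
    (fun v => (card_le_card (filter_subset_filter _ hE)).trans (d2 v)) hc
  set Sv : ℕ → Finset V := fun i =>
    (range σ0).image (fun α => (f (i, α)).1) ∪ (range σ0).image (fun α => (f (i, α)).2) with hSv
  obtain ⟨g, g1, g2⟩ := leaves hl (300 * r) ny (fun k => ar (σ0 + σ1 + k))
    (fun x => W.filter (G.Adj (yv x.2)) \ Sv x.1) (by
      intro i _ k hk
      have a : (Sv i).card ≤ 4 * r := by
        have a := card_union_le ((range σ0).image (fun α => (f (i, α)).1))
          ((range σ0).image (fun α => (f (i, α)).2))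
        have b := card_image_le (s := range σ0) (f := fun α => (f (i, α)).1)
        have c := card_image_le (s := range σ0) (f := fun α => (f (i, α)).2)
        rw [card_range] at b c
        have := hP.s5
        simp only [hSv]
        omega
      have b := le_card_sdiff (Sv i) (W.filter (G.Adj (yv k)))
      have c : ∑ l ∈ range ny, ar (σ0 + σ1 + l) = 4 * σ1 := by
        rw [sum_congr rfl fun l hl => hP.a2 l (mem_range.1 hl), ← mul_sum, ← hP.s1]
      have d := num3 r (dW G W (yv k)) (4 * σ1) r1 ((hB.mY _).1 (hP.ym k hk)).2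
        (by have := hP.s6; omega)
      rw [← hP.a2 k hk] at d
      unfold dW at d
      dsimp only
      omega)
  set C : Finset (ℕ × ℕ) := (range (300 * r) ×ˢ range (σ0 + σ1 + ny)).filter
    (fun x => (x.2 < σ0 ∧ x.1 < 2 * σ0) ∨ σ0 + σ1 ≤ x.2) with hC
  have cl : ∀ x, x ∈ C ↔ x.1 < 300 * r ∧
      ((x.2 < σ0 ∧ x.1 < 2 * σ0) ∨ (σ0 + σ1 ≤ x.2 ∧ x.2 < σ0 + σ1 + ny)) := by
    intro x
    simp only [hC, mem_filter, mem_product, mem_range]
    omega
  set tc : ℕ × ℕ → V := fun x => if x.2 < σ0 then (f x).1 else yv (x.2 - (σ0 + σ1)) with htc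
  set tl : ℕ × ℕ → Finset V := fun x =>
    if x.2 < σ0 then {(f x).2} else g (x.1, x.2 - (σ0 + σ1)) with htl
  have cs : ∀ x ∈ C, (x ∈ range (2 * σ0) ×ˢ range σ0 ∧ x.2 < σ0 ∧ f x ∈ Es ∧ tc x = (f x).1 ∧
      tl x = {(f x).2} ∧ tc x ∉ Y ∧ (f x).1 ∈ Sv x.1 ∧ (f x).2 ∈ Sv x.1) ∨
      ∃ k < ny, x.2 = σ0 + σ1 + k ∧ (x.1, k) ∈ range (300 * r) ×ˢ range ny ∧ tc x = yv k ∧
        tl x = g (x.1, k) ∧ tc x ∈ Y := by
    intro x hx
    obtain ⟨h1, h2 | h2⟩ := (cl x).1 hx
    · have m : x ∈ range (2 * σ0) ×ˢ range σ0 := by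
        simp only [mem_product, mem_range]; exact ⟨h2.2, h2.1⟩
      have e : tc x = (f x).1 := if_pos h2.1
      refine Or.inl ⟨m, h2.1, hE (f1 x m), e, if_pos h2.1, ?_,
        mem_union_left _ (mem_image.2 ⟨x.2, mem_range.2 h2.1, rfl⟩),
        mem_union_right _ (mem_image.2 ⟨x.2, mem_range.2 h2.1, rfl⟩)⟩
      rw [e]
      exact (hP.mem _ (hE (f1 x m))).2.2.elim (WY _) (ZY _)
    · have e : tc x = yv (x.2 - (σ0 + σ1)) := if_neg (by omega)
      refine Or.inr ⟨x.2 - (σ0 + σ1), by omega, by omega, ?_, e, if_neg (by omega), ?_⟩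
      · simp only [mem_product, mem_range]; omega
      · rw [e]; exact hP.ym _ (by omega)
  have lw : ∀ x ∈ C, ∀ v ∈ tl x, G.Adj (tc x) v ∧ v ∈ W := by
    intro x hx v hv
    rcases cs x hx with ⟨_, _, h, e1, e2, _⟩ | ⟨k, _, _, m, e1, e2, _⟩
    · rw [e2, mem_singleton] at hv
      rw [e1, hv]
      exact ⟨(hP.mem _ h).1, (hP.mem _ h).2.1⟩
    · rw [e2] at hv
      have := mem_filter.1 (mem_sdiff.1 ((g1 _ m).1 hv)).1
      rw [e1]
      exact ⟨this.2, this.1⟩
  refine ⟨C, tc, tl, ⟨fun x hx v hv => (lw x hx v hv).1, fun x hx => ?_,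
    fun x hx y hy e v hv w hw => ?_, fun x hx y hy v hv w hw e => ?_⟩, cl, fun x hx h => ?_,
    fun x hx h => ?_, hfl.imp_left fun k x hx h => ?_⟩
  · rcases cs x hx with ⟨_, h, _, _, e2, _⟩ | ⟨k, _, h, m, _, e2, _⟩
    · rw [e2, card_singleton, hP.a1 _ (by omega)]
    · rw [e2, (g1 _ m).2, h]
  · have vW := (lw x hx v hv).2
    rcases cs x hx with ⟨m, _, h, e1, e2, y1, s1, s2⟩ | ⟨k, hk, h, m, e1, e2, y1⟩ <;>
      rcases cs y hy with ⟨m', _, h', e1', e2', y1', s1', s2'⟩ | ⟨k', hk', h', m', e1', e2', y1'⟩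
    · rw [e2, mem_singleton] at hv
      rw [e2', mem_singleton] at hw
      rw [hv, hw, e1, e1']
      by_cases exy : x = y
      · exact ⟨exy ▸ (hP.mem _ h).1.ne', fun k => (k exy).elim⟩
      · have := f2 x m y m' exy
        tauto
    · rw [e2, mem_singleton] at hv
      rw [e2'] at hw
      have := (mem_sdiff.1 ((g1 _ m').1 hw)).2
      exact ⟨fun k => WY v vW (k ▸ y1'), fun _ => ⟨fun k => this (by
        rw [← k, hv]; exact e ▸ s2), fun k => y1 (k ▸ y1')⟩⟩
    · rw [e2', mem_singleton] at hw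
      rw [e2] at hv
      have := (mem_sdiff.1 ((g1 _ m).1 hv)).2
      exact ⟨fun k => this (by rw [k, e1']; exact e ▸ s1'), fun _ => ⟨fun k => this (by
        rw [k, hw]; exact e ▸ s2'), fun k => y1' (k ▸ y1)⟩⟩
    · refine ⟨fun k => WY v vW (k ▸ y1'), fun exy => ?_⟩
      have kk : k ≠ k' := fun a => exy (Prod.ext e (by rw [h, h', a]))
      rw [e2] at hv
      rw [e2'] at hw
      refine ⟨fun a => disjoint_left.1 (g2 _ m _ m' (fun b => kk (Prod.ext_iff.1 b).2)
        (Or.inl e)) hv (a ▸ hw), fun a => kk (hP.yi k hk k' hk' (by rw [← e1, ← e1', a]))⟩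
  · have vW := (lw x hx v hv).2
    have wW := (lw y hy w hw).2
    by_contra exy
    rw [Sym2.eq_iff] at e
    rcases cs x hx with ⟨m, _, h, e1, e2, y1, s1, s2⟩ | ⟨k, hk, h, m, e1, e2, y1⟩ <;>
      rcases cs y hy with ⟨m', _, h', e1', e2', y1', s1', s2'⟩ | ⟨k', hk', h', m', e1', e2', y1'⟩
    · rw [e2, mem_singleton] at hv
      rw [e2', mem_singleton] at hw
      rw [hv, hw, e1, e1'] at e
      rcases e with e | e
      · exact f2 x m y m' exy (Or.inl (Prod.ext e.1 e.2))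
      · refine hP.asy (f x).1 (f x).2 h ?_
        rw [e.1, e.2]
        exact h'
    · rcases e with e | e
      · exact y1 (e.1 ▸ y1')
      · exact WY v vW (e.2 ▸ y1')
    · rcases e with e | e
      · exact y1' (e.1 ▸ y1)
      · exact WY w wW (e.1 ▸ y1)
    · rcases e with e | e
      · have kk : k = k' := hP.yi k hk k' hk' (by rw [← e1, ← e1', e.1])
        rw [e2] at hv
        rw [e2'] at hw
        exact disjoint_left.1 (g2 _ m _ m' (fun b => exy (Prod.ext (Prod.ext_iff.1 b).1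
          (by rw [h, h', kk]))) (Or.inr kk)) hv (e.2 ▸ hw)
      · exact WY w wW (e.1 ▸ y1)
  · rcases cs x hx with ⟨_, _, h1, e1, e2, _⟩ | ⟨k, _, h1, _⟩
    · exact ⟨f x, h1, e1, e2⟩
    · omega
  · exact ⟨if_neg (by omega), fun v hv => (lw x hx v hv).2⟩
  · rcases cs x hx with ⟨m, _, _, e1, _⟩ | ⟨k, _, h1, _⟩
    · rw [e1]; exact k _ (f1 x m)
    · omega

end Pool.Agent.MP_f65396_co.h81n
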