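import Pool.Agent.MP_f65396_co.h81n.SpecB

/-! Back from the names to the vertices. -/

set_option autoImplicit false
set_option linter.unusedSectionVars false

namespace Pool.Agent.MP_f65396_co.h81n

open Finset
open Pool.Agent.MP_f65396_co.h15n (Dec0)

namespace Un

/-- Two special arms followed by the others. -/
def arm {β : Type} (p q : β) (f : ℕ → β) : ℕ → β
  | 0 => p
  | 1 => q
  | k + 2 => f k

variable {V : Type} [DecidableEq V]

/-- The vertex behind a name, seen from the centre `c`. -/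
noncomputable def bk (P : V → Finset V) (ν : V → V → ℕ) (c : V) : V ⊕ ℕ → V
  | Sum.inl b => b
  | Sum.inr k => if h : ∃ w ∈ P c, ν c w = k then h.choose else c

/-- What is known about the vertex `v` behind the leaf `l` of the centre `c`. -/
structure Ok (G : SimpleGraph V) (T : V → V → Prop) (U : Finset V) (P : V → Finset V)
    (ν : V → V → ℕ) (c : V) (l : V ⊕ ℕ) : Prop where
  cu : c ∈ U
  adj : G.Adj c (bk P ν c l)
  nt : ¬ T c (bk P ν c l)
  cs : (bk P ν c l ∈ U ∧ l = Sum.inl (bk P ν c l)) ∨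
    (bk P ν c l ∈ P c ∧ l = Sum.inr (ν c (bk P ν c l)))

variable {G : SimpleGraph V} {T : V → V → Prop} {U : Finset V} {P : V → Finset V}
  {ν : V → V → ℕ}

theorem ok_of {sp : ℕ} (hP' : ∀ c, ∀ w ∈ P c, G.Adj c w ∧ ¬ T c w) {c : V} (hc : c ∈ U)
    {l : V ⊕ ℕ} (h1 : l ∈ UP U sp) (h2 : l ≠ Sum.inl c) (h3 : ¬ hP G T P ν (Sum.inl c) l) :
    Ok G T U P ν c l := by
  rcases l with b | k
  · have hb : b ∈ U := by simpa [UP] using h1
    have hne : b ≠ c := fun h => h2 (by rw [h])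
    have h4 : ¬ (¬ G.Adj c b ∨ T c b) := fun h => h3 ⟨hne, h⟩
    exact ⟨hc, by by_contra h; exact h4 (Or.inl h), fun h => h4 (Or.inr h), Or.inl ⟨hb, rfl⟩⟩
  · have h : ∃ w ∈ P c, ν c w = k := by
      by_contra h
      exact h3 fun w hw he => h ⟨w, hw, he⟩
    have e : bk P ν c (Sum.inr k) = h.choose := dif_pos h
    obtain ⟨m, hk⟩ := h.choose_spec
    rw [← e] at m hk
    exact ⟨hc, (hP' c _ m).1, (hP' c _ m).2, Or.inr ⟨m, by rw [hk]⟩⟩

theorem Ok.inl (hU : ∀ c, ∀ w ∈ P c, w ∉ U) {c : V} {l : V ⊕ ℕ} (h : Ok G T U P ν c l)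
    (hm : bk P ν c l ∈ U) : l = Sum.inl (bk P ν c l) :=
  h.cs.elim (fun h => h.2) fun h => absurd hm (hU _ _ h.1)

theorem Ok.inj (hU : ∀ c, ∀ w ∈ P c, w ∉ U) {c : V} {l m : V ⊕ ℕ} (h : Ok G T U P ν c l)
    (h' : Ok G T U P ν c m) (e : bk P ν c l = bk P ν c m) : l = m := by
  rcases h.cs with ⟨a, b⟩ | ⟨a, b⟩
  · exact b.trans (by rw [e]; exact (h'.inl hU (e ▸ a)).symm)
  · rcases h'.cs with ⟨a', -⟩ | ⟨-, b'⟩
    · exact absurd (e ▸ a') (hU _ _ a)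
    · exact b.trans (by rw [e]; exact b'.symm)

theorem Ok.edge (hU : ∀ c, ∀ w ∈ P c, w ∉ U) {c d : V} {l m : V ⊕ ℕ} (h : Ok G T U P ν c l)
    (h' : Ok G T U P ν d m) (e : s(c, bk P ν c l) = s(d, bk P ν d m)) :
    s(Sum.inl c, l) = s(Sum.inl d, m) := by
  rcases Sym2.eq_iff.1 e with ⟨rfl, e⟩ | ⟨e1, e2⟩
  · rw [h.inj hU h' e]
  · have a := h.inl hU (e2 ▸ h'.cu)
    have b := h'.inl hU (e1 ▸ h.cu)
    rw [e2] at a
    rw [← e1] at b
    rw [a, b]
    exact Sym2.eq_swap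

theorem card_bk (hU : ∀ c, ∀ w ∈ P c, w ∉ U) {c : V} {A : Finset (V ⊕ ℕ)}
    (h : ∀ l ∈ A, Ok G T U P ν c l) : (A.image (bk P ν c)).card = A.card :=
  card_image_of_injOn fun l hl m hm e => (h l hl).inj hU (h m hm) e

theorem te_of {C : Finset (ℕ × ℕ)} {tc : ℕ × ℕ → V} {tl : ℕ × ℕ → Finset V} {x : ℕ × ℕ}
    (hx : x ∈ C) {w : V} (hw : w ∈ tl x) {c v : V} (e : s(c, v) = s(tc x, w)) :
    TE C tc tl c v := by
  rcases Sym2.eq_iff.1 e with ⟨rfl, rfl⟩ | ⟨rfl, rfl⟩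
  · exact ⟨x, hx, Or.inl ⟨rfl, hw⟩⟩
  · exact ⟨x, hx, Or.inr ⟨rfl, hw⟩⟩

theorem mem_SV {C : Finset (ℕ × ℕ)} {tc : ℕ × ℕ → V} {tl : ℕ × ℕ → Finset V} {x : ℕ × ℕ}
    (hx : x ∈ C) {w : V} (hw : w ∈ tl x) : tc x ∈ SV C tc tl x.1 ∧ w ∈ SV C tc tl x.1 :=
  ⟨mem_biUnion.2 ⟨x, mem_filter.2 ⟨hx, rfl, w, hw⟩, mem_insert_self _ _⟩,
    mem_biUnion.2 ⟨x, mem_filter.2 ⟨hx, rfl, w, hw⟩, mem_insert_of_mem hw⟩⟩

theorem core (ha : AsmS) [Fintype V] {n K g t sp D : ℕ} {sz : ℕ × ℕ → ℕ} {tc : ℕ × ℕ → V}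
    {tl : ℕ × ℕ → Finset V} {C : Finset (ℕ × ℕ)} {op y u : ℕ → V} {Ph : V ⊕ ℕ → Prop}
    {y' u' x' z' : ℕ → V ⊕ ℕ} {A L : ℕ → Finset (V ⊕ ℕ)}
    (hE : G.edgeSet.ncard = n * (n + 1) / 2) (eC : C = range t ×ˢ range K) (htD : t ≤ 3 * D)
    (hU : ∀ c, ∀ w ∈ P c, w ∉ U) (hP' : ∀ c, ∀ w ∈ P c, G.Adj c w ∧ ¬ TE C tc tl c w)
    (ts : TS G C sz tc tl) (s1 : ∀ i, ∑ α ∈ range K, sz (i, α) = min g (t - i))
    (s2 : ∀ i α, sz (i + 1, α) ≤ sz (i, α)) (cf : ∀ i < t, ∀ w ∈ SV C tc tl i, w ∉ P (u i))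
    (N : Nm sp D U P op y u ν) (hPh : ∀ k < sp, Ph (Sum.inr k))
    (hy : ∀ i < 3 * D, y' i = Sum.inl (y i) ∧ u' i = Sum.inl (u i))
    (O : OutV (UP U sp) (hP G (TE C tc tl) P ν) n D t g Ph y' u' (SP U (SV C tc tl) P ν y)
      x' z' A L) : Dec0 G n := by
  have cen : ∀ c' ∈ UP U sp, ¬ Ph c' →
      c' = Sum.inl (c'.elim id fun _ => y 0) ∧ (c'.elim id fun _ => y 0) ∈ U := by
    rintro (c | k) hc hp
    · exact ⟨rfl, by simpa [UP] using hc⟩
    · exact absurd (hPh k (by simpa [UP] using hc)) hp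
  obtain ⟨x, hx⟩ : ∃ x : ℕ → V, ∀ a < n, x' a = Sum.inl (x a) ∧ x a ∈ U :=
    ⟨_, fun a h => cen _ (O.o1 a h).1 (O.o1 a h).2⟩
  obtain ⟨z, hz⟩ : ∃ z : ℕ → V, ∀ a < n, ∀ l ∈ L a, z' a = Sum.inl (z a) ∧ z a ∈ U :=
    ⟨fun a => (z' a).elim id fun _ => y 0,
      fun a h l hl => cen _ (O.o3 a h l hl).1 (O.o3 a h l hl).2.1⟩
  have okA : ∀ a < n, ∀ l ∈ A a, Ok G (TE C tc tl) U P ν (x a) l := fun a h l hl => by
    obtain ⟨h1, h2, h3⟩ := O.o2 a h l hl
    rw [(hx a h).1] at h2 h3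
    exact ok_of hP' (hx a h).2 h1 h2 h3
  have okL : ∀ a < n, ∀ l ∈ L a, Ok G (TE C tc tl) U P ν (z a) l := fun a h l hl => by
    obtain ⟨-, -, h1, h2, h3, -⟩ := O.o3 a h l hl
    rw [(hz a h l hl).1] at h2 h3
    exact ok_of hP' (hz a h l hl).2 h1 h2 h3
  have topx : ∀ a < n, n - 1 - a < 3 * D → x a = u (n - 1 - a) := fun a h hi => by
    have e := (O.tp _ hi).1
    rw [show n - 1 - (n - 1 - a) = a by omega, (hx a h).1, (hy _ hi).2] at e
    exact Sum.inl.inj e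
  have topz : ∀ a < n, n - 1 - a < 3 * D → ∀ l ∈ L a, z a = y (n - 1 - a) := fun a h hi l hl => by
    have e := (O.tp _ hi).2
    rw [show n - 1 - (n - 1 - a) = a by omega, (hz a h l hl).1, (hy _ hi).1] at e
    exact Sum.inl.inj e
  have inSP : ∀ i, ∀ q ∈ SV C tc tl i, q ∈ U → Sum.inl q ∈ SP U (SV C tc tl) P ν y i :=
    fun i q hq hu => inl_mem_disjSum.2 (mem_inter.2 ⟨hq, hu⟩)
  -- the two special stars are disjoint
  have hAL : ∀ a < n, ∀ l ∈ A a, ∀ m ∈ L a, bk P ν (x a) l ≠ z a ∧ bk P ν (z a) m ≠ x a ∧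
      bk P ν (x a) l ≠ bk P ν (z a) m ∧ x a ≠ z a := by
    intro a h l hl m hm
    obtain ⟨-, -, -, -, -, h1, h2, h3, h4⟩ := O.o3 a h m hm
    rw [(hz a h m hm).1] at h1 h2
    rw [(hx a h).1] at h1 h3
    refine ⟨fun e => h2 ?_, fun e => h3 ?_, fun e => h4 ?_, fun e => h1 (by rw [e])⟩
    · rw [← e, ← (okA a h l hl).inl hU (e ▸ (hz a h m hm).2)]
      exact hl
    · rw [← e]
      exact (okL a h m hm).inl hU (e ▸ (hx a h).2)
    · rcases (okL a h m hm).cs with ⟨p, q⟩ | ⟨p, q⟩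
      · rw [q, ← e, ← (okA a h l hl).inl hU (e ▸ p)]
        exact hl
      · have hi := O.ph a h m hm (by rw [q]; exact hPh _ (N.lt _ (hz a h m hm).2 _ p))
        rcases (okA a h l hl).cs with ⟨p', -⟩ | ⟨p', q'⟩
        · exact absurd (e ▸ p') (hU _ _ p)
        · have e1 := topx a h hi
          have e2 := topz a h hi m hm
          have e3 := (N.pr _ hi _ (e1 ▸ p') _ (e2 ▸ p)).2 (by rw [← e1, ← e2]; exact e)
          rw [← e1, ← e2] at e3
          rw [q, ← e3, ← q']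
          exact hl
  -- the special stars avoid the others
  have hAS : ∀ a < n, n - 1 - a < t → ∀ q ∈ SV C tc tl (n - 1 - a), ∀ l ∈ A a,
      q ≠ x a ∧ q ≠ bk P ν (x a) l := by
    intro a h hi q hq l hl
    refine ⟨fun e => (O.o9 a h _ (inSP _ q hq (e ▸ (hx a h).2))).1 (by rw [(hx a h).1, e]),
      fun e => ?_⟩
    rcases (okA a h l hl).cs with ⟨p, r⟩ | ⟨p, -⟩
    · exact (O.o9 a h _ (inSP _ q hq (e ▸ p))).2.2.1 (by rw [e, ← r]; exact hl)
    · rw [← e, topx a h (by omega)] at p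
      exact cf _ hi q hq p
  have hLS : ∀ a < n, n - 1 - a < t → ∀ q ∈ SV C tc tl (n - 1 - a), ∀ l ∈ L a,
      q ≠ z a ∧ q ≠ bk P ν (z a) l := by
    intro a h hi q hq l hl
    refine ⟨fun e => (O.o9 a h _ (inSP _ q hq (e ▸ (hz a h l hl).2))).2.1
      (by rw [(hz a h l hl).1, e]), fun e => ?_⟩
    rcases (okL a h l hl).cs with ⟨p, r⟩ | ⟨p, r⟩
    · exact (O.o9 a h _ (inSP _ q hq (e ▸ p))).2.2.2 (by rw [e, ← r]; exact hl)
    · rw [← e, topz a h (by omega) l hl] at p r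
      refine (O.o9 a h l ?_).2.2.2 hl
      rw [r]
      exact inr_mem_disjSum.2 (mem_image_of_mem _ (mem_inter.2 ⟨p, hq⟩))
  obtain ⟨tf, htf, ctf⟩ : ∃ tf : ℕ → ℕ → Finset V,
      (∀ i, ∀ α < K, ∀ v ∈ tf i α, i < t ∧ (i, α) ∈ C ∧ v ∈ tl (i, α)) ∧
      ∀ i, ∀ α < K, (tf i α).card = if i < t then sz (i, α) else 0 := by
    have hC : ∀ i < t, ∀ α < K, (i, α) ∈ C := fun i hi α hα => by
      rw [eC]
      exact mem_product.2 ⟨mem_range.2 hi, mem_range.2 hα⟩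
    refine ⟨fun i α => if i < t then tl (i, α) else ∅, fun i α hα v hv => ?_, fun i α hα => ?_⟩
    · by_cases hi : i < t
      · exact ⟨hi, hC i hi α hα, by simpa [hi] using hv⟩
      · simp [hi] at hv
    · by_cases hi : i < t
      · simpa [hi] using ts.cd _ (hC i hi α hα)
      · simp [hi]
  refine ha V G n (K + 2) (fun a => arm (x a) (z a) fun α => tc (n - 1 - a, α))
    (fun a => arm ((A a).image (bk P ν (x a))) ((L a).image (bk P ν (z a))) (tf (n - 1 - a)))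
    hE ?_ ?_ ?_ ?_ ?_
  · intro a h α hα v hv
    rcases α with _ | _ | α
    · obtain ⟨l, hl, rfl⟩ := mem_image.1 hv
      exact (okA a h l hl).adj
    · obtain ⟨l, hl, rfl⟩ := mem_image.1 hv
      exact (okL a h l hl).adj
    · obtain ⟨-, h1, h2⟩ := htf _ α (by omega) v hv
      exact ts.adj _ h1 v h2
  · intro a h α hα β hβ v hv w hw
    rcases α with _ | _ | α <;> rcases β with _ | _ | β
    · obtain ⟨l, hl, rfl⟩ := mem_image.1 hv
      exact ⟨(okA a h l hl).adj.ne', fun e => absurd rfl e⟩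
    · obtain ⟨l, hl, rfl⟩ := mem_image.1 hv
      obtain ⟨m, hm, rfl⟩ := mem_image.1 hw
      obtain ⟨p, -, q, r⟩ := hAL a h l hl m hm
      exact ⟨p, fun _ => ⟨q, r⟩⟩
    · obtain ⟨l, hl, rfl⟩ := mem_image.1 hv
      obtain ⟨hi, h1, h2⟩ := htf _ β (by omega) w hw
      obtain ⟨p, q⟩ := mem_SV h1 h2
      exact ⟨(hAS a h hi _ p l hl).2.symm,
        fun _ => ⟨(hAS a h hi _ q l hl).2.symm, (hAS a h hi _ p l hl).1.symm⟩⟩
    · obtain ⟨l, hl, rfl⟩ := mem_image.1 hw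
      obtain ⟨m, hm, rfl⟩ := mem_image.1 hv
      obtain ⟨-, p, q, r⟩ := hAL a h l hl m hm
      exact ⟨p, fun _ => ⟨q.symm, r.symm⟩⟩
    · obtain ⟨l, hl, rfl⟩ := mem_image.1 hv
      exact ⟨(okL a h l hl).adj.ne', fun e => absurd rfl e⟩
    · obtain ⟨l, hl, rfl⟩ := mem_image.1 hv
      obtain ⟨hi, h1, h2⟩ := htf _ β (by omega) w hw
      obtain ⟨p, q⟩ := mem_SV h1 h2
      exact ⟨(hLS a h hi _ p l hl).2.symm,
        fun _ => ⟨(hLS a h hi _ q l hl).2.symm, (hLS a h hi _ p l hl).1.symm⟩⟩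
    · obtain ⟨l, hl, rfl⟩ := mem_image.1 hw
      obtain ⟨hi, h1, h2⟩ := htf _ α (by omega) v hv
      obtain ⟨p, q⟩ := mem_SV h1 h2
      exact ⟨(hAS a h hi _ q l hl).1,
        fun _ => ⟨(hAS a h hi _ q l hl).2, (hAS a h hi _ p l hl).1⟩⟩
    · obtain ⟨l, hl, rfl⟩ := mem_image.1 hw
      obtain ⟨hi, h1, h2⟩ := htf _ α (by omega) v hv
      obtain ⟨p, q⟩ := mem_SV h1 h2
      exact ⟨(hLS a h hi _ q l hl).1,
        fun _ => ⟨(hLS a h hi _ q l hl).2, (hLS a h hi _ p l hl).1⟩⟩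
    · obtain ⟨-, h1, h2⟩ := htf _ α (by omega) v hv
      obtain ⟨-, h3, h4⟩ := htf _ β (by omega) w hw
      obtain ⟨p, q⟩ := ts.vd _ h1 _ h3 rfl v h2 w h4
      exact ⟨p, fun e => q fun e' => e (by rw [(Prod.mk.inj e').2])⟩
  · intro a h
    rw [sum_range_succ', sum_range_succ']
    have e : ∑ α ∈ range K, (tf (n - 1 - a) α).card = min g (t - (n - 1 - a)) := by
      rw [sum_congr rfl fun α hα => ctf _ α (mem_range.1 hα)]
      by_cases hi : n - 1 - a < t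
      · simp only [hi, if_true]
        exact s1 _
      · simp [hi, Nat.sub_eq_zero_of_le (not_lt.1 hi)]
    have := O.o4 a h
    change ∑ α ∈ range K, (tf (n - 1 - a) α).card + ((L a).image (bk P ν (z a))).card +
      ((A a).image (bk P ν (x a))).card = a + 1
    rw [e, card_bk hU (okA a h), card_bk hU (okL a h)]
    omega
  · intro a h α hα
    rcases α with _ | _ | α
    · change ((A a).image (bk P ν (x a))).card ≤ ((A (a + 1)).image (bk P ν (x (a + 1)))).card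
      rw [card_bk hU (okA a (by omega)), card_bk hU (okA _ h)]
      exact (O.o5 a h).1
    · change ((L a).image (bk P ν (z a))).card ≤ ((L (a + 1)).image (bk P ν (z (a + 1)))).card
      rw [card_bk hU (okL a (by omega)), card_bk hU (okL _ h)]
      exact (O.o5 a h).2
    · change (tf (n - 1 - a) α).card ≤ (tf (n - 1 - (a + 1)) α).card
      rw [ctf _ α (by omega), ctf _ α (by omega),
        show n - 1 - a = n - 1 - (a + 1) + 1 by omega]
      split_ifs with h1 h2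
      · exact s2 _ _
      · omega
      · exact Nat.zero_le _
      · exact le_rfl
  · intro a h b h' α hα β hβ v hv w hw e
    rcases α with _ | _ | α <;> rcases β with _ | _ | β
    · obtain ⟨l, hl, rfl⟩ := mem_image.1 hv
      obtain ⟨m, hm, rfl⟩ := mem_image.1 hw
      refine O.o6 a h b h' l hl m hm ?_
      rw [(hx a h).1, (hx b h').1]
      exact (okA a h l hl).edge hU (okA b h' m hm) e
    · obtain ⟨l, hl, rfl⟩ := mem_image.1 hv
      obtain ⟨m, hm, rfl⟩ := mem_image.1 hw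
      refine absurd ?_ (O.o7 a h b h' l hl m hm)
      rw [(hx a h).1, (hz b h' m hm).1]
      exact (okA a h l hl).edge hU (okL b h' m hm) e
    · obtain ⟨l, hl, rfl⟩ := mem_image.1 hv
      obtain ⟨-, h1, h2⟩ := htf _ β (by omega) w hw
      exact absurd (te_of h1 h2 e) (okA a h l hl).nt
    · obtain ⟨l, hl, rfl⟩ := mem_image.1 hv
      obtain ⟨m, hm, rfl⟩ := mem_image.1 hw
      refine absurd ?_ (O.o7 b h' a h m hm l hl)
      rw [(hx b h').1, (hz a h l hl).1]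
      exact (okA b h' m hm).edge hU (okL a h l hl) e.symm
    · obtain ⟨l, hl, rfl⟩ := mem_image.1 hv
      obtain ⟨m, hm, rfl⟩ := mem_image.1 hw
      refine O.o8 a h b h' l hl m hm ?_
      rw [(hz a h l hl).1, (hz b h' m hm).1]
      exact (okL a h l hl).edge hU (okL b h' m hm) e
    · obtain ⟨l, hl, rfl⟩ := mem_image.1 hv
      obtain ⟨-, h1, h2⟩ := htf _ β (by omega) w hw
      exact absurd (te_of h1 h2 e) (okL a h l hl).nt
    · obtain ⟨l, hl, rfl⟩ := mem_image.1 hw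
      obtain ⟨-, h1, h2⟩ := htf _ α (by omega) v hv
      exact absurd (te_of h1 h2 e.symm) (okA b h' l hl).nt
    · obtain ⟨l, hl, rfl⟩ := mem_image.1 hw
      obtain ⟨-, h1, h2⟩ := htf _ α (by omega) v hv
      exact absurd (te_of h1 h2 e.symm) (okL b h' l hl).nt
    · obtain ⟨-, h1, h2⟩ := htf _ α (by omega) v hv
      obtain ⟨-, h3, h4⟩ := htf _ β (by omega) w hw
      have := (Prod.mk.inj (ts.ed _ h1 _ h3 v h2 w h4 e)).1
      omega

end Un

theorem un (ha : AsmS) : UnS := by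
  intro V _ _ G _ n r c x K g o U W e op C sz tc tl ν Ph y' u' x' z' A L F N hPh hy O
  refine Un.core ha F.hE F.eC ?_ (fun c w hw h => ?_) (fun c w hw => (mem_filter.1 hw).2) F.ts
    F.s1 F.s2 F.cf N hPh hy O
  · have := F.n1
    omega
  · exact disjoint_left.1 F.dj h (mem_filter.1 hw).1

end Pool.Agent.MP_f65396_co.h81n
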