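import Pool.Agent.MP_f65396_co.h81n.Wire
import Pool.Agent.MP_f65396_co.h81n.Join
import Pool.Agent.MP_f65396_co.h81n.Asm
import Pool.Agent.MP_f65396_co.h81n.Core
import Pool.Agent.MP_f65396_co.h81n.Place
import Pool.Agent.MP_f65396_co.h81n.Lift
import Pool.Agent.MP_f65396_co.h81n.Mom
import Pool.Agent.MP_f65396_co.h81n.Num
import Pool.Agent.MP_f65396_co.h81n.Leaf
import Pool.Agent.MP_f65396_co.h81n.Fill
import Pool.Agent.MP_f65396_co.h81n.Struct
import Pool.Agent.MP_f65396_co.h81n.Count
import Pool.Agent.MP_f65396_co.h81n.Jsel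
import Pool.Agent.MP_f65396_co.h81n.Top0
import Pool.Agent.MP_f65396_co.h81n.Gap
import Pool.Agent.MP_f65396_co.h81n.Top
import Pool.Agent.MP_f65396_co.h81n.Rest
import Pool.Agent.MP_f65396_co.h81n.Mid
import Pool.Agent.MP_f65396_co.h81n.Ft
import Pool.Agent.MP_f65396_co.h81n.Fn
import Pool.Agent.MP_f65396_co.h81n.Dat
import Pool.Agent.MP_f65396_co.h81n.Sum
import Pool.Agent.MP_f65396_co.h81n.Un

/-! All graphs with many edges decompose into ascending star forests. -/

set_option autoImplicit false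

namespace Pool.Agent.MP_f65396_co.h81n

open Pool.Agent.MP_f65396_co.h15n (Dec0 greedy)

theorem near : NearS :=
  wire struct count (jsel greedy) pa (top0 greedy leaf) (top mom num gap) rest
    (mid chunk (single greedy)) (t2 (fill leaf)) ft fn name dat sumS
    (lift (place h15l.blks) core) (un asm)

theorem main : ∃ n0 : ℕ, ∀ (V : Type) [Fintype V] (G : SimpleGraph V) (n : ℕ),
    n0 ≤ n → G.edgeSet.ncard = n * (n + 1) / 2 → Dec0 G n :=
  join near

end Pool.Agent.MP_f65396_co.h81n
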