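import Pool.Agent.MP_f65396_co.h81n.SpecB

/-! Gluing of star families and the chunks of the heavy vertices. -/

set_option autoImplicit false

namespace Pool.Agent.MP_f65396_co.h81n

open Finset

theorem mid_glue {V : Type} {G : SimpleGraph V} {C1 C2 : Finset (ℕ × ℕ)} {sz : ℕ × ℕ → ℕ}
    {tc1 tc2 : ℕ × ℕ → V} {tl1 tl2 : ℕ × ℕ → Finset V} (h1 : TS G C1 sz tc1 tl1)
    (h2 : TS G C2 sz tc2 tl2) (hd : ∀ x ∈ C2, x ∉ C1)
    (hv : ∀ x ∈ C1, ∀ y ∈ C2, x.1 = y.1 → ∀ v ∈ tl1 x, ∀ w ∈ tl2 y,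
      v ≠ tc2 y ∧ w ≠ tc1 x ∧ v ≠ w ∧ tc1 x ≠ tc2 y)
    (he : ∀ x ∈ C1, ∀ y ∈ C2, ∀ v ∈ tl1 x, ∀ w ∈ tl2 y, s(tc1 x, v) ≠ s(tc2 y, w)) :
    ∃ tc tl, TS G (C1 ∪ C2) sz tc tl ∧ (∀ x ∈ C1, tc x = tc1 x ∧ tl x = tl1 x) ∧
      ∀ x ∈ C2, tc x = tc2 x ∧ tl x = tl2 x := by
  obtain ⟨tc, tl, e1, e2⟩ : ∃ (tc : ℕ × ℕ → V) (tl : ℕ × ℕ → Finset V),
      (∀ x ∈ C1, tc x = tc1 x ∧ tl x = tl1 x) ∧ ∀ x ∈ C2, tc x = tc2 x ∧ tl x = tl2 x :=
    ⟨fun x => if x ∈ C1 then tc1 x else tc2 x, fun x => if x ∈ C1 then tl1 x else tl2 x,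
      fun x hx => ⟨if_pos hx, if_pos hx⟩, fun x hx => ⟨if_neg (hd x hx), if_neg (hd x hx)⟩⟩
  refine ⟨tc, tl, ⟨?_, ?_, ?_, ?_⟩, e1, e2⟩
  · intro x hx v hv'
    rcases mem_union.1 hx with h | h
    · rw [(e1 x h).1]; rw [(e1 x h).2] at hv'; exact h1.adj x h v hv'
    · rw [(e2 x h).1]; rw [(e2 x h).2] at hv'; exact h2.adj x h v hv'
  · intro x hx
    rcases mem_union.1 hx with h | h
    · rw [(e1 x h).2]; exact h1.cd x h
    · rw [(e2 x h).2]; exact h2.cd x h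
  · intro x hx y hy hxy v hv' w hw
    rcases mem_union.1 hx with h | h <;> rcases mem_union.1 hy with h' | h'
    · rw [(e1 x h).1, (e1 y h').1]; rw [(e1 x h).2] at hv'; rw [(e1 y h').2] at hw
      exact h1.vd x h y h' hxy v hv' w hw
    · rw [(e1 x h).1, (e2 y h').1]; rw [(e1 x h).2] at hv'; rw [(e2 y h').2] at hw
      obtain ⟨a1, _, a3, a4⟩ := hv x h y h' hxy v hv' w hw
      exact ⟨a1, fun _ => ⟨a3, a4⟩⟩
    · rw [(e2 x h).1, (e1 y h').1]; rw [(e2 x h).2] at hv'; rw [(e1 y h').2] at hw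
      obtain ⟨_, a2, a3, a4⟩ := hv y h' x h hxy.symm w hw v hv'
      exact ⟨a2, fun _ => ⟨a3.symm, a4.symm⟩⟩
    · rw [(e2 x h).1, (e2 y h').1]; rw [(e2 x h).2] at hv'; rw [(e2 y h').2] at hw
      exact h2.vd x h y h' hxy v hv' w hw
  · intro x hx y hy v hv' w hw
    rcases mem_union.1 hx with h | h <;> rcases mem_union.1 hy with h' | h'
    · rw [(e1 x h).1, (e1 y h').1]; rw [(e1 x h).2] at hv'; rw [(e1 y h').2] at hw
      exact h1.ed x h y h' v hv' w hw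
    · rw [(e1 x h).1, (e2 y h').1]; rw [(e1 x h).2] at hv'; rw [(e2 y h').2] at hw
      exact fun e => absurd e (he x h y h' v hv' w hw)
    · rw [(e2 x h).1, (e1 y h').1]; rw [(e2 x h).2] at hv'; rw [(e1 y h').2] at hw
      exact fun e => absurd e.symm (he y h' x h w hw v hv')
    · rw [(e2 x h).1, (e2 y h').1]; rw [(e2 x h).2] at hv'; rw [(e2 y h').2] at hw
      exact h2.ed x h y h' v hv' w hw

theorem mid_te_mono {V : Type} {C C' : Finset (ℕ × ℕ)} {tc tc' : ℕ × ℕ → V}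
    {tl tl' : ℕ × ℕ → Finset V} (hs : ∀ x ∈ C, x ∈ C')
    (he : ∀ x ∈ C, tc' x = tc x ∧ tl' x = tl x) {a b : V} (h : TE C tc tl a b) :
    TE C' tc' tl' a b := by
  obtain ⟨x, hx, h⟩ := h
  refine ⟨x, hs x hx, ?_⟩
  rw [(he x hx).1, (he x hx).2]
  exact h

theorem mid_te_symm {V : Type} {C : Finset (ℕ × ℕ)} {tc : ℕ × ℕ → V}
    {tl : ℕ × ℕ → Finset V} {a b : V} (h : TE C tc tl a b) : TE C tc tl b a := by
  obtain ⟨x, hx, h⟩ := h
  exact ⟨x, hx, h.symm⟩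

theorem mid_chunk (hc : ChunkS) {V : Type} [Fintype V] [DecidableEq V] {G : SimpleGraph V}
    [DecidableRel G.Adj] {n r : ℕ} {U W X Y Z : Finset V} {Es : Finset (V × V)} {yv : ℕ → V}
    {σ0 σ1 ny : ℕ} {ar : ℕ → ℕ} {C0 : Finset (ℕ × ℕ)} {tc0 : ℕ × ℕ → V}
    {tl0 : ℕ × ℕ → Finset V} (hb : Bs G n r U W X Y)
    (hp : Pa G r W Y (Z \ Y) Es yv σ0 σ1 ny ar)
    (h0 : T0 G r W (Z \ Y) Es yv σ0 σ1 ny ar C0 tc0 tl0) (bz : V → Finset ℕ)
    (hbz : ∀ v, (bz v).card ≤ 200 * (10 ^ 8 * r)) :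
    ∃ C tc tl, TS G (C0 ∪ C) (fun x => ar x.2) tc tl ∧
      (∀ x ∈ C0, tc x = tc0 x ∧ tl x = tl0 x) ∧
      (∀ x ∈ C, 300 * r ≤ x.1 ∧ x.1 < 10 ^ 13 * r - (σ0 + 5 * σ1) ∧ σ0 + σ1 ≤ x.2 ∧
        x.2 < σ0 + σ1 + ny ∧ tc x ∈ Y ∧ tl x ⊆ W ∧ ∀ w ∈ tl x, x.1 ∉ bz w) ∧
      ((Y ×ˢ W).filter (fun p => G.Adj p.1 p.2 ∧ ¬ TE (C0 ∪ C) tc tl p.1 p.2)).card ≤
        2 * (σ0 + 5 * σ1) ∧
      ∀ v, (C.filter (fun x => v = tc x ∨ v ∈ tl x)).card ≤ 10 ^ 11 * r + 6 * r := by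
  have r1 := hb.r1
  have s5 := hp.s5
  have s6 := hp.s6
  have hny : ny ≤ r := by rw [hp.ey]; exact hb.c5
  have hY : ∀ v ∈ Y, v ∉ W := fun v hv => disjoint_left.1 hb.dj ((hb.mY v).1 hv).1
  obtain ⟨s, hs⟩ : ∃ s, s = σ0 + σ1 := ⟨_, rfl⟩
  have a1 := hp.a1
  have a2 := hp.a2
  have s7 := hp.s7
  have cl := h0.cl
  have ya := h0.ya
  rw [← hs] at a1 a2 s7 cl ya ⊢
  obtain ⟨Nk, hN1, hN2⟩ : ∃ Nk : ℕ → Finset V, (∀ α < s, Nk α = ∅) ∧ ∀ α, s ≤ α →
      Nk α = W.filter (G.Adj (yv (α - s))) \ (C0.filter (fun x => x.2 = α)).biUnion tl0 :=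
    ⟨fun α => if α < s then ∅ else
      W.filter (G.Adj (yv (α - s))) \ (C0.filter (fun x => x.2 = α)).biUnion tl0,
      fun α h => if_pos h, fun α h => if_neg (by omega)⟩
  have har : ∀ α < s + ny, 1 ≤ ar α ∧ (Nk α).card < 10 ^ 11 * r * ar α := by
    intro α hα
    rcases Nat.lt_or_ge α s with h | h
    · rw [a1 α h, hN1 α h, card_empty]; omega
    · obtain ⟨k, rfl⟩ := Nat.exists_eq_add_of_le h
      rw [a2 k (by omega), hN2 _ h, Nat.add_sub_cancel_left]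
      have h1 : dW G W (yv k) < 10 ^ 11 * r * (dW G W (yv k) / (10 ^ 11 * r) + 1) :=
        Nat.lt_mul_div_succ _ (by omega)
      generalize dW G W (yv k) / (10 ^ 11 * r) = d at h1
      refine ⟨by omega, lt_of_le_of_lt (card_le_card sdiff_subset) ?_⟩
      exact lt_of_lt_of_le h1 (Nat.mul_le_mul_left _ (by omega))
  obtain ⟨C, tlc, c1, c2, c3⟩ := hc V (s + ny) (300 * r) (10 ^ 13 * r - (σ0 + 5 * σ1))
    (200 * (10 ^ 8 * r)) Nk ar bz hbz
    (fun v => le_trans (card_filter_le _ _) (by rw [card_range]; omega))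
    (fun α hα => by
      have h1 : 10 ^ 11 * r + 4 * (200 * (10 ^ 8 * r)) ≤
        10 ^ 13 * r - (σ0 + 5 * σ1) - 300 * r := by omega
      have h2 := Nat.mul_le_mul_right (ar α) h1
      rw [Nat.add_mul] at h2
      exact lt_of_lt_of_le (Nat.add_lt_add_right (har α hα).2 _) h2)
  have hge : ∀ x ∈ C, s ≤ x.2 := by
    intro x hx
    by_contra h
    obtain ⟨_, _, b3, b4, b5, _⟩ := c1 x hx
    rw [hN1 _ (by omega), subset_empty] at b4
    rw [b4, card_empty] at b5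
    have := (har _ b3).1
    omega
  have hm : ∀ x ∈ C, ∀ w ∈ tlc x, w ∈ W ∧ G.Adj (yv (x.2 - s)) w ∧
      ∀ z ∈ C0, z.2 = x.2 → w ∉ tl0 z := by
    intro x hx w hw
    have h1 := (c1 x hx).2.2.2.1 hw
    rw [hN2 _ (hge x hx), mem_sdiff, mem_filter] at h1
    exact ⟨h1.1.1, h1.1.2, fun z hz e h => h1.2 (mem_biUnion.2 ⟨z, mem_filter.2 ⟨hz, e⟩, h⟩)⟩
  have hyY : ∀ α, s ≤ α → α < s + ny → yv (α - s) ∈ Y := fun α h1 h2 => hp.ym _ (by omega)
  have hyi : ∀ α, s ≤ α → α < s + ny → ∀ β, s ≤ β → β < s + ny →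
      yv (α - s) = yv (β - s) → α = β := fun α h1 h2 β h3 h4 e => by
    have := hp.yi _ (by omega) _ (by omega) e
    omega
  have hcY : ∀ x ∈ C, yv (x.2 - s) ∈ Y := fun x hx => hyY _ (hge x hx) (c1 x hx).2.2.1
  have ts : TS G C (fun x => ar x.2) (fun x => yv (x.2 - s)) tlc := by
    refine ⟨fun x hx v hv => (hm x hx v hv).2.1, fun x hx => (c1 x hx).2.2.2.2.1, ?_, ?_⟩
    · intro x hx y hy hxy v hv w hw
      refine ⟨fun e => hY _ (hcY y hy) (e ▸ (hm x hx v hv).1), fun hne => ⟨fun e => ?_, fun e => ?_⟩⟩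
      · exact disjoint_left.1 (c2 x hx y hy hne (Or.inl hxy)) hv (e ▸ hw)
      · exact hne (Prod.ext hxy (hyi _ (hge x hx) (c1 x hx).2.2.1 _ (hge y hy) (c1 y hy).2.2.1 e))
    · intro x hx y hy v hv w hw e
      rcases Sym2.eq_iff.1 e with ⟨e1, e2⟩ | ⟨e1, _⟩
      · by_contra hne
        exact disjoint_left.1 (c2 x hx y hy hne (Or.inr
          (hyi _ (hge x hx) (c1 x hx).2.2.1 _ (hge y hy) (c1 y hy).2.2.1 e1))) hv (e2 ▸ hw)
      · exact absurd (e1 ▸ (hm y hy w hw).1) (hY _ (hcY x hx))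
  obtain ⟨tc, tl, ts', e1, e2⟩ := mid_glue h0.ts ts
    (fun x hx h => by
      have := ((cl x).1 h).1
      have := (c1 x hx).1
      omega)
    (fun x hx y hy e => by
      have := ((cl x).1 hx).1
      have := (c1 y hy).1
      omega)
    (fun x hx y hy v hv w hw e => by
      have hyy := hcY y hy
      rcases ((cl x).1 hx).2 with h | h
      · obtain ⟨p, hpE, p1, p2⟩ := h0.sg x hx h.1
        rw [p2, mem_singleton] at hv
        obtain ⟨_, m2, m3⟩ := hp.mem p hpE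
        rcases Sym2.eq_iff.1 e with ⟨e1, _⟩ | ⟨_, e2⟩
        · rw [← e1, p1] at hyy
          rcases m3 with m3 | m3
          · exact hY _ hyy m3
          · exact (mem_sdiff.1 m3).2 hyy
        · rw [← e2, hv] at hyy
          exact hY _ hyy m2
      · obtain ⟨y1, y2⟩ := ya x hx h.1
        rcases Sym2.eq_iff.1 e with ⟨e1, e2⟩ | ⟨_, e2⟩
        · rw [y1] at e1
          exact (hm y hy w hw).2.2 x hx
            (hyi _ h.1 h.2 _ (hge y hy) (c1 y hy).2.2.1 e1) (e2 ▸ hv)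
        · rw [← e2] at hyy
          exact hY _ hyy (y2 hv))
  refine ⟨C, tc, tl, ts', e1, fun x hx => ?_, ?_, fun v => ?_⟩
  · obtain ⟨b1, b2, b3, _, _, b6⟩ := c1 x hx
    rw [(e2 x hx).1, (e2 x hx).2]
    exact ⟨b1, b2, hge x hx, b3, hcY x hx, fun w hw => (hm x hx w hw).1, b6⟩
  · have hsub : (Y ×ˢ W).filter (fun p => G.Adj p.1 p.2 ∧ ¬ TE (C0 ∪ C) tc tl p.1 p.2) ⊆
        (range (s + ny)).biUnion (fun α => ({yv (α - s)} : Finset V) ×ˢ
          (Nk α \ (C.filter (fun x => x.2 = α)).biUnion tlc)) := by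
      intro p hp'
      obtain ⟨h1, h2, h3⟩ := mem_filter.1 hp'
      obtain ⟨h4, h5⟩ := mem_product.1 h1
      obtain ⟨k, hk, ek⟩ := hp.yc _ h4
      have es : yv (s + k - s) = p.1 := by rw [Nat.add_sub_cancel_left]; exact ek
      refine mem_biUnion.2 ⟨s + k, mem_range.2 (by omega), mem_product.2
        ⟨mem_singleton.2 es.symm, mem_sdiff.2 ⟨?_, fun h => ?_⟩⟩⟩
      · rw [hN2 _ (by omega), es]
        refine mem_sdiff.2 ⟨mem_filter.2 ⟨h5, h2⟩, fun h => ?_⟩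
        obtain ⟨z, hz, hz'⟩ := mem_biUnion.1 h
        obtain ⟨z1, z2⟩ := mem_filter.1 hz
        refine h3 ⟨z, mem_union_left _ z1, Or.inl ⟨?_, ?_⟩⟩
        · rw [(e1 z z1).1, (ya z z1 (by omega)).1, z2, es]
        · rw [(e1 z z1).2]; exact hz'
      · obtain ⟨z, hz, hz'⟩ := mem_biUnion.1 h
        obtain ⟨z1, z2⟩ := mem_filter.1 hz
        refine h3 ⟨z, mem_union_right _ z1, Or.inl ⟨?_, ?_⟩⟩
        · rw [(e2 z z1).1]
          show p.1 = yv (z.2 - s)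
          rw [z2, es]
        · rw [(e2 z z1).2]; exact hz'
    refine le_trans (card_le_card hsub) (le_trans card_biUnion_le ?_)
    rw [← s7, mul_sum]
    refine sum_le_sum fun α hα => ?_
    rw [card_product, card_singleton, one_mul]
    exact c3 α (mem_range.1 hα)
  · rw [filter_or]
    refine le_trans (card_union_le _ _) (Nat.add_le_add ?_ ?_)
    · rcases (C.filter (fun x => v = tc x)).eq_empty_or_nonempty with h | ⟨x0, h⟩
      · rw [h, card_empty]; exact Nat.zero_le _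
      · obtain ⟨x1, x2⟩ := mem_filter.1 h
        have hk : ∀ x ∈ C.filter (fun x => v = tc x), x ∈ C ∧ x.2 = x0.2 := by
          intro x hx
          obtain ⟨z1, z2⟩ := mem_filter.1 hx
          refine ⟨z1, hyi _ (hge x z1) (c1 x z1).2.2.1 _ (hge x0 x1) (c1 x0 x1).2.2.1 ?_⟩
          rw [(e2 x z1).1] at z2
          rw [(e2 x0 x1).1] at x2
          exact z2.symm.trans x2
        generalize C.filter (fun x => v = tc x) = F at hk
        have h1 : (F.biUnion tlc).card = F.card * ar x0.2 := by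
          rw [card_biUnion (fun x hx y hy hne => c2 x (hk x hx).1 y (hk y hy).1 hne
            (Or.inr ((hk x hx).2.trans (hk y hy).2.symm)))]
          rw [sum_congr rfl (fun x hx => (c1 x (hk x hx).1).2.2.2.2.1.trans
            (congrArg ar (hk x hx).2)), sum_const, smul_eq_mul]
        have h2 : (F.biUnion tlc).card ≤ (Nk x0.2).card := card_le_card (biUnion_subset.2
          fun x hx => (hk x hx).2 ▸ (c1 x (hk x hx).1).2.2.2.1)
        have h3 := (har _ (c1 x0 x1).2.2.1).2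
        rw [h1] at h2
        exact le_of_lt (Nat.lt_of_mul_lt_mul_right (lt_of_le_of_lt h2 h3))
    · have h1 : (C.filter (fun x => v ∈ tl x)).card ≤ (range (s + ny)).card := by
        refine card_le_card_of_injOn (fun x => x.2) (fun x hx => ?_) (fun x hx y hy e => ?_)
        · exact mem_coe.2 (mem_range.2 (c1 x (mem_filter.1 (mem_coe.1 hx)).1).2.2.1)
        · obtain ⟨x1, x2⟩ := mem_filter.1 (mem_coe.1 hx)
          obtain ⟨y1, y2⟩ := mem_filter.1 (mem_coe.1 hy)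
          rw [(e2 x x1).2] at x2
          rw [(e2 y y1).2] at y2
          by_contra hne
          exact disjoint_left.1 (c2 x x1 y y1 hne (Or.inr e)) x2 y2
      rw [card_range] at h1
      omega

end Pool.Agent.MP_f65396_co.h81n
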