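import Pool.Agent.MP_f65396_co.h81n.SpecB

/-! The wiring of the steps for nearly complete graphs with many further vertices. -/

set_option autoImplicit false

namespace Pool.Agent.MP_f65396_co.h81n

open Finset
open Pool.Agent.MP_f65396_co.h15n (Dec0)

theorem finish (hname : NameS) (hdat : DatS) (hsum : SumS) (hlift : LiftS) (hun : UnS)
    {V : Type} [Fintype V] [DecidableEq V] (G : SimpleGraph V) [DecidableRel G.Adj]
    {n r c x K g o : ℕ} {U W : Finset V} {e : ℕ → V} {C : Finset (ℕ × ℕ)} {sz : ℕ × ℕ → ℕ}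
    {tc : ℕ × ℕ → V} {tl : ℕ × ℕ → Finset V} (F : Fn G n r c x K g o U W e C sz tc tl) :
    Dec0 G n := by
  classical
  have r1 := F.r1
  have n1 := F.n1
  have u1 := F.u1
  have u2 := F.u2
  have ec := F.ec
  have hx := F.hx
  have eo := F.eo
  obtain ⟨ν, hν⟩ := hname V (10 ^ 8 * r) (n / 10000) U (PP G W C tc tl)
    (fun k => e (x + 2 * c + k)) (fun k => e (o + k)) (fun k => e (o + 3 * (n / 10000) + k))
    (by omega) F.pq (fun i hi => ⟨F.mem _ (by omega), F.mem _ (by omega)⟩)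
    (fun k hk => F.mem _ (by omega))
    (fun i hi k hk => ⟨fun t => by
      have := F.inj _ (by omega) _ (by omega) t
      omega, fun t => by
      have := F.inj _ (by omega) _ (by omega) t
      omega, fun t => by
      have := F.inj _ (by omega) _ (by omega) t
      omega⟩)
    (fun k hk => ⟨fun l hl t => by
      have := F.inj _ (by omega) _ (by omega) t
      omega, fun i hi => ⟨fun t => by
      have := F.inj _ (by omega) _ (by omega) t
      omega, fun t => by
      have := F.inj _ (by omega) _ (by omega) t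
      omega⟩⟩)
  obtain ⟨s1, s2, s3, s4⟩ := hsum V G n r c x K g o U W e _ _ _ C sz tc tl ν F hν
  obtain ⟨x', z', A, L, O⟩ := hlift _ _ _ n c _ _ _ g _ _ _ _ s1 s2 s3 s4
    (hdat V G n r c x K g o U W e C sz tc tl ν F hν) (by omega) (by omega) (by omega) (by omega)
  refine hun V G n r c x K g o U W e _ C sz tc tl ν _ _ _ x' z' A L F hν
    (fun k hk => ⟨k, hk, if_pos hk⟩) (fun i _ => ⟨?_, ?_⟩) O
  · unfold eP
    rw [if_neg (by omega)]
    congr 2
    omega
  · unfold eP
    rw [if_neg (by omega)]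
    congr 2
    omega

theorem wire (hstruct : StructS) (hcount : CountS) (hj : JS) (hpa : PaS) (ht0 : T0S)
    (htop : TopS) (hrest : RestS) (hmid : MidS) (ht2 : T2S) (hft : FtS) (hfn : FnS)
    (hname : NameS) (hdat : DatS) (hsum : SumS) (hlift : LiftS) (hun : UnS) : NearS := by
  intro V _ _ G _ n S hE hn hS hU
  obtain ⟨U, W, N⟩ := hstruct V G n S hE hn hS hU
  generalize n / 10 ^ 24 = r at N
  obtain ⟨X, Y, B⟩ := hcount V G n r U W N
  obtain ⟨c, β, J, M, a, b, j⟩ := hj V G n r U W X Y B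
  have zu : X ∪ J ⊆ U := by
    intro v hv
    rcases mem_union.1 hv with t | t
    · exact ((B.mX v).1 t).1
    · rw [j.eJ] at t
      obtain ⟨k, k1, rfl⟩ := mem_image.1 t
      exact (mem_sdiff.1 (j.am k (mem_range.1 k1))).1
  obtain ⟨Es, yv, σ0, σ1, ny, ar, p⟩ := hpa V G n r U W X Y ((X ∪ J) \ Y) B
    (sdiff_subset.trans zu) j.two
  obtain ⟨C0, tc0, tl0, t0⟩ := ht0 V G n r U W X Y _ Es yv σ0 σ1 ny ar B
    (sdiff_subset_sdiff zu Subset.rfl) p
  obtain ⟨y, u, p3⟩ := htop V G n r c β U W X Y J M a b Es yv σ0 σ1 ny ar C0 tc0 tl0 B j p t0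
  obtain ⟨e, o, e4⟩ := hrest V G n r c β U W X Y J M a b y u B j p3.mem p3.inj
  have r1 := N.r1
  have n1 := N.n1
  have eo := e4.eo
  have nz : ∀ i < o + 6 * (n / 10000) + 2 * (10 ^ 13 * r), o ≤ i → e i ∈ U \ (X ∪ J) := by
    intro i hi h1
    refine mem_sdiff.2 ⟨e4.mem i hi, fun t => ?_⟩
    rcases mem_union.1 t with t | t
    · obtain ⟨k, k1, k2⟩ := (e4.ex _).1 t
      have := e4.inj k (by omega) i hi k2
      omega
    · rw [j.eJ] at t
      obtain ⟨k, k1, k2⟩ := mem_image.1 t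
      have k3 := mem_range.1 k1
      have := e4.inj (X.card + k) (by omega) i hi ((e4.ea k k3).trans k2)
      omega
  obtain ⟨C1, tc1, tl1, t1⟩ := hmid V G n r U W X Y (X ∪ J) Es yv (fun k => e (o + k))
    (fun k => e (o + 3 * (n / 10000) + k)) σ0 σ1 ny ar C0 tc0 tl0 B zu j.yJ p t0
    (fun i hi => ⟨nz _ (by omega) (by omega), nz _ (by omega) (by omega)⟩)
    (fun i hi k hk => ⟨fun t => by
      have := e4.inj _ (by omega) _ (by omega) t
      omega, fun t => by
      have := e4.inj _ (by omega) _ (by omega) t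
      omega⟩)
  obtain ⟨C, tc, tl, t2⟩ := ht2 V G n r c β o U W X Y J M a b y u e Es yv σ0 σ1 ny ar C0 C1 tc0 tc1
    tl0 tl1 B j p e4 t1
  exact finish hname hdat hsum hlift hun G
    (hfn V G n r c β o U W X Y J M a b y u e Es yv σ0 σ1 ny ar C0 C1 C tc0 tc1 tc tl0 tl1 tl
      B j p t0 e4 t1 t2
      (hft V G n r c β o U W X Y J M a b y u e Es yv σ0 σ1 ny ar C0 C1 C tc0 tc1 tc tl0 tl1 tl
        B j p t0 p3 e4 t1 t2))

end Pool.Agent.MP_f65396_co.h81n
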